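import Pool.Agent.LibPS.OneTwo

/-! # Two events with bounded levels: link systems and reduction to the connected case -/

namespace PatSturm

section
variable {X : Set Pt}

theorem conn_of_lev (hX : IsSub X) (hnp : NP X) (hlow : LowZ X) (hmin : Mini X) {x₀ : Pt}
    (hx₀ : x₀ ∈ X) (h : ∀ q, Lev x₀ q → q = 1) : Conn X := by
  intro g hg hs x hx y hy
  obtain ⟨e, he, hper⟩ := sat_lev hX hnp hlow hmin hx₀ hg hs
  have h1 := h e he
  subst h1
  obtain ⟨M, hM⟩ := hg
  obtain ⟨n, hn⟩ := hmin x hx y hy M
  rw [← hM _ (hX.inv x hx n) y hy hn, per_mul hX hper (n := n) (by simp) x hx]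

theorem Lev.base (hX : IsSub X) (hmin : Mini X) {x y : Pt} (hx : x ∈ X) (hy : y ∈ X) {q : ℕ}
    (h : Lev x q) : Lev y q := by
  obtain ⟨r, hr⟩ := exists_res hX hmin hx h
  obtain ⟨M, hM⟩ := hr.loc
  refine ⟨h.1, M, fun n n' ha => ?_⟩
  have h1 := hM _ (hX.inv y hy n) _ (hX.inv y hy n') ha
  rw [hr.eqv y hy, hr.eqv y hy] at h1
  have h2 := add_left_cancel h1
  apply (ZMod.intCast_zmod_eq_zero_iff_dvd _ q).1
  push_cast; rw [h2]; ring

/-- Two links in a connected system give a link system. -/
theorem exists_linksys (hX : IsSub X) (hnp : NP X) (hlow : LowZ X) (hconn : Conn X)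
    {a a' b b' : Pt} (ha : Lnk0 X a a') (hb : Lnk0 X b b') (hab : ¬ Sim a b) :
    ∃ (I : Type) (S : LinkSys X I), S.P S.i₀ = a := by
  classical
  have haX := ha.lnk.mx
  have hbX := hb.lnk.mx
  have hcase : ∀ x y, Lnk0 X x y → (x = a ∧ y = a') ∨ (x = b ∧ y = b') := by
    intro x y h
    rcases lnk0_three hX hnp hlow h ha hb with h | h | h
    · left; exact h
    · right; exact h
    · exact absurd (by rw [h.1]; exact Sim.refl b) hab
  have hlnk : ∀ x y, Lnk X x y → ∃ n : ℤ, (x = sh (-n) a ∧ y = sh (-n) a') ∨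
      (y = sh (-n) a ∧ x = sh (-n) a') ∨ (x = sh (-n) b ∧ y = sh (-n) b') ∨
      (y = sh (-n) b ∧ x = sh (-n) b') := by
    intro x y h
    obtain ⟨n, hn⟩ := lnk_shift_lnk0 hX h
    have hsh : ∀ u v : Pt, sh n u = v → u = sh (-n) v := by
      intro u v huv; rw [← huv, sh_sh]; simp
    refine ⟨n, ?_⟩
    rcases hn with hn | hn
    · rcases hcase _ _ hn with h' | h'
      · left; exact ⟨hsh _ _ h'.1, hsh _ _ h'.2⟩
      · right; right; left; exact ⟨hsh _ _ h'.1, hsh _ _ h'.2⟩
    · rcases hcase _ _ hn with h' | h'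
      · right; left; exact ⟨hsh _ _ h'.1, hsh _ _ h'.2⟩
      · right; right; right; exact ⟨hsh _ _ h'.1, hsh _ _ h'.2⟩
  by_cases hd : ∃ d : ℤ, (sh d a = b ∧ sh d a' = b') ∨ (sh d a = b' ∧ sh d a' = b)
  · -- one orbit of links
    obtain ⟨d, hd⟩ := hd
    have hd0 : d ≠ 0 := by
      rintro rfl
      rcases hd with h | h
      · rw [sh_zero] at h; exact hab (by rw [h.1]; exact Sim.refl b)
      · rw [sh_zero] at h
        have := ha.px; rw [h.1, hb.py] at this; simp at this
    have hdd : a d ≠ a' d := by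
      have e1 : sh d a 0 = a d := by simp
      have e2 : sh d a' 0 = a' d := by simp
      rw [← e1, ← e2]
      rcases hd with h | h
      · rw [h.1, h.2, hb.px, hb.py]; simp
      · rw [h.1, h.2, hb.px, hb.py]; simp
    have hD : ∀ i, a i ≠ a' i ↔ i = 0 ∨ i = d := by
      obtain ⟨D, hDc, hDi⟩ := Sim.card hX hnp hlow haX ha.lnk.my ha.lnk.sim
      have h0 : (0 : ℤ) ∈ D := (hDi 0).1 (by rw [ha.px, ha.py]; simp)
      have hd' : d ∈ D := (hDi d).1 hdd
      have hsub : ({0, d} : Finset ℤ) ⊆ D := by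
        intro i hi
        simp only [Finset.mem_insert, Finset.mem_singleton] at hi
        rcases hi with rfl | rfl <;> assumption
      have heq : ({0, d} : Finset ℤ) = D := Finset.eq_of_subset_of_card_le hsub (by
        rw [Finset.card_pair hd0.symm]; exact hDc)
      intro i
      rw [hDi, ← heq]; simp
    refine ⟨ℤ, {
      P := fun k => sh (-k) a
      M := fun k => sh (-k) a'
      mv := fun l k => l + k
      hP := fun i => hX.inv a haX _
      hM := fun i => hX.inv a' ha.lnk.my _
      mv_zero := fun i => zero_add i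
      mv_mv := fun k l i => by ring
      free := fun k i h => by linarith
      P_mv := fun k i => by rw [sh_sh]; congr 1; ring
      M_mv := fun k i => by rw [sh_sh]; congr 1; ring
      sat := ?_
      i₀ := 0
      i₁ := -d
      ne := by omega
      cut := fun i => by
        simp only [sh_apply, zero_add]
        rw [hD]; omega
      p0 := by simpa using ha.px }, by simp⟩
    intro g hg hcut x hx y hy
    apply hconn g hg _ x hx y hy
    intro x hx y hy hs
    apply lnk_sat hX hnp hlow g _ hx hy hs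
    intro x y hl
    have hbn : ∀ n : ℤ, g (sh (-n) b) = g (sh (-n) b') := by
      intro n
      have := hcut (n - d)
      have e1 : sh (-(n - d)) a = sh (-n) (sh d a) := by rw [sh_sh]; congr 1; ring
      have e2 : sh (-(n - d)) a' = sh (-n) (sh d a') := by rw [sh_sh]; congr 1; ring
      rw [e1, e2] at this
      rcases hd with h | h
      · rwa [h.1, h.2] at this
      · rw [h.1, h.2] at this; exact this.symm
    obtain ⟨n, h | h | h | h⟩ := hlnk x y hl
    · rw [h.1, h.2]; exact hcut n
    · rw [h.1, h.2]; exact (hcut n).symm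
    · rw [h.1, h.2]; exact hbn n
    · rw [h.1, h.2]; exact (hbn n).symm
  · -- two orbits of links
    push Not at hd
    have hDa : ∀ i, a i ≠ a' i ↔ i = 0 := by
      intro i
      constructor
      · intro hi
        by_contra hi0
        have h0 : sh i a 0 ≠ sh i a' 0 := by simpa [sh] using hi
        rcases lnk0_of (ha.lnk.shift hX i) h0 with h | h
        · rcases hcase _ _ h with h' | h'
          · exact not_sim_shift hX hnp haX hi0 (by rw [h'.1]; exact Sim.refl a)
          · exact (hd i).1 h'.1 h'.2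
        · rcases hcase _ _ h with h' | h'
          · apply not_sim_shift hX hnp haX hi0
            rw [h'.2]; exact ha.lnk.sim
          · exact (hd i).2 h'.2 h'.1
      · rintro rfl; rw [ha.px, ha.py]; simp
    have hDb : ∀ i, b i ≠ b' i ↔ i = 0 := by
      intro i
      constructor
      · intro hi
        by_contra hi0
        have h0 : sh i b 0 ≠ sh i b' 0 := by simpa [sh] using hi
        have hsh : ∀ u v : Pt, sh i u = v → sh (-i) v = u := by
          intro u v huv; rw [← huv, sh_sh]; simp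
        rcases lnk0_of (hb.lnk.shift hX i) h0 with h | h
        · rcases hcase _ _ h with h' | h'
          · exact (hd (-i)).1 (hsh _ _ h'.1) (hsh _ _ h'.2)
          · exact not_sim_shift hX hnp hbX hi0 (by rw [h'.1]; exact Sim.refl b)
        · rcases hcase _ _ h with h' | h'
          · exact (hd (-i)).2 (hsh _ _ h'.1) (hsh _ _ h'.2)
          · apply not_sim_shift hX hnp hbX hi0
            rw [h'.2]; exact hb.lnk.sim
      · rintro rfl; rw [hb.px, hb.py]; simp
    refine ⟨ℤ × Bool, {
      P := fun k => sh (-k.1) (if k.2 then b else a)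
      M := fun k => sh (-k.1) (if k.2 then b' else a')
      mv := fun l k => (l + k.1, k.2)
      hP := fun i => hX.inv _ (by split_ifs <;> assumption) _
      hM := fun i => hX.inv _ (by split_ifs; exacts [hb.lnk.my, ha.lnk.my]) _
      mv_zero := fun i => by simp
      mv_mv := fun k l i => by simp only [Prod.mk.injEq, and_true]; ring
      free := fun k i h => by
        have := congrArg Prod.fst h
        simp only at this
        linarith
      P_mv := fun k i => by rw [sh_sh]; congr 1; simp only; ring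
      M_mv := fun k i => by rw [sh_sh]; congr 1; simp only; ring
      sat := ?_
      i₀ := (0, false)
      i₁ := (0, true)
      ne := by simp
      cut := fun i => by
        obtain ⟨k, e⟩ := i
        cases e
        · simp only [sh_apply, zero_add, Bool.false_eq_true, if_false, Prod.mk.injEq, and_true,
            and_false, or_false]
          rw [hDa]; omega
        · simp only [sh_apply, zero_add, if_true, Prod.mk.injEq, and_true,
            and_false, false_or, Bool.true_eq_false]
          rw [hDb]; omega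
      p0 := by simpa using ha.px }, by simp⟩
    intro g hg hcut x hx y hy
    apply hconn g hg _ x hx y hy
    intro x hx y hy hs
    apply lnk_sat hX hnp hlow g _ hx hy hs
    intro x y hl
    have ha1 : ∀ n : ℤ, g (sh (-n) a) = g (sh (-n) a') := fun n => by
      have := hcut (n, false); simpa using this
    have hb1 : ∀ n : ℤ, g (sh (-n) b) = g (sh (-n) b') := fun n => by
      have := hcut (n, true); simpa using this
    obtain ⟨n, h | h | h | h⟩ := hlnk x y hl
    · rw [h.1, h.2]; exact ha1 n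
    · rw [h.1, h.2]; exact (ha1 n).symm
    · rw [h.1, h.2]; exact hb1 n
    · rw [h.1, h.2]; exact (hb1 n).symm

end

/-- The conclusion of the rotation theorem as a hypothesis (discharged later). -/
def RotStmt : Prop := ∀ (X : Set Pt), IsSub X → Mini X → NP X → ∀ (I : Type) (S : LinkSys X I),
    ∃ θ c : ℝ, Irrational θ ∧ 0 < c ∧ c < 1 ∧ CodedZ (S.P S.i₀) θ 0 c

/-- Windows of rotation codings with `2|K|` nonconstant patterns. -/
def NonconstStmt : Prop := ∀ (x : Pt) (θ c : ℝ), Irrational θ → 0 < c → c < 1 → CodedZ x θ 0 c →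
    ∃ K : Finset ℤ, K.Nonempty ∧ 2 * K.card ≤
      ((ztrs {y | ∃ n : ℤ, y = sh n x} K).filter (fun s => s ≠ ∅ ∧ s ≠ K)).card

section
variable {X : Set Pt}

/-- The reduced system: `x (q n)` for points of residue zero. -/
def Red (X : Set Pt) (q : ℕ) (r : Pt → ZMod q) : Set Pt :=
  {y | ∃ x ∈ X, r x = 0 ∧ y = fun n => x (q * n)}

theorem minimal_main (hrot : RotStmt) (hnc : NonconstStmt) (hX : IsSub X) (hnp : NP X)
    (hlow : LowZ X) (hmin : Mini X) :
    (∃ x ∈ X, ∃ θ c : ℝ, Irrational θ ∧ 0 < c ∧ c < 1 ∧ CodedZ x θ 0 c) ∨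
    (∃ w : Pt, (∀ v, fil w v ∈ X) ∧ HLow w ∧ HNP w ∧ Levels w {q | Lev w q}) := by
  classical
  obtain ⟨a, a', ha⟩ := exists_lnk0 hX hnp hlow
  have haX := ha.lnk.mx
  by_cases huniq : ∀ x y, Lnk0 X x y → x = a ∧ y = a'
  · right
    exact ⟨a, one_event hX hnp hlow hmin ha huniq⟩
  left
  push Not at huniq
  obtain ⟨b, b', hb, hba⟩ := huniq
  have hab : ¬ Sim a b := by
    intro h
    obtain ⟨h1, h2⟩ := lnk0_class hX hnp hlow ha hb h
    exact hba h1.symm h2.symm
  have hbX := hb.lnk.mx
  have hcase : ∀ x y, Lnk0 X x y → (x = a ∧ y = a') ∨ (x = b ∧ y = b') := by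
    intro x y h
    rcases lnk0_three hX hnp hlow h ha hb with h | h | h
    · left; exact h
    · right; exact h
    · exact absurd (by rw [h.1]; exact Sim.refl b) hab
  -- bounded levels
  obtain ⟨N, hN⟩ : ∃ N : ℕ, ∀ q, Lev a q → q ≤ N := by
    by_contra hc
    push Not at hc
    exact two_event_unb hX hnp hlow hmin ha hb hab hc
  obtain ⟨q, hq, hqmax⟩ : ∃ q, Lev a q ∧ ∀ q', Lev a q' → q' ∣ q := by
    have hne : ∃ k : ℕ, ∃ q, Lev a q ∧ q + k = N := ⟨N - 1, 1, Lev.one a, by
      have := hN 1 (Lev.one a); omega⟩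
    obtain ⟨q, hq, hk⟩ := Nat.find_spec hne
    refine ⟨q, hq, fun q' hq' => ?_⟩
    have h1 := hq.lcm hq'
    have h2 := hN _ h1
    have h3 := Nat.find_min' hne ⟨Nat.lcm q q', h1, (by omega : Nat.lcm q q' + (N - Nat.lcm q q') = N)⟩
    have h4 : q ∣ Nat.lcm q q' := Nat.dvd_lcm_left _ _
    have h5 := Nat.le_of_dvd (Nat.lcm_pos hq.1 hq'.1) h4
    have h6 : Nat.lcm q q' = q := by omega
    rw [← h6]; exact Nat.dvd_lcm_right _ _
  obtain ⟨r, hr⟩ := exists_res hX hmin haX hq
  have hrb : r b = 0 := by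
    by_contra hrb
    obtain ⟨q', hq', hlt⟩ := level_up hX hnp hlow hmin ha hq hr (fun x y h hx => by
      rcases hcase x y h with h' | h'
      · exact h'
      · rw [h'.1, hr.base] at hx; exact absurd hx hrb)
    have := Nat.le_of_dvd hq.1 (hqmax q' hq')
    omega
  by_cases hq1 : q = 1
  · have hconn : Conn X := conn_of_lev hX hnp hlow hmin haX (fun q' hq' => by
      have := hqmax q' hq'; rw [hq1] at this; exact Nat.dvd_one.1 this)
    obtain ⟨I, S, hS⟩ := exists_linksys hX hnp hlow hconn ha hb hab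
    obtain ⟨θ, c, h1, h2, h3, h4⟩ := hrot X hX hmin hnp I S
    rw [hS] at h4
    exact ⟨a, haX, θ, c, h1, h2, h3, h4⟩
  exfalso
  have hq2 : 2 ≤ q := by have := hq.1; omega
  have hqpos : (0 : ℤ) < q := by omega
  -- other residue classes are constant
  have hother : ∀ κ : ZMod q, κ ≠ 0 → ∃ v : Bool, ∀ x ∈ X, r x = κ → x 0 = v := by
    intro κ hκ
    set g : Pt → Bool := fun x => decide (r x = κ) && x 0 with hg
    have hgl : Loc X g := (hr.loc_eq κ).and (Loc.coord X 0)
    have hgs : Sat X g := by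
      intro x hx y hy hs
      apply lnk_sat hX hnp hlow _ _ hx hy hs
      intro x y hl
      have hrxy : r x = r y := hr.sim hX hl.mx hl.my hl.sim
      by_cases h0 : x 0 = y 0
      · simp only [hg, hrxy, h0]
      · have hr0 : r x = 0 := by
          rcases lnk0_of hl h0 with h | h
          · rcases hcase _ _ h with h | h
            · rw [h.1, hr.base]
            · rw [h.1, hrb]
          · rcases hcase _ _ h with h | h
            · rw [hrxy, h.1, hr.base]
            · rw [hrxy, h.1, hrb]
        have hr0' : r y = 0 := by rw [← hrxy]; exact hr0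
        simp only [hg, hr0, hr0', hκ.symm, decide_false, Bool.false_and]
    obtain ⟨e, he, hper⟩ := sat_lev hX hnp hlow hmin haX hgl hgs
    have hper' := per_mul hX hper (Int.natCast_dvd_natCast.2 (hqmax e he))
    by_cases hex : ∃ x ∈ X, r x = κ
    · obtain ⟨x₁, hx₁, hrx₁⟩ := hex
      refine ⟨x₁ 0, fun x hx hrx => ?_⟩
      have := hr.det hmin hX hgl hper' hx hx₁ (by rw [hrx, hrx₁])
      simpa only [hg, hrx, hrx₁, decide_true, Bool.true_and] using this
    · push Not at hex
      exact ⟨true, fun x hx hrx => absurd hrx (hex x hx)⟩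
  have hoth : ∀ x ∈ X, r x = 0 → ∀ x' ∈ X, r x' = 0 → ∀ n n' : ℤ, ¬ (q : ℤ) ∣ n → (q : ℤ) ∣ n - n' →
      x n = x' n' := by
    intro x hx hrx x' hx' hrx' n n' hn hnn
    have hn0 : (n : ZMod q) ≠ 0 := fun h => hn ((ZMod.intCast_zmod_eq_zero_iff_dvd n q).1 h)
    obtain ⟨v, hv⟩ := hother n hn0
    have e1 := hv _ (hX.inv x hx n) (by rw [hr.eqv x hx, hrx, zero_add])
    have e2 := hv _ (hX.inv x' hx' n') (by
      rw [hr.eqv x' hx', hrx', zero_add]
      have := (ZMod.intCast_zmod_eq_zero_iff_dvd _ q).2 hnn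
      push_cast at this
      exact (sub_eq_zero.1 this).symm)
    simp only [sh_apply, zero_add] at e1 e2
    rw [e1, e2]
  set X' := Red X q r with hX'def
  have hlift : ∀ y ∈ X', ∃ x ∈ X, r x = 0 ∧ ∀ n, y n = x (q * n) := by
    rintro y ⟨x, hx, hrx, rfl⟩; exact ⟨x, hx, hrx, fun n => rfl⟩
  have hrq : ∀ x ∈ X, ∀ n : ℤ, r (sh (q * n) x) = r x := by
    intro x hx n; rw [hr.eqv x hx]; push_cast; simp
  have hX' : IsSub X' := by
    refine ⟨⟨_, a, haX, hr.base, rfl⟩, ?_, ?_⟩
    · rintro y ⟨x, hx, hrx, rfl⟩ n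
      refine ⟨sh (q * n) x, hX.inv x hx _, by rw [hrq x hx, hrx], ?_⟩
      funext i
      simp only [sh_apply]; congr 1; ring
    · intro y hy
      choose s hs hagr using hy
      choose x hx hrx hxs using fun N => hlift (s N) (hs N)
      obtain ⟨φ, z, hφ, hz⟩ := exists_subseq x
      have hzX : z ∈ X := hX.mem_of_agr _ (fun k => hx (φ k)) hz
      obtain ⟨M, hM⟩ := hr.loc
      refine ⟨z, hzX, ?_, ?_⟩
      · rw [← hM _ (hx (φ M)) z hzX (hz M)]; exact hrx _
      · funext n
        have h1 := hz ((q : ℤ) * n).natAbs (q * n) le_rfl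
        have hle : n.natAbs ≤ ((q : ℤ) * n).natAbs := by
          rw [Int.natAbs_mul]
          exact Nat.le_mul_of_pos_left _ (by have := hq.1; omega)
        have h2 := hagr (φ ((q : ℤ) * n).natAbs) n (by
          have := hφ ((q : ℤ) * n).natAbs
          omega)
        rw [← h1, ← hxs, h2]
  have hmin' : Mini X' := by
    rintro y ⟨x, hx, hrx, rfl⟩ y' ⟨x', hx', hrx', rfl⟩ N
    obtain ⟨n, hn, ha'⟩ := hr.ret hmin hx hX hx' (by rw [hrx, hrx']) (q * N)
    obtain ⟨k, rfl⟩ := hn
    refine ⟨k, fun i hi => ?_⟩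
    have := ha' (q * i) (by
      rw [Int.natAbs_mul]
      simpa using Nat.mul_le_mul_left q hi)
    simp only [sh_apply] at this ⊢
    rw [mul_add]; exact this
  have hnp' : NP X' := by
    rintro y ⟨x, hx, hrx, rfl⟩ p hp
    by_contra hc
    push Not at hc
    have hqp : (q : ℤ) * p ≠ 0 := mul_ne_zero (by omega) hp
    obtain ⟨i, hi⟩ := hnp x hx (q * p) hqp
    apply hi
    by_cases hqi : (q : ℤ) ∣ i
    · obtain ⟨k, rfl⟩ := hqi
      have := hc k
      rw [← mul_add]; exact this
    · exact (hoth x hx hrx x hx hrx i (i + q * p) hqi ⟨-p, by ring⟩).symm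
  have hinj : Function.Injective (fun n : ℤ => (q : ℤ) * n) := fun m n h => by
    simp only at h
    exact mul_left_cancel₀ (by omega) h
  have hztr : ∀ x : Pt, ∀ K : Finset ℤ, ztr x (K.image (fun n : ℤ => (q : ℤ) * n)) =
      (ztr (fun n => x (q * n)) K).image (fun n : ℤ => (q : ℤ) * n) := by
    intro x K
    unfold ztr
    rw [Finset.filter_image]
  have hlow' : LowZ X' := by
    intro K hK
    have h1 := hlow (K.image (fun n : ℤ => (q : ℤ) * n)) (hK.image _)
    rw [Finset.card_image_of_injective _ hinj] at h1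
    refine le_trans ?_ h1
    rw [← Finset.card_image_of_injective (ztrs X' K)
      (Finset.image_injective hinj)]
    apply Finset.card_le_card
    intro s hs
    rw [Finset.mem_image] at hs
    obtain ⟨t, ht, rfl⟩ := hs
    obtain ⟨y, ⟨x, hx, hrx, rfl⟩, rfl⟩ := mem_ztrs.1 ht
    exact mem_ztrs.2 ⟨x, hx, hztr x K⟩
  obtain ⟨α, α', hα⟩ := exists_lnk0 hX' hnp' hlow'
  have hαX := hα.lnk.mx
  obtain ⟨xα, hxα, hrxα, hxαα⟩ := hlift α hαX
  have hLev' : ∀ e, Lev α e → e = 1 := by
    intro e he
    have h1 : Lev xα (q * e) := by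
      obtain ⟨he1, M, hM⟩ := he
      obtain ⟨Mr, hMr⟩ := hr.loc
      refine ⟨Nat.mul_pos hq.1 he1, Mr + q * M + q, fun n n' hag => ?_⟩
      have h2 := hMr _ (hX.inv _ hxα n) _ (hX.inv _ hxα n') (hag.mono (by omega))
      rw [hr.eqv _ hxα, hr.eqv _ hxα] at h2
      have h3 := add_left_cancel h2
      have h4 : (q : ℤ) ∣ n - n' := by
        apply (ZMod.intCast_zmod_eq_zero_iff_dvd _ q).1
        push_cast; rw [h3]; ring
      obtain ⟨s, hs⟩ := h4
      -- n + j = q n₁
      set j : ℤ := (-n) % q with hj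
      have hj0 := Int.emod_nonneg (-n) hqpos.ne'
      have hj1 := Int.emod_lt_of_pos (-n) hqpos
      obtain ⟨n₁, hn₁⟩ : (q : ℤ) ∣ n + j := by
        rw [hj]
        have := Int.emod_add_mul_ediv (-n) (q : ℤ)
        exact ⟨-(-n / q), by linarith⟩
      have h5 := hM n₁ (n₁ - s) (fun i hi => by
        simp only [sh_apply]
        rw [hxαα, hxαα]
        have := hag (j + q * i) (by
          have : ((q : ℤ) * i).natAbs ≤ q * M := by
            rw [Int.natAbs_mul]; simpa using Nat.mul_le_mul_left q hi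
          omega)
        simp only [sh_apply] at this
        rw [show (q : ℤ) * (i + n₁) = j + q * i + n by rw [mul_add, ← hn₁]; ring,
          show (q : ℤ) * (i + (n₁ - s)) = j + q * i + n' by
            rw [mul_add, mul_sub, ← hn₁, ← hs]; ring]
        exact this)
      rw [hs]
      push_cast
      apply mul_dvd_mul_left
      simpa using h5
    have h2 := hqmax _ (Lev.base hX hmin hxα haX h1)
    have h3 := Nat.le_of_dvd hq.1 h2
    have h4 := he.1
    have : e < 2 := by
      by_contra hc
      have : q * 2 ≤ q * e := Nat.mul_le_mul_left q (by omega)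
      omega
    omega
  have htwo : ∃ β β', Lnk0 X' β β' ∧ ¬ Sim α β := by
    by_contra hc
    push Not at hc
    have hu : ∀ x y, Lnk0 X' x y → x = α ∧ y = α' := by
      intro x y h
      obtain ⟨h1, h2⟩ := lnk0_class hX' hnp' hlow' hα h (hc x y h)
      exact ⟨h1.symm, h2.symm⟩
    obtain ⟨-, -, -, hL⟩ := one_event hX' hnp' hlow' hmin' hα hu
    obtain ⟨e, he, hlt⟩ := hL.unb 1
    have := hLev' e he
    omega
  obtain ⟨β, β', hβ, hαβ⟩ := htwo
  have hconn' : Conn X' := conn_of_lev hX' hnp' hlow' hmin' hαX hLev'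
  obtain ⟨I, S, hS⟩ := exists_linksys hX' hnp' hlow' hconn' hα hβ hαβ
  obtain ⟨θ, c, h1, h2, h3, h4⟩ := hrot X' hX' hmin' hnp' I S
  rw [hS] at h4
  obtain ⟨K, hK, hKc⟩ := hnc α θ c h1 h2 h3 h4
  -- count patterns on `q K`
  set K' := K.image (fun n : ℤ => (q : ℤ) * n) with hK'
  have hK'c : K'.card = K.card := Finset.card_image_of_injective _ hinj
  set F := (ztrs {y | ∃ n : ℤ, y = sh n α} K).filter (fun s => s ≠ ∅ ∧ s ≠ K) with hF
  obtain ⟨v, hv⟩ := hother 1 (by
    intro h
    have : (1 : ℤ) = 0 ∨ (q : ℤ) ∣ 1 := by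
      right
      apply (ZMod.intCast_zmod_eq_zero_iff_dvd 1 q).1
      push_cast; exact h
    rcases this with h' | h'
    · omega
    · have := Int.le_of_dvd (by omega) h'; omega)
  set z := sh 1 a with hz
  have hzX : z ∈ X := hX.inv a haX 1
  have hrz : r z = 1 := by rw [hz, hr.eqv a haX, hr.base]; simp
  have hzv : ∀ k ∈ K', z k = v := by
    intro k hk
    rw [hK', Finset.mem_image] at hk
    obtain ⟨n, -, rfl⟩ := hk
    have := hv _ (hX.inv z hzX (q * n)) (by rw [hrq z hzX, hrz])
    simpa using this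
  have hsub : insert (ztr z K') (F.image (fun s => s.image (fun n : ℤ => (q : ℤ) * n))) ⊆ ztrs X K' := by
    intro s hs
    rw [Finset.mem_insert] at hs
    rcases hs with rfl | hs
    · exact mem_ztrs.2 ⟨z, hzX, rfl⟩
    · rw [Finset.mem_image] at hs
      obtain ⟨t, ht, rfl⟩ := hs
      rw [hF, Finset.mem_filter] at ht
      obtain ⟨y, ⟨n, rfl⟩, rfl⟩ := mem_ztrs.1 ht.1
      refine mem_ztrs.2 ⟨sh (q * n) xα, hX.inv _ hxα _, ?_⟩
      rw [hK', hztr]
      congr 1
      congr 1
      funext i
      simp only [sh_apply]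
      rw [hxαα]; congr 1; ring
  have hnot : ztr z K' ∉ F.image (fun s => s.image (fun n : ℤ => (q : ℤ) * n)) := by
    intro hs
    rw [Finset.mem_image] at hs
    obtain ⟨t, ht, hteq⟩ := hs
    rw [hF, Finset.mem_filter] at ht
    cases v
    · have : ztr z K' = ∅ := by
        unfold ztr
        rw [Finset.filter_eq_empty_iff]
        intro k hk
        rw [hzv k hk]; simp
      rw [this] at hteq
      exact ht.2.1 (Finset.image_eq_empty.1 hteq)
    · have : ztr z K' = K' := by
        unfold ztr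
        rw [Finset.filter_eq_self]
        intro k hk
        rw [hzv k hk]
      rw [this, hK'] at hteq
      exact ht.2.2 (Finset.image_injective hinj hteq)
  have h5 := Finset.card_le_card hsub
  rw [Finset.card_insert_of_notMem hnot, Finset.card_image_of_injective _ (Finset.image_injective hinj)] at h5
  have h6 := hlow K' (hK.image _)
  omega

end

end PatSturm
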