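import Mathlib

/-!
# Pattern complexity of binary words: definitions

Words are maps `f : ℕ → Bool` (positions `0, 1, 2, ...`), windows are finite sets `K` of naturals.
-/

namespace PatSturm

/-! ## One-sided words -/

/-- The number of patterns `(f (m + k))_{k ∈ K}`, `m ∈ ℕ`. -/
noncomputable def patCount (f : ℕ → Bool) (K : Finset ℕ) : ℕ :=
  (Set.range (fun (m : ℕ) (k : {k // k ∈ K}) => f (m + k))).ncard

/-- Pattern complexity. -/
noncomputable def PC (f : ℕ → Bool) (n : ℕ) : ℕ :=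
  sSup {c | ∃ K : Finset ℕ, K.card = n ∧ patCount f K = c}

/-- The trace of the window `K` at position `m`. -/
def tr (f : ℕ → Bool) (K : Finset ℕ) (m : ℕ) : Finset ℕ := K.filter (fun k => f (m + k) = true)

open Classical in
/-- All traces on `K`. -/
noncomputable def trs (f : ℕ → Bool) (K : Finset ℕ) : Finset (Finset ℕ) :=
  K.powerset.filter (fun s => ∃ m, tr f K m = s)

theorem mem_trs {f : ℕ → Bool} {K s : Finset ℕ} : s ∈ trs f K ↔ ∃ m, tr f K m = s := by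
  classical
  unfold trs
  simp only [Finset.mem_filter, Finset.mem_powerset]
  constructor
  · rintro ⟨-, h⟩; exact h
  · rintro ⟨m, rfl⟩; exact ⟨Finset.filter_subset _ _, m, rfl⟩

theorem tr_mem_trs (f : ℕ → Bool) (K : Finset ℕ) (m : ℕ) : tr f K m ∈ trs f K :=
  mem_trs.2 ⟨m, rfl⟩

/-- At most `2|K|` patterns on every window. -/
def LowN (f : ℕ → Bool) : Prop := ∀ K : Finset ℕ, K.Nonempty → (trs f K).card ≤ 2 * K.card

/-- For every size some window with at least `2n` patterns. -/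
def HighN (f : ℕ → Bool) : Prop := ∀ n : ℕ, 1 ≤ n → ∃ K : Finset ℕ, K.card = n ∧ 2 * n ≤ (trs f K).card

/-- Ultimately periodic. -/
def UltPer (f : ℕ → Bool) : Prop := ∃ p : ℕ, 1 ≤ p ∧ ∃ N : ℕ, ∀ m, N ≤ m → f (m + p) = f m

/-! ## The three types -/

/-- Rotation type (values at the boundary hits are arbitrary). -/
def RotType (f : ℕ → Bool) : Prop :=
  ∃ θ φ c : ℝ, Irrational θ ∧ 0 < c ∧ c < 1 ∧ ∀ m : ℕ,
    (0 < Int.fract (φ + m * θ) → Int.fract (φ + m * θ) < c → f m = true) ∧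
    (c < Int.fract (φ + m * θ) → f m = false)

/-- Parameters of a Toeplitz-type word. -/
structure TPar where
  q : ℕ
  r : ℤ
  j : ℕ
  p : ℕ → ℕ
  a : ℕ → Bool

/-- The moduli `Q 0 = q`, `Q (i+1) = Q i * p i`. -/
def TPar.Q (D : TPar) (i : ℕ) : ℕ := D.q * ∏ l ∈ Finset.range i, D.p l

structure TPar.Ok (D : TPar) : Prop where
  hq : 1 ≤ D.q
  hr : IsCoprime D.r (D.q : ℤ)
  hp : ∀ i, 2 ≤ D.p i
  ha : ∀ b : Bool, ∀ N : ℕ, ∃ i, N ≤ i ∧ D.a i = b

/-- `h` is a coherent sequence of residues. -/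
def TPar.Coh (D : TPar) (h : ℕ → ℤ) : Prop := ∀ i, (D.Q i : ℤ) ∣ h (i + 1) - h i

/-- The value `b` is the prescribed one at position `m`. -/
def TPar.Cod (D : TPar) (h : ℕ → ℤ) (m : ℤ) (b : Bool) : Prop :=
  (¬ (D.Q 0 : ℤ) ∣ m - h 0 → (b = true ↔ (D.r * (m - h 0)) % (D.q : ℤ) ≤ D.j)) ∧
  ∀ i, (D.Q i : ℤ) ∣ m - h i → ¬ (D.Q (i + 1) : ℤ) ∣ m - h (i + 1) → b = D.a i

/-- Toeplitz type. -/
def ToepType (f : ℕ → Bool) : Prop :=
  ∃ D : TPar, D.Ok ∧ ∃ h : ℕ → ℤ, D.Coh h ∧ ∀ m : ℕ, D.Cod h m (f m)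

/-- An induced cycle of length at least six in the bipartite graph `m ~ v ↔ m + v ∈ A`. -/
def BadCycle (A : Set ℕ) : Prop :=
  ∃ n : ℕ, 3 ≤ n ∧ ∃ m v : ZMod n → ℕ, ∀ i j, (m i + v j ∈ A ↔ j = i ∨ j = i + 1)

/-- An induced domino (two squares sharing an edge) in the bipartite graph `m ~ v ↔ m + v ∈ A`. -/
def Domino (A : Set ℕ) : Prop :=
  ∃ m₁ m₂ m₃ v₁ v₂ v₃ : ℕ, m₁ + v₁ ∈ A ∧ m₁ + v₂ ∈ A ∧ m₁ + v₃ ∉ A ∧
    m₂ + v₁ ∈ A ∧ m₂ + v₂ ∈ A ∧ m₂ + v₃ ∈ A ∧ m₃ + v₁ ∉ A ∧ m₃ + v₂ ∈ A ∧ m₃ + v₃ ∈ A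

/-- `A` is infinite and its gaps tend to infinity. -/
def Gappy (A : Set ℕ) : Prop :=
  A.Infinite ∧ ∀ L : ℕ, ∃ N : ℕ, ∀ m, N ≤ m → m ∈ A → ∀ i, 1 ≤ i → i ≤ L → m + i ∉ A

/-- Sparse type. -/
def SparseType (f : ℕ → Bool) : Prop :=
  ∃ b : Bool, Gappy {m | f m = b} ∧ ¬ BadCycle {m | f m = b} ∧ ¬ Domino {m | f m = b}

/-! ## Two-sided words -/

/-- Two-sided binary words. -/
abbrev Pt := ℤ → Bool

/-- The shift. -/
def sh (n : ℤ) (x : Pt) : Pt := fun i => x (i + n)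

@[simp] theorem sh_apply (n : ℤ) (x : Pt) (i : ℤ) : sh n x i = x (i + n) := rfl

theorem sh_sh (m n : ℤ) (x : Pt) : sh m (sh n x) = sh (m + n) x := by
  funext i; simp [sh, add_assoc]

@[simp] theorem sh_zero (x : Pt) : sh 0 x = x := by funext i; simp [sh]

/-- Agreement on the window `[-N, N]`. -/
def agr (x y : Pt) (N : ℕ) : Prop := ∀ i : ℤ, i.natAbs ≤ N → x i = y i

theorem agr.symm {x y : Pt} {N : ℕ} (h : agr x y N) : agr y x N := fun i hi => (h i hi).symm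
theorem agr.trans {x y z : Pt} {N : ℕ} (h : agr x y N) (h' : agr y z N) : agr x z N :=
  fun i hi => (h i hi).trans (h' i hi)
theorem agr.mono {x y : Pt} {N M : ℕ} (h : agr x y N) (hM : M ≤ N) : agr x y M :=
  fun i hi => h i (hi.trans hM)
theorem agr_refl (x : Pt) (N : ℕ) : agr x x N := fun _ _ => rfl

/-- Subshifts: nonempty, shift-invariant, closed. -/
structure IsSub (X : Set Pt) : Prop where
  ne : X.Nonempty
  inv : ∀ x ∈ X, ∀ n : ℤ, sh n x ∈ X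
  cl : ∀ y : Pt, (∀ N : ℕ, ∃ x ∈ X, agr x y N) → y ∈ X

/-- No periodic points. -/
def NP (X : Set Pt) : Prop := ∀ x ∈ X, ∀ p : ℤ, p ≠ 0 → ∃ i, x (i + p) ≠ x i

/-- Trace of a point on a window. -/
def ztr (x : Pt) (K : Finset ℤ) : Finset ℤ := K.filter (fun k => x k = true)

open Classical in
/-- All traces of points of `X` on `K`. -/
noncomputable def ztrs (X : Set Pt) (K : Finset ℤ) : Finset (Finset ℤ) :=
  K.powerset.filter (fun s => ∃ x ∈ X, ztr x K = s)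

theorem mem_ztrs {X : Set Pt} {K s : Finset ℤ} : s ∈ ztrs X K ↔ ∃ x ∈ X, ztr x K = s := by
  classical
  unfold ztrs
  simp only [Finset.mem_filter, Finset.mem_powerset]
  constructor
  · rintro ⟨-, h⟩; exact h
  · rintro ⟨x, hx, rfl⟩; exact ⟨Finset.filter_subset _ _, x, hx, rfl⟩

/-- At most `2|K|` patterns on every window. -/
def LowZ (X : Set Pt) : Prop := ∀ K : Finset ℤ, K.Nonempty → (ztrs X K).card ≤ 2 * K.card

/-- Every orbit is dense. -/
def Mini (X : Set Pt) : Prop := ∀ x ∈ X, ∀ y ∈ X, ∀ N : ℕ, ∃ n : ℤ, agr (sh n x) y N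

/-- The set of two-sided limit points of a one-sided word. -/
def omg (f : ℕ → Bool) : Set Pt :=
  {x | ∀ M N : ℕ, ∃ m : ℕ, N ≤ m ∧ M ≤ m ∧ ∀ i : ℤ, i.natAbs ≤ M → f ((m : ℤ) + i).toNat = x i}

/-- Compactness of the two-sided full shift: every sequence of points has a cluster point. -/
theorem exists_cluster (s : ℕ → Pt) : ∃ x : Pt, ∀ M N : ℕ, ∃ n, N ≤ n ∧ agr (s n) x M := by
  have hc : CompactSpace Pt := inferInstance
  obtain ⟨x, -, hx⟩ := (isCompact_univ (X := Pt)).exists_clusterPt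
    (f := Filter.map s Filter.atTop) (by simp)
  refine ⟨x, fun M N => ?_⟩
  have hU : {y : Pt | agr y x M} ∈ nhds x := by
    have : {y : Pt | agr y x M} = ⋂ i ∈ (Finset.Icc (-(M : ℤ)) M), {y : Pt | y i = x i} := by
      ext y
      simp only [Set.mem_ofPred_eq, Set.mem_iInter, Finset.mem_Icc, agr]
      constructor
      · intro h i hi; exact h i (by omega)
      · intro h i hi; exact h i (by omega)
    rw [this]
    refine (Filter.biInter_finset_mem _).2 fun i _ => ?_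
    have hcont : Continuous (fun y : Pt => y i) := continuous_apply i
    exact (hcont.isOpen_preimage {x i} (isOpen_discrete _)).mem_nhds rfl
  have h1 := clusterPt_iff_nonempty.1 hx hU
    (Filter.mem_map.2 (Filter.mem_atTop_sets.2 ⟨N, fun b hb => ?_⟩) :
      (s '' {n | N ≤ n}) ∈ Filter.map s Filter.atTop)
  · obtain ⟨y, hy1, n, hn, rfl⟩ := h1
    exact ⟨n, hn, hy1⟩
  · exact ⟨b, hb, rfl⟩

/-- A word is a coding of a rotation: angle `θ`, phase `φ`, arc length `c`. -/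
def CodedZ (x : Pt) (θ φ c : ℝ) : Prop := ∀ n : ℤ,
  (0 < Int.fract (φ + n * θ) → Int.fract (φ + n * θ) < c → x n = true) ∧
  (c < Int.fract (φ + n * θ) → x n = false)

/-! ## Generic codings of windows by a rotation -/

/-- `ψ` is a generic phase for the window `K`. -/
def gen (θ c ψ : ℝ) (K : Finset ℕ) : Prop :=
  ∀ k ∈ K, Int.fract (ψ + k * θ) ≠ 0 ∧ Int.fract (ψ + k * θ) ≠ c

open Classical in
/-- The coding of the phase `ψ` on the window `K`. -/
noncomputable def cod (θ c ψ : ℝ) (K : Finset ℕ) : Finset ℕ :=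
  K.filter (fun k => Int.fract (ψ + k * θ) < c)

open Classical in
/-- All generic coding patterns on `K`. -/
noncomputable def codPats (θ c : ℝ) (K : Finset ℕ) : Finset (Finset ℕ) :=
  K.powerset.filter (fun s => ∃ ψ, gen θ c ψ K ∧ cod θ c ψ K = s)

/-- The `2|K|` break points of `K` are distinct modulo one. -/
def sep (θ c : ℝ) (K : Finset ℕ) : Prop :=
  ∀ k ∈ K, ∀ k' ∈ K, ∀ z : ℤ, (k : ℝ) * θ - k' * θ - c ≠ z

/-! ## Words with one hole -/

/-- Fill the hole at `0`. -/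
def fil (w : Pt) (v : Bool) : Pt := Function.update w 0 v

open Classical in
/-- Patterns on `K` of the two fillings of `w`. -/
noncomputable def hp (w : Pt) (K : Finset ℤ) : Finset (Finset ℤ) :=
  K.powerset.filter (fun s => ∃ (v : Bool) (n : ℤ), ztr (sh n (fil w v)) K = s)

def HLow (w : Pt) : Prop := ∀ K : Finset ℤ, K.Nonempty → (hp w K).card ≤ 2 * K.card

def HNP (w : Pt) : Prop := ∀ (v : Bool) (n : ℤ), n ≠ 0 → ∃ i, fil w v (i + n) ≠ fil w v i

structure Levels (w : Pt) (R : Set ℕ) : Prop where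
  pos : ∀ q ∈ R, 1 ≤ q
  unb : ∀ N : ℕ, ∃ q ∈ R, N < q
  settle : ∀ q ∈ R, ∃ Q ∈ R, q ∣ Q ∧ ∀ n : ℤ, ¬ (q : ℤ) ∣ n → ∀ j : ℤ, w (n + Q * j) = w n

/-- The word `n ↦ w (N n)`, `n ≠ 0`, is simple Toeplitz with periods `p` and symbols `a`. -/
def STail (w : Pt) (N : ℕ) (p : ℕ → ℕ) (a : ℕ → Bool) : Prop :=
  (∀ i, 2 ≤ p i) ∧ (∀ b : Bool, ∀ M : ℕ, ∃ i, M ≤ i ∧ a i = b) ∧
  ∀ n : ℤ, n ≠ 0 → ∀ i : ℕ, ((∏ l ∈ Finset.range i, p l : ℕ) : ℤ) ∣ n →
    ¬ ((∏ l ∈ Finset.range (i + 1), p l : ℕ) : ℤ) ∣ n → w (N * n) = a i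

/-! ## Links -/

/-- `g` depends, on `X`, only on finitely many coordinates. -/
def Loc (X : Set Pt) (g : Pt → Bool) : Prop :=
  ∃ M : ℕ, ∀ x ∈ X, ∀ y ∈ X, agr x y M → g x = g y

/-- A system of links: pairs `P i, M i` of points of `X`, moved freely by the shift, such that
locally constant functions not cutting any link are constant, and exactly two links are cut by the
coordinate function at `0`. -/
structure LinkSys (X : Set Pt) (I : Type) where
  P : I → Pt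
  M : I → Pt
  mv : ℤ → I → I
  hP : ∀ i, P i ∈ X
  hM : ∀ i, M i ∈ X
  mv_zero : ∀ i, mv 0 i = i
  mv_mv : ∀ k l i, mv k (mv l i) = mv (k + l) i
  free : ∀ k i, mv k i = i → k = 0
  P_mv : ∀ k i, P (mv k i) = sh (-k) (P i)
  M_mv : ∀ k i, M (mv k i) = sh (-k) (M i)
  sat : ∀ g : Pt → Bool, Loc X g → (∀ i, g (P i) = g (M i)) → ∀ x ∈ X, ∀ y ∈ X, g x = g y
  i₀ : I
  i₁ : I
  ne : i₀ ≠ i₁
  cut : ∀ i, P i 0 ≠ M i 0 ↔ i = i₀ ∨ i = i₁
  p0 : P i₀ 0 = true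

end PatSturm
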