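import Pool.Agent.LibPS.Lev

/-! # Full pairs, one event, two events -/

namespace PatSturm

/-! ## Recurrent sequences -/

/-- Recurrence of pairs to the right. -/
def RecSeq (y : ℤ → Bool) : Prop := ∀ i m N : ℤ, ∃ n, N < n ∧ y n = y i ∧ y (n + m) = y (i + m)

/-- No period. -/
def NPSeq (y : ℤ → Bool) : Prop := ∀ e : ℕ, 1 ≤ e → ∃ n, y (n + e) ≠ y n

theorem seq_change (y : ℤ → Bool) (hrec : RecSeq y) (hnp : NPSeq y) (m : ℕ) (hm : 1 ≤ m)
    (b : Bool) : ∃ n, y n = b ∧ y (n + m) = !b := by
  by_contra hc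
  push Not at hc
  have habs : ∀ n, y n = b → y (n + m) = b := by
    intro n hn
    have := hc n hn
    cases b <;> cases h : y (n + m) <;> simp_all
  have habs' : ∀ j : ℕ, ∀ n, y n = b → y (n + m * j) = b := by
    intro j
    induction j with
    | zero => intro n hn; simpa using hn
    | succ j ih =>
      intro n hn
      rw [show n + (m : ℤ) * ((j + 1 : ℕ) : ℤ) = (n + m * j) + m by push_cast; ring]
      exact habs _ (ih n hn)
  obtain ⟨n₀, hn₀⟩ := hnp m hm
  have h1 : y n₀ = !b := by
    by_contra h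
    have h' : y n₀ = b := by cases b <;> cases h'' : y n₀ <;> simp_all
    exact hn₀ (by rw [habs n₀ h', h'])
  have h2 : y (n₀ + m) = b := by
    cases b <;> cases h'' : y (n₀ + m) <;> simp_all
  set T : Set ℤ := {n | y n = (!b) ∧ y (n + m) = b} with hT
  have hTinf : T.Infinite := by
    intro hfin
    obtain ⟨B, hB⟩ := bdd_of_finset hfin.toFinset
    obtain ⟨n, hn1, hn2, hn3⟩ := hrec n₀ m B
    have : n ∈ hfin.toFinset := by
      rw [Set.Finite.mem_toFinset]; exact ⟨hn2.trans h1, hn3.trans h2⟩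
    have := hB n this
    omega
  have : NeZero m := ⟨by omega⟩
  obtain ⟨n, hn, n', hn', hne, hmap⟩ := hTinf.exists_ne_map_eq_of_mapsTo
    (t := (Set.univ : Set (ZMod m))) (f := fun n : ℤ => (n : ZMod m)) (fun _ _ => Set.mem_univ _)
    Set.finite_univ
  wlog hlt : n < n' generalizing n n'
  · exact this n' hn' n hn hne.symm hmap.symm (by omega)
  have hdvd : (m : ℤ) ∣ n' - n := by
    have : ((n' - n : ℤ) : ZMod m) = 0 := by
      push_cast; rw [hmap]; ring
    exact (ZMod.intCast_zmod_eq_zero_iff_dvd _ m).1 this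
  obtain ⟨k, hk⟩ := hdvd
  have hkpos : 1 ≤ k := by
    by_contra hc'
    have : (m : ℤ) * k ≤ 0 := mul_nonpos_of_nonneg_of_nonpos (by omega) (by omega)
    omega
  obtain ⟨k', hk'⟩ : ∃ k' : ℕ, k = k' + 1 := ⟨(k - 1).toNat, by omega⟩
  have := habs' k' (n + m) hn.2
  rw [show n + (m : ℤ) + m * k' = n' by rw [hk'] at hk; linarith] at this
  rw [hn'.1] at this
  cases b <;> simp at this

theorem full_pair_seq (y : ℤ → Bool) (hrec : RecSeq y) (hnp : NPSeq y) :
    ∃ m : ℕ, 1 ≤ m ∧ ∀ α β : Bool, ∃ n, y n = α ∧ y (n + m) = β := by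
  have hval : ∀ b : Bool, ∃ m : ℕ, 1 ≤ m ∧ ∃ n, y n = b ∧ y (n + m) = b := by
    intro b
    obtain ⟨n, hn, -⟩ := seq_change y hrec hnp 1 le_rfl b
    obtain ⟨n', h1, h2, -⟩ := hrec n 0 n
    refine ⟨(n' - n).toNat, by omega, n, hn, ?_⟩
    rw [show n + ((n' - n).toNat : ℤ) = n' by omega, h2, hn]
  have hfull : ∀ m : ℕ, 1 ≤ m → (∀ b : Bool, ∃ n, y n = b ∧ y (n + m) = b) →
      ∀ α β : Bool, ∃ n, y n = α ∧ y (n + m) = β := by
    intro m hm h α β
    by_cases hab : α = β
    · subst hab; exact h α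
    · obtain ⟨n, h1, h2⟩ := seq_change y hrec hnp m hm α
      exact ⟨n, h1, by rw [h2]; cases α <;> cases β <;> simp_all⟩
  obtain ⟨m₁, hm₁, n₁, h1, h1'⟩ := hval true
  obtain ⟨m₀, hm₀, n₀, h0, h0'⟩ := hval false
  by_cases hA : ∃ n, y n = false ∧ y (n + m₁) = false
  · exact ⟨m₁, hm₁, hfull m₁ hm₁ (fun b => by
      cases b
      · exact hA
      · exact ⟨n₁, h1, h1'⟩)⟩
  by_cases hB : ∃ n, y n = true ∧ y (n + m₀) = true
  · exact ⟨m₀, hm₀, hfull m₀ hm₀ (fun b => by
      cases b
      · exact ⟨n₀, h0, h0'⟩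
      · exact hB)⟩
  exfalso
  push Not at hA hB
  have e1 : y (n₁ + m₀) = false := by simpa using hB n₁ h1
  have e2 : y (n₁ + m₁ + m₀) = false := by simpa using hB (n₁ + m₁) h1'
  have := hA (n₁ + m₀) e1
  rw [show n₁ + (m₀ : ℤ) + m₁ = n₁ + m₁ + m₀ by ring] at this
  exact this e2

section
variable {X : Set Pt}

/-- The sequence of a link along its residue class is recurrent and not periodic. -/
theorem level_seq (hX : IsSub X) (hnp : NP X) (hmin : Mini X) {x₀ : Pt} {q : ℕ} (hq : 1 ≤ q)
    {r : Pt → ZMod q} (hr : ResF X x₀ q r) {a a' : Pt} (ha : Lnk0 X a a')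
    (huniq : ∀ x y, Lnk0 X x y → r x = r a → x = a ∧ y = a') :
    RecSeq (fun n => a (q * n)) ∧ NPSeq (fun n => a (q * n)) := by
  classical
  have haX := ha.lnk.mx
  obtain ⟨Mr, hMr⟩ := hr.loc
  constructor
  · intro i m N
    obtain ⟨s, hs1, hs2⟩ := mini_right hX hmin haX (hX.inv a haX (q * i)) (Mr + (q * m).natAbs)
      (q * |N|)
    have h1 : r (sh s a) = r (sh (q * i) a) :=
      hMr _ (hX.inv _ haX _) _ (hX.inv _ haX _) (hs2.mono (by omega))
    rw [hr.eqv a haX, hr.eqv a haX] at h1
    have h2 : (q : ℤ) ∣ s - q * i := by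
      have h1' := add_left_cancel h1
      apply (ZMod.intCast_zmod_eq_zero_iff_dvd _ q).1
      push_cast at h1' ⊢
      rw [h1']; ring
    obtain ⟨k, hk⟩ := h2
    have hsq : s = q * (i + k) := by linarith
    refine ⟨i + k, ?_, ?_, ?_⟩
    · have h3 : (q : ℤ) * |N| < q * (i + k) := by rw [← hsq]; exact hs1
      have h4 : |N| < i + k := lt_of_mul_lt_mul_left h3 (by positivity)
      exact lt_of_le_of_lt (le_abs_self N) h4
    · have := hs2 0 (by simp)
      simp only [sh_apply, zero_add] at this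
      simp only; rw [← hsq]; exact this
    · have := hs2 (q * m) (by omega)
      simp only [sh_apply] at this
      simp only
      rw [mul_add (q : ℤ) (i + k) m, mul_add (q : ℤ) i m, ← hsq, add_comm s, add_comm ((q : ℤ) * i)]
      exact this
  · intro e he
    by_contra hc
    push Not at hc
    set g : Pt → Bool := fun x => decide (r x = r a) && x 0 with hg
    have hper : ∀ x ∈ X, g (sh (q * e : ℤ) x) = g x := by
      intro x hx
      have hrx : r (sh (q * e : ℤ) x) = r x := by
        rw [hr.eqv x hx]; push_cast; simp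
      simp only [hg]
      rw [hrx]
      by_cases h : r x = r a
      · obtain ⟨n, hn, hag⟩ := hr.ret hmin haX hX hx h.symm ((q * e : ℤ).natAbs)
        obtain ⟨k, rfl⟩ := hn
        have h1 := hag 0 (by simp)
        have h2 := hag (q * e) (by omega)
        simp only [sh_apply, zero_add] at h1 h2
        simp only [sh_apply, zero_add]
        rw [← h1, ← h2]
        have h3 := hc k
        rw [show (q : ℤ) * e + q * k = q * (k + e) by ring, h3]
      · simp [h]
    have hper' : ∀ x ∈ X, g (sh (-(q * e : ℤ)) x) = g x := by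
      intro x hx
      have := hper _ (hX.inv x hx (-(q * e : ℤ)))
      rw [sh_sh] at this
      simp only [add_neg_cancel, sh_zero] at this
      exact this.symm
    have h1 := hper' a haX
    have h2 := hper' a' ha.lnk.my
    have hra' : r a' = r a := (hr.sim hX haX ha.lnk.my ha.lnk.sim).symm
    have hrs : r (sh (-(q * e : ℤ)) a) = r a := by
      rw [hr.eqv a haX]; push_cast; simp
    have hrs' : r (sh (-(q * e : ℤ)) a') = r a := by
      rw [hr.eqv a' ha.lnk.my, hra']; push_cast; simp
    simp only [hg, hrs, hrs', hra', decide_true, Bool.true_and, ha.px, ha.py] at h1 h2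
    obtain ⟨h3, -⟩ := huniq _ _ ⟨ha.lnk.shift hX (-(q * e : ℤ)), h1, h2⟩ hrs
    apply not_sim_shift hX hnp haX (n := -(q * e : ℤ))
    · have : (0 : ℤ) < q * e := by positivity
      omega
    · rw [h3]; exact Sim.refl a

/-- If only one link at `0` lies in its residue class then there is a larger level. -/
theorem level_up (hX : IsSub X) (hnp : NP X) (hlow : LowZ X) (hmin : Mini X) {a a' : Pt}
    (ha : Lnk0 X a a') {q : ℕ} (hq : Lev a q) {r : Pt → ZMod q} (hr : ResF X a q r)
    (huniq : ∀ x y, Lnk0 X x y → r x = r a → x = a ∧ y = a') : ∃ q', Lev a q' ∧ q < q' := by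
  classical
  have haX := ha.lnk.mx
  have ha'X := ha.lnk.my
  obtain ⟨hrec, hnps⟩ := level_seq hX hnp hmin hq.1 hr ha huniq
  obtain ⟨m, hm, hfull⟩ := full_pair_seq _ hrec hnps
  set t : ℤ := q * m with ht
  have ht0 : t ≠ 0 := by
    have : (0 : ℤ) < q * m := by have := hq.1; positivity
    omega
  have hrt : ∀ x ∈ X, r (sh t x) = r x := by
    intro x hx; rw [hr.eqv x hx, ht]; push_cast; simp
  have hrt' : ∀ x ∈ X, r (sh (-t) x) = r x := by
    intro x hx; rw [hr.eqv x hx, ht]; push_cast; simp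
  have hra' : r a' = r a := (hr.sim hX haX ha'X ha.lnk.sim).symm
  -- the link does not change the coordinates ± t
  have hno : ∀ s : ℤ, s ≠ 0 → r (sh s a) = r a → a s = a' s := by
    intro s hs hrs
    by_contra hne
    have hl := ha.lnk.shift hX s
    have h0 : sh s a 0 ≠ sh s a' 0 := by simpa [sh] using hne
    rcases lnk0_of hl h0 with h | h
    · obtain ⟨h3, -⟩ := huniq _ _ h hrs
      exact not_sim_shift hX hnp haX hs (by rw [h3]; exact Sim.refl a)
    · have hrs' : r (sh s a') = r a := by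
        rw [← hrs]; exact (hr.sim hX (hX.inv _ haX s) (hX.inv _ ha'X s) hl.sim).symm
      obtain ⟨h3, -⟩ := huniq _ _ h hrs'
      apply not_sim_shift hX hnp haX hs
      refine Sim.trans ?_ (ha.lnk.sim.symm.shift s)
      rw [h3]; exact Sim.refl a
  have hat := hno t ht0 (hrt a haX)
  have hat' := hno (-t) (by omega) (hrt' a haX)
  set G : Pt → Bool := fun x => decide (r x = r a) && (xor (x 0) (a (-t)) && xor (x t) (a t)) with hG
  have hGloc : Loc X G := by
    apply Loc.and (hr.loc_eq _)
    apply Loc.and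
    · exact (Loc.coord X 0).map (fun b => xor b (a (-t)))
    · exact (Loc.coord X t).map (fun b => xor b (a t))
  have hcutlnk : ∀ x y, Lnk X x y → r x = r a → x 0 ≠ y 0 → (x = a ∧ y = a') ∨ (x = a' ∧ y = a) := by
    intro x y hl hrx h0
    rcases lnk0_of hl h0 with h | h
    · left; exact huniq _ _ h hrx
    · right
      have := huniq _ _ h (by rw [← hrx]; exact (hr.sim hX hl.mx hl.my hl.sim).symm)
      exact ⟨this.2, this.1⟩
  have hGsat : Sat X G := by
    intro x hx y hy hs
    apply lnk_sat hX hnp hlow G _ hx hy hs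
    intro x y hl
    have hrxy : r x = r y := hr.sim hX hl.mx hl.my hl.sim
    by_cases hrx : r x = r a
    swap
    · have hry : r y ≠ r a := by rw [← hrxy]; exact hrx
      simp only [hG, decide_false, hrx, hry, Bool.false_and]
    have hry : r y = r a := by rw [← hrxy]; exact hrx
    by_cases h0 : x 0 = y 0
    · by_cases h1 : x t = y t
      · simp only [hG, hrx, hry, h0, h1]
      · have h2 := hcutlnk (sh t x) (sh t y) (hl.shift hX t) (by rw [hrt x hl.mx, hrx])
          (by simpa [sh] using h1)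
        have e1 : x 0 = a (-t) := by
          rcases h2 with ⟨h3, -⟩ | ⟨h3, -⟩
          · have := congrFun h3 (-t); simpa [sh] using this
          · have := congrFun h3 (-t)
            rw [← hat'] at this; simpa [sh] using this
        have e2 : y 0 = a (-t) := by rw [← h0, e1]
        simp only [hG, e1, e2, Bool.xor_self, Bool.false_and, Bool.and_false]
    · have e : x t = a t ∧ y t = a t := by
        rcases hcutlnk x y hl hrx h0 with ⟨h3, h4⟩ | ⟨h3, h4⟩
        · rw [h3, h4]; exact ⟨rfl, hat.symm⟩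
        · rw [h3, h4]; exact ⟨hat.symm, rfl⟩
      simp only [hG, e.1, e.2, Bool.xor_self, Bool.and_false]
  obtain ⟨e, he, hper⟩ := sat_lev hX hnp hlow hmin haX hGloc hGsat
  refine ⟨Nat.lcm q e, hq.lcm he, ?_⟩
  by_contra hle
  have hdvd : e ∣ q := by
    have h1 : q ∣ Nat.lcm q e := Nat.dvd_lcm_left q e
    have h2 : Nat.lcm q e = q := Nat.le_antisymm (by omega)
      (Nat.le_of_dvd (Nat.lcm_pos hq.1 he.1) h1)
    rw [← h2]; exact Nat.dvd_lcm_right q e
  have hconst : ∀ n : ℤ, G (sh (q * n) a) = G a := by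
    intro n
    exact per_mul hX hper ((Int.natCast_dvd_natCast.2 hdvd).trans (dvd_mul_right _ _)) a haX
  have hGval : ∀ n : ℤ, G (sh (q * n) a) = (xor (a (q * n)) (a (-t)) && xor (a (q * (n + m))) (a t)) := by
    intro n
    have h1 : r (sh (q * n) a) = r a := by rw [hr.eqv a haX]; push_cast; simp
    have h2 : sh (q * n : ℤ) a t = a (q * (n + m)) := by
      simp only [sh_apply]; congr 1; rw [ht]; ring
    simp only [hG, h1, decide_true, Bool.true_and, h2, sh_apply, zero_add]
  obtain ⟨n₁, h1, h1'⟩ := hfull (!(a (-t))) (!(a t))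
  obtain ⟨n₂, h2, h2'⟩ := hfull (a (-t)) (a t)
  have e1 := hGval n₁
  have e2 := hGval n₂
  rw [hconst, h1, h1'] at e1
  rw [hconst, h2, h2'] at e2
  rw [e1] at e2
  simp at e2

end

end PatSturm
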