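import Pool.Agent.LibPS.Links

/-! # Saturated functions, periods and levels -/

namespace PatSturm

/-! ## Locally constant functions -/

theorem Loc.coord (X : Set Pt) (k : ℤ) : Loc X (fun x => x k) :=
  ⟨k.natAbs, fun _ _ _ _ h => h k le_rfl⟩

theorem Loc.const (X : Set Pt) (b : Bool) : Loc X (fun _ => b) := ⟨0, fun _ _ _ _ _ => rfl⟩

theorem Loc.and {X : Set Pt} {g h : Pt → Bool} (hg : Loc X g) (hh : Loc X h) :
    Loc X (fun x => g x && h x) := by
  obtain ⟨M, hM⟩ := hg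
  obtain ⟨N, hN⟩ := hh
  refine ⟨max M N, fun x hx y hy ha => ?_⟩
  simp only
  rw [hM x hx y hy (ha.mono (le_max_left _ _)), hN x hx y hy (ha.mono (le_max_right _ _))]

theorem Loc.map {X : Set Pt} {g : Pt → Bool} (hg : Loc X g) (f : Bool → Bool) :
    Loc X (fun x => f (g x)) := by
  obtain ⟨M, hM⟩ := hg
  exact ⟨M, fun x hx y hy ha => by simp only [hM x hx y hy ha]⟩

theorem Loc.shift {X : Set Pt} (hX : IsSub X) {g : Pt → Bool} (hg : Loc X g) (n : ℤ) :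
    Loc X (fun x => g (sh n x)) := by
  obtain ⟨M, hM⟩ := hg
  exact ⟨M + n.natAbs, fun x hx y hy ha => hM _ (hX.inv x hx n) _ (hX.inv y hy n)
    (agr_shift ha le_rfl)⟩

/-- Constant on asymptotic classes. -/
def Sat (X : Set Pt) (g : Pt → Bool) : Prop := ∀ x ∈ X, ∀ y ∈ X, Sim x y → g x = g y

/-- Connectedness. -/
def Conn (X : Set Pt) : Prop :=
  ∀ g : Pt → Bool, Loc X g → Sat X g → ∀ x ∈ X, ∀ y ∈ X, g x = g y

section
variable {X : Set Pt}

theorem sat_window (hX : IsSub X) (hnp : NP X) (hlow : LowZ X) {g : Pt → Bool} (hg : Loc X g)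
    (hs : Sat X g) : ∃ L : ℕ, ∀ x ∈ X, ∀ y ∈ X, ∀ n : ℤ, agr (sh n x) (sh n y) L → g x = g y := by
  by_contra hc
  push Not at hc
  choose s hsX t htX n hn hne using hc
  obtain ⟨φ, x, y, hφ, hx, hy⟩ := exists_subseq₂ s t
  have hxX : x ∈ X := hX.mem_of_agr _ (fun k => hsX (φ k)) hx
  have hyX : y ∈ X := hX.mem_of_agr _ (fun k => htX (φ k)) hy
  obtain ⟨D, -, hD⟩ := rp hX hnp hlow (x := x) (y := y) (fun L =>
    ⟨_, hsX (φ L), _, htX (φ L), hx L, hy L, n (φ L), (hn (φ L)).mono (hφ L)⟩)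
  have hsim : Sim x y := D.finite_toSet.subset fun i hi => (hD i).1 hi
  obtain ⟨M, hM⟩ := hg
  apply hne (φ M)
  rw [hM _ (hsX _) _ hxX (hx M), hM _ (htX _) _ hyX (hy M)]
  exact hs x hxX y hyX hsim

/-- Pigeonhole for windows. -/
theorem exists_return (x : Pt) (L : ℕ) : ∃ n n' : ℕ, n < n' ∧ agr (sh n x) (sh n' x) L := by
  let W : ℕ → (Fin (2 * L + 1) → Bool) := fun n j => x ((n : ℤ) + j - L)
  obtain ⟨n, n', hne, hW⟩ := Finite.exists_ne_map_eq_of_infinite W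
  wlog hlt : n < n' generalizing n n'
  · exact this n' n hne.symm hW.symm (by omega)
  refine ⟨n, n', hlt, fun i hi => ?_⟩
  have h3 := congrFun hW ⟨(i + L).toNat, by omega⟩
  simp only [W] at h3
  have e1 : ((n : ℤ) + ((i + L).toNat : ℤ) - L) = i + n := by omega
  have e2 : ((n' : ℤ) + ((i + L).toNat : ℤ) - L) = i + n' := by omega
  rw [e1, e2] at h3
  exact h3

theorem sat_period (hX : IsSub X) (hnp : NP X) (hlow : LowZ X) (hmin : Mini X) {g : Pt → Bool}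
    (hg : Loc X g) (hs : Sat X g) : ∃ q : ℕ, 1 ≤ q ∧ ∀ x ∈ X, g (sh q x) = g x := by
  obtain ⟨L, hL⟩ := sat_window hX hnp hlow hg hs
  obtain ⟨x₀, hx₀⟩ := hX.ne
  obtain ⟨n, n', hlt, hag⟩ := exists_return x₀ L
  have hper : ∀ t : ℤ, g (sh (t + (n' - n : ℤ)) x₀) = g (sh t x₀) := by
    intro t
    apply hL _ (hX.inv _ hx₀ _) _ (hX.inv _ hx₀ _) (n - t)
    rw [sh_sh, sh_sh]
    rw [show (n : ℤ) - t + (t + ((n' : ℤ) - n)) = n' by ring, show (n : ℤ) - t + t = n by ring]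
    exact hag.symm
  obtain ⟨M, hM⟩ := hg
  refine ⟨n' - n, by omega, fun x hx => ?_⟩
  obtain ⟨m, hm⟩ := hmin x₀ hx₀ x hx (M + (n' - n))
  have h1 := hM _ (hX.inv _ hx₀ m) x hx (hm.mono (by omega))
  have h2 := hM _ (hX.inv _ (hX.inv _ hx₀ m) ((n' - n : ℕ) : ℤ)) _ (hX.inv x hx _)
    (agr_shift hm (by omega))
  rw [← h1, ← h2, sh_sh]
  have := hper m
  rw [show (((n' - n : ℕ) : ℤ)) + m = m + ((n' : ℤ) - n) by omega]
  exact this

/-! ## Levels -/

/-- `q` divides all differences of sufficiently good returns of `x₀`. -/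
def Lev (x₀ : Pt) (q : ℕ) : Prop :=
  1 ≤ q ∧ ∃ M : ℕ, ∀ n n' : ℤ, agr (sh n x₀) (sh n' x₀) M → (q : ℤ) ∣ n - n'

theorem Lev.one (x₀ : Pt) : Lev x₀ 1 := ⟨le_rfl, 0, fun _ _ _ => by simp⟩

theorem Lev.lcm {x₀ : Pt} {q q' : ℕ} (h : Lev x₀ q) (h' : Lev x₀ q') : Lev x₀ (Nat.lcm q q') := by
  obtain ⟨h1, M, hM⟩ := h
  obtain ⟨h1', M', hM'⟩ := h'
  refine ⟨Nat.lcm_pos h1 h1', max M M', fun n n' ha => ?_⟩
  have := Int.coe_lcm_dvd (hM n n' (ha.mono (le_max_left _ _))) (hM' n n' (ha.mono (le_max_right _ _)))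
  simpa using this

theorem Lev.dvd {x₀ : Pt} {q q' : ℕ} (h : Lev x₀ q) (h' : q' ∣ q) : Lev x₀ q' := by
  obtain ⟨h1, M, hM⟩ := h
  exact ⟨Nat.pos_of_dvd_of_pos h' h1, M, fun n n' ha =>
    (Int.natCast_dvd_natCast.2 h').trans (hM n n' ha)⟩

theorem period_lev (hX : IsSub X) (hmin : Mini X) {x₀ : Pt} (hx₀ : x₀ ∈ X)
    {g : Pt → Bool} (hg : Loc X g) {q : ℕ} (hq : 1 ≤ q) (hper : ∀ x ∈ X, g (sh q x) = g x) :
    ∃ e : ℕ, Lev x₀ e ∧ e ∣ q ∧ ∀ x ∈ X, g (sh e x) = g x := by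
  classical
  set y : ℤ → Bool := fun n => g (sh n x₀) with hy
  have hyq : ∀ n, y (n + q) = y n := by
    intro n
    have := hper _ (hX.inv _ hx₀ n)
    rw [sh_sh] at this
    simp only [hy]
    rw [add_comm]; exact this
  have hex : ∃ e : ℕ, 1 ≤ e ∧ ∀ n, y (n + e) = y n := ⟨q, hq, hyq⟩
  set e := Nat.find hex with he
  obtain ⟨he1, hey⟩ := Nat.find_spec hex
  have hmine : ∀ m : ℕ, m < e → ¬ (1 ≤ m ∧ ∀ n, y (n + m) = y n) := fun m hm => Nat.find_min hex hm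
  rw [← he] at he1 hey
  have hmul : ∀ (k : ℤ) (n : ℤ), y (n + e * k) = y n := by
    intro k
    induction k using Int.induction_on with
    | zero => intro n; simp
    | succ k ih => intro n; rw [show n + (e : ℤ) * (k + 1) = (n + e * k) + e by ring, hey, ih]
    | pred k ih =>
      intro n
      have := hey (n + e * (-(k : ℤ) - 1))
      rw [show n + (e : ℤ) * (-(k : ℤ) - 1) + e = n + e * (-k) by ring, ih] at this
      exact this.symm
  have hdvd : ∀ s : ℤ, (∀ n, y (n + s) = y n) → (e : ℤ) ∣ s := by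
    intro s hs
    by_contra hnd
    have hpos : (0 : ℤ) < e := by omega
    have h1 := Int.emod_nonneg s hpos.ne'
    have h2 := Int.emod_lt_of_pos s hpos
    have h3 : s % (e : ℤ) ≠ 0 := fun h => hnd (Int.dvd_of_emod_eq_zero h)
    apply hmine (s % e).toNat (by omega)
    refine ⟨by omega, fun n => ?_⟩
    have h4 : ((s % (e : ℤ)).toNat : ℤ) = s + e * (-(s / e)) := by
      rw [Int.toNat_of_nonneg h1]; have := Int.emod_add_mul_ediv s e; linarith
    rw [h4, ← add_assoc, hmul, hs]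
  obtain ⟨M, hM⟩ := hg
  refine ⟨e, ⟨he1, M + q, fun n n' ha => hdvd _ ?_⟩, ?_, fun x hx => ?_⟩
  · -- n - n' is a period
    have h1 : ∀ i : ℤ, i.natAbs ≤ q → y (n + i) = y (n' + i) := by
      intro i hi
      simp only [hy]
      have := hM _ (hX.inv _ (hX.inv _ hx₀ n) i) _ (hX.inv _ (hX.inv _ hx₀ n') i)
        (agr_shift ha (by omega))
      rw [sh_sh, sh_sh] at this
      rw [add_comm n i, add_comm n' i]; exact this
    have hmulq : ∀ (k : ℤ) (n : ℤ), y (n + q * k) = y n := by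
      intro k
      induction k using Int.induction_on with
      | zero => intro n; simp
      | succ k ih => intro n; rw [show n + (q : ℤ) * (k + 1) = (n + q * k) + q by ring, hyq, ih]
      | pred k ih =>
        intro n
        have := hyq (n + q * (-(k : ℤ) - 1))
        rw [show n + (q : ℤ) * (-(k : ℤ) - 1) + q = n + q * (-k) by ring, ih] at this
        exact this.symm
    intro m
    -- m = n' + i mod q
    have hqpos : (0 : ℤ) < q := by omega
    set i := (m - n') % (q : ℤ) with hi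
    have hi0 := Int.emod_nonneg (m - n') hqpos.ne'
    have hi1 := Int.emod_lt_of_pos (m - n') hqpos
    have h2 := Int.emod_add_mul_ediv (m - n') q
    have e1 : m = (n' + i) + q * ((m - n') / q) := by rw [hi]; linarith
    have e2 : m + (n - n') = (n + i) + q * ((m - n') / q) := by rw [hi]; linarith
    rw [e2, hmulq, h1 i (by omega)]
    conv_rhs => rw [e1, hmulq]
  · exact_mod_cast hdvd q hyq
  · have heq : e ≤ q := Nat.find_min' hex ⟨hq, hyq⟩
    obtain ⟨m, hm⟩ := hmin x₀ hx₀ x hx (M + e)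
    have h1 := hM _ (hX.inv _ hx₀ m) x hx (hm.mono (by omega))
    have h2 := hM _ (hX.inv _ (hX.inv _ hx₀ m) (e : ℤ)) _ (hX.inv x hx _)
      (agr_shift hm (by omega))
    rw [← h1, ← h2, sh_sh]
    have := hey m
    simp only [hy] at this
    rw [add_comm]; exact this

/-- Saturated functions have a level as period. -/
theorem sat_lev (hX : IsSub X) (hnp : NP X) (hlow : LowZ X) (hmin : Mini X) {x₀ : Pt}
    (hx₀ : x₀ ∈ X) {g : Pt → Bool} (hg : Loc X g) (hs : Sat X g) :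
    ∃ e : ℕ, Lev x₀ e ∧ ∀ x ∈ X, g (sh e x) = g x := by
  obtain ⟨q, hq, hper⟩ := sat_period hX hnp hlow hmin hg hs
  obtain ⟨e, h1, -, h2⟩ := period_lev hX hmin hx₀ hg hq hper
  exact ⟨e, h1, h2⟩

theorem per_mul (hX : IsSub X) {g : Pt → Bool} {e : ℕ} (h : ∀ x ∈ X, g (sh e x) = g x) {n : ℤ}
    (hn : (e : ℤ) ∣ n) : ∀ x ∈ X, g (sh n x) = g x := by
  obtain ⟨k, rfl⟩ := hn
  induction k using Int.induction_on with
  | zero => intro x hx; simp
  | succ k ih =>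
    intro x hx
    rw [show (e : ℤ) * (k + 1) = e + e * k by ring, ← sh_sh, h _ (hX.inv _ hx _), ih x hx]
  | pred k ih =>
    intro x hx
    have := h _ (hX.inv _ hx (e * (-(k : ℤ) - 1)))
    rw [sh_sh, show (e : ℤ) + e * (-(k : ℤ) - 1) = e * (-k) by ring, ih x hx] at this
    exact this.symm

/-! ## Residue functions -/

/-- `r` is the residue function of level `q`. -/
structure ResF (X : Set Pt) (x₀ : Pt) (q : ℕ) (r : Pt → ZMod q) : Prop where
  eqv : ∀ x ∈ X, ∀ s : ℤ, r (sh s x) = r x + s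
  loc : ∃ M : ℕ, ∀ x ∈ X, ∀ y ∈ X, agr x y M → r x = r y
  base : r x₀ = 0

theorem exists_res (hX : IsSub X) (hmin : Mini X) {x₀ : Pt} (hx₀ : x₀ ∈ X) {q : ℕ}
    (h : Lev x₀ q) : ∃ r : Pt → ZMod q, ResF X x₀ q r := by
  classical
  obtain ⟨hq, M, hM⟩ := h
  let r : Pt → ZMod q := fun x => if h : ∃ n : ℤ, agr (sh n x₀) x M then ((h.choose : ℤ) : ZMod q) else 0
  have hr : ∀ x, ∀ n : ℤ, agr (sh n x₀) x M → r x = (n : ZMod q) := by
    intro x n hn
    have h : ∃ n : ℤ, agr (sh n x₀) x M := ⟨n, hn⟩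
    simp only [r, dif_pos h]
    have h1 := h.choose_spec
    have h2 := hM h.choose n (h1.trans hn.symm)
    have h3 := (ZMod.intCast_zmod_eq_zero_iff_dvd (h.choose - n) q).2 h2
    push_cast at h3
    exact sub_eq_zero.1 h3
  refine ⟨r, ⟨?_, ⟨M, ?_⟩, ?_⟩⟩
  · intro x hx s
    obtain ⟨n, hn⟩ := hmin x₀ hx₀ x hx (M + s.natAbs)
    rw [hr x n (hn.mono (by omega)), hr (sh s x) (s + n) (by rw [← sh_sh]; exact agr_shift hn le_rfl)]
    push_cast; ring
  · intro x hx y hy ha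
    obtain ⟨n, hn⟩ := hmin x₀ hx₀ x hx M
    rw [hr x n hn, hr y n (hn.trans ha)]
  · have := hr x₀ 0 (by rw [sh_zero]; exact agr_refl _ _)
    simpa using this

theorem ResF.sim {x₀ : Pt} {q : ℕ} {r : Pt → ZMod q} (hX : IsSub X) (h : ResF X x₀ q r)
    {x y : Pt} (hx : x ∈ X) (hy : y ∈ X) (hs : Sim x y) : r x = r y := by
  obtain ⟨M, hM⟩ := h.loc
  obtain ⟨N, hN⟩ := hs.far M
  have := hM _ (hX.inv _ hx N) _ (hX.inv _ hy N) (hN N (by simp))
  rw [h.eqv x hx, h.eqv y hy] at this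
  exact add_right_cancel this

/-- Points with equal residue: good returns between them are multiples of `q`. -/
theorem ResF.ret {x₀ : Pt} {q : ℕ} {r : Pt → ZMod q} (hmin : Mini X)
    (h : ResF X x₀ q r) {x y : Pt} (hx : x ∈ X) (hX : IsSub X) (hy : y ∈ X) (hr : r x = r y) (M : ℕ) :
    ∃ n : ℤ, (q : ℤ) ∣ n ∧ agr (sh n x) y M := by
  obtain ⟨M', hM'⟩ := h.loc
  obtain ⟨n, hn⟩ := hmin x hx y hy (max M M')
  refine ⟨n, ?_, hn.mono (le_max_left _ _)⟩
  have := hM' _ (hX.inv _ hx n) y hy (hn.mono (le_max_right _ _))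
  rw [h.eqv x hx, hr] at this
  have h0 : ((n : ℤ) : ZMod q) = 0 := by
    have := congrArg (fun t => t - r y) this
    simpa using this
  exact (ZMod.intCast_zmod_eq_zero_iff_dvd n q).1 h0

theorem ResF.det {x₀ : Pt} {q : ℕ} {r : Pt → ZMod q} (hmin : Mini X)
    (h : ResF X x₀ q r) (hX : IsSub X) {g : Pt → Bool} (hg : Loc X g)
    (hper : ∀ x ∈ X, g (sh q x) = g x) {x y : Pt} (hx : x ∈ X) (hy : y ∈ X) (hr : r x = r y) :
    g x = g y := by
  obtain ⟨M, hM⟩ := hg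
  obtain ⟨n, hn, ha⟩ := h.ret hmin hx hX hy hr M
  rw [← hM _ (hX.inv _ hx n) y hy ha, per_mul hX hper hn x hx]

theorem ResF.mono {x₀ : Pt} {q q' : ℕ} {r : Pt → ZMod q} {r' : Pt → ZMod q'} (hmin : Mini X)
    (h : ResF X x₀ q r) (h' : ResF X x₀ q' r') (hX : IsSub X) (hqq : q' ∣ q) {x y : Pt} (hx : x ∈ X)
    (hy : y ∈ X) (hr : r x = r y) : r' x = r' y := by
  obtain ⟨M', hM'⟩ := h'.loc
  obtain ⟨n, hn, ha⟩ := h.ret hmin hx hX hy hr M'
  rw [← hM' _ (hX.inv _ hx n) y hy ha, h'.eqv x hx]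
  have : ((n : ℤ) : ZMod q') = 0 :=
    (ZMod.intCast_zmod_eq_zero_iff_dvd n q').2 ((Int.natCast_dvd_natCast.2 hqq).trans hn)
  rw [this, add_zero]

theorem ResF.loc_eq {x₀ : Pt} {q : ℕ} {r : Pt → ZMod q} [DecidableEq (ZMod q)] (h : ResF X x₀ q r)
    (c : ZMod q) : Loc X (fun x => decide (r x = c)) := by
  obtain ⟨M, hM⟩ := h.loc
  exact ⟨M, fun x hx y hy ha => by simp only [hM x hx y hy ha]⟩

/-- Recurrence to the right. -/
theorem mini_right (hX : IsSub X) (hmin : Mini X) {x z : Pt} (hx : x ∈ X) (hz : z ∈ X)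
    (M : ℕ) (N : ℤ) : ∃ n : ℤ, N < n ∧ agr (sh n x) z M := by
  obtain ⟨φ, w, hφ, hw⟩ := exists_subseq (fun k => sh (k : ℤ) x)
  have hwX : w ∈ X := hX.mem_of_agr _ (fun k => hX.inv x hx _) hw
  obtain ⟨m, hm⟩ := hmin w hwX z hz M
  set k := M + m.natAbs + N.natAbs + m.natAbs + 1 with hk
  have h1 := hw k
  have h2 : agr (sh m (sh (φ k : ℤ) x)) (sh m w) M := agr_shift (h1.mono (by omega)) (le_refl m.natAbs)
  rw [sh_sh] at h2
  refine ⟨m + φ k, ?_, h2.trans hm⟩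
  have := hφ k
  omega

end

end PatSturm
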