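import Pool.Agent.LibPS.Sim

/-! # At most two asymptotic classes change a coordinate -/

namespace PatSturm

section
variable {X : Set Pt}

theorem bne3 {a b c : Bool} (h : a ≠ b) (h' : a ≠ c) : b = c := by
  revert h h'; revert a b c; decide

/-- Three pairwise non-asymptotic pairs changing the coordinate `0` are impossible. -/
theorem three_classes (hX : IsSub X) (hnp : NP X) (hlow : LowZ X)
    {x₁ y₁ x₂ y₂ x₃ y₃ : Pt} (hx₁ : x₁ ∈ X) (hy₁ : y₁ ∈ X) (hx₂ : x₂ ∈ X) (hy₂ : y₂ ∈ X)
    (hx₃ : x₃ ∈ X) (hy₃ : y₃ ∈ X) (s₁ : Sim x₁ y₁) (s₂ : Sim x₂ y₂) (s₃ : Sim x₃ y₃)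
    (d₁ : x₁ 0 ≠ y₁ 0) (d₂ : x₂ 0 ≠ y₂ 0) (d₃ : x₃ 0 ≠ y₃ 0)
    (n₁₂ : ¬ Sim x₁ x₂) (n₁₃ : ¬ Sim x₁ x₃) (n₂₃ : ¬ Sim x₂ x₃) : False := by
  obtain ⟨L₁, hL₁⟩ := not_sim_sep hX hnp hlow hx₁ hx₂ n₁₂
  obtain ⟨L₂, hL₂⟩ := not_sim_sep hX hnp hlow hx₁ hx₃ n₁₃
  obtain ⟨L₃, hL₃⟩ := not_sim_sep hX hnp hlow hx₂ hx₃ n₂₃
  set L0 := L₁ + L₂ + L₃ with hL0
  apply no_three X (fun _ => True) (Finset.Icc (-(L0 : ℤ)) L0) ⟨0, by simp⟩ trivial
    (fun K _ hK => hlow K hK)
  intro K hK _
  obtain ⟨M, hM⟩ := bdd_of_finset K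
  obtain ⟨N₁, hN₁⟩ := s₁.far M
  obtain ⟨N₂, hN₂⟩ := s₂.far M
  obtain ⟨N₃, hN₃⟩ := s₃.far M
  set k : ℤ := ((N₁ + N₂ + N₃ + M + 1 : ℕ) : ℤ) with hk
  have hkK : k ∉ K := fun h => by have := hM k h; omega
  have hspl : ∀ x ∈ X, ∀ y ∈ X, agr (sh (-k) x) (sh (-k) y) M → x 0 ≠ y 0 →
      Spl X K k (ztr (sh (-k) x) K) := by
    intro x hx y hy h1 h2
    refine ⟨_, hX.inv x hx _, _, hX.inv y hy (-k), rfl, ?_, ?_⟩
    · rw [ztr_eq_iff]
      intro i hi
      exact (h1 i (hM i hi)).symm
    · simpa [sh] using h2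
  have hne : ∀ x y : Pt, ∀ L : ℕ, L ≤ L0 → (∀ n : ℤ, ¬ agr (sh n x) (sh n y) L) →
      ztr (sh (-k) x) K ≠ ztr (sh (-k) y) K := by
    intro x y L hL h he
    rw [ztr_eq_iff] at he
    exact h (-k) fun i hi => he i (hK (by simp only [Finset.mem_Icc]; omega))
  exact ⟨k, hkK, trivial, _, _, _, hne x₁ x₂ L₁ (by omega) hL₁, hne x₁ x₃ L₂ (by omega) hL₂,
    hne x₂ x₃ L₃ (by omega) hL₃, hspl x₁ hx₁ y₁ hy₁ (hN₁ _ (by omega)) d₁,
    hspl x₂ hx₂ y₂ hy₂ (hN₂ _ (by omega)) d₂, hspl x₃ hx₃ y₃ hy₃ (hN₃ _ (by omega)) d₃⟩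

/-- The class of a point changes at most two coordinates. -/
theorem positions (hX : IsSub X) (hnp : NP X) (hlow : LowZ X)
    {x₁ y₁ x₂ y₂ x₃ y₃ : Pt} (hx₁ : x₁ ∈ X) (hy₁ : y₁ ∈ X) (hx₂ : x₂ ∈ X) (hy₂ : y₂ ∈ X)
    (hx₃ : x₃ ∈ X) (hy₃ : y₃ ∈ X) (s₁ : Sim x₁ y₁) (s₂ : Sim x₂ y₂) (s₃ : Sim x₃ y₃)
    (t₂ : Sim x₁ x₂) (t₃ : Sim x₁ x₃) {a b c : ℤ} (hab : a ≠ b) (hac : a ≠ c) (hbc : b ≠ c)
    (d₁ : x₁ a ≠ y₁ a) (d₂ : x₂ b ≠ y₂ b) (d₃ : x₃ c ≠ y₃ c) : False := by
  have key : ∀ (x y : Pt), x ∈ X → Sim x y → ∀ m n : ℤ, m ≠ n → ¬ Sim (sh m x) (sh n y) := by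
    intro x y hx hxy m n hmn h
    have h1 : Sim (sh m x) (sh n x) := h.trans (hxy.symm.shift n)
    have h2 := h1.shift (-m)
    rw [sh_sh, sh_sh] at h2
    simp only [neg_add_cancel, sh_zero] at h2
    exact not_sim_shift hX hnp hx (n := -m + n) (by omega) h2
  exact three_classes hX hnp hlow (hX.inv _ hx₁ a) (hX.inv _ hy₁ a) (hX.inv _ hx₂ b)
    (hX.inv _ hy₂ b) (hX.inv _ hx₃ c) (hX.inv _ hy₃ c) (s₁.shift a) (s₂.shift b) (s₃.shift c)
    (by simpa [sh] using d₁) (by simpa [sh] using d₂) (by simpa [sh] using d₃)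
    (key x₁ x₂ hx₁ t₂ a b hab) (key x₁ x₃ hx₁ t₃ a c hac)
    (key x₂ x₃ hx₂ (t₂.symm.trans t₃) b c hbc)

/-- Filling two coordinates. -/
def fil2 (x : Pt) (d : ℤ) (a b : Bool) : Pt := Function.update (Function.update x 0 a) d b

theorem fil2_zero {x : Pt} {d : ℤ} (hd : d ≠ 0) (a b : Bool) : fil2 x d a b 0 = a := by
  simp [fil2, hd.symm]

theorem fil2_d {x : Pt} {d : ℤ} (a b : Bool) : fil2 x d a b d = b := by
  simp [fil2]

theorem fil2_other {x : Pt} {d i : ℤ} (hi : i ≠ 0) (hid : i ≠ d) (a b : Bool) :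
    fil2 x d a b i = x i := by
  simp [fil2, hi, hid]

/-- All four fillings of two coordinates are impossible. -/
theorem no_four (hX : IsSub X) (hnp : NP X) (hlow : LowZ X) (x : Pt) (d : ℤ) (hd : d ≠ 0)
    (h : ∀ a b, fil2 x d a b ∈ X) : False := by
  classical
  obtain ⟨L, hL⟩ := hnp.sep hX d hd
  set F := fil2 x d with hF
  apply no_surplus X (fun _ => True) (Finset.Icc (-(L : ℤ)) L) ⟨0, by simp⟩ trivial
    (fun K _ hK => hlow K hK)
  intro K hK _
  obtain ⟨M, hM⟩ := bdd_of_finset K
  -- first new coordinate `k' = k + d`, second `k`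
  set k : ℤ := ((M + 3 * d.natAbs + 1 : ℕ) : ℤ) with hk
  set k' : ℤ := k + d with hk'
  have hkK : k ∉ K := fun h => by have := hM k h; omega
  have hk'K : k' ∉ K := fun h => by have := hM k' h; omega
  have hkk' : k ≠ k' := by omega
  -- the pattern on K does not depend on the filling
  have hpat : ∀ n : ℤ, (∀ i ∈ K, i + n ≠ 0 ∧ i + n ≠ d) → ∀ a b a' b',
      ztr (sh n (F a b)) K = ztr (sh n (F a' b')) K := by
    intro n hn a b a' b'
    rw [ztr_eq_iff]
    intro i hi
    simp only [sh_apply, hF]
    rw [fil2_other (hn i hi).1 (hn i hi).2, fil2_other (hn i hi).1 (hn i hi).2]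
  have hne : ∀ n : ℤ, ∀ a b a' b', (∀ i ∈ K, i + n ≠ 0 ∧ i + n ≠ d) →
      ztr (sh n (F a b)) K ≠ ztr (sh (n + d) (F a' b')) K := by
    intro n a b a' b' hn he
    rw [hpat n hn a b a' b'] at he
    rw [ztr_eq_iff] at he
    obtain ⟨i, hi, hne⟩ := hL _ (hX.inv _ (h a' b') n)
    apply hne
    have := he i (hK (by simp only [Finset.mem_Icc]; omega))
    simp only [sh_apply] at this ⊢
    rw [this]; congr 1; ring
  have hfar : ∀ n : ℤ, M + d.natAbs < n.natAbs → ∀ i ∈ K, i + n ≠ 0 ∧ i + n ≠ d := by
    intro n hn i hi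
    have := hM i hi
    constructor <;> omega
  -- step one
  have h1 := card_insert_ge X K k' hk'K
    {ztr (sh (-k') (F true true)) K, ztr (sh (-k' + d) (F true true)) K} (by
      intro u hu
      simp only [Finset.mem_insert, Finset.mem_singleton] at hu
      rcases hu with rfl | rfl
      · refine ⟨_, hX.inv _ (h true true) (-k'), _, hX.inv _ (h false true) (-k'), rfl,
          hpat _ (hfar _ (by omega)) _ _ _ _, ?_⟩
        simp only [sh_apply, add_neg_cancel, hF]
        rw [fil2_zero hd, fil2_zero hd]; simp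
      · refine ⟨_, hX.inv _ (h true true) (-k' + d), _, hX.inv _ (h true false) (-k' + d), rfl,
          hpat _ (hfar _ (by omega)) _ _ _ _, ?_⟩
        simp only [sh_apply, hF]
        rw [show k' + (-k' + d) = d by ring, fil2_d, fil2_d]; simp)
  rw [Finset.card_pair (hne _ _ _ _ _ (hfar _ (by omega)))] at h1
  -- step two
  have hk2 : k ∉ insert k' K := by simp [hkk', hkK]
  have hdist12 : ztr (sh (-k) (F true true)) (insert k' K) ≠
      ztr (sh (-k) (F true false)) (insert k' K) := by
    intro he
    rw [ztr_eq_iff] at he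
    have := he k' (Finset.mem_insert_self _ _)
    simp only [sh_apply, hF] at this
    rw [show k' + -k = d by omega, fil2_d, fil2_d] at this
    exact absurd this (by simp)
  have hdist13 : ∀ b, ztr (sh (-k) (F true b)) (insert k' K) ≠
      ztr (sh (-k + d) (F true true)) (insert k' K) := by
    intro b he
    rw [ztr_eq_iff] at he
    apply hne (-k) true b true true (hfar _ (by omega))
    rw [ztr_eq_iff]
    intro i hi
    exact he i (Finset.mem_insert_of_mem hi)
  have hpat2 : ∀ b, ztr (sh (-k) (F false b)) (insert k' K) = ztr (sh (-k) (F true b)) (insert k' K) := by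
    intro b
    rw [ztr_eq_iff]
    intro i hi
    rw [Finset.mem_insert] at hi
    rcases hi with rfl | hi
    · simp only [sh_apply, hF]
      rw [show k' + -k = d by omega, fil2_d, fil2_d]
    · have := hpat (-k) (hfar _ (by omega)) false b true b
      rw [ztr_eq_iff] at this
      exact this i hi
  have hpat3 : ztr (sh (-k + d) (F true false)) (insert k' K) =
      ztr (sh (-k + d) (F true true)) (insert k' K) := by
    rw [ztr_eq_iff]
    intro i hi
    rw [Finset.mem_insert] at hi
    rcases hi with rfl | hi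
    · simp only [sh_apply, hF]
      rw [show k' + (-k + d) = 2 * d by omega, fil2_other (by omega) (by omega),
        fil2_other (by omega) (by omega)]
    · have := hpat (-k + d) (hfar _ (by omega)) true false true true
      rw [ztr_eq_iff] at this
      exact this i hi
  have h2 := card_insert_ge X (insert k' K) k hk2
    {ztr (sh (-k) (F true true)) (insert k' K), ztr (sh (-k) (F true false)) (insert k' K),
      ztr (sh (-k + d) (F true true)) (insert k' K)} (by
      intro u hu
      simp only [Finset.mem_insert, Finset.mem_singleton] at hu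
      rcases hu with rfl | rfl | rfl
      · refine ⟨_, hX.inv _ (h true true) (-k), _, hX.inv _ (h false true) (-k), rfl, hpat2 _, ?_⟩
        simp only [sh_apply, add_neg_cancel, hF]
        rw [fil2_zero hd, fil2_zero hd]; simp
      · refine ⟨_, hX.inv _ (h true false) (-k), _, hX.inv _ (h false false) (-k), rfl, hpat2 _, ?_⟩
        simp only [sh_apply, add_neg_cancel, hF]
        rw [fil2_zero hd, fil2_zero hd]; simp
      · refine ⟨_, hX.inv _ (h true true) (-k + d), _, hX.inv _ (h true false) (-k + d), rfl,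
          hpat3, ?_⟩
        simp only [sh_apply, hF]
        rw [show k + (-k + d) = d by ring, fil2_d, fil2_d]; simp)
  have hc3 : ({ztr (sh (-k) (F true true)) (insert k' K), ztr (sh (-k) (F true false)) (insert k' K),
      ztr (sh (-k + d) (F true true)) (insert k' K)} : Finset (Finset ℤ)).card = 3 := by
    rw [Finset.card_eq_three]
    exact ⟨_, _, _, hdist12, hdist13 true, hdist13 false, rfl⟩
  rw [hc3] at h2
  refine ⟨insert k (insert k' K), ?_, trivial, ?_⟩
  · exact (Finset.subset_insert _ _).trans (Finset.subset_insert _ _)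
  · rw [Finset.card_insert_of_notMem hk2, Finset.card_insert_of_notMem hk'K]
    omega

/-! ## Links -/

/-- `(x, y)` is a link of `X`: an asymptotic pair with nothing in between. -/
structure Lnk (X : Set Pt) (x y : Pt) : Prop where
  mx : x ∈ X
  my : y ∈ X
  sim : Sim x y
  ne : x ≠ y
  btw : ∀ z ∈ X, (∀ i, z i = x i ∨ z i = y i) → z = x ∨ z = y

theorem Lnk.symm {x y : Pt} (h : Lnk X x y) : Lnk X y x :=
  ⟨h.my, h.mx, h.sim.symm, h.ne.symm, fun z hz hi =>
    (h.btw z hz fun i => (hi i).symm).symm⟩

theorem Lnk.shift (hX : IsSub X) {x y : Pt} (h : Lnk X x y) (n : ℤ) :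
    Lnk X (sh n x) (sh n y) := by
  refine ⟨hX.inv _ h.mx n, hX.inv _ h.my n, h.sim.shift n, ?_, ?_⟩
  · intro he
    apply h.ne
    have := congrArg (sh (-n)) he
    simpa [sh_sh] using this
  · intro z hz hi
    have h1 := h.btw (sh (-n) z) (hX.inv _ hz _) (fun i => by
      have := hi (i - n)
      simpa [sh, sub_eq_add_neg] using this)
    rcases h1 with h1 | h1
    · left; rw [← h1, sh_sh]; simp
    · right; rw [← h1, sh_sh]; simp

/-- Every asymptotic pair changing coordinate `0` gives a link changing coordinate `0`, in the same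
class. -/
theorem exists_lnk (hX : IsSub X) (hnp : NP X) (hlow : LowZ X) {x y : Pt} (hx : x ∈ X)
    (hy : y ∈ X) (h : Sim x y) (h0 : x 0 ≠ y 0) :
    ∃ x' y', Lnk X x' y' ∧ x' 0 ≠ y' 0 ∧ Sim x x' := by
  classical
  -- strong induction on the number of differences
  have key : ∀ n : ℕ, ∀ x y : Pt, x ∈ X → y ∈ X → Sim x y → x 0 ≠ y 0 →
      (∃ D : Finset ℤ, D.card ≤ n ∧ ∀ i, x i ≠ y i ↔ i ∈ D) →
      ∃ x' y', Lnk X x' y' ∧ x' 0 ≠ y' 0 ∧ Sim x x' := by
    intro n
    induction n with
    | zero =>
      intro x y hx hy h h0 ⟨D, hD, hi⟩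
      have : D = ∅ := Finset.card_eq_zero.1 (by omega)
      subst this
      exact absurd ((hi 0).1 h0) (by simp)
    | succ n ih =>
      intro x y hx hy h h0 ⟨D, hD, hi⟩
      by_cases hb : ∀ z ∈ X, (∀ i, z i = x i ∨ z i = y i) → z = x ∨ z = y
      · exact ⟨x, y, ⟨hx, hy, h, fun he => h0 (by rw [he]), hb⟩, h0, Sim.refl x⟩
      · push Not at hb
        obtain ⟨z, hz, hzi, hzx, hzy⟩ := hb
        have hxz : Sim x z := by
          refine h.subset ?_
          intro i hi'
          simp only [Set.mem_ofPred_eq] at hi' ⊢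
          rcases hzi i with h1 | h1
          · exact absurd h1.symm hi'
          · rwa [← h1]
        -- differences of sub-pairs
        have hDx : ∃ D' : Finset ℤ, D'.card ≤ n ∧ ∀ i, x i ≠ z i ↔ i ∈ D' := by
          obtain ⟨j, hj⟩ : ∃ j, z j ≠ y j := by
            by_contra hc; push Not at hc; exact hzy (funext hc)
          have hjD : j ∈ D := by
            rw [← hi]
            rcases hzi j with h1 | h1
            · rwa [← h1]
            · exact absurd h1 hj
          refine ⟨D.filter (fun i => x i ≠ z i), ?_, ?_⟩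
          · have hsub : D.filter (fun i => x i ≠ z i) ⊆ D.erase j := by
              intro i hi'
              rw [Finset.mem_filter] at hi'
              rw [Finset.mem_erase]
              refine ⟨?_, hi'.1⟩
              rintro rfl
              rcases hzi i with h1 | h1
              · exact hi'.2 h1.symm
              · exact hj h1
            have := Finset.card_le_card hsub
            rw [Finset.card_erase_of_mem hjD] at this
            omega
          · intro i
            rw [Finset.mem_filter]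
            constructor
            · intro h1
              refine ⟨(hi i).1 ?_, h1⟩
              rcases hzi i with h2 | h2
              · exact absurd h2.symm h1
              · rwa [← h2]
            · exact fun h1 => h1.2
        have hDy : ∃ D' : Finset ℤ, D'.card ≤ n ∧ ∀ i, z i ≠ y i ↔ i ∈ D' := by
          obtain ⟨j, hj⟩ : ∃ j, z j ≠ x j := by
            by_contra hc; push Not at hc; exact hzx (funext hc)
          have hjD : j ∈ D := by
            rw [← hi]
            rcases hzi j with h1 | h1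
            · exact absurd h1 hj
            · rw [← h1]; exact hj.symm
          refine ⟨D.filter (fun i => z i ≠ y i), ?_, ?_⟩
          · have hsub : D.filter (fun i => z i ≠ y i) ⊆ D.erase j := by
              intro i hi'
              rw [Finset.mem_filter] at hi'
              rw [Finset.mem_erase]
              refine ⟨?_, hi'.1⟩
              rintro rfl
              rcases hzi i with h1 | h1
              · exact hj h1
              · exact hi'.2 h1
            have := Finset.card_le_card hsub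
            rw [Finset.card_erase_of_mem hjD] at this
            omega
          · intro i
            rw [Finset.mem_filter]
            constructor
            · intro h1
              refine ⟨(hi i).1 ?_, h1⟩
              rcases hzi i with h2 | h2
              · rwa [← h2]
              · exact absurd h2 h1
            · exact fun h1 => h1.2
        rcases hzi 0 with h1 | h1
        · -- z 0 = x 0, so z, y differ at 0
          obtain ⟨x', y', h2, h3, h4⟩ := ih z y hz hy (hxz.symm.trans h) (by rwa [h1]) hDy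
          exact ⟨x', y', h2, h3, hxz.trans h4⟩
        · exact ih x z hx hz hxz (by rwa [h1]) hDx
  obtain ⟨D, hD, hi⟩ := Sim.card hX hnp hlow hx hy h
  exact key 2 x y hx hy h h0 ⟨D, hD, hi⟩

/-- A function not cutting any link is constant on asymptotic classes. -/
theorem lnk_sat (hX : IsSub X) (hnp : NP X) (hlow : LowZ X) (g : Pt → Bool)
    (hg : ∀ x y, Lnk X x y → g x = g y) {x y : Pt} (hx : x ∈ X)
    (hy : y ∈ X) (h : Sim x y) : g x = g y := by
  classical
  have key : ∀ n : ℕ, ∀ x y : Pt, x ∈ X → y ∈ X → Sim x y →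
      (∃ D : Finset ℤ, D.card ≤ n ∧ ∀ i, x i ≠ y i ↔ i ∈ D) → g x = g y := by
    intro n
    induction n with
    | zero =>
      intro x y hx hy h ⟨D, hD, hi⟩
      have : D = ∅ := Finset.card_eq_zero.1 (by omega)
      subst this
      have : x = y := funext fun i => by
        by_contra hc; exact absurd ((hi i).1 hc) (by simp)
      rw [this]
    | succ n ih =>
      intro x y hx hy h ⟨D, hD, hi⟩
      by_cases hxy : x = y
      · rw [hxy]
      by_cases hb : ∀ z ∈ X, (∀ i, z i = x i ∨ z i = y i) → z = x ∨ z = y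
      · exact hg x y ⟨hx, hy, h, hxy, hb⟩
      · push Not at hb
        obtain ⟨z, hz, hzi, hzx, hzy⟩ := hb
        have hxz : Sim x z := by
          refine h.subset ?_
          intro i hi'
          simp only [Set.mem_ofPred_eq] at hi' ⊢
          rcases hzi i with h1 | h1
          · exact absurd h1.symm hi'
          · rwa [← h1]
        have hDx : ∃ D' : Finset ℤ, D'.card ≤ n ∧ ∀ i, x i ≠ z i ↔ i ∈ D' := by
          obtain ⟨j, hj⟩ : ∃ j, z j ≠ y j := by
            by_contra hc; push Not at hc; exact hzy (funext hc)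
          have hjD : j ∈ D := by
            rw [← hi]
            rcases hzi j with h1 | h1
            · rwa [← h1]
            · exact absurd h1 hj
          refine ⟨D.filter (fun i => x i ≠ z i), ?_, ?_⟩
          · have hsub : D.filter (fun i => x i ≠ z i) ⊆ D.erase j := by
              intro i hi'
              rw [Finset.mem_filter] at hi'
              rw [Finset.mem_erase]
              refine ⟨?_, hi'.1⟩
              rintro rfl
              rcases hzi i with h1 | h1
              · exact hi'.2 h1.symm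
              · exact hj h1
            have := Finset.card_le_card hsub
            rw [Finset.card_erase_of_mem hjD] at this
            omega
          · intro i
            rw [Finset.mem_filter]
            constructor
            · intro h1
              refine ⟨(hi i).1 ?_, h1⟩
              rcases hzi i with h2 | h2
              · exact absurd h2.symm h1
              · rwa [← h2]
            · exact fun h1 => h1.2
        have hDy : ∃ D' : Finset ℤ, D'.card ≤ n ∧ ∀ i, z i ≠ y i ↔ i ∈ D' := by
          obtain ⟨j, hj⟩ : ∃ j, z j ≠ x j := by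
            by_contra hc; push Not at hc; exact hzx (funext hc)
          have hjD : j ∈ D := by
            rw [← hi]
            rcases hzi j with h1 | h1
            · exact absurd h1 hj
            · rw [← h1]; exact hj.symm
          refine ⟨D.filter (fun i => z i ≠ y i), ?_, ?_⟩
          · have hsub : D.filter (fun i => z i ≠ y i) ⊆ D.erase j := by
              intro i hi'
              rw [Finset.mem_filter] at hi'
              rw [Finset.mem_erase]
              refine ⟨?_, hi'.1⟩
              rintro rfl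
              rcases hzi i with h1 | h1
              · exact hj h1
              · exact hi'.2 h1
            have := Finset.card_le_card hsub
            rw [Finset.card_erase_of_mem hjD] at this
            omega
          · intro i
            rw [Finset.mem_filter]
            constructor
            · intro h1
              refine ⟨(hi i).1 ?_, h1⟩
              rcases hzi i with h2 | h2
              · rwa [← h2]
              · exact absurd h2 h1
            · exact fun h1 => h1.2
        rw [ih x z hx hz hxz hDx, ih z y hz hy (hxz.symm.trans h) hDy]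
  obtain ⟨D, hD, hi⟩ := Sim.card hX hnp hlow hx hy h
  exact key 2 x y hx hy h ⟨D, hD, hi⟩

/-- An oriented link at the coordinate `0`. -/
structure Lnk0 (X : Set Pt) (x y : Pt) : Prop where
  lnk : Lnk X x y
  px : x 0 = true
  py : y 0 = false

theorem lnk0_of {x y : Pt} (h : Lnk X x y) (h0 : x 0 ≠ y 0) : Lnk0 X x y ∨ Lnk0 X y x := by
  cases hx : x 0 <;> cases hy : y 0
  · rw [hx, hy] at h0; simp at h0
  · right; exact ⟨h.symm, hy, hx⟩
  · left; exact ⟨h, hx, hy⟩
  · rw [hx, hy] at h0; simp at h0

/-- Distinct links at `0` lie in different classes. -/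
theorem lnk0_class (hX : IsSub X) (hnp : NP X) (hlow : LowZ X) {x y x' y' : Pt}
    (h : Lnk0 X x y) (h' : Lnk0 X x' y') (hs : Sim x x') : x = x' ∧ y = y' := by
  by_contra hne
  -- there is another coordinate where the class changes
  have hpos : ∀ u v u' v' : Pt, u ∈ X → v ∈ X → u' ∈ X → v' ∈ X → Sim x u → Sim u v → Sim x u' →
      Sim u' v' → ∀ a b : ℤ, a ≠ 0 → b ≠ 0 → u a ≠ v a → u' b ≠ v' b → a = b := by
    intro u v u' v' hu hv hu' hv' h1 h2 h3 h4 a b ha hb h5 h6
    by_contra hab
    exact positions hX hnp hlow h.lnk.mx h.lnk.my hu hv hu' hv' h.lnk.sim h2 h4 h1 h3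
      (Ne.symm ha) (Ne.symm hb) hab (by rw [h.px, h.py]; simp) h5 h6
  have hsy : Sim x y := h.lnk.sim
  have hsy' : Sim x y' := hs.trans h'.lnk.sim
  -- x ≠ x'
  have hx0 : x 0 = x' 0 := by rw [h.px, h'.px]
  have hy0 : y 0 = y' 0 := by rw [h.py, h'.py]
  obtain ⟨d, hd0, hd⟩ : ∃ d : ℤ, d ≠ 0 ∧ (x d ≠ x' d ∨ y d ≠ y' d) := by
    by_contra hc
    push Not at hc
    apply hne
    constructor
    · funext i
      by_cases hi : i = 0
      · rw [hi, hx0]
      · exact (hc i hi).1
    · funext i
      by_cases hi : i = 0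
      · rw [hi, hy0]
      · exact (hc i hi).2
  -- every element of the class is determined by the values at 0 and d
  have hdet : ∀ z ∈ X, Sim x z → ∀ i, i ≠ 0 → i ≠ d → z i = x i := by
    intro z hz hxz i hi0 hid
    by_contra hc
    rcases hd with hd | hd
    · exact hid (hpos x z x x' h.lnk.mx hz h.lnk.mx h'.lnk.mx (Sim.refl _) hxz (Sim.refl _) hs
        i d hi0 hd0 (Ne.symm hc) hd)
    · exact hid (hpos x z y y' h.lnk.mx hz h.lnk.my h'.lnk.my (Sim.refl _) hxz hsy
        (hsy.symm.trans hsy') i d hi0 hd0 (Ne.symm hc) hd)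
  have hfil : ∀ z ∈ X, Sim x z → z = fil2 x d (z 0) (z d) := by
    intro z hz hxz
    funext i
    by_cases hi0 : i = 0
    · rw [hi0, fil2_zero hd0]
    · by_cases hid : i = d
      · rw [hid, fil2_d]
      · rw [fil2_other hi0 hid]; exact hdet z hz hxz i hi0 hid
  have hX1 := hfil x h.lnk.mx (Sim.refl _)
  have hX2 := hfil x' h'.lnk.mx hs
  have hY1 := hfil y h.lnk.my hsy
  have hY2 := hfil y' h'.lnk.my hsy'
  rw [h.px] at hX1; rw [h'.px] at hX2; rw [h.py] at hY1; rw [h'.py] at hY2
  -- x d ≠ x' d and y d ≠ y' d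
  have hxd : x d ≠ x' d := by
    intro he
    have hyd : y d ≠ y' d := by
      rcases hd with hd | hd
      · exact absurd he hd
      · exact hd
    have hxx : x = x' := by rw [hX1, hX2, he]
    -- one of y, y' agrees with x at d
    by_cases h1 : y d = x d
    · -- y is between x and y'
      have h2 := h'.lnk.btw y h.lnk.my (fun i => by
        by_cases hi0 : i = 0
        · right; rw [hi0, hy0]
        · by_cases hid : i = d
          · left; rw [hid, h1, hxx]
          · left; rw [hdet y h.lnk.my hsy i hi0 hid, hxx])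
      rcases h2 with h2 | h2
      · have := congrFun h2 0
        rw [h.py, h'.px] at this; simp at this
      · exact hyd (congrFun h2 d)
    · have h1' : y' d = x d := bne3 hyd h1
      have h2 := h.lnk.btw y' h'.lnk.my (fun i => by
        by_cases hi0 : i = 0
        · right; rw [hi0, hy0]
        · by_cases hid : i = d
          · left; rw [hid, h1']
          · left; rw [hdet y' h'.lnk.my hsy' i hi0 hid])
      rcases h2 with h2 | h2
      · have := congrFun h2 0
        rw [h.px, h'.py] at this; simp at this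
      · exact hyd (congrFun h2 d).symm
  have hyd : y d ≠ y' d := by
    intro he
    have hyy : y = y' := by rw [hY1, hY2, he]
    by_cases h1 : x d = y d
    · have h2 := h'.lnk.btw x h.lnk.mx (fun i => by
        by_cases hi0 : i = 0
        · left; rw [hi0, hx0]
        · by_cases hid : i = d
          · right; rw [hid, h1, hyy]
          · left; rw [hdet x' h'.lnk.mx hs i hi0 hid])
      rcases h2 with h2 | h2
      · exact hxd (congrFun h2 d)
      · have := congrFun h2 0
        rw [h.px, h'.py] at this; simp at this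
    · have h1' : x' d = y d := bne3 hxd h1
      have h2 := h.lnk.btw x' h'.lnk.mx (fun i => by
        by_cases hi0 : i = 0
        · left; rw [hi0, hx0]
        · by_cases hid : i = d
          · right; rw [hid, h1']
          · left; rw [hdet x' h'.lnk.mx hs i hi0 hid])
      rcases h2 with h2 | h2
      · exact hxd (congrFun h2 d).symm
      · have := congrFun h2 0
        rw [h'.px, h.py] at this; simp at this
  apply no_four hX hnp hlow x d hd0
  have hcov : ∀ (a : Bool) (u v : Pt), u ∈ X → v ∈ X → u = fil2 x d a (u d) → v = fil2 x d a (v d) →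
      u d ≠ v d → ∀ b, fil2 x d a b ∈ X := by
    intro a u v hu hv h1 h2 h3 b
    by_cases hb : b = u d
    · rw [hb, ← h1]; exact hu
    · have : b = v d := bne3 (Ne.symm hb) h3
      rw [this, ← h2]; exact hv
  intro a
  cases a
  · exact hcov false y y' h.lnk.my h'.lnk.my hY1 hY2 hyd
  · exact hcov true x x' h.lnk.mx h'.lnk.mx hX1 hX2 hxd

/-- There are at most two oriented links at `0`. -/
theorem lnk0_three (hX : IsSub X) (hnp : NP X) (hlow : LowZ X) {x₁ y₁ x₂ y₂ x₃ y₃ : Pt}
    (h₁ : Lnk0 X x₁ y₁) (h₂ : Lnk0 X x₂ y₂) (h₃ : Lnk0 X x₃ y₃) :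
    (x₁ = x₂ ∧ y₁ = y₂) ∨ (x₁ = x₃ ∧ y₁ = y₃) ∨ (x₂ = x₃ ∧ y₂ = y₃) := by
  by_cases h12 : Sim x₁ x₂
  · left; exact lnk0_class hX hnp hlow h₁ h₂ h12
  by_cases h13 : Sim x₁ x₃
  · right; left; exact lnk0_class hX hnp hlow h₁ h₃ h13
  by_cases h23 : Sim x₂ x₃
  · right; right; exact lnk0_class hX hnp hlow h₂ h₃ h23
  exfalso
  exact three_classes hX hnp hlow h₁.lnk.mx h₁.lnk.my h₂.lnk.mx h₂.lnk.my h₃.lnk.mx h₃.lnk.my
    h₁.lnk.sim h₂.lnk.sim h₃.lnk.sim (by rw [h₁.px, h₁.py]; simp) (by rw [h₂.px, h₂.py]; simp)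
    (by rw [h₃.px, h₃.py]; simp) h12 h13 h23

/-- There is at least one oriented link at `0`. -/
theorem exists_lnk0 (hX : IsSub X) (hnp : NP X) (hlow : LowZ X) : ∃ x y, Lnk0 X x y := by
  obtain ⟨x, hx, y, hy, hs, h0⟩ := exists_asymp hX hnp hlow
  obtain ⟨x', y', h1, h2, -⟩ := exists_lnk hX hnp hlow hx hy hs h0
  rcases lnk0_of h1 h2 with h | h
  · exact ⟨_, _, h⟩
  · exact ⟨_, _, h⟩

/-- Every link is a shift of an oriented link at `0`. -/
theorem lnk_shift_lnk0 (hX : IsSub X) {x y : Pt} (h : Lnk X x y) :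
    ∃ n : ℤ, Lnk0 X (sh n x) (sh n y) ∨ Lnk0 X (sh n y) (sh n x) := by
  obtain ⟨n, hn⟩ : ∃ n, x n ≠ y n := by
    by_contra hc; push Not at hc; exact h.ne (funext hc)
  exact ⟨n, lnk0_of (h.shift hX n) (by simpa [sh] using hn)⟩

end

end PatSturm
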