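import Pool.Agent.LibPS.Defs

/-!
# One-hole words of low pattern complexity: existence of a level

A word with one hole all of whose windows show at most `2|K|` patterns, without periods and with
levels, is, along some level, a simple Toeplitz word.
-/

namespace PatSturm

namespace OneHole

/-- At most `2|K|-2` nonconstant patterns on every window. -/
def Good (u : Pt) : Prop :=
  ∀ K : Finset ℤ, K.Nonempty → ((hp u K).filter (fun s => s ≠ ∅ ∧ s ≠ K)).card + 2 ≤ 2 * K.card

/-- Each position off the hole is periodic. -/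
def Settled (u : Pt) : Prop := ∀ n : ℤ, n ≠ 0 → ∃ P : ℤ, 1 ≤ P ∧ ∀ j : ℤ, u (n + P * j) = u n

/-- The hypotheses kept along the iteration. -/
structure HG (u : Pt) : Prop where
  good : Good u
  settled : Settled u
  np : HNP u

theorem fil_ne {w : Pt} {v : Bool} {n : ℤ} (h : n ≠ 0) : fil w v n = w n := by
  simp [fil, Function.update, h]

theorem fil_zero {w : Pt} {v : Bool} : fil w v 0 = v := by
  simp [fil, Function.update]

theorem mem_hp {w : Pt} {K s : Finset ℤ} :
    s ∈ hp w K ↔ ∃ (v : Bool) (n : ℤ), ztr (sh n (fil w v)) K = s := by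
  classical
  unfold hp
  simp only [Finset.mem_filter, Finset.mem_powerset]
  constructor
  · rintro ⟨-, h⟩; exact h
  · rintro ⟨v, n, rfl⟩
    exact ⟨Finset.filter_subset _ _, v, n, rfl⟩

theorem mem_ztr {x : Pt} {K : Finset ℤ} {k : ℤ} : k ∈ ztr x K ↔ k ∈ K ∧ x k = true := by
  unfold ztr
  exact Finset.mem_filter

/-- Counting in terms of injective families of patterns. -/
theorem good_count {u : Pt} (hu : Good u) {m r : ℕ} (k : Fin m → ℤ) (hk : Function.Injective k)
    (hm : 0 < m) (v : Fin r → Bool) (n : Fin r → ℤ)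
    (hinj : Function.Injective (fun (i : Fin r) (t : Fin m) => fil u (v i) (k t + n i)))
    (hnc : ∀ i : Fin r, ∀ b : Bool, ∃ t : Fin m, fil u (v i) (k t + n i) ≠ b) :
    r + 2 ≤ 2 * m := by
  classical
  set K : Finset ℤ := Finset.univ.image k with hK
  have hKc : K.card = m := by
    rw [hK, Finset.card_image_of_injective _ hk]; simp
  have hne : K.Nonempty := by
    rw [← Finset.card_pos, hKc]; exact hm
  have h1 := hu K hne
  rw [hKc] at h1
  refine le_trans ?_ h1
  have h2 : (Finset.univ.image (fun i : Fin r => ztr (sh (n i) (fil u (v i))) K)).card = r := by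
    rw [Finset.card_image_of_injective]
    · simp
    · intro i i' hii
      apply hinj
      funext t
      have hmem : k t ∈ K := by rw [hK]; exact Finset.mem_image_of_mem _ (Finset.mem_univ _)
      have h3 : (k t ∈ ztr (sh (n i) (fil u (v i))) K) ↔ (k t ∈ ztr (sh (n i') (fil u (v i'))) K) := by
        simp only at hii
        rw [hii]
      rw [mem_ztr, mem_ztr] at h3
      simp only [hmem, true_and, sh_apply] at h3
      cases h4 : fil u (v i) (k t + n i) <;> cases h5 : fil u (v i') (k t + n i') <;>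
        simp_all
  have h3 : (Finset.univ.image (fun i : Fin r => ztr (sh (n i) (fil u (v i))) K)) ⊆
      (hp u K).filter (fun s => s ≠ ∅ ∧ s ≠ K) := by
    intro s hs
    rw [Finset.mem_image] at hs
    obtain ⟨i, -, rfl⟩ := hs
    rw [Finset.mem_filter]
    refine ⟨mem_hp.2 ⟨_, _, rfl⟩, ?_, ?_⟩
    · obtain ⟨t, ht⟩ := hnc i false
      intro h
      have hmem : k t ∈ ztr (sh (n i) (fil u (v i))) K := by
        rw [mem_ztr, sh_apply]
        refine ⟨by rw [hK]; exact Finset.mem_image_of_mem _ (Finset.mem_univ _), ?_⟩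
        simpa using ht
      rw [h] at hmem
      exact absurd hmem (Finset.notMem_empty _)
    · obtain ⟨t, ht⟩ := hnc i true
      intro h
      have hmem : k t ∈ ztr (sh (n i) (fil u (v i))) K := by
        rw [h, hK]; exact Finset.mem_image_of_mem _ (Finset.mem_univ _)
      rw [mem_ztr, sh_apply] at hmem
      exact ht hmem.2
  have h4 := Finset.card_le_card h3
  rw [h2] at h4
  omega

/-- `u (j t) = a` for all `j ≥ 1` contradicts that `u (-t) ≠ a` is settled. -/
theorem settled_contra {u : Pt} (hs : Settled u) {t : ℤ} (ht : t ≠ 0) {a : Bool}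
    (h1 : ∀ j : ℕ, u (((j : ℤ) + 1) * t) = a) (h2 : u (-t) = !a) : False := by
  obtain ⟨P, hP, hPj⟩ := hs (-t) (by simpa using ht)
  have h3 := hPj (2 * t)
  have h4 := h1 (2 * P - 2).toNat
  have h5 : (((2 * P - 2).toNat : ℤ) + 1) * t = -t + P * (2 * t) := by
    rw [Int.toNat_of_nonneg (by omega)]; ring
  rw [h5, h3, h2] at h4
  cases a <;> simp at h4

theorem inj3 {x y z : ℤ} (h1 : x ≠ y) (h2 : x ≠ z) (h3 : y ≠ z) :
    Function.Injective ![x, y, z] := by
  intro i j hij
  fin_cases i <;> fin_cases j <;>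
    first
    | rfl
    | exact absurd hij h1
    | exact absurd hij h2
    | exact absurd hij h3
    | exact absurd hij.symm h1
    | exact absurd hij.symm h2
    | exact absurd hij.symm h3

theorem inj4 {x y z w : ℤ} (h1 : x ≠ y) (h2 : x ≠ z) (h3 : x ≠ w) (h4 : y ≠ z) (h5 : y ≠ w)
    (h6 : z ≠ w) : Function.Injective ![x, y, z, w] := by
  intro i j hij
  fin_cases i <;> fin_cases j <;>
    first
    | rfl
    | exact absurd hij h1
    | exact absurd hij h2
    | exact absurd hij h3
    | exact absurd hij h4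
    | exact absurd hij h5
    | exact absurd hij h6
    | exact absurd hij.symm h1
    | exact absurd hij.symm h2
    | exact absurd hij.symm h3
    | exact absurd hij.symm h4
    | exact absurd hij.symm h5
    | exact absurd hij.symm h6

theorem tab5_inj (a z : Bool) : Function.Injective
    (![![a, a, !a], ![!a, a, !a], ![!a, a, a], ![!a, !a, a], ![a, !a, z]] :
      Fin 5 → Fin 3 → Bool) := by
  revert a z
  decide

theorem tab8_inj (b : Bool) : Function.Injective
    (![![b, b, !b, !b], ![!b, b, !b, !b], ![b, b, b, !b], ![b, !b, b, !b],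
        ![!b, b, b, b], ![!b, b, !b, b], ![!b, !b, b, b], ![!b, !b, b, !b]] :
      Fin 8 → Fin 4 → Bool) := by
  revert b
  decide

theorem tab8_nc (b : Bool) (i : Fin 8) (c : Bool) : ∃ t : Fin 4,
    (![![b, b, !b, !b], ![!b, b, !b, !b], ![b, b, b, !b], ![b, !b, b, !b],
        ![!b, b, b, b], ![!b, b, !b, b], ![!b, !b, b, b], ![!b, !b, b, !b]] :
      Fin 8 → Fin 4 → Bool) i t ≠ c := by
  revert b i c
  decide

theorem sym_aux {u : Pt} (hu : HG u) {t : ℤ} (ht : t ≠ 0) {a : Bool} (h1 : u t = a)
    (h2 : u (-t) = !a) : False := by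
  -- a window showing `(a, ¬a)` at distance `t`
  have hwin : ∃ n : ℤ, n ≠ 0 ∧ n + t ≠ 0 ∧ u n = a ∧ u (n + t) = !a := by
    by_contra hcon
    push Not at hcon
    apply settled_contra hu.settled ht (a := a) _ h2
    intro j
    induction j with
    | zero => simpa using h1
    | succ j ih =>
      have h3 : ((j : ℤ) + 1) * t ≠ 0 := mul_ne_zero (by omega) ht
      have h4 : ((j : ℤ) + 1) * t + t ≠ 0 := by
        have : ((j : ℤ) + 1) * t + t = ((j : ℤ) + 2) * t := by ring
        rw [this]; exact mul_ne_zero (by omega) ht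
      have h5 := hcon _ h3 h4 ih
      have h6 : (((j + 1 : ℕ) : ℤ) + 1) * t = ((j : ℤ) + 1) * t + t := by push_cast; ring
      rw [h6]
      cases a <;> simpa using h5
  obtain ⟨n, hn0, hnt, hna, hnta⟩ := hwin
  apply settled_contra hu.settled ht (a := a) _ h2
  intro j
  induction j with
  | zero => simpa using h1
  | succ j ih =>
    by_contra hne
    set l : ℤ := (((j + 1 : ℕ) : ℤ) + 1) * t with hl
    have hlt : l - t = ((j : ℤ) + 1) * t := by rw [hl]; push_cast; ring
    have hl0 : l ≠ 0 := by rw [hl]; exact mul_ne_zero (by omega) ht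
    have hlt0 : l - t ≠ 0 := by rw [hlt]; exact mul_ne_zero (by omega) ht
    rw [← hlt] at ih
    have hla : u l = !a := by cases a <;> simpa using hne
    have hcount := good_count hu.good (m := 3) (r := 5) ![0, t, l]
      (inj3 ht.symm hl0.symm (fun h => hlt0 (by rw [← h]; ring))) (by norm_num)
      ![a, !a, a, !a, a] ![0, 0, -t, -t, n] (by
        have hf : (fun (i : Fin 5) (x : Fin 3) => fil u (![a, !a, a, !a, a] i)
            (![0, t, l] x + ![0, 0, -t, -t, n] i)) =
            ![![a, a, !a], ![!a, a, !a], ![!a, a, a], ![!a, !a, a],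
              ![a, !a, fil u a (l + n)]] := by
          funext i x
          have e1 : l + -t ≠ 0 := by simpa [sub_eq_add_neg] using hlt0
          have e2 : u (l + -t) = a := by simpa [sub_eq_add_neg] using ih
          have e3 : t + n ≠ 0 := by rw [add_comm]; exact hnt
          have e4 : u (t + n) = !a := by rw [add_comm]; exact hnta
          fin_cases i <;> fin_cases x <;>
            simp [fil_zero, fil_ne, ht, hl0, hn0, h1, h2, hla, hna, e1, e2, e3, e4]
        rw [hf]
        exact tab5_inj _ _) (by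
        intro i b
        have e1 : l + -t ≠ 0 := by simpa [sub_eq_add_neg] using hlt0
        have e2 : u (l + -t) = a := by simpa [sub_eq_add_neg] using ih
        have e3 : t + n ≠ 0 := by rw [add_comm]; exact hnt
        have e4 : u (t + n) = !a := by rw [add_comm]; exact hnta
        have hx : ∃ x y : Fin 3, fil u (![a, !a, a, !a, a] i)
            (![0, t, l] x + ![0, 0, -t, -t, n] i) = a ∧ fil u (![a, !a, a, !a, a] i)
            (![0, t, l] y + ![0, 0, -t, -t, n] i) = !a := by
          fin_cases i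
          · exact ⟨0, 2, by simp [fil_zero], by simp [fil_ne, hl0, hla]⟩
          · exact ⟨1, 2, by simp [fil_ne, ht, h1], by simp [fil_ne, hl0, hla]⟩
          · exact ⟨2, 0, by simp [fil_ne, e1, e2], by simp [fil_ne, ht, h2]⟩
          · exact ⟨2, 0, by simp [fil_ne, e1, e2], by simp [fil_ne, ht, h2]⟩
          · exact ⟨0, 1, by simp [fil_ne, hn0, hna], by simp [fil_ne, e3, e4]⟩
        obtain ⟨x, y, hx, hy⟩ := hx
        by_cases hb : b = a
        · exact ⟨y, by rw [hy, hb]; cases a <;> simp⟩
        · exact ⟨x, by rw [hx]; exact fun h => hb h.symm⟩)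
    omega

theorem sym {u : Pt} (hu : HG u) (t : ℤ) (ht : t ≠ 0) : u (-t) = u t := by
  by_contra h
  refine sym_aux hu ht (a := u t) rfl ?_
  cases h1 : u t <;> cases h2 : u (-t) <;> simp_all

/-- No induced path on four vertices. -/
theorem noP4 {u : Pt} (hu : HG u) {k₁ k₂ k₃ k₄ : ℤ} {b : Bool} (h12 : k₁ ≠ k₂) (h13 : k₁ ≠ k₃)
    (h14 : k₁ ≠ k₄) (h23 : k₂ ≠ k₃) (h24 : k₂ ≠ k₄) (h34 : k₃ ≠ k₄)
    (e12 : u (k₁ - k₂) = b) (e23 : u (k₂ - k₃) = b) (e34 : u (k₃ - k₄) = b)
    (e13 : u (k₁ - k₃) = !b) (e14 : u (k₁ - k₄) = !b) (e24 : u (k₂ - k₄) = !b) : False := by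
  have S : ∀ x y : ℤ, x ≠ y → ∀ c : Bool, u (x - y) = c → u (y - x) = c := by
    intro x y hxy c hc
    rw [← hc, ← sym hu (x - y) (sub_ne_zero.2 hxy)]
    congr 1; ring
  have f12 := S _ _ h12 _ e12
  have f23 := S _ _ h23 _ e23
  have f34 := S _ _ h34 _ e34
  have f13 := S _ _ h13 _ e13
  have f14 := S _ _ h14 _ e14
  have f24 := S _ _ h24 _ e24
  have hval : ∀ (x y : ℤ) (v c : Bool), x ≠ y → u (x - y) = c → fil u v (x + -y) = c := by
    intro x y v c hxy hc
    rw [← sub_eq_add_neg, fil_ne (sub_ne_zero.2 hxy), hc]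
  have hdiag : ∀ (x : ℤ) (v : Bool), fil u v (x + -x) = v := by
    intro x v; rw [add_neg_cancel, fil_zero]
  have hf : (fun (i : Fin 8) (x : Fin 4) => fil u (![b, !b, b, !b, b, !b, b, !b] i)
      (![k₁, k₂, k₃, k₄] x + ![-k₁, -k₁, -k₂, -k₂, -k₃, -k₃, -k₄, -k₄] i)) =
      ![![b, b, !b, !b], ![!b, b, !b, !b], ![b, b, b, !b], ![b, !b, b, !b],
        ![!b, b, b, b], ![!b, b, !b, b], ![!b, !b, b, b], ![!b, !b, b, !b]] := by
    funext i x
    fin_cases i <;> fin_cases x <;>
      first
      | exact hdiag _ _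
      | exact hval _ _ _ _ h12 e12
      | exact hval _ _ _ _ h13 e13
      | exact hval _ _ _ _ h14 e14
      | exact hval _ _ _ _ h23 e23
      | exact hval _ _ _ _ h24 e24
      | exact hval _ _ _ _ h34 e34
      | exact hval _ _ _ _ h12.symm f12
      | exact hval _ _ _ _ h13.symm f13
      | exact hval _ _ _ _ h14.symm f14
      | exact hval _ _ _ _ h23.symm f23
      | exact hval _ _ _ _ h24.symm f24
      | exact hval _ _ _ _ h34.symm f34
  have hcount := good_count hu.good (m := 4) (r := 8) ![k₁, k₂, k₃, k₄]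
    (inj4 h12 h13 h14 h23 h24 h34) (by norm_num)
    ![b, !b, b, !b, b, !b, b, !b] ![-k₁, -k₁, -k₂, -k₂, -k₃, -k₃, -k₄, -k₄] (by
      rw [hf]
      exact tab8_inj _) (by
      intro i c
      have h1 : ∀ x : Fin 4, fil u (![b, !b, b, !b, b, !b, b, !b] i)
          (![k₁, k₂, k₃, k₄] x + ![-k₁, -k₁, -k₂, -k₂, -k₃, -k₃, -k₄, -k₄] i) =
          (![![b, b, !b, !b], ![!b, b, !b, !b], ![b, b, b, !b], ![b, !b, b, !b],
        ![!b, b, b, b], ![!b, b, !b, b], ![!b, !b, b, b], ![!b, !b, b, !b]] :
            Fin 8 → Fin 4 → Bool) i x := fun x => congrFun (congrFun hf i) x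
      simp only [h1]
      exact tab8_nc b i c)
  omega

theorem eq_of_ne_not {x a : Bool} (h : x ≠ !a) : x = a := by
  cases x <;> cases a <;> simp_all

theorem eq_not_of_ne {x a : Bool} (h : x ≠ a) : x = !a := by
  cases x <;> cases a <;> simp_all

/-- One step: off the multiples of some `d ≥ 2` the word is constant. -/
theorem step {u : Pt} (hu : HG u) : ∃ (d : ℕ) (a : Bool), 2 ≤ d ∧
    (∀ n : ℤ, ¬ (d : ℤ) ∣ n → u n = a) ∧ HG (fun n => u (d * n)) := by
  classical
  set a : Bool := u 1 with ha
  have hS : ∃ s : ℕ, 1 ≤ s ∧ u s = !a := by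
    by_contra hcon
    push Not at hcon
    obtain ⟨i, hi⟩ := hu.np a 1 one_ne_zero
    have hall : ∀ i : ℤ, fil u a i = a := by
      intro i
      by_cases h0 : i = 0
      · rw [h0, fil_zero]
      · rw [fil_ne h0]
        have h1 : u (i.natAbs : ℤ) = a := by
          exact eq_of_ne_not (hcon i.natAbs (by omega))
        rcases Int.natAbs_eq i with h3 | h3
        · rw [h3]; exact h1
        · rw [h3, sym hu _ (by omega)]; exact h1
    exact hi (by rw [hall, hall])
  set m : ℕ := Nat.find hS with hm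
  obtain ⟨hm1, hma⟩ := Nat.find_spec hS
  have hmin : ∀ s : ℕ, 1 ≤ s → s < m → u s = a := by
    intro s hs hsm
    have h1 := Nat.find_min hS hsm
    exact eq_of_ne_not (fun h => h1 ⟨hs, h⟩)
  rw [← hm] at hm1 hma
  have hm2 : 2 ≤ m := by
    rcases Nat.lt_or_ge m 2 with h | h
    · have : m = 1 := by omega
      rw [this] at hma
      exfalso
      rw [Nat.cast_one, ← ha] at hma
      cases a <;> simp at hma
    · exact h
  have hmain : ∀ s : ℕ, ¬ m ∣ s → u s = a := by
    intro s
    induction s using Nat.strong_induction_on with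
    | _ s ih =>
      intro hs
      by_contra hne
      have hsa : u s = !a := eq_not_of_ne hne
      have hs0 : s ≠ 0 := by rintro rfl; exact hs (dvd_zero _)
      have hsm : m < s := by
        rcases Nat.lt_trichotomy s m with h | h | h
        · exact absurd (hmin s (by omega) h) hne
        · exact absurd (h ▸ dvd_refl _) hs
        · exact h
      have hsub : u ((s - m : ℕ) : ℤ) = a := by
        apply ih (s - m) (by omega)
        intro h
        apply hs
        have := Nat.dvd_add h (dvd_refl m)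
        rwa [Nat.sub_add_cancel hsm.le] at this
      have hsub' : u ((s : ℤ) - m) = a := by
        rw [← hsub, Nat.cast_sub hsm.le]
      have h2m : (s : ℤ) - 2 * m ≠ 0 := by
        intro h
        apply hs
        exact ⟨2, by omega⟩
      have hsub2 : u ((m : ℤ) - (s - m)) = a := by
        have h1 : u ((((m : ℤ) - (s - m)).natAbs : ℕ) : ℤ) = a := by
          apply ih
          · omega
          · intro h
            apply hs
            have h3 : (m : ℤ) ∣ (m : ℤ) - (s - m) := Int.natCast_dvd.2 h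
            have h4 : (m : ℤ) ∣ s := by
              have h5 : (s : ℤ) = 2 * m - (m - (s - m)) := by ring
              rw [h5]
              exact dvd_sub (dvd_mul_left _ _) h3
            exact_mod_cast h4
        rcases Int.natAbs_eq ((m : ℤ) - (s - m)) with h3 | h3
        · rw [h3]; exact h1
        · rw [h3, sym hu _ (by omega)]; exact h1
      have hsm' : (m : ℤ) < s := by exact_mod_cast hsm
      have hm0 : (0 : ℤ) < m := by omega
      -- the induced path `m, 0, s, s - m`
      refine noP4 hu (k₁ := m) (k₂ := 0) (k₃ := s) (k₄ := s - m) (b := !a) ?_ ?_ ?_ ?_ ?_ ?_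
        ?_ ?_ ?_ ?_ ?_ ?_
      · omega
      · omega
      · omega
      · omega
      · omega
      · omega
      · simpa using hma
      · rw [zero_sub, sym hu _ (by omega)]; exact hsa
      · rw [sub_sub_cancel]; exact hma
      · rw [Bool.not_not, ← neg_sub, sym hu _ (by omega)]; exact hsub'
      · rw [Bool.not_not]; exact hsub2
      · rw [Bool.not_not, zero_sub, sym hu _ (by omega)]; exact hsub'
  have hoff : ∀ n : ℤ, ¬ (m : ℤ) ∣ n → u n = a := by
    intro n hn
    have h1 : u ((n.natAbs : ℕ) : ℤ) = a := hmain _ (fun h => hn (Int.natCast_dvd.2 h))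
    have h0 : n ≠ 0 := by rintro rfl; exact hn (dvd_zero _)
    rcases Int.natAbs_eq n with h3 | h3
    · rw [h3]; exact h1
    · rw [h3, sym hu _ (by omega)]; exact h1
  have hmz : (m : ℤ) ≠ 0 := by omega
  have hfil : ∀ (v : Bool) (k : ℤ), fil (fun n => u (m * n)) v k = fil u v (m * k) := by
    intro v k
    by_cases hk : k = 0
    · rw [hk, mul_zero, fil_zero, fil_zero]
    · rw [fil_ne hk, fil_ne (mul_ne_zero hmz hk)]
  refine ⟨m, a, hm2, hoff, ⟨?_, ?_, ?_⟩⟩
  · -- counting
    intro K hK
    have hinj : Function.Injective (fun k : ℤ => (m : ℤ) * k) := fun x y hxy =>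
      mul_left_cancel₀ hmz hxy
    have h1 := hu.good (K.image (fun k => (m : ℤ) * k)) (hK.image _)
    rw [Finset.card_image_of_injective _ hinj] at h1
    refine le_trans (Nat.add_le_add_right ?_ 2) h1
    refine Finset.card_le_card_of_injOn (fun s => s.image (fun k => (m : ℤ) * k)) ?_ ?_
    · intro s hs
      rw [Finset.mem_coe, Finset.mem_filter] at hs
      rw [Finset.mem_coe, Finset.mem_filter]
      obtain ⟨hs1, hs2, hs3⟩ := hs
      obtain ⟨v, n, rfl⟩ := mem_hp.1 hs1
      refine ⟨mem_hp.2 ⟨v, m * n, ?_⟩, ?_, ?_⟩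
      · ext x
        rw [mem_ztr, Finset.mem_image, Finset.mem_image]
        constructor
        · rintro ⟨⟨k, hk, rfl⟩, hx⟩
          refine ⟨k, mem_ztr.2 ⟨hk, ?_⟩, rfl⟩
          rw [sh_apply, hfil, mul_add]
          exact hx
        · rintro ⟨k, hk, rfl⟩
          rw [mem_ztr] at hk
          refine ⟨⟨k, hk.1, rfl⟩, ?_⟩
          have := hk.2
          rw [sh_apply, hfil, mul_add] at this
          exact this
      · intro h
        exact hs2 (Finset.image_eq_empty.1 h)
      · intro h
        exact hs3 (Finset.image_injective hinj h)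
    · intro s _ s' _ hss
      exact Finset.image_injective hinj hss
  · intro n hn
    obtain ⟨P, hP, hPj⟩ := hu.settled (m * n) (mul_ne_zero hmz hn)
    refine ⟨P, hP, fun j => ?_⟩
    have h1 := hPj (m * j)
    show u (m * (n + P * j)) = u (m * n)
    rw [← h1]
    congr 1; ring
  · intro v n hn
    obtain ⟨i, hi⟩ := hu.np v (m * n) (mul_ne_zero hmz hn)
    by_cases hdi : (m : ℤ) ∣ i
    · obtain ⟨i', rfl⟩ := hdi
      refine ⟨i', ?_⟩
      rw [hfil, hfil, mul_add]
      exact hi
    · exfalso
      apply hi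
      have h1 : ¬ (m : ℤ) ∣ i + m * n := fun h => hdi ((Int.dvd_add_left (dvd_mul_right _ _)).1 h)
      have h0 : i ≠ 0 := by rintro rfl; exact hdi (dvd_zero _)
      have h0' : i + m * n ≠ 0 := by intro h; rw [h] at h1; exact h1 (dvd_zero _)
      rw [fil_ne h0, fil_ne h0', hoff _ h1, hoff _ hdi]

/-- The iteration. -/
theorem iterate {u : Pt} (hu : HG u) : ∃ (d : ℕ → ℕ) (a : ℕ → Bool), (∀ i, 2 ≤ d i) ∧
    (∀ i, HG (fun n => u ((∏ l ∈ Finset.range i, d l : ℕ) * n))) ∧
    (∀ i (n : ℤ), ¬ (d i : ℤ) ∣ n → u ((∏ l ∈ Finset.range i, d l : ℕ) * n) = a i) := by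
  classical
  choose! D A h2 hoff hnext using fun (x : {u : Pt // HG u}) => step x.2
  let S : ℕ → {u : Pt // HG u} := fun i => Nat.rec ⟨u, hu⟩ (fun _ x => ⟨_, hnext x⟩) i
  have hS : ∀ i, S (i + 1) = ⟨_, hnext (S i)⟩ := fun i => rfl
  have hval : ∀ i (n : ℤ), (S i).1 n = u ((∏ l ∈ Finset.range i, D (S l) : ℕ) * n) := by
    intro i
    induction i with
    | zero => intro n; simp [S]
    | succ i ih =>
      intro n
      rw [hS]
      show (S i).1 (D (S i) * n) = _
      rw [ih, Finset.prod_range_succ]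
      congr 1
      push_cast
      ring
  refine ⟨fun i => D (S i), fun i => A (S i), fun i => h2 _, fun i => ?_, fun i n hn => ?_⟩
  · have := (S i).2
    have heq : (S i).1 = fun n => u ((∏ l ∈ Finset.range i, D (S l) : ℕ) * n) := by
      funext n; exact hval i n
    rwa [heq] at this
  · rw [← hval]
    exact hoff _ _ hn

/-- The level of a nonzero integer. -/
theorem exists_lev (d : ℕ → ℕ) (hd : ∀ i, 2 ≤ d i) (n : ℤ) (hn : n ≠ 0) (I : ℕ)
    (hI : ((∏ l ∈ Finset.range I, d l : ℕ) : ℤ) ∣ n) :
    ∃ i, I ≤ i ∧ ((∏ l ∈ Finset.range i, d l : ℕ) : ℤ) ∣ n ∧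
      ¬ ((∏ l ∈ Finset.range (i + 1), d l : ℕ) : ℤ) ∣ n := by
  by_contra hcon
  push Not at hcon
  have hall : ∀ k, ((∏ l ∈ Finset.range (I + k), d l : ℕ) : ℤ) ∣ n := by
    intro k
    induction k with
    | zero => exact hI
    | succ k ih => exact hcon (I + k) (by omega) ih
  have hgrow : ∀ i, i < ∏ l ∈ Finset.range i, d l := by
    intro i
    induction i with
    | zero => simp
    | succ i ih =>
      rw [Finset.prod_range_succ]
      have := hd i
      nlinarith
  have h1 := hall n.natAbs
  have h2 := Int.natCast_dvd.1 h1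
  have h3 := Nat.le_of_dvd (by omega) h2
  have h4 := hgrow (I + n.natAbs)
  omega

end OneHole

open OneHole in
/-- Task G1. -/
theorem exists_level (w : Pt) (R : Set ℕ) (hlow : HLow w) (hnp : HNP w) (hR : Levels w R) :
    ∃ N : ℕ, 1 ≤ N ∧ (∀ n : ℤ, ¬ (N : ℤ) ∣ n → w (n + N) = w n) ∧ ∃ p a, STail w N p a := by
  classical
  -- both symbols occur off the hole
  have hocc : ∀ b : Bool, ∃ n : ℤ, n ≠ 0 ∧ w n = b := by
    intro b
    by_contra hcon
    push Not at hcon
    obtain ⟨i, hi⟩ := hnp (!b) 1 one_ne_zero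
    have hall : ∀ i : ℤ, fil w (!b) i = !b := by
      intro i
      by_cases h0 : i = 0
      · rw [h0, fil_zero]
      · rw [fil_ne h0]
        have := hcon i h0
        cases b <;> simpa using this
    exact hi (by rw [hall, hall])
  obtain ⟨n0, hn0, hw0⟩ := hocc false
  obtain ⟨n1, hn1, hw1⟩ := hocc true
  obtain ⟨q, hqR, hq⟩ := hR.unb (n0.natAbs + n1.natAbs)
  obtain ⟨Q, hQR, hqQ, hQ⟩ := hR.settle q hqR
  have hq1 := hR.pos q hqR
  have hQ1 := hR.pos Q hQR
  have hnd : ∀ n : ℤ, n ≠ 0 → n.natAbs < q → ¬ (q : ℤ) ∣ n := by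
    intro n hn hlt h
    have h1 := Int.natCast_dvd.1 h
    have h2 := Nat.le_of_dvd (by omega) h1
    omega
  obtain ⟨Q', hQ'R, hQQ', hQ'⟩ := hR.settle Q hQR
  have hQ'1 := hR.pos Q' hQ'R
  have hQz : (Q : ℤ) ≠ 0 := by omega
  set u : Pt := fun n => w (Q * n) with hu
  have hfil : ∀ (v : Bool) (k : ℤ), fil u v k = fil w v (Q * k) := by
    intro v k
    by_cases hk : k = 0
    · rw [hk, mul_zero, fil_zero, fil_zero]
    · rw [fil_ne hk, fil_ne (mul_ne_zero hQz hk)]
  have hHG : HG u := by
    refine ⟨?_, ?_, ?_⟩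
    · intro K hK
      have hinj : Function.Injective (fun k : ℤ => (Q : ℤ) * k) := fun x y hxy =>
        mul_left_cancel₀ hQz hxy
      set K' : Finset ℤ := K.image (fun k => (Q : ℤ) * k) with hK'
      have h1 := hlow K' (hK.image _)
      rw [hK', Finset.card_image_of_injective _ hinj, ← hK'] at h1
      have hK'ne : K' ≠ ∅ := by
        rw [hK']; exact (hK.image _).ne_empty
      -- the two constant patterns
      have hconst : ∀ (b : Bool) (m : ℤ), m ≠ 0 → m.natAbs < q → w m = b →
          ∀ k ∈ K', fil w b (k + m) = b := by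
        intro b m hm hmq hwm k hk
        rw [hK', Finset.mem_image] at hk
        obtain ⟨k', -, rfl⟩ := hk
        have h2 := hnd m hm hmq
        have h3 : (Q : ℤ) * k' + m ≠ 0 := by
          intro h
          apply h2
          have h4 : m = Q * (-k') := by linarith
          rw [h4]
          exact dvd_mul_of_dvd_left (by exact_mod_cast hqQ) _
        rw [fil_ne h3, add_comm, hQ m h2, hwm]
      have hE : (∅ : Finset ℤ) ∈ hp w K' := by
        refine mem_hp.2 ⟨false, n0, ?_⟩
        rw [Finset.eq_empty_iff_forall_notMem]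
        intro k hk
        rw [mem_ztr, sh_apply] at hk
        have h3 := hconst false n0 hn0 (by omega) hw0 k hk.1
        rw [h3] at hk
        exact absurd hk.2 (by simp)
      have hF : K' ∈ hp w K' := by
        refine mem_hp.2 ⟨true, n1, ?_⟩
        ext k
        rw [mem_ztr, sh_apply]
        constructor
        · exact fun h => h.1
        · exact fun h => ⟨h, hconst true n1 hn1 (by omega) hw1 k h⟩
      have h2 : ((hp u K).filter (fun s => s ≠ ∅ ∧ s ≠ K)).card ≤
          (((hp w K').erase ∅).erase K').card := by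
        refine Finset.card_le_card_of_injOn (fun s => s.image (fun k => (Q : ℤ) * k)) ?_ ?_
        · intro s hs
          rw [Finset.mem_coe, Finset.mem_filter] at hs
          rw [Finset.mem_coe, Finset.mem_erase, Finset.mem_erase]
          obtain ⟨hs1, hs2, hs3⟩ := hs
          obtain ⟨v, n, rfl⟩ := mem_hp.1 hs1
          refine ⟨?_, ?_, mem_hp.2 ⟨v, Q * n, ?_⟩⟩
          · intro h
            exact hs3 (Finset.image_injective hinj h)
          · intro h
            exact hs2 (Finset.image_eq_empty.1 h)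
          · ext x
            rw [mem_ztr, hK', Finset.mem_image, Finset.mem_image]
            constructor
            · rintro ⟨⟨k, hk, rfl⟩, hx⟩
              refine ⟨k, mem_ztr.2 ⟨hk, ?_⟩, rfl⟩
              rw [sh_apply, hfil, mul_add]
              exact hx
            · rintro ⟨k, hk, rfl⟩
              rw [mem_ztr] at hk
              refine ⟨⟨k, hk.1, rfl⟩, ?_⟩
              have := hk.2
              rw [sh_apply, hfil, mul_add] at this
              exact this
        · intro s _ s' _ hss
          exact Finset.image_injective hinj hss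
      have h3 : (((hp w K').erase ∅).erase K').card + 2 = (hp w K').card := by
        have h4 : K' ∈ (hp w K').erase ∅ := Finset.mem_erase.2 ⟨hK'ne, hF⟩
        have h5 := Finset.card_erase_add_one h4
        have h6 := Finset.card_erase_add_one hE
        omega
      omega
    · intro n hn
      obtain ⟨q', hq'R, hq'⟩ := hR.unb ((Q : ℤ) * n).natAbs
      obtain ⟨P, hPR, hqP, hP⟩ := hR.settle q' hq'R
      have hP1 := hR.pos P hPR
      refine ⟨P, by omega, fun j => ?_⟩
      have h1 : ¬ (q' : ℤ) ∣ (Q : ℤ) * n := by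
        intro h
        have h2 := Int.natCast_dvd.1 h
        have h3 := Nat.le_of_dvd (Int.natAbs_pos.2 (mul_ne_zero hQz hn)) h2
        omega
      have h2 := hP _ h1 (Q * j)
      show w (Q * (n + P * j)) = w (Q * n)
      rw [← h2]
      congr 1; ring
    · intro v n hn
      obtain ⟨i, hi⟩ := hnp v (Q * n * Q') (mul_ne_zero (mul_ne_zero hQz hn) (by omega))
      by_cases hdi : (Q : ℤ) ∣ i
      · obtain ⟨i', rfl⟩ := hdi
        by_contra hcon
        push Not at hcon
        apply hi
        have hper : ∀ j : ℕ, fil u v (i' + n * j) = fil u v i' := by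
          intro j
          induction j with
          | zero => simp
          | succ j ih =>
            rw [← ih, ← hcon (i' + n * j)]
            congr 1; push_cast; ring
        have h1 := hper Q'
        rw [hfil, hfil] at h1
        rw [← h1]
        congr 1; ring
      · exfalso
        apply hi
        have h1 := hQ' i hdi (Q * n)
        have h0 : i ≠ 0 := by rintro rfl; exact hdi (dvd_zero _)
        have h0' : i + Q * n * Q' ≠ 0 := by
          intro h
          apply hdi
          have h4 : i = Q * (-(n * Q')) := by linarith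
          rw [h4]
          exact dvd_mul_right _ _
        rw [fil_ne h0, fil_ne h0', ← h1]
        congr 1; ring
  obtain ⟨d, a, hd2, hHGi, hoff⟩ := iterate hHG
  set D : ℕ → ℕ := fun i => ∏ l ∈ Finset.range i, d l with hD
  have hDsucc : ∀ i, D (i + 1) = D i * d i := fun i => Finset.prod_range_succ _ _
  have hDpos : ∀ i, 0 < D i := by
    intro i
    exact Finset.prod_pos (fun l _ => by have := hd2 l; omega)
  have hDdvd : ∀ i j, i ≤ j → D i ∣ D j := by
    intro i j hij
    induction j, hij using Nat.le_induction with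
    | base => exact dvd_refl _
    | succ j _ ih => rw [hDsucc]; exact dvd_mul_of_dvd_left ih _
  -- values by level
  have hlev : ∀ i (n : ℤ), (D i : ℤ) ∣ n → ¬ (D (i + 1) : ℤ) ∣ n → u n = a i := by
    intro i n h1 h2
    obtain ⟨n', rfl⟩ := h1
    apply hoff i n'
    intro h
    apply h2
    rw [hDsucc]
    push_cast
    exact mul_dvd_mul_left _ h
  have hlevD : ∀ i, ¬ (D (i + 1) : ℤ) ∣ (D i : ℤ) := by
    intro i h
    have h1 : D (i + 1) ∣ D i := by exact_mod_cast h
    have h2 := Nat.le_of_dvd (hDpos i) h1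
    rw [hDsucc] at h2
    have := hd2 i
    have := hDpos i
    nlinarith
  have hinf : ∀ b : Bool, ∀ M : ℕ, ∃ i, M ≤ i ∧ a i = b := by
    intro b M
    by_contra hcon
    push Not at hcon
    obtain ⟨i, hi⟩ := (hHGi M).np (!b) 1 one_ne_zero
    have hall : ∀ i : ℤ, fil (fun n => u ((∏ l ∈ Finset.range M, d l : ℕ) * n)) (!b) i = !b := by
      intro i
      by_cases h0 : i = 0
      · rw [h0, fil_zero]
      · rw [fil_ne h0]
        have hne : (D M : ℤ) * i ≠ 0 := mul_ne_zero (by have := hDpos M; omega) h0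
        obtain ⟨l, hl1, hl2, hl3⟩ := exists_lev d hd2 ((D M : ℤ) * i) hne M (dvd_mul_right _ _)
        have h1 := hlev l _ hl2 hl3
        have h2 := hcon l hl1
        show u ((D M : ℤ) * i) = !b
        rw [h1]
        cases hb : b <;> simp_all
    exact hi (by rw [hall, hall])
  -- settle twice
  obtain ⟨Q3, hQ3R, hQ'Q3, hQ3⟩ := hR.settle Q' hQ'R
  have hQ31 := hR.pos Q3 hQ3R
  have hclaim : ∃ I, Q' ∣ Q * D I := by
    by_contra hcon
    push Not at hcon
    have hcst : ∀ I (j : ℤ), w (Q * D I + Q3 * j) = a I := by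
      intro I j
      rw [hQ3 _ (fun h => hcon I (by exact_mod_cast h))]
      exact hlev I (D I) (dvd_refl _) (hlevD I)
    -- the gcds stabilize
    have hg : ∃ I0, ∀ I, I0 ≤ I → Nat.gcd Q3 (Q * D I) = Nat.gcd Q3 (Q * D I0) := by
      have hmono : Monotone (fun I => Nat.gcd Q3 (Q * D I)) := by
        intro I J hIJ
        apply Nat.le_of_dvd (Nat.gcd_pos_of_pos_left _ (by omega))
        exact Nat.gcd_dvd_gcd_of_dvd_right _ (mul_dvd_mul_left _ (hDdvd _ _ hIJ))
      have hbd : ∀ I, Nat.gcd Q3 (Q * D I) ≤ Q3 := fun I => Nat.gcd_le_left _ (by omega)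
      have hbdd : BddAbove (Set.range (fun I => Nat.gcd Q3 (Q * D I))) :=
        ⟨Q3, by rintro _ ⟨I, rfl⟩; exact hbd I⟩
      obtain ⟨I0, hI0⟩ := Nat.sSup_mem (Set.range_nonempty _) hbdd
      refine ⟨I0, fun I hI => le_antisymm ?_ (hmono hI)⟩
      have h1 := le_csSup hbdd ⟨I, rfl⟩
      rw [← hI0] at h1
      exact h1
    obtain ⟨I0, hI0⟩ := hg
    obtain ⟨I, hI, haI⟩ := hinf true I0
    obtain ⟨J, hJ, haJ⟩ := hinf false (I + 1)
    have hgI := hI0 I hI
    have hgJ := hI0 (J + 1) (by omega)
    have hgJ' := hI0 J (by omega)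
    set g : ℕ := Nat.gcd Q3 (Q * D I0) with hgdef
    have hd1 : (g : ℤ) ∣ ((Q : ℤ) * D J - Q * D I) := by
      apply dvd_sub
      · have h5 : g ∣ Q * D J := by rw [← hgJ']; exact Nat.gcd_dvd_right _ _
        exact_mod_cast h5
      · have h5 : g ∣ Q * D I := by rw [← hgI]; exact Nat.gcd_dvd_right _ _
        exact_mod_cast h5
    obtain ⟨x, hx⟩ := hd1
    have hbez := Nat.gcd_eq_gcd_ab Q3 (Q * D (J + 1))
    rw [hgJ] at hbez
    set α := Nat.gcdA Q3 (Q * D (J + 1)) with hα
    set β := Nat.gcdB Q3 (Q * D (J + 1)) with hβ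
    have hpos : (Q : ℤ) * D I + Q3 * (α * x) = Q * (D J + D (J + 1) * (-(β * x))) := by
      have h6 : (Q : ℤ) * D J - Q * D I = ((Q3 : ℤ) * α + (Q * D (J + 1) : ℕ) * β) * x := by
        rw [← hbez]; exact hx
      push_cast at h6
      linarith
    have h7 := hcst I (α * x)
    rw [hpos] at h7
    have h8 : u (D J + D (J + 1) * (-(β * x))) = a J := by
      apply hlev J
      · apply dvd_add (dvd_refl _)
        apply dvd_mul_of_dvd_left
        exact_mod_cast hDdvd J (J + 1) (by omega)
      · intro h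
        exact hlevD J ((Int.dvd_add_left (dvd_mul_right _ _)).1 h)
    have h9 : u (D J + D (J + 1) * (-(β * x))) = a I := h7
    rw [h8, haI, haJ] at h9
    exact absurd h9 (by simp)
  obtain ⟨I, hI⟩ := hclaim
  refine ⟨Q * D I, Nat.mul_pos hQ1 (hDpos I), ?_, fun i => d (I + i), fun i => a (I + i),
    fun i => hd2 _, ?_, ?_⟩
  · intro n hn
    by_cases hQn : (Q : ℤ) ∣ n
    · obtain ⟨n', rfl⟩ := hQn
      have hn' : ¬ (D I : ℤ) ∣ n' := by
        intro h
        apply hn
        push_cast
        exact mul_dvd_mul_left _ h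
      have hn'0 : n' ≠ 0 := by rintro rfl; exact hn' (dvd_zero _)
      obtain ⟨i, -, hi1, hi2⟩ := exists_lev d hd2 n' hn'0 0 (by simp)
      have hiI : i < I := by
        by_contra h
        push Not at h
        exact hn' (dvd_trans (by exact_mod_cast hDdvd I i h) hi1)
      have h1 : u n' = a i := hlev i n' hi1 hi2
      have h2 : u (n' + D I) = a i := by
        apply hlev i
        · exact dvd_add hi1 (by exact_mod_cast hDdvd i I (by omega))
        · intro h
          exact hi2 ((Int.dvd_add_left (by exact_mod_cast hDdvd (i + 1) I (by omega))).1 h)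
      have h3 : (Q : ℤ) * n' + ((Q * D I : ℕ) : ℤ) = Q * (n' + D I) := by push_cast; ring
      rw [h3]
      show u (n' + D I) = u n'
      rw [h1, h2]
    · obtain ⟨j, hj⟩ := hI
      have h1 := hQ' n hQn j
      rw [← h1, hj, Nat.cast_mul]
  · intro b M
    obtain ⟨i, hi, hai⟩ := hinf b (I + M)
    refine ⟨i - I, by omega, ?_⟩
    show a (I + (i - I)) = b
    rw [Nat.add_sub_cancel' (by omega : I ≤ i)]
    exact hai
  · intro n hn i h1 h2
    have hprod : ∀ i, D I * ∏ l ∈ Finset.range i, d (I + l) = D (I + i) := by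
      intro i
      rw [hD]
      simp only
      rw [Finset.prod_range_add]
    have h3 : (((Q * D I : ℕ) : ℤ)) * n = Q * (D I * n) := by push_cast; ring
    rw [h3]
    show u (D I * n) = a (I + i)
    apply hlev (I + i)
    · rw [← hprod]
      push_cast at h1 ⊢
      exact mul_dvd_mul_left _ h1
    · intro h
      apply h2
      have h4 : D (I + i + 1) = D I * ∏ l ∈ Finset.range (i + 1), d (I + l) := by
        rw [hprod, add_assoc]
      rw [h4] at h
      push_cast at h ⊢
      exact (mul_dvd_mul_iff_left (by have := hDpos I; omega)).1 h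

end PatSturm
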