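import Pool.Agent.LibPS.Defs

/-!
# Words with long periodic stretches

A word with at most `2|K|` patterns on every window, which is not ultimately periodic and has
arbitrarily long stretches of period `p`, is constant outside a set with gaps tending to infinity.
-/

namespace PatSturm

namespace PerCase

/-- At most six patterns on a window with three points. -/
theorem low3 {f : ℕ → Bool} (hlow : LowN f) {x y : ℕ} (hx : 0 < x) (hxy : x < y)
    (S : Finset (Bool × Bool × Bool))
    (hS : ∀ t ∈ S, ∃ m, f m = t.1 ∧ f (m + x) = t.2.1 ∧ f (m + y) = t.2.2) : S.card ≤ 6 := by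
  classical
  have hK : ({0, x, y} : Finset ℕ).card = 3 := by
    rw [Finset.card_insert_of_notMem, Finset.card_pair (by omega)]
    simp only [Finset.mem_insert, Finset.mem_singleton]
    omega
  have h := hlow {0, x, y} ⟨0, by simp⟩
  rw [hK] at h
  refine le_trans ?_ h
  have h1 : S ⊆ (trs f {0, x, y}).image
      (fun s => (decide (0 ∈ s), decide (x ∈ s), decide (y ∈ s))) := by
    intro t ht
    obtain ⟨m, h1, h2, h3⟩ := hS t ht
    rw [Finset.mem_image]
    refine ⟨tr f {0, x, y} m, tr_mem_trs _ _ _, ?_⟩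
    unfold tr
    simp only [Finset.mem_filter, Finset.mem_insert, Finset.mem_singleton, true_or, or_true,
      true_and, add_zero, h1, h2, h3, Bool.decide_eq_true]
  exact (Finset.card_le_card h1).trans Finset.card_image_le

/-- Last `true` before `m`. -/
theorem last_before {f : ℕ → Bool} {a m : ℕ} (ha : f a = true) (h : a < m) :
    ∃ n, a ≤ n ∧ n < m ∧ f n = true ∧ ∀ i, n < i → i < m → f i = false := by
  induction m with
  | zero => omega
  | succ m ih =>
    by_cases hf : f m = true
    · exact ⟨m, by omega, by omega, hf, fun i h1 h2 => by omega⟩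
    · have ham : a < m := by
        rcases Nat.lt_or_ge a m with h1 | h1
        · exact h1
        · have : a = m := by omega
          subst this
          exact absurd ha hf
      obtain ⟨n, h1, h2, h3, h4⟩ := ih ham
      refine ⟨n, h1, by omega, h3, fun i hi hi2 => ?_⟩
      rcases Nat.lt_or_ge i m with h5 | h5
      · exact h4 i hi h5
      · have : i = m := by omega
        subst this
        simpa using hf

section
variable {f : ℕ → Bool}

theorem exists_right (hA : ∀ N, ∃ n, N ≤ n ∧ f n = true)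
    (hfree : ∀ L N, ∃ m, N ≤ m ∧ ∀ i, m ≤ i → i < m + L → f i = false) (M N : ℕ) :
    ∃ n, N ≤ n ∧ f n = true ∧ ∀ i, n < i → i ≤ n + M → f i = false := by
  obtain ⟨d, hd, hfd⟩ := hA N
  obtain ⟨m, hm, hfm⟩ := hfree (M + 1) (d + 1)
  obtain ⟨n, h1, h2, h3, h4⟩ := last_before hfd (show d < m by omega)
  refine ⟨n, by omega, h3, fun i hi hi2 => ?_⟩
  rcases Nat.lt_or_ge i m with h5 | h5
  · exact h4 i hi h5
  · exact hfm i h5 (by omega)

theorem exists_left (hA : ∀ N, ∃ n, N ≤ n ∧ f n = true)
    (hfree : ∀ L N, ∃ m, N ≤ m ∧ ∀ i, m ≤ i → i < m + L → f i = false) (M N : ℕ) :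
    ∃ e, N + M ≤ e ∧ f e = true ∧ ∀ i, i < e → e ≤ i + M → f i = false := by
  classical
  obtain ⟨m, hm, hfm⟩ := hfree M N
  have hex : ∃ e, m ≤ e ∧ f e = true := by
    obtain ⟨e, h1, h2⟩ := hA m
    exact ⟨e, h1, h2⟩
  have h1 := Nat.find_spec hex
  have h2 : ∀ i, i < Nat.find hex → m ≤ i → f i = false := fun i hi hi2 => by
    have := Nat.find_min hex hi
    simpa [hi2] using this
  have h3 : m + M ≤ Nat.find hex := by
    by_contra h
    have := hfm _ h1.1 (by omega)
    rw [h1.2] at this
    exact Bool.noConfusion this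
  exact ⟨Nat.find hex, by omega, h1.2, fun i hi hi2 => h2 i hi (by omega)⟩

/-- Walking to the left in steps of length `g`. -/
theorem walk {m₀ M g : ℕ} (hg : 1 ≤ g) (hgM : g ≤ M)
    (h0 : ∀ i, m₀ ≤ i → i < m₀ + M → f i = false) (a : ℕ) (ha : m₀ + M ≤ a)
    (h1 : f a = true) (h2 : f (a + g) = true) :
    ∃ m, f m = false ∧ f (m + g) = true ∧ f (m + (g + g)) = true := by
  induction a using Nat.strong_induction_on with
  | _ a ih =>
    by_cases h3 : f (a - g) = true
    · have h4 : m₀ + M ≤ a - g := by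
        by_contra h
        have := h0 (a - g) (by omega) (by omega)
        rw [h3] at this
        exact Bool.noConfusion this
      refine ih (a - g) (by omega) h4 h3 ?_
      rwa [Nat.sub_add_cancel (by omega)]
    · refine ⟨a - g, by simpa using h3, ?_, ?_⟩
      · rwa [Nat.sub_add_cancel (by omega)]
      · have : a - g + (g + g) = a + g := by omega
        rwa [this]

theorem no_double (hlow : LowN f) (hA : ∀ N, ∃ n, N ≤ n ∧ f n = true)
    (hfree : ∀ L N, ∃ m, N ≤ m ∧ ∀ i, m ≤ i → i < m + L → f i = false) (g : ℕ) (hg : 1 ≤ g) :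
    ∃ M N, ∀ n, N ≤ n → f n = true → (∀ i, n < i → i ≤ n + M → f i = false) →
      ∀ m, m + g = n → f m = false := by
  by_contra hcon
  push Not at hcon
  obtain ⟨m₀, -, hm₀⟩ := hfree g 0
  obtain ⟨n₁, hn₁, hf₁, hr₁, m₁, hm₁, hl₁⟩ := hcon g (m₀ + 2 * g)
  obtain ⟨n₂, hn₂, hf₂, hr₂, m₂, hm₂, hl₂⟩ := hcon g (n₁ + g + 1)
  obtain ⟨k, hk⟩ : ∃ k, n₂ = n₁ + k := ⟨n₂ - n₁, by omega⟩
  obtain ⟨n₃, hn₃, hf₃, hr₃, m₃, hm₃, hl₃⟩ := hcon k 0
  obtain ⟨e, he, hfe, hle⟩ := exists_left hA hfree k 0
  obtain ⟨s, -, hs⟩ := hfree (k + 1) 0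
  obtain ⟨w, hw1, hw2, -⟩ := walk hg le_rfl hm₀ m₁ (by omega) (by simpa using hl₁)
    (by rw [hm₁]; exact hf₁)
  have hl₁' : f m₁ = true := by simpa using hl₁
  have hl₂' : f m₂ = true := by simpa using hl₂
  have hl₃' : f m₃ = true := by simpa using hl₃
  have hS := low3 hlow (x := g) (y := k) (by omega) (by omega)
    {(true, false, true), (true, false, false), (true, true, true), (true, true, false),
      (false, false, true), (false, false, false), (false, true, f (w + k))} (by
      intro t ht
      simp only [Finset.mem_insert, Finset.mem_singleton] at ht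
      rcases ht with rfl | rfl | rfl | rfl | rfl | rfl | rfl
      · refine ⟨n₁, hf₁, hr₁ _ (by omega) (by omega), ?_⟩
        rw [← hk]; exact hf₂
      · exact ⟨n₃, hf₃, hr₃ _ (by omega) (by omega), hr₃ _ (by omega) (by omega)⟩
      · refine ⟨m₁, hl₁', by rw [hm₁]; exact hf₁, ?_⟩
        have : m₁ + k = m₂ := by omega
        rw [this]; exact hl₂'
      · refine ⟨m₃, hl₃', by rw [hm₃]; exact hf₃, ?_⟩
        exact hr₃ _ (by omega) (by omega)
      · refine ⟨e - k, hle _ (by omega) (by omega), hle _ (by omega) (by omega), ?_⟩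
        rw [Nat.sub_add_cancel (by omega)]; exact hfe
      · exact ⟨s, hs _ (by omega) (by omega), hs _ (by omega) (by omega),
          hs _ (by omega) (by omega)⟩
      · exact ⟨w, hw1, hw2, rfl⟩)
  revert hS
  generalize f (w + k) = v
  revert v
  decide

theorem left_free (hlow : LowN f) (hA : ∀ N, ∃ n, N ≤ n ∧ f n = true)
    (hfree : ∀ L N, ∃ m, N ≤ m ∧ ∀ i, m ≤ i → i < m + L → f i = false) (G : ℕ) :
    ∃ M N, ∀ n, N ≤ n → f n = true → (∀ i, n < i → i ≤ n + M → f i = false) →
      ∀ m, m < n → n ≤ m + G → f m = false := by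
  induction G with
  | zero => exact ⟨0, 0, fun n _ _ _ m h1 h2 => by omega⟩
  | succ G ih =>
    obtain ⟨M₁, N₁, h1⟩ := ih
    obtain ⟨M₂, N₂, h2⟩ := no_double hlow hA hfree (G + 1) (by omega)
    refine ⟨max M₁ M₂, max N₁ N₂, fun n hn hfn hr m hm hm2 => ?_⟩
    rcases Nat.lt_or_ge (m + G) n with h3 | h3
    · exact h2 n (by omega) hfn (fun i hi hi2 => hr i hi (by omega)) m (by omega)
    · exact h1 n (by omega) hfn (fun i hi hi2 => hr i hi (by omega)) m hm h3

theorem exists_iso (hlow : LowN f) (hA : ∀ N, ∃ n, N ≤ n ∧ f n = true)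
    (hfree : ∀ L N, ∃ m, N ≤ m ∧ ∀ i, m ≤ i → i < m + L → f i = false) (G N : ℕ) :
    ∃ e, N ≤ e ∧ G ≤ e ∧ f e = true ∧ (∀ i, e < i → i ≤ e + G → f i = false) ∧
      ∀ i, i < e → e ≤ i + G → f i = false := by
  obtain ⟨M, N', h1⟩ := left_free hlow hA hfree G
  obtain ⟨e, he, hfe, hre⟩ := exists_right hA hfree (max M G) (max (max N G) N')
  exact ⟨e, by omega, by omega, hfe, fun i hi hi2 => hre i hi (by omega),
    h1 e (by omega) hfe (fun i hi hi2 => hre i hi (by omega))⟩

theorem next_gap (hlow : LowN f) (hA : ∀ N, ∃ n, N ≤ n ∧ f n = true)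
    (hfree : ∀ L N, ∃ m, N ≤ m ∧ ∀ i, m ≤ i → i < m + L → f i = false) (M : ℕ) :
    ∃ N, ∀ b c, N ≤ b → b < c → c ≤ b + M → f b = true → f c = true →
      (∀ i, b < i → i < c → f i = false) → (∀ i, c < i → i ≤ c + M → f i = false) →
      ∀ a, a < b → b ≤ a + M → f a = false := by
  obtain ⟨m₀, -, hm₀⟩ := hfree M 0
  refine ⟨m₀ + 3 * M, fun b c hb hbc hcM hfb hfc hmid hr a' ha' hbM => ?_⟩
  by_contra hfa'
  have hfa' : f a' = true := by simpa using hfa'
  obtain ⟨a, ha1, ha2, hfa, hmid2⟩ := last_before hfa' ha'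
  obtain ⟨x, rfl⟩ : ∃ x, b = a + x := ⟨b - a, by omega⟩
  obtain ⟨g, rfl⟩ : ∃ g, c = a + x + g := ⟨c - (a + x), by omega⟩
  obtain ⟨e, -, he, hfe, hre, hle⟩ := exists_iso hlow hA hfree (2 * M + 1) 0
  by_cases hag : f (a + g) = true
  · -- arithmetic progression
    have hx : x = g := by
      rcases lt_trichotomy g x with h1 | h1 | h1
      · have := hmid2 (a + g) (by omega) (by omega)
        rw [hag] at this
        exact Bool.noConfusion this
      · exact h1.symm
      · have := hmid (a + g) (by omega) (by omega)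
        rw [hag] at this
        exact Bool.noConfusion this
    subst hx
    obtain ⟨w, hw1, hw2, hw3⟩ := walk (g := x) (by omega) (by omega) hm₀ a (by omega) hfa hag
    have hS := low3 hlow (x := x) (y := x + x) (by omega) (by omega)
      {(true, true, true), (true, true, false), (false, true, true), (true, false, false),
        (false, true, false), (false, false, true), (false, false, false)} (by
        intro t ht
        simp only [Finset.mem_insert, Finset.mem_singleton] at ht
        rcases ht with rfl | rfl | rfl | rfl | rfl | rfl | rfl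
        · refine ⟨a, hfa, hfb, ?_⟩
          rw [← add_assoc]; exact hfc
        · refine ⟨a + x, hfb, hfc, ?_⟩
          exact hr _ (by omega) (by omega)
        · exact ⟨w, hw1, hw2, hw3⟩
        · exact ⟨e, hfe, hre _ (by omega) (by omega), hre _ (by omega) (by omega)⟩
        · refine ⟨e - x, hle _ (by omega) (by omega), ?_, hre _ (by omega) (by omega)⟩
          rw [Nat.sub_add_cancel (by omega)]; exact hfe
        · refine ⟨e - (x + x), hle _ (by omega) (by omega), hle _ (by omega) (by omega), ?_⟩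
          rw [Nat.sub_add_cancel (by omega)]; exact hfe
        · exact ⟨e + 1, hre _ (by omega) (by omega), hre _ (by omega) (by omega),
            hre _ (by omega) (by omega)⟩)
    revert hS
    decide
  · have hag : f (a + g) = false := by simpa using hag
    have hS := low3 hlow (x := g) (y := g + x) (by omega) (by omega)
      {(true, false, true), (true, true, false), (f (a - g), true, true), (true, false, false),
        (false, true, false), (false, false, true), (false, false, false)} (by
        intro t ht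
        simp only [Finset.mem_insert, Finset.mem_singleton] at ht
        rcases ht with rfl | rfl | rfl | rfl | rfl | rfl | rfl
        · refine ⟨a, hfa, hag, ?_⟩
          have : a + (g + x) = a + x + g := by omega
          rw [this]; exact hfc
        · refine ⟨a + x, hfb, hfc, ?_⟩
          exact hr _ (by omega) (by omega)
        · refine ⟨a - g, rfl, ?_, ?_⟩
          · rw [Nat.sub_add_cancel (by omega)]; exact hfa
          · have : a - g + (g + x) = a + x := by omega
            rw [this]; exact hfb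
        · exact ⟨e, hfe, hre _ (by omega) (by omega), hre _ (by omega) (by omega)⟩
        · refine ⟨e - g, hle _ (by omega) (by omega), ?_, hre _ (by omega) (by omega)⟩
          rw [Nat.sub_add_cancel (by omega)]; exact hfe
        · refine ⟨e - (g + x), hle _ (by omega) (by omega), hle _ (by omega) (by omega), ?_⟩
          rw [Nat.sub_add_cancel (by omega)]; exact hfe
        · exact ⟨e + 1, hre _ (by omega) (by omega), hre _ (by omega) (by omega),
            hre _ (by omega) (by omega)⟩)
    revert hS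
    generalize f (a - g) = v
    revert v
    decide

/-- The constant case. -/
theorem gappy_true (hlow : LowN f) (hA : ∀ N, ∃ n, N ≤ n ∧ f n = true)
    (hfree : ∀ L N, ∃ m, N ≤ m ∧ ∀ i, m ≤ i → i < m + L → f i = false) :
    Gappy {m | f m = true} := by
  classical
  refine ⟨Set.infinite_of_forall_exists_gt fun N => ?_, fun L => ?_⟩
  · obtain ⟨n, h1, h2⟩ := hA (N + 1)
    exact ⟨n, h2, by omega⟩
  · by_contra hcon
    push Not at hcon
    obtain ⟨M₁, N₁, h1⟩ := left_free hlow hA hfree L
    set M := max M₁ L with hM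
    obtain ⟨N₂, h2⟩ := next_gap hlow hA hfree M
    obtain ⟨m₀, hm₀, hfm₀, i, hi1, hiL, hfi⟩ := hcon (max N₁ N₂)
    have hfm₀ : f m₀ = true := hfm₀
    have hfi : f (m₀ + i) = true := hfi
    have hex : ∃ c, m₀ < c ∧ f c = true ∧ ∀ i, c < i → i ≤ c + M → f i = false := by
      obtain ⟨c, hc1, hc2, hc3⟩ := exists_right hA hfree M (m₀ + 1)
      exact ⟨c, by omega, hc2, hc3⟩
    obtain ⟨hc1, hc2, hc3⟩ := Nat.find_spec hex
    have hmin : ∀ c', c' < Nat.find hex → m₀ < c' → f c' = true →
        ¬ ∀ i, c' < i → i ≤ c' + M → f i = false := fun c' h3 h4 h5 h6 =>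
      Nat.find_min hex h3 ⟨h4, h5, h6⟩
    set c := Nat.find hex with hc
    obtain ⟨b, hb1, hb2, hb3, hb4⟩ := last_before hfm₀ hc1
    rcases Nat.eq_or_lt_of_le hb1 with h5 | h5
    · -- `b = m₀`
      subst h5
      have h6 : c ≤ m₀ + i := by
        by_contra h
        have := hb4 (m₀ + i) (by omega) (by omega)
        rw [hfi] at this
        exact Bool.noConfusion this
      have := h1 c (by omega) hc2 (fun i hi hi2 => hc3 i hi (by omega)) m₀ (by omega) (by omega)
      rw [hfm₀] at this
      exact Bool.noConfusion this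
    · -- `b > m₀`
      have h6 : c ≤ b + M := by
        by_contra h
        exact hmin b hb2 h5 hb3 fun i hi hi2 => hb4 i hi (by omega)
      have h7 := h2 b c (by omega) hb2 h6 hb3 hc2 hb4 hc3
      obtain ⟨a, ha1, ha2, ha3, ha4⟩ := last_before hfm₀ h5
      have h8 : a + M < b := by
        by_contra h
        have := h7 a ha2 (by omega)
        rw [ha3] at this
        exact Bool.noConfusion this
      rcases Nat.eq_or_lt_of_le ha1 with h9 | h9
      · subst h9
        have := ha4 (m₀ + i) (by omega) (by omega)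
        rw [hfi] at this
        exact Bool.noConfusion this
      · exact hmin a (by omega) h9 ha3 fun i hi hi2 => ha4 i hi (by omega)

end

theorem lowN_sub {f : ℕ → Bool} (hlow : LowN f) (r p : ℕ) :
    LowN (fun j => f (r + p * j)) := by
  classical
  intro K hK
  have h := hlow (K.image (fun k => p * k)) (hK.image _)
  have h1 : (K.image (fun k => p * k)).card ≤ K.card := Finset.card_image_le
  have h2 : trs (fun j => f (r + p * j)) K ⊆ (trs f (K.image (fun k => p * k))).image
      (fun s => K.filter (fun k => p * k ∈ s)) := by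
    intro s hs
    obtain ⟨m, rfl⟩ := mem_trs.1 hs
    rw [Finset.mem_image]
    refine ⟨tr f (K.image (fun k => p * k)) (r + p * m), tr_mem_trs _ _ _, ?_⟩
    ext k
    unfold tr
    simp only [Finset.mem_filter, Finset.mem_image]
    constructor
    · rintro ⟨hk, -, h3⟩
      refine ⟨hk, ?_⟩
      rw [← h3]
      congr 1
      ring
    · rintro ⟨hk, h3⟩
      refine ⟨hk, ⟨k, hk, rfl⟩, ?_⟩
      rw [← h3]
      congr 1
      ring
  have h3 := (Finset.card_le_card h2).trans Finset.card_image_le
  omega

theorem lowN_not {f : ℕ → Bool} (hlow : LowN f) : LowN (fun j => !f j) := by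
  classical
  intro K hK
  refine le_trans ?_ (hlow K hK)
  have h2 : trs (fun j => !f j) K ⊆ (trs f K).image (fun s => K \ s) := by
    intro s hs
    obtain ⟨m, rfl⟩ := mem_trs.1 hs
    rw [Finset.mem_image]
    refine ⟨tr f K m, tr_mem_trs _ _ _, ?_⟩
    ext k
    unfold tr
    simp only [Finset.mem_filter, Finset.mem_sdiff, Bool.not_eq_true', not_and, Bool.not_eq_true]
    constructor
    · rintro ⟨hk, h3⟩
      exact ⟨hk, h3 hk⟩
    · rintro ⟨hk, h3⟩
      exact ⟨hk, fun _ => h3⟩
  exact (Finset.card_le_card h2).trans Finset.card_image_le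

/-- The constant case, for both symbols. -/
theorem gappy_not {f : ℕ → Bool} (hlow : LowN f) (b : Bool) (hA : ∀ N, ∃ n, N ≤ n ∧ f n = !b)
    (hfree : ∀ L N, ∃ m, N ≤ m ∧ ∀ i, m ≤ i → i < m + L → f i = b) :
    Gappy {m | f m = !b} := by
  cases b with
  | false => exact gappy_true hlow hA hfree
  | true =>
    have h := gappy_true (lowN_not hlow) (fun N => by
      obtain ⟨n, h1, h2⟩ := hA N
      exact ⟨n, h1, by simp [h2]⟩) (fun L N => by
      obtain ⟨m, h1, h2⟩ := hfree L N
      exact ⟨m, h1, fun i hi hi2 => by simp [h2 i hi hi2]⟩)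
    have e : {m | (!f m) = true} = {m | f m = !true} := by
      ext m
      simp
    rwa [e] at h

theorem bool_cases (b v : Bool) : v = b ∨ v = !b := by
  cases b <;> cases v <;> simp

/-- A gappy word shows six patterns on a suitable window of three points. -/
theorem six {f : ℕ → Bool} (b : Bool) (hg : Gappy {m | f m = !b}) :
    ∃ x y : ℕ, 0 < x ∧ x < y ∧
      ∀ t ∈ ({(b, b, b), (!b, b, b), (b, !b, b), (b, b, !b), (!b, !b, b), (!b, b, !b)} :
        Finset (Bool × Bool × Bool)),
      ∃ m, f m = t.1 ∧ f (m + x) = t.2.1 ∧ f (m + y) = t.2.2 := by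
  obtain ⟨hinf, hgap⟩ := hg
  have hnext : ∀ N, ∃ n, N < n ∧ f n = !b := by
    intro N
    obtain ⟨n, h1, h2⟩ := hinf.exists_gt N
    exact ⟨n, h2, h1⟩
  have hgap' : ∀ L, ∃ N, ∀ m, N ≤ m → f m = !b → ∀ i, 1 ≤ i → i ≤ L → f (m + i) = b := by
    intro L
    obtain ⟨N, h1⟩ := hgap L
    refine ⟨N, fun m hm hfm i hi hi2 => ?_⟩
    have h2 := h1 m hm hfm i hi hi2
    rcases bool_cases b (f (m + i)) with h3 | h3
    · exact h3
    · exact absurd h3 h2
  obtain ⟨n, -, hn⟩ := hnext 0
  obtain ⟨n', hn', hfn'⟩ := hnext n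
  obtain ⟨x, rfl⟩ : ∃ x, n' = n + x := ⟨n' - n, by omega⟩
  have hx : 0 < x := by omega
  obtain ⟨N₁, h1⟩ := hgap' x
  obtain ⟨q₁, hq₁, hf₁⟩ := hnext N₁
  obtain ⟨q₂, hq₂, hf₂⟩ := hnext q₁
  obtain ⟨N₂, h2⟩ := hgap' (q₂ - q₁)
  obtain ⟨q, hq, hfq⟩ := hnext (q₂ + N₂)
  -- choose the base point
  have hbase : ∃ q₀, N₁ ≤ q₀ ∧ q₀ < q ∧ f q₀ = !b ∧ f (n + (q - q₀)) = b := by
    rcases bool_cases b (f (n + (q - q₂))) with h3 | h3
    · exact ⟨q₂, by omega, by omega, hf₂, h3⟩
    · refine ⟨q₁, by omega, by omega, hf₁, ?_⟩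
      have h4 := h2 (n + (q - q₂)) (by omega) h3 (q₂ - q₁) (by omega) le_rfl
      have h5 : n + (q - q₂) + (q₂ - q₁) = n + (q - q₁) := by omega
      rwa [h5] at h4
  obtain ⟨q₀, hq₀, hq₀q, hf₀, hnb⟩ := hbase
  obtain ⟨y, rfl⟩ : ∃ y, q = q₀ + y := ⟨q - q₀, by omega⟩
  have e1 : q₀ + y - q₀ = y := by omega
  rw [e1] at hnb
  have hxy : x < y := by
    by_contra h
    have h3 := h1 q₀ hq₀ hf₀ y (by omega) (by omega)
    rw [hfq] at h3
    cases b <;> simp at h3
  obtain ⟨N₃, h3⟩ := hgap' (2 * y + 1)
  obtain ⟨e, he, hfe⟩ := hnext (N₃ + 2 * y + 1)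
  have hright : ∀ i, e < i → i ≤ e + 2 * y + 1 → f i = b := by
    intro i hi hi2
    have := h3 e (by omega) hfe (i - e) (by omega) (by omega)
    have e2 : e + (i - e) = i := by omega
    rwa [e2] at this
  have hleft : ∀ i, i < e → e ≤ i + 2 * y + 1 → f i = b := by
    intro i hi hi2
    rcases bool_cases b (f i) with h4 | h4
    · exact h4
    · have := h3 i (by omega) h4 (e - i) (by omega) (by omega)
      have e2 : i + (e - i) = e := by omega
      rw [e2, hfe] at this
      cases b <;> simp at this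
  refine ⟨x, y, hx, hxy, ?_⟩
  intro t ht
  simp only [Finset.mem_insert, Finset.mem_singleton] at ht
  rcases ht with rfl | rfl | rfl | rfl | rfl | rfl
  · exact ⟨e + 1, hright _ (by omega) (by omega), hright _ (by omega) (by omega),
      hright _ (by omega) (by omega)⟩
  · exact ⟨e, hfe, hright _ (by omega) (by omega), hright _ (by omega) (by omega)⟩
  · refine ⟨e - x, hleft _ (by omega) (by omega), ?_, hright _ (by omega) (by omega)⟩
    rw [Nat.sub_add_cancel (by omega)]; exact hfe
  · refine ⟨e - y, hleft _ (by omega) (by omega), hleft _ (by omega) (by omega), ?_⟩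
    rw [Nat.sub_add_cancel (by omega)]; exact hfe
  · exact ⟨n, hn, hfn', hnb⟩
  · exact ⟨q₀, hf₀, h1 q₀ hq₀ hf₀ x (by omega) le_rfl, hfq⟩

theorem exists_not_const {f : ℕ → Bool} (hnp : ¬ UltPer f) {p : ℕ} (hp : 1 ≤ p) :
    ∃ r, ∀ N, ∃ j, N ≤ j ∧ f (r + p * (j + 1)) ≠ f (r + p * j) := by
  by_contra hcon
  push Not at hcon
  choose N hN using hcon
  apply hnp
  refine ⟨p, hp, p * ((Finset.range p).sup N), fun m hm => ?_⟩
  have h1 : m % p < p := Nat.mod_lt _ (by omega)
  have h2 : N (m % p) ≤ m / p := by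
    have h3 : N (m % p) ≤ (Finset.range p).sup N :=
      Finset.le_sup (f := N) (Finset.mem_range.mpr h1)
    have h4 : (Finset.range p).sup N ≤ m / p := by
      rw [Nat.le_div_iff_mul_le (by omega), mul_comm]
      exact hm
    omega
  have h3 := hN (m % p) (m / p) h2
  have e1 : m % p + p * (m / p) = m := Nat.mod_add_div m p
  have e2 : m % p + p * (m / p + 1) = m + p := by rw [mul_add, mul_one]; omega
  rwa [e1, e2] at h3

/-- Words with a step beyond every position take both values infinitely often. -/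
theorem both_of_steps {g : ℕ → Bool} (hg : ∀ N, ∃ j, N ≤ j ∧ g (j + 1) ≠ g j) (b : Bool) (N : ℕ) :
    ∃ n, N ≤ n ∧ g n = b := by
  obtain ⟨j, h1, h2⟩ := hg N
  rcases bool_cases b (g j) with h3 | h3
  · exact ⟨j, h1, h3⟩
  · refine ⟨j + 1, by omega, ?_⟩
    rcases bool_cases b (g (j + 1)) with h4 | h4
    · exact h4
    · rw [h3, h4] at h2
      exact absurd rfl h2

end PerCase

open PerCase in
theorem periodic_case (f : ℕ → Bool) (hlow : LowN f) (hnp : ¬ UltPer f) (p : ℕ) (hp : 1 ≤ p)
    (hper : ∀ L N : ℕ, ∃ m, N ≤ m ∧ ∀ i, i < L → f (m + i + p) = f (m + i)) :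
    ∃ b : Bool, Gappy {m | f m = b} := by
  obtain ⟨r, hr⟩ := exists_not_const hnp hp
  set g : ℕ → Bool := fun j => f (r + p * j) with hg
  have hlg : LowN g := lowN_sub hlow r p
  have hsteps : ∀ N, ∃ j, N ≤ j ∧ g (j + 1) ≠ g j := hr
  -- long constant stretches of `g`
  have hconst : ∀ L N, ∃ j b, N ≤ j ∧ ∀ i, j ≤ i → i < j + L → g i = b := by
    intro L N
    obtain ⟨m, hm, h1⟩ := hper (r + 2 * p + p * L) (r + p * N)
    obtain ⟨j, hj1, hj2, hj3⟩ : ∃ j, N ≤ j ∧ m ≤ r + p * j ∧ r + p * j < m + r + 2 * p := by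
      refine ⟨m / p + 1, ?_, ?_, ?_⟩
      · have h2 : N ≤ m / p := by
          rw [Nat.le_div_iff_mul_le (by omega), mul_comm]
          omega
        omega
      · have := Nat.div_add_mod m p
        have := Nat.mod_lt m (show 0 < p by omega)
        rw [mul_add, mul_one]
        omega
      · have := Nat.div_add_mod m p
        rw [mul_add, mul_one]
        omega
    have h2 : ∀ l, l < L → g (j + l) = g j := by
      intro l hl
      induction l with
      | zero => rfl
      | succ l ih =>
        rw [← ih (by omega)]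
        have h3 : p * (l + 1) ≤ p * L := Nat.mul_le_mul_left p (by omega)
        have e3 : p * (l + 1) = p * l + p := by ring
        have e4 : p * (j + l) = p * j + p * l := by ring
        have h4 := h1 (r + p * (j + l) - m) (by omega)
        have e1 : m + (r + p * (j + l) - m) = r + p * (j + l) := by omega
        rw [e1] at h4
        have e2 : r + p * (j + l) + p = r + p * (j + (l + 1)) := by ring
        rw [e2] at h4
        exact h4
    refine ⟨j, g j, hj1, fun i hi hi2 => ?_⟩
    have := h2 (i - j) (by omega)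
    have e1 : j + (i - j) = i := by omega
    rwa [e1] at this
  -- pigeonhole on the value
  obtain ⟨b, hb⟩ : ∃ b : Bool, ∀ L N, ∃ m, N ≤ m ∧ ∀ i, m ≤ i → i < m + L → g i = b := by
    by_contra hcon
    push Not at hcon
    obtain ⟨L₁, N₁, h1⟩ := hcon true
    obtain ⟨L₂, N₂, h2⟩ := hcon false
    obtain ⟨j, b, hj, h3⟩ := hconst (max L₁ L₂) (max N₁ N₂)
    cases b with
    | true =>
      obtain ⟨i, hi1, hi2, hi3⟩ := h1 j (by omega)
      exact hi3 (h3 i hi1 (by omega))
    | false =>
      obtain ⟨i, hi1, hi2, hi3⟩ := h2 j (by omega)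
      exact hi3 (h3 i hi1 (by omega))
  have hgap := gappy_not hlg b (both_of_steps hsteps _) hb
  obtain ⟨x, y, hx, hxy, hsix⟩ := six b hgap
  -- the constant triple with the other value does not occur
  have hno : ∀ m, ¬ (f m = !b ∧ f (m + p * x) = !b ∧ f (m + p * y) = !b) := by
    rintro m ⟨h1, h2, h3⟩
    have hS := low3 hlow (x := p * x) (y := p * y) (by positivity)
      (Nat.mul_lt_mul_of_pos_left hxy (by omega))
      {(b, b, b), (!b, b, b), (b, !b, b), (b, b, !b), (!b, !b, b), (!b, b, !b), (!b, !b, !b)} (by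
        intro t ht
        by_cases ht' : t = (!b, !b, !b)
        · subst ht'
          exact ⟨m, h1, h2, h3⟩
        · obtain ⟨j, h4, h5, h6⟩ := hsix t (by
            simp only [Finset.mem_insert, Finset.mem_singleton] at ht ⊢
            tauto)
          refine ⟨r + p * j, h4, ?_, ?_⟩
          · rw [← h5, hg]
            simp only
            congr 1
            ring
          · rw [← h6, hg]
            simp only
            congr 1
            ring)
    revert hS
    clear hsix hgap hb h1 h2 h3
    revert b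
    decide
  refine ⟨!b, gappy_not hlow b ?_ ?_⟩
  · intro N
    obtain ⟨j, hj, h1⟩ := both_of_steps hsteps (!b) N
    refine ⟨r + p * j, ?_, h1⟩
    have : 1 * j ≤ p * j := Nat.mul_le_mul_right j hp
    omega
  · intro L N
    obtain ⟨m, hm, h1⟩ := hper (L + p * y) N
    have h2 : ∀ l, l ≤ y → ∀ i, i < L → f (m + i + p * l) = f (m + i) := by
      intro l hl i hi
      induction l with
      | zero => simp
      | succ l ih =>
        rw [← ih (by omega)]
        have h3 : p * l ≤ p * y := Nat.mul_le_mul_left p (by omega)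
        have h4 := h1 (i + p * l) (by omega)
        have e1 : m + (i + p * l) = m + i + p * l := by ring
        have e2 : m + (i + p * l) + p = m + i + p * (l + 1) := by ring
        rw [e2, e1] at h4
        exact h4
    refine ⟨m, hm, fun i hi hi2 => ?_⟩
    obtain ⟨i, rfl⟩ : ∃ l, i = m + l := ⟨i - m, by omega⟩
    rcases bool_cases b (f (m + i)) with h3 | h3
    · exact h3
    · exfalso
      refine hno (m + i) ⟨h3, ?_, ?_⟩
      · rw [h2 x (by omega) i (by omega)]; exact h3
      · rw [h2 y le_rfl i (by omega)]; exact h3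

end PatSturm
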