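import Mathlib
import Pool.Agent.LibPS.Defs

/-!
# Rotation words: the converse direction

A word coded by an irrational rotation and an arc has at most `2|K|` patterns on every window, and
exactly `2n` patterns on some window of every size.  Also: every coding pattern of a window occurs.
-/

namespace PatSturm

namespace RotA

/-- The forward orbit of an irrational rotation is dense modulo one. -/
theorem dens (θ : ℝ) (hθ : Irrational θ) (φ a b : ℝ) (hab : a < b) :
    ∃ m : ℕ, ∃ z : ℤ, a < φ + m * θ + z ∧ φ + m * θ + z < b := by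
  obtain ⟨N, hN⟩ := exists_nat_one_div_lt (sub_pos.2 hab)
  obtain ⟨k, hk0, -, hk⟩ := Real.exists_nat_abs_mul_sub_round_le θ (Nat.succ_pos N)
  set j : ℤ := round ((k : ℝ) * θ) with hj
  set δ : ℝ := k * θ - j with hδ
  have hδ0 : δ ≠ 0 := by
    have h1 : Irrational ((k : ℝ) * θ) := hθ.natCast_mul (by omega)
    have h2 := h1.sub_intCast j
    exact h2.ne_zero
  have hδ1 : |δ| < b - a := by
    refine lt_of_le_of_lt hk (lt_of_le_of_lt ?_ hN)
    push_cast
    apply one_div_le_one_div_of_le
    · positivity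
    · linarith
  rcases lt_or_gt_of_ne hδ0 with h | h
  · -- negative step
    rw [abs_of_neg h] at hδ1
    set z0 : ℤ := ⌈b - φ⌉ with hz0
    have h0 : 0 ≤ (z0 : ℝ) + φ - b := by
      have := Int.le_ceil (b - φ)
      rw [← hz0] at this
      linarith
    have hneg : 0 < -δ := by linarith
    set t : ℕ := ⌊((z0 : ℝ) + φ - b) / (-δ)⌋₊ + 1 with ht
    have h1 : ((z0 : ℝ) + φ - b) / (-δ) < t := by
      rw [ht]; push_cast; exact Nat.lt_floor_add_one _
    have h2 : (t : ℝ) ≤ ((z0 : ℝ) + φ - b) / (-δ) + 1 := by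
      rw [ht]; push_cast
      have := Nat.floor_le (div_nonneg h0 hneg.le)
      linarith
    rw [div_lt_iff₀ hneg] at h1
    have h3 : (t : ℝ) * (-δ) ≤ ((z0 : ℝ) + φ - b) + (-δ) := by
      have := mul_le_mul_of_nonneg_right h2 hneg.le
      rwa [add_mul, div_mul_cancel₀ _ hneg.ne', one_mul] at this
    refine ⟨t * k, z0 - t * j, ?_, ?_⟩
    · push_cast
      have : φ + (t : ℝ) * k * θ + (z0 - t * j) = φ + z0 + t * δ := by rw [hδ]; ring
      rw [this]; linarith
    · push_cast
      have : φ + (t : ℝ) * k * θ + (z0 - t * j) = φ + z0 + t * δ := by rw [hδ]; ring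
      rw [this]; linarith
  · rw [abs_of_pos h] at hδ1
    set z0 : ℤ := ⌊a - φ⌋ with hz0
    have h0 : 0 ≤ a - φ - z0 := by
      have := Int.floor_le (a - φ)
      rw [← hz0] at this
      linarith
    set t : ℕ := ⌊(a - φ - z0) / δ⌋₊ + 1 with ht
    have h1 : (a - φ - z0) / δ < t := by
      rw [ht]; push_cast; exact Nat.lt_floor_add_one _
    have h2 : (t : ℝ) ≤ (a - φ - z0) / δ + 1 := by
      rw [ht]; push_cast
      have := Nat.floor_le (div_nonneg h0 h.le)
      linarith
    rw [div_lt_iff₀ h] at h1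
    have h3 : (t : ℝ) * δ ≤ (a - φ - z0) + δ := by
      have := mul_le_mul_of_nonneg_right h2 h.le
      rwa [add_mul, div_mul_cancel₀ _ h.ne', one_mul] at this
    refine ⟨t * k, z0 - t * j, ?_, ?_⟩
    · push_cast
      have : φ + (t : ℝ) * k * θ + (z0 - t * j) = φ + z0 + t * δ := by rw [hδ]; ring
      rw [this]; linarith
    · push_cast
      have : φ + (t : ℝ) * k * θ + (z0 - t * j) = φ + z0 + t * δ := by rw [hδ]; ring
      rw [this]; linarith

/-- Finitely many positive numbers have a positive lower bound. -/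
theorem exists_pos_le (K : Finset ℕ) (g : ℕ → ℝ) (hg : ∀ k ∈ K, 0 < g k) :
    ∃ ε : ℝ, 0 < ε ∧ ∀ k ∈ K, ε ≤ g k := by
  classical
  induction K using Finset.induction_on with
  | empty => exact ⟨1, one_pos, by simp⟩
  | insert a s ha ih =>
    obtain ⟨ε, h0, h⟩ := ih (fun k hk => hg k (Finset.mem_insert_of_mem hk))
    refine ⟨min ε (g a), lt_min h0 (hg a (Finset.mem_insert_self _ _)), fun k hk => ?_⟩
    rcases Finset.mem_insert.1 hk with rfl | hk
    · exact min_le_right _ _
    · exact (min_le_left _ _).trans (h k hk)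

theorem fract_eq_of {x y : ℝ} {z : ℤ} (h : x - y = z) : Int.fract x = Int.fract y := by
  have : x = y + z := by linarith
  rw [this, Int.fract_add_intCast]

theorem fract_add_of {y δ : ℝ} (h0 : 0 ≤ Int.fract y + δ) (h1 : Int.fract y + δ < 1) :
    Int.fract (y + δ) = Int.fract y + δ := by
  rw [Int.fract_eq_iff]
  refine ⟨h0, h1, ⌊y⌋, ?_⟩
  rw [Int.fract]; ring

/-- Right coding of a phase on a window. -/
noncomputable def R (θ c : ℝ) (K : Finset ℕ) (y : ℝ) : Finset ℕ :=
  open Classical in K.filter (fun k => Int.fract (y + k * θ) < c)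

theorem mem_R {θ c : ℝ} {K : Finset ℕ} {y : ℝ} {k : ℕ} :
    k ∈ R θ c K y ↔ k ∈ K ∧ Int.fract (y + k * θ) < c := by
  classical
  unfold R
  exact Finset.mem_filter

theorem R_congr {θ c : ℝ} {K : Finset ℕ} {y y' : ℝ}
    (h : ∀ k ∈ K, (Int.fract (y + k * θ) < c ↔ Int.fract (y' + k * θ) < c)) :
    R θ c K y = R θ c K y' := by
  ext k
  rw [mem_R, mem_R]
  constructor
  · rintro ⟨h1, h2⟩; exact ⟨h1, (h k h1).1 h2⟩
  · rintro ⟨h1, h2⟩; exact ⟨h1, (h k h1).2 h2⟩

theorem R_int {θ c : ℝ} {K : Finset ℕ} {y y' : ℝ} {z : ℤ} (h : y - y' = z) :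
    R θ c K y = R θ c K y' := by
  refine R_congr fun k _ => ?_
  rw [fract_eq_of (x := y + k * θ) (y := y' + k * θ) (z := z) (by rw [← h]; ring)]

/-- The coding of a phase is the coding of the last break point before it. -/
theorem R_break (θ c : ℝ) (hc0 : 0 < c) (hc1 : c < 1) (K : Finset ℕ) (hK : K.Nonempty) (y : ℝ) :
    ∃ k ∈ K, R θ c K y = R θ c K (-(k * θ)) ∨ R θ c K y = R θ c K (c - k * θ) := by
  classical
  let bp : ℕ × Bool → ℝ := fun p => if p.2 = true then c - p.1 * θ else -(p.1 * θ)
  obtain ⟨p, hp, hmin⟩ := Finset.exists_min_image (K ×ˢ (Finset.univ : Finset Bool))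
    (fun p => Int.fract (y - bp p)) (hK.product Finset.univ_nonempty)
  have hpK : p.1 ∈ K := (Finset.mem_product.1 hp).1
  set δ : ℝ := Int.fract (y - bp p) with hδ
  have hδ0 : 0 ≤ δ := Int.fract_nonneg _
  have key : R θ c K y = R θ c K (bp p) := by
    refine R_congr fun k hk => ?_
    have h1 : δ ≤ Int.fract (y + k * θ) := by
      have := hmin (k, false) (Finset.mem_product.2 ⟨hk, Finset.mem_univ _⟩)
      simpa [bp] using this
    have h2 : δ ≤ Int.fract (y + k * θ - c) := by
      have := hmin (k, true) (Finset.mem_product.2 ⟨hk, Finset.mem_univ _⟩)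
      simp only [bp, if_true] at this
      have e : y - (c - k * θ) = y + k * θ - c := by ring
      rwa [e] at this
    have h3 : Int.fract (bp p + k * θ) = Int.fract (y + k * θ) - δ := by
      rw [Int.fract_eq_iff]
      refine ⟨by linarith, by linarith [Int.fract_lt_one (y + k * θ)],
        ⌊y + k * θ⌋ - ⌊y - bp p⌋, ?_⟩
      rw [hδ, Int.fract, Int.fract]
      push_cast
      ring
    rw [h3]
    constructor
    · intro h; linarith
    · intro h
      by_contra hcon
      rw [not_lt] at hcon
      have h4 : Int.fract (y + k * θ - c) = Int.fract (y + k * θ) - c := by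
        have := fract_add_of (y := y + k * θ) (δ := -c) (by linarith)
          (by linarith [Int.fract_lt_one (y + k * θ)])
        simpa [sub_eq_add_neg] using this
      rw [h4] at h2
      linarith
  refine ⟨p.1, hpK, ?_⟩
  rcases hb : p.2 with _ | _
  · left
    rw [key]
    simp [bp, hb]
  · right
    rw [key]
    simp [bp, hb]

/-- Left coding of a phase is a right coding. -/
theorem L_eq_R (θ c : ℝ) (hc0 : 0 < c) (hc1 : c < 1) (K : Finset ℕ) (y : ℝ) :
    ∃ y', ∀ k ∈ K, (k ∈ R θ c K y' ↔
      (0 < Int.fract (y + k * θ) ∧ Int.fract (y + k * θ) ≤ c)) := by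
  classical
  obtain ⟨ε, h0, h⟩ := exists_pos_le K (fun k =>
    min (if 0 < Int.fract (y + k * θ) then Int.fract (y + k * θ) else 1 - c)
      (if c < Int.fract (y + k * θ) then Int.fract (y + k * θ) - c else 1)) (by
    intro k _
    refine lt_min ?_ ?_
    · split_ifs with h
      · exact h
      · linarith
    · split_ifs with h
      · linarith
      · exact one_pos)
  refine ⟨y - ε, fun k hk => ?_⟩
  have hε := h k hk
  have hA := hε.trans (min_le_left _ _)
  have hB := hε.trans (min_le_right _ _)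
  rw [mem_R]
  have e : y - ε + k * θ = (y + k * θ) + (-ε) := by ring
  rw [e]
  by_cases hv : 0 < Int.fract (y + k * θ)
  · rw [if_pos hv] at hA
    rw [fract_add_of (by linarith) (by linarith [Int.fract_lt_one (y + k * θ)])]
    constructor
    · rintro ⟨-, h2⟩
      refine ⟨hv, ?_⟩
      by_contra hcon
      rw [not_le] at hcon
      rw [if_pos hcon] at hB
      linarith
    · rintro ⟨-, h2⟩
      exact ⟨hk, by linarith⟩
  · rw [if_neg hv] at hA
    have hv0 : Int.fract (y + k * θ) = 0 := le_antisymm (not_lt.1 hv) (Int.fract_nonneg _)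
    have h1 : Int.fract (y + k * θ + -ε) = 1 - ε := by
      rw [Int.fract_eq_iff]
      refine ⟨by linarith, by linarith, ⌊y + k * θ⌋ - 1, ?_⟩
      have := Int.floor_add_fract (y + k * θ)
      rw [hv0, add_zero] at this
      push_cast
      linarith
    rw [h1]
    constructor
    · rintro ⟨-, h2⟩
      linarith
    · rintro ⟨h2, -⟩
      exact absurd h2 hv

/-- Every right coding pattern of a coded word occurs. -/
theorem occ (θ φ c : ℝ) (hθ : Irrational θ) (hc0 : 0 < c) (K : Finset ℕ)
    (y : ℝ) : ∃ m : ℕ, ∀ k ∈ K,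
      (k ∈ R θ c K y → 0 < Int.fract (φ + ((m + k : ℕ) : ℝ) * θ) ∧
        Int.fract (φ + ((m + k : ℕ) : ℝ) * θ) < c) ∧
      (k ∉ R θ c K y → c < Int.fract (φ + ((m + k : ℕ) : ℝ) * θ)) := by
  classical
  obtain ⟨ε, h0, h⟩ := exists_pos_le K (fun k =>
    min (1 - Int.fract (y + k * θ))
      (if Int.fract (y + k * θ) < c then c - Int.fract (y + k * θ) else 1)) (by
    intro k _
    refine lt_min (by linarith [Int.fract_lt_one (y + k * θ)]) ?_
    split_ifs with h
    · linarith
    · exact one_pos)
  obtain ⟨m, z, hm1, hm2⟩ := dens θ hθ φ y (y + ε) (by linarith)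
  refine ⟨m, fun k hk => ?_⟩
  have hε := h k hk
  have hA := hε.trans (min_le_left _ _)
  have hB := hε.trans (min_le_right _ _)
  have hnn := Int.fract_nonneg (y + k * θ)
  set δ : ℝ := φ + m * θ + z - y with hδ
  have e1 : Int.fract (φ + ((m + k : ℕ) : ℝ) * θ) = Int.fract (y + k * θ) + δ := by
    have h1 := fract_add_of (y := y + k * θ) (δ := δ) (by linarith) (by linarith)
    rw [← h1]
    refine fract_eq_of (z := -z) ?_
    rw [hδ]
    push_cast
    ring
  rw [e1, mem_R]
  constructor
  · rintro ⟨-, h2⟩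
    rw [if_pos h2] at hB
    exact ⟨by linarith, by linarith⟩
  · intro h2
    have h3 : ¬ Int.fract (y + k * θ) < c := fun h4 => h2 ⟨hk, h4⟩
    rw [not_lt] at h3
    linarith

theorem eq_of_fract {θ φ a : ℝ} (hθ : Irrational θ) {m n : ℕ}
    (h1 : Int.fract (φ + (m : ℝ) * θ) = a) (h2 : Int.fract (φ + (n : ℝ) * θ) = a) : m = n := by
  by_contra hmn
  have h3 : ((m : ℝ) - n) * θ = ((⌊φ + (m : ℝ) * θ⌋ - ⌊φ + (n : ℝ) * θ⌋ : ℤ) : ℝ) := by
    rw [Int.fract] at h1 h2
    push_cast
    linarith
  have h4 : Irrational ((((m : ℤ) - n : ℤ) : ℝ) * θ) :=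
    hθ.intCast_mul (by omega)
  apply h4
  refine ⟨((⌊φ + (m : ℝ) * θ⌋ - ⌊φ + (n : ℝ) * θ⌋ : ℤ) : ℚ), ?_⟩
  push_cast at h3 ⊢
  linarith

end RotA

open RotA in
theorem rot_low (f : ℕ → Bool) (hf : RotType f) : LowN f := by
  classical
  obtain ⟨θ, φ, c, hθ, hc0, hc1, hf⟩ := hf
  intro K hK
  let Sp : ℕ → ℕ → Prop := fun k m => Int.fract (φ + ((m + k : ℕ) : ℝ) * θ) = 0 ∧
    ∃ k' ∈ K, Int.fract (φ + ((m + k' : ℕ) : ℝ) * θ) = c
  let g : ℕ × Bool → Finset ℕ := fun p =>
    if p.2 = true then R θ c K (c - p.1 * θ)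
    else if h : ∃ m, Sp p.1 m then tr f K h.choose else R θ c K (-(p.1 * θ))
  have hR : ∀ y, R θ c K y ∈ (K ×ˢ (Finset.univ : Finset Bool)).image g := by
    intro y
    rw [Finset.mem_image]
    obtain ⟨k, hk, h | h⟩ := R_break θ c hc0 hc1 K hK y
    · by_cases hs : ∃ m, Sp k m
      · obtain ⟨m, h1, k', hk', h2⟩ := hs
        refine ⟨(k', true), Finset.mem_product.2 ⟨hk', Finset.mem_univ _⟩, ?_⟩
        simp only [g, if_true]
        rw [h]
        refine R_int (z := ⌊φ + ((m + k : ℕ) : ℝ) * θ⌋ - ⌊φ + ((m + k' : ℕ) : ℝ) * θ⌋) ?_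
        rw [Int.fract] at h1 h2
        push_cast at h1 h2 ⊢
        linarith
      · refine ⟨(k, false), Finset.mem_product.2 ⟨hk, Finset.mem_univ _⟩, ?_⟩
        simp only [g]
        rw [dif_neg hs, if_neg (by simp), h]
    · refine ⟨(k, true), Finset.mem_product.2 ⟨hk, Finset.mem_univ _⟩, ?_⟩
      simp only [g, if_true]
      rw [h]
  have hsub : trs f K ⊆ (K ×ˢ (Finset.univ : Finset Bool)).image g := by
    intro s hs
    obtain ⟨m, rfl⟩ := mem_trs.1 hs
    by_cases hd : ∃ k ∈ K, Sp k m
    · obtain ⟨k, hk, hkm⟩ := hd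
      rw [Finset.mem_image]
      refine ⟨(k, false), Finset.mem_product.2 ⟨hk, Finset.mem_univ _⟩, ?_⟩
      have hex : ∃ m, Sp k m := ⟨m, hkm⟩
      have h1 := eq_of_fract hθ hex.choose_spec.1 hkm.1
      simp only [g]
      rw [dif_pos hex, if_neg (by simp)]
      congr 1
      omega
    · -- boundary positions in the window: at most one
      let v : ℕ → ℝ := fun k => Int.fract (φ + ((m + k : ℕ) : ℝ) * θ)
      have hv : ∀ k : ℕ, Int.fract (φ + m * θ + k * θ) = v k := by
        intro k
        simp only [v]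
        congr 1
        push_cast
        ring
      have hgood : ∀ k ∈ K, v k ≠ 0 → v k ≠ c → (f (m + k) = true ↔ v k < c) := by
        intro k _ h0 h1
        obtain ⟨ha, hb⟩ := hf (m + k)
        constructor
        · intro h
          by_contra hcon
          have : c < v k := lt_of_le_of_ne (not_lt.1 hcon) (Ne.symm h1)
          rw [hb this] at h
          exact absurd h (by simp)
        · intro h
          exact ha (lt_of_le_of_ne (Int.fract_nonneg _) (Ne.symm h0)) h
      have huniq : ∀ k₀ ∈ K, (v k₀ = 0 ∨ v k₀ = c) → ∀ k ∈ K, k ≠ k₀ → v k ≠ 0 ∧ v k ≠ c := by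
        intro k₀ hk₀ hb k hk hne
        constructor
        · intro h
          rcases hb with hb | hb
          · have := eq_of_fract hθ h hb
            omega
          · exact hd ⟨k, hk, h, k₀, hk₀, hb⟩
        · intro h
          rcases hb with hb | hb
          · exact hd ⟨k₀, hk₀, hb, k, hk, h⟩
          · have := eq_of_fract hθ h hb
            omega
      by_cases hbd : ∃ k₀ ∈ K, v k₀ = 0 ∨ v k₀ = c
      · obtain ⟨k₀, hk₀, hb⟩ := hbd
        by_cases hRk : (f (m + k₀) = true ↔ v k₀ < c)
        · have : tr f K m = R θ c K (φ + m * θ) := by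
            ext k
            rw [tr, Finset.mem_filter, mem_R, hv]
            by_cases hk : k ∈ K
            · by_cases hkk : k = k₀
              · subst hkk
                rw [hRk]
              · obtain ⟨h1, h2⟩ := huniq k₀ hk₀ hb k hk hkk
                rw [hgood k hk h1 h2]
            · simp [hk]
          rw [this]
          exact hR _
        · obtain ⟨y', hy'⟩ := L_eq_R θ c hc0 hc1 K (φ + m * θ)
          have : tr f K m = R θ c K y' := by
            ext k
            by_cases hk : k ∈ K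
            · rw [hy' k hk, tr, Finset.mem_filter, hv]
              by_cases hkk : k = k₀
              · subst hkk
                rcases hb with hb | hb
                · rw [hb] at hRk ⊢
                  simp only [hc0, iff_true] at hRk
                  simp [hRk]
                · rw [hb] at hRk ⊢
                  simp only [lt_irrefl, iff_false, not_not] at hRk
                  simp [hRk, hc0, hk]
              · obtain ⟨h1, h2⟩ := huniq k₀ hk₀ hb k hk hkk
                rw [hgood k hk h1 h2]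
                have h3 : 0 < v k := lt_of_le_of_ne (Int.fract_nonneg _) (Ne.symm h1)
                constructor
                · rintro ⟨-, h4⟩
                  exact ⟨h3, h4.le⟩
                · rintro ⟨-, h4⟩
                  exact ⟨hk, lt_of_le_of_ne h4 h2⟩
            · have h1 : k ∉ tr f K m := fun h => hk (Finset.mem_filter.1 h).1
              have h2 : k ∉ R θ c K y' := fun h => hk (mem_R.1 h).1
              simp [h1, h2]
          rw [this]
          exact hR _
      · push Not at hbd
        have : tr f K m = R θ c K (φ + m * θ) := by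
          ext k
          rw [tr, Finset.mem_filter, mem_R, hv]
          by_cases hk : k ∈ K
          · obtain ⟨h1, h2⟩ := hbd k hk
            rw [hgood k hk h1 h2]
          · simp [hk]
        rw [this]
        exact hR _
  calc (trs f K).card ≤ ((K ×ˢ (Finset.univ : Finset Bool)).image g).card :=
        Finset.card_le_card hsub
    _ ≤ (K ×ˢ (Finset.univ : Finset Bool)).card := Finset.card_image_le
    _ = 2 * K.card := by simp [mul_comm]

open RotA in
theorem rot_high (f : ℕ → Bool) (hf : RotType f) : HighN f := by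
  classical
  obtain ⟨θ, φ, c, hθ, hc0, hc1, hf⟩ := hf
  intro n hn
  -- a sequence of positions with small decreasing fractional parts
  have hstep : ∀ ε : ℝ, 0 < ε → ∃ k : ℕ, 0 < Int.fract ((k : ℝ) * θ) ∧
      Int.fract ((k : ℝ) * θ) < ε := by
    intro ε hε
    obtain ⟨m, z, h1, h2⟩ := dens θ hθ 0 0 (min ε 1) (lt_min hε one_pos)
    have e : Int.fract ((m : ℝ) * θ) = 0 + m * θ + z := by
      rw [Int.fract_eq_iff]
      refine ⟨h1.le, lt_of_lt_of_le h2 (min_le_right _ _), -z, ?_⟩
      push_cast
      ring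
    exact ⟨m, by rw [e]; exact h1, by rw [e]; exact lt_of_lt_of_le h2 (min_le_left _ _)⟩
  let ε := min c (1 - c)
  have hε0 : 0 < ε := lt_min hc0 (by linarith)
  let P := {k : ℕ // 0 < Int.fract ((k : ℝ) * θ) ∧ Int.fract ((k : ℝ) * θ) < ε}
  have hnext : ∀ p : P, ∃ q : P, Int.fract ((q.1 : ℝ) * θ) < Int.fract ((p.1 : ℝ) * θ) := by
    intro p
    obtain ⟨k, h1, h2⟩ := hstep _ p.2.1
    exact ⟨⟨k, h1, h2.trans p.2.2⟩, h2⟩
  choose nx hnx using hnext
  obtain ⟨k0, hk0⟩ := hstep ε hε0
  let sq : ℕ → P := fun i => Nat.rec ⟨k0, hk0⟩ (fun _ p => nx p) i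
  let w : ℕ → ℝ := fun i => Int.fract (((sq i).1 : ℝ) * θ)
  have hanti : StrictAnti w := strictAnti_nat_of_succ_lt (fun i => hnx (sq i))
  have hw0 : ∀ i, 0 < w i := fun i => (sq i).2.1
  have hw1 : ∀ i, w i < ε := fun i => (sq i).2.2
  have hwc : ∀ i, w i < c := fun i => (hw1 i).trans_le (min_le_left _ _)
  have hwc' : ∀ i, w i < 1 - c := fun i => (hw1 i).trans_le (min_le_right _ _)
  let k : ℕ → ℕ := fun i => (sq i).1
  have hwk : ∀ i, w i = Int.fract ((k i : ℝ) * θ) := fun i => rfl
  have hinj : Function.Injective k := by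
    intro i j hij
    apply hanti.injective
    rw [hwk, hwk, hij]
  let K : Finset ℕ := (Finset.Icc 1 n).image k
  have hKcard : K.card = n := by
    rw [Finset.card_image_of_injective _ hinj]
    simp
  -- every coding occurs
  have hocc : ∀ y, R θ c K y ∈ trs f K := by
    intro y
    obtain ⟨m, hm⟩ := occ θ φ c hθ hc0 K y
    rw [mem_trs]
    refine ⟨m, ?_⟩
    ext l
    rw [tr, Finset.mem_filter]
    constructor
    · rintro ⟨hl, h⟩
      by_contra hcon
      have := (hf (m + l)).2 ((hm l hl).2 hcon)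
      rw [this] at h
      exact absurd h (by simp)
    · intro h
      have hl := (mem_R.1 h).1
      obtain ⟨h1, h2⟩ := (hm l hl).1 h
      exact ⟨hl, (hf (m + l)).1 h1 h2⟩
  -- membership of the positions in the two families
  have hfr : ∀ (a : ℝ) (j : ℕ), Int.fract (a + (k j : ℝ) * θ) = Int.fract (a + w j) := by
    intro a j
    refine fract_eq_of (z := ⌊(k j : ℝ) * θ⌋) ?_
    rw [hwk, Int.fract]
    ring
  have memT : ∀ i j, 1 ≤ j → j ≤ n → (k j ∈ R θ c K (c - w i) ↔ i < j) := by
    intro i j hj1 hj2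
    have hjK : k j ∈ K := Finset.mem_image_of_mem _ (Finset.mem_Icc.2 ⟨hj1, hj2⟩)
    rw [mem_R, hfr]
    have e : Int.fract (c - w i + w j) = c - w i + w j := by
      rw [Int.fract_eq_self]
      constructor
      · linarith [hwc i, hw0 j]
      · linarith [hwc' j, hw0 i]
    rw [e, ← hanti.lt_iff_gt]
    constructor
    · rintro ⟨-, h⟩; linarith
    · intro h; exact ⟨hjK, by linarith⟩
  have memF : ∀ i j, 1 ≤ j → j ≤ n → (k j ∈ R θ c K (-w i) ↔ j ≤ i) := by
    intro i j hj1 hj2
    have hjK : k j ∈ K := Finset.mem_image_of_mem _ (Finset.mem_Icc.2 ⟨hj1, hj2⟩)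
    rw [mem_R, hfr, ← hanti.le_iff_ge]
    constructor
    · rintro ⟨-, h⟩
      by_contra hcon
      rw [not_le] at hcon
      have e : Int.fract (-w i + w j) = 1 + (-w i + w j) := by
        rw [Int.fract_eq_iff]
        refine ⟨by linarith [hwc i, hw0 j], by linarith, -1, ?_⟩
        push_cast
        ring
      rw [e] at h
      linarith [hwc' i, hw0 j]
    · intro h
      refine ⟨hjK, ?_⟩
      have e : Int.fract (-w i + w j) = -w i + w j := by
        rw [Int.fract_eq_self]
        constructor
        · linarith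
        · linarith [hwc j, hw0 i]
      rw [e]
      linarith [hwc j, hw0 i]
  refine ⟨K, hKcard, ?_⟩
  let g : ℕ × Bool → Finset ℕ := fun p => if p.2 = true then R θ c K (c - w p.1)
    else R θ c K (-w p.1)
  have hcard : ((Finset.range n) ×ˢ (Finset.univ : Finset Bool)).card = 2 * n := by
    simp [mul_comm]
  rw [← hcard]
  refine Finset.card_le_card_of_injOn g ?_ ?_
  · intro p _
    simp only [g]
    split_ifs
    · exact hocc _
    · exact hocc _
  · rintro ⟨i, b⟩ hi ⟨j, b'⟩ hj heq
    have hi' : i < n := by simpa using (Finset.mem_product.1 hi).1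
    have hj' : j < n := by simpa using (Finset.mem_product.1 hj).1
    have hTT : ∀ i j, i < n → j < n → R θ c K (c - w i) = R θ c K (c - w j) → i ≤ j := by
      intro i j hi hj h
      by_contra hcon
      have h1 := (memT j (j + 1) (by omega) (by omega)).2 (by omega)
      rw [← h, memT i (j + 1) (by omega) (by omega)] at h1
      omega
    have hFF : ∀ i j, i < n → j < n → R θ c K (-w i) = R θ c K (-w j) → i ≤ j := by
      intro i j hi hj h
      by_contra hcon
      have h1 := (memF i i (by omega) (by omega)).2 le_rfl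
      rw [h, memF j i (by omega) (by omega)] at h1
      omega
    have hTF : ∀ i j, i < n → j < n → R θ c K (c - w i) ≠ R θ c K (-w j) := by
      intro i j hi hj h
      have h1 := (memT i n hn le_rfl).2 hi
      rw [h, memF j n hn le_rfl] at h1
      omega
    rcases b with _ | _ <;> rcases b' with _ | _
    · simp only [g, Bool.false_eq_true, if_false] at heq
      have := le_antisymm (hFF i j hi' hj' heq) (hFF j i hj' hi' heq.symm)
      rw [this]
    · simp only [g, Bool.false_eq_true, if_false, if_true] at heq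
      exact absurd heq.symm (hTF j i hj' hi')
    · simp only [g, Bool.false_eq_true, if_false, if_true] at heq
      exact absurd heq (hTF i j hi' hj')
    · simp only [g, if_true] at heq
      have := le_antisymm (hTT i j hi' hj' heq) (hTT j i hj' hi' heq.symm)
      rw [this]

open RotA in
theorem codPats_occurs (x : Pt) (θ φ c : ℝ) (hθ : Irrational θ) (hc0 : 0 < c) (hc1 : c < 1)
    (hx : CodedZ x θ φ c) (K : Finset ℕ) (s : Finset ℕ) (hs : s ∈ codPats θ c K) :
    ∃ n : ℤ, K.filter (fun k : ℕ => x (n + k) = true) = s := by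
  classical
  have _h := hc1
  unfold codPats at hs
  rw [Finset.mem_filter] at hs
  obtain ⟨-, ψ, -, hψ⟩ := hs
  obtain ⟨m, hm⟩ := occ θ φ c hθ hc0 K ψ
  refine ⟨m, ?_⟩
  have hsR : s = R θ c K ψ := by
    rw [← hψ]
    ext k
    rw [mem_R]
    unfold cod
    rw [Finset.mem_filter]
  rw [hsR]
  ext l
  rw [Finset.mem_filter]
  have hcast : ∀ l : ℕ, (((m : ℤ) + l : ℤ) : ℝ) = ((m + l : ℕ) : ℝ) := by
    intro l; push_cast; rfl
  constructor
  · rintro ⟨hl, h⟩
    by_contra hcon
    have h1 := (hx ((m : ℤ) + l)).2 (by rw [hcast]; exact (hm l hl).2 hcon)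
    rw [h1] at h
    exact absurd h (by simp)
  · intro h
    have hl := (mem_R.1 h).1
    obtain ⟨h1, h2⟩ := (hm l hl).1 h
    exact ⟨hl, (hx ((m : ℤ) + l)).1 (by rw [hcast]; exact h1) (by rw [hcast]; exact h2)⟩

end PatSturm
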