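import Pool.Agent.LibPS.Defs

/-!
# Full windows of rotations and the extension theorem
-/

namespace PatSturm

open Filter Topology

/-! ## Density of the multiples of an irrational number -/

theorem rx_dens_pos (α : ℝ) (x δ : ℝ) (N : ℕ) (k₀ : ℕ) (p : ℤ) (hk₀ : 0 < k₀)
    (h0 : 0 < (k₀ : ℝ) * α - p) (h1 : (k₀ : ℝ) * α - p < δ) :
    ∃ k : ℕ, N ≤ k ∧ ∃ z : ℤ, x < (k : ℝ) * α + z ∧ (k : ℝ) * α + z < x + δ := by
  set β : ℝ := (k₀ : ℝ) * α - p with hβ
  obtain ⟨T, hT⟩ := exists_int_gt ((N : ℝ) * β - x)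
  have hxT : (N : ℝ) * β < x + T := by linarith
  set j : ℤ := ⌊(x + T) / β⌋ + 1 with hj
  have hj1 : x + T < j * β := by
    have h2 := Int.lt_floor_add_one ((x + T) / β)
    rw [div_lt_iff₀ h0] at h2
    rw [hj]; push_cast; linarith
  have hj2 : (j : ℝ) * β ≤ x + T + β := by
    have h2 := Int.floor_le ((x + T) / β)
    rw [le_div_iff₀ h0] at h2
    rw [hj]; push_cast; linarith
  have hjN : (N : ℝ) < j := by
    by_contra hcon
    push Not at hcon
    have : (j : ℝ) * β ≤ N * β := mul_le_mul_of_nonneg_right hcon h0.le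
    linarith
  have hjN' : (N : ℤ) < j := by exact_mod_cast hjN
  obtain ⟨n, hn⟩ := Int.eq_ofNat_of_zero_le (show 0 ≤ j by omega)
  refine ⟨n * k₀, ?_, -(j * p) - T, ?_, ?_⟩
  · have : N ≤ n := by omega
    calc N ≤ n := this
      _ = n * 1 := (mul_one n).symm
      _ ≤ n * k₀ := Nat.mul_le_mul_left n hk₀
  · have hnj : (n : ℝ) = (j : ℝ) := by rw [hn]; simp
    push_cast
    rw [hnj]
    have : (j : ℝ) * k₀ * α + (-(j * p) - T) = j * β - T := by rw [hβ]; ring
    rw [this]; linarith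
  · have hnj : (n : ℝ) = (j : ℝ) := by rw [hn]; simp
    push_cast
    rw [hnj]
    have : (j : ℝ) * k₀ * α + (-(j * p) - T) = j * β - T := by rw [hβ]; ring
    rw [this]; linarith

theorem rx_dens (α : ℝ) (hα : Irrational α) (x δ : ℝ) (hδ : 0 < δ) (N : ℕ) :
    ∃ k : ℕ, N ≤ k ∧ ∃ z : ℤ, x < (k : ℝ) * α + z ∧ (k : ℝ) * α + z < x + δ := by
  obtain ⟨n, hn⟩ := exists_nat_gt (1 / δ)
  have hn0 : (0 : ℝ) < n := lt_trans (by positivity) hn
  have hn1 : 0 < n := by exact_mod_cast hn0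
  obtain ⟨k, hk0, -, hk⟩ := Real.exists_nat_abs_mul_sub_round_le α hn1
  have hlt : (1 : ℝ) / (n + 1) < δ := by
    rw [div_lt_iff₀ (by positivity)]
    rw [div_lt_iff₀ hδ] at hn
    nlinarith
  have habs : |(k : ℝ) * α - round ((k : ℝ) * α)| < δ := lt_of_le_of_lt hk hlt
  have hne : (k : ℝ) * α - round ((k : ℝ) * α) ≠ 0 := by
    intro h
    have hirr : Irrational ((k : ℝ) * α) := by
      have := hα.natCast_mul (show k ≠ 0 by omega)
      exact this
    exact hirr ⟨(round ((k : ℝ) * α) : ℤ), by push_cast; linarith⟩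
  rcases lt_or_gt_of_ne hne with hneg | hpos
  · have h1 := abs_lt.1 habs
    obtain ⟨m, hm, z, hz1, hz2⟩ := rx_dens_pos (-α) (-x - δ) δ N k (-round ((k : ℝ) * α)) hk0
      (by push_cast; linarith) (by push_cast; linarith [h1.1])
    exact ⟨m, hm, -z, by push_cast; linarith, by push_cast; linarith⟩
  · exact rx_dens_pos α x δ N k (round ((k : ℝ) * α)) hk0 hpos (abs_lt.1 habs).2

/-- Nets of phases. -/
theorem rx_net (θ : ℝ) (hθ : Irrational θ) (η : ℝ) (hη : 0 < η) (B N : ℕ) (hB : 1 ≤ B) :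
    ∃ K : Finset ℕ, K.Nonempty ∧ (∀ k ∈ K, N ≤ k ∧ B ∣ k) ∧
      ∀ x : ℝ, ∃ k ∈ K, ∃ z : ℤ, x < (k : ℝ) * θ + z ∧ (k : ℝ) * θ + z < x + η := by
  obtain ⟨M, hM⟩ := exists_nat_gt (2 / η)
  have hM0 : (0 : ℝ) < M := lt_trans (by positivity) hM
  have hM1 : (2 : ℝ) / M < η := by
    rw [div_lt_iff₀ hM0]
    rw [div_lt_iff₀ hη] at hM
    linarith
  have hBθ : Irrational ((B : ℝ) * θ) := hθ.natCast_mul (show B ≠ 0 by omega)
  have key : ∀ i : ℕ, ∃ j : ℕ, N ≤ j ∧ ∃ z : ℤ, (i : ℝ) / M < (j : ℝ) * ((B : ℝ) * θ) + z ∧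
      (j : ℝ) * ((B : ℝ) * θ) + z < (i : ℝ) / M + 1 / M :=
    fun i => rx_dens _ hBθ _ _ (by positivity) N
  choose j hjN z hz1 hz2 using key
  refine ⟨(Finset.range (M + 1)).image (fun i => B * j i), ?_, ?_, ?_⟩
  · exact (Finset.nonempty_range_iff.2 (by omega)).image _
  · intro k hk
    obtain ⟨i, -, rfl⟩ := Finset.mem_image.1 hk
    refine ⟨?_, Dvd.intro _ rfl⟩
    calc N ≤ j i := hjN i
      _ = 1 * j i := (one_mul _).symm
      _ ≤ B * j i := Nat.mul_le_mul_right _ hB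
  · intro x
    have hf0 := Int.fract_nonneg x
    have hf1 := Int.fract_lt_one x
    set i : ℕ := ⌊Int.fract x * M⌋₊ + 1 with hi
    have hi1 : Int.fract x * M < i := by rw [hi]; push_cast; exact Nat.lt_floor_add_one _
    have hi2 : (i : ℝ) ≤ Int.fract x * M + 1 := by
      rw [hi]; push_cast
      have := Nat.floor_le (show 0 ≤ Int.fract x * M by positivity)
      linarith
    have hiM : i < M + 1 := by
      have h3 : Int.fract x * M < M := by nlinarith
      have h4 : (i : ℝ) < M + 1 := by linarith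
      exact_mod_cast h4
    refine ⟨B * j i, Finset.mem_image.2 ⟨i, Finset.mem_range.2 hiM, rfl⟩, z i + ⌊x⌋, ?_, ?_⟩
    · have h5 : Int.fract x < (i : ℝ) / M := by rw [lt_div_iff₀ hM0]; exact hi1
      have h6 := hz1 i
      have h7 : x = ⌊x⌋ + Int.fract x := (Int.floor_add_fract x).symm
      push_cast
      calc x = ⌊x⌋ + Int.fract x := h7
        _ < ⌊x⌋ + ((j i : ℝ) * ((B : ℝ) * θ) + z i) := by linarith
        _ = _ := by ring
    · have h5 : (i : ℝ) / M ≤ Int.fract x + 1 / M := by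
        rw [div_le_iff₀ hM0, add_mul, one_div_mul_cancel hM0.ne']
        exact hi2
      have h6 := hz2 i
      have h7 : x = ⌊x⌋ + Int.fract x := (Int.floor_add_fract x).symm
      have h8 : (1 : ℝ) / M + 1 / M = 2 / M := by ring
      push_cast
      calc (B : ℝ) * j i * θ + (z i + ⌊x⌋) = ⌊x⌋ + ((j i : ℝ) * ((B : ℝ) * θ) + z i) := by ring
        _ < ⌊x⌋ + (Int.fract x + η) := by linarith
        _ = (⌊x⌋ + Int.fract x) + η := by ring
        _ = x + η := by rw [← h7]

/-! ## Separation -/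

theorem rx_bound (θ c : ℝ) (hθ : Irrational θ) (hc0 : 0 < c) (hc1 : c < 1) :
    ∃ B : ℕ, 1 ≤ B ∧ ∀ k k' : ℕ, ∀ z : ℤ, (k : ℝ) * θ - k' * θ - c = z →
      k ≠ k' ∧ k < k' + B ∧ k' < k + B := by
  have hcz : ∀ z : ℤ, (z : ℝ) ≠ -c := by
    intro z hz
    have h1 : (z : ℝ) < 0 := by linarith
    have h2 : (-1 : ℝ) < z := by linarith
    have h3 : z < 0 := by exact_mod_cast h1
    have h4 : (-1 : ℤ) < z := by exact_mod_cast h2
    omega
  by_cases h : ∃ a b : ℕ, ∃ z : ℤ, (a : ℝ) * θ - b * θ - c = z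
  · obtain ⟨a, b, z, hab⟩ := h
    refine ⟨a + b + 1, by omega, ?_⟩
    intro k k' z' hk
    have hne : k ≠ k' := by
      rintro rfl
      exact hcz z' (by linarith)
    have hd : ((k : ℤ) - k' - (a - b) : ℤ) = 0 := by
      by_contra hcon
      have hirr := hθ.intCast_mul hcon
      apply hirr
      refine ⟨((z' - z : ℤ) : ℚ), ?_⟩
      push_cast
      linarith
    refine ⟨hne, by omega, by omega⟩
  · refine ⟨1, le_refl _, ?_⟩
    intro k k' z hk
    exact absurd ⟨k, k', z, hk⟩ h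

theorem rx_sep_mono {θ c : ℝ} {K K' : Finset ℕ} (h : K ⊆ K') (hs : sep θ c K') : sep θ c K :=
  fun k hk k' hk' z => hs k (h hk) k' (h hk') z

/-! ## Codings -/

theorem rx_mem_cod {θ c ψ : ℝ} {K : Finset ℕ} {k : ℕ} :
    k ∈ cod θ c ψ K ↔ k ∈ K ∧ Int.fract (ψ + k * θ) < c := by
  classical
  unfold cod
  rw [Finset.mem_filter]

theorem rx_fract_eq {u v : ℝ} (z : ℤ) (h0 : 0 ≤ v) (h1 : v < 1) (h : u = v + z) :
    Int.fract u = v := by
  rw [Int.fract_eq_iff]
  exact ⟨h0, h1, z, by linarith⟩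

theorem rx_right (u c : ℝ) (hc0 : 0 < c) (hc1 : c < 1) :
    ∀ᶠ t in 𝓝[>] (0 : ℝ), Int.fract (u + t) ≠ 0 ∧ Int.fract (u + t) ≠ c ∧
      (Int.fract (u + t) < c ↔ Int.fract u < c) := by
  have hf0 := Int.fract_nonneg u
  have hf1 := Int.fract_lt_one u
  have hu : u = Int.fract u + ⌊u⌋ := by rw [Int.fract]; ring
  rcases lt_or_ge (Int.fract u) c with h | h
  · filter_upwards [Ioo_mem_nhdsGT (show (0 : ℝ) < c - Int.fract u by linarith)] with t ht
    have e : Int.fract (u + t) = Int.fract u + t :=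
      rx_fract_eq ⌊u⌋ (by linarith [ht.1]) (by linarith [ht.2]) (by linarith)
    rw [e]
    refine ⟨by linarith [ht.1, ht.2] |> ne_of_gt, by linarith [ht.1, ht.2] |> ne_of_lt, ?_⟩
    constructor
    · intro _; exact h
    · intro _; linarith [ht.2]
  · filter_upwards [Ioo_mem_nhdsGT (show (0 : ℝ) < 1 - Int.fract u by linarith)] with t ht
    have e : Int.fract (u + t) = Int.fract u + t :=
      rx_fract_eq ⌊u⌋ (by linarith [ht.1]) (by linarith [ht.2]) (by linarith)
    rw [e]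
    refine ⟨by linarith [ht.1, ht.2] |> ne_of_gt, by linarith [ht.1, ht.2] |> ne_of_gt, ?_⟩
    constructor
    · intro _; linarith [ht.1]
    · intro _; linarith

theorem rx_left_same (u c : ℝ) (h0 : Int.fract u ≠ 0) (hc : Int.fract u ≠ c) :
    ∀ᶠ t in 𝓝[>] (0 : ℝ), (Int.fract (u - t) < c ↔ Int.fract u < c) := by
  have hf0 := Int.fract_nonneg u
  have hf1 := Int.fract_lt_one u
  have hf0' : 0 < Int.fract u := lt_of_le_of_ne hf0 (Ne.symm h0)
  have hu : u = Int.fract u + ⌊u⌋ := by rw [Int.fract]; ring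
  rcases lt_or_gt_of_ne hc with h | h
  · filter_upwards [Ioo_mem_nhdsGT hf0'] with t ht
    have e : Int.fract (u - t) = Int.fract u - t :=
      rx_fract_eq ⌊u⌋ (by linarith [ht.2]) (by linarith [ht.1]) (by linarith)
    rw [e]
    constructor
    · intro _; exact h
    · intro _; linarith [ht.1]
  · filter_upwards [Ioo_mem_nhdsGT hf0', Ioo_mem_nhdsGT (show (0 : ℝ) < Int.fract u - c by linarith)]
      with t ht ht'
    have e : Int.fract (u - t) = Int.fract u - t :=
      rx_fract_eq ⌊u⌋ (by linarith [ht.2]) (by linarith [ht.1]) (by linarith)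
    rw [e]
    constructor
    · intro _; linarith [ht'.2]
    · intro _; linarith

theorem rx_left_zero (u c : ℝ) (hc1 : c < 1) (h0 : Int.fract u = 0) :
    ∀ᶠ t in 𝓝[>] (0 : ℝ), ¬ (Int.fract (u - t) < c) := by
  have hu : u = Int.fract u + ⌊u⌋ := by rw [Int.fract]; ring
  filter_upwards [Ioo_mem_nhdsGT (show (0 : ℝ) < 1 - c by linarith),
    Ioo_mem_nhdsGT (show (0 : ℝ) < 1 by norm_num)] with t ht ht'
  have e : Int.fract (u - t) = 1 - t :=
    rx_fract_eq (⌊u⌋ - 1) (by linarith [ht'.2]) (by linarith [ht.1]) (by push_cast; linarith)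
  rw [e]
  linarith [ht.2]

theorem rx_left_c (u c : ℝ) (hc0 : 0 < c) (h : Int.fract u = c) :
    ∀ᶠ t in 𝓝[>] (0 : ℝ), Int.fract (u - t) < c := by
  have hf1 := Int.fract_lt_one u
  have hu : u = Int.fract u + ⌊u⌋ := by rw [Int.fract]; ring
  filter_upwards [Ioo_mem_nhdsGT hc0] with t ht
  have e : Int.fract (u - t) = Int.fract u - t :=
    rx_fract_eq ⌊u⌋ (by linarith [ht.2]) (by linarith [ht.1]) (by linarith)
  rw [e]
  linarith [ht.1]

theorem rx_mem_codPats {θ c : ℝ} (hc0 : 0 < c) (hc1 : c < 1) {K s : Finset ℕ} :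
    s ∈ codPats θ c K ↔ ∃ ψ, cod θ c ψ K = s := by
  classical
  unfold codPats
  simp only [Finset.mem_filter, Finset.mem_powerset]
  constructor
  · rintro ⟨-, ψ, -, h⟩; exact ⟨ψ, h⟩
  · rintro ⟨ψ, rfl⟩
    refine ⟨fun k hk => (rx_mem_cod.1 hk).1, ?_⟩
    have hev : ∀ᶠ t in 𝓝[>] (0 : ℝ), ∀ k ∈ K, Int.fract ((ψ + k * θ) + t) ≠ 0 ∧
        Int.fract ((ψ + k * θ) + t) ≠ c ∧
        (Int.fract ((ψ + k * θ) + t) < c ↔ Int.fract (ψ + k * θ) < c) :=
      (Filter.eventually_all_finset K).2 fun k _ => rx_right _ c hc0 hc1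
    obtain ⟨t, ht⟩ := hev.exists
    have e : ∀ k : ℕ, (ψ + t) + k * θ = (ψ + k * θ) + t := fun k => by ring
    refine ⟨ψ + t, ?_, ?_⟩
    · intro k hk
      rw [e k]
      exact ⟨(ht k hk).1, (ht k hk).2.1⟩
    · ext k
      rw [rx_mem_cod, rx_mem_cod, e k]
      constructor
      · rintro ⟨hk, h⟩; exact ⟨hk, (ht k hk).2.2.1 h⟩
      · rintro ⟨hk, h⟩; exact ⟨hk, (ht k hk).2.2.2 h⟩

/-- At a break point of `k` which is not a break point of `K`, the coding of `K` has both
extensions at `k`. -/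
theorem rx_two_ext {θ c : ℝ} (hc0 : 0 < c) (hc1 : c < 1) {K : Finset ℕ} {k : ℕ} (hk : k ∉ K)
    (ψ : ℝ) (hg : gen θ c ψ K) (hb : Int.fract (ψ + k * θ) = 0 ∨ Int.fract (ψ + k * θ) = c) :
    cod θ c ψ K ∈ codPats θ c (insert k K) ∧ insert k (cod θ c ψ K) ∈ codPats θ c (insert k K) := by
  classical
  have hsame : ∀ᶠ t in 𝓝[>] (0 : ℝ), ∀ κ ∈ K,
      (Int.fract ((ψ + κ * θ) - t) < c ↔ Int.fract (ψ + κ * θ) < c) :=
    (Filter.eventually_all_finset K).2 fun κ hκ => rx_left_same _ c (hg κ hκ).1 (hg κ hκ).2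
  have e : ∀ (t : ℝ) (κ : ℕ), (ψ - t) + κ * θ = (ψ + κ * θ) - t := fun t κ => by ring
  have hneK : ∀ κ ∈ K, κ ≠ k := fun κ hκ h => hk (h ▸ hκ)
  rcases hb with hb | hb
  · obtain ⟨t, ht, htk⟩ := (hsame.and (rx_left_zero _ c hc1 hb)).exists
    constructor
    · rw [rx_mem_codPats hc0 hc1]
      refine ⟨ψ - t, ?_⟩
      ext κ
      rw [rx_mem_cod, rx_mem_cod, e t κ, Finset.mem_insert]
      constructor
      · rintro ⟨rfl | hκ, h⟩
        · exact absurd h htk
        · exact ⟨hκ, (ht κ hκ).1 h⟩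
      · rintro ⟨hκ, h⟩
        exact ⟨Or.inr hκ, (ht κ hκ).2 h⟩
    · rw [rx_mem_codPats hc0 hc1]
      refine ⟨ψ, ?_⟩
      ext κ
      rw [rx_mem_cod, Finset.mem_insert, Finset.mem_insert, rx_mem_cod]
      constructor
      · rintro ⟨rfl | hκ, h⟩
        · exact Or.inl rfl
        · exact Or.inr ⟨hκ, h⟩
      · rintro (rfl | ⟨hκ, h⟩)
        · exact ⟨Or.inl rfl, by rw [hb]; exact hc0⟩
        · exact ⟨Or.inr hκ, h⟩
  · obtain ⟨t, ht, htk⟩ := (hsame.and (rx_left_c _ c hc0 hb)).exists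
    constructor
    · rw [rx_mem_codPats hc0 hc1]
      refine ⟨ψ, ?_⟩
      ext κ
      rw [rx_mem_cod, rx_mem_cod, Finset.mem_insert]
      constructor
      · rintro ⟨rfl | hκ, h⟩
        · rw [hb] at h; exact absurd h (lt_irrefl _)
        · exact ⟨hκ, h⟩
      · rintro ⟨hκ, h⟩
        exact ⟨Or.inr hκ, h⟩
    · rw [rx_mem_codPats hc0 hc1]
      refine ⟨ψ - t, ?_⟩
      ext κ
      rw [rx_mem_cod, Finset.mem_insert, Finset.mem_insert, rx_mem_cod, e t κ]
      constructor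
      · rintro ⟨rfl | hκ, h⟩
        · exact Or.inl rfl
        · exact Or.inr ⟨hκ, (ht κ hκ).1 h⟩
      · rintro (rfl | ⟨hκ, h⟩)
        · exact ⟨Or.inl rfl, htk⟩
        · exact ⟨Or.inr hκ, (ht κ hκ).2 h⟩

theorem rx_step {θ c : ℝ} (hθ : Irrational θ) (hc0 : 0 < c) (hc1 : c < 1) {K : Finset ℕ} {k : ℕ}
    (hk : k ∉ K) (hsep : sep θ c (insert k K)) {k' : ℕ} (hk' : k' ∈ K) (z : ℤ)
    (hcl : |(k' : ℝ) * θ - k * θ + z| < min c (1 - c)) :
    (codPats θ c K).card + 2 ≤ (codPats θ c (insert k K)).card := by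
  classical
  set S := codPats θ c K with hS
  set T := codPats θ c (insert k K) with hT
  set T₀ := T.filter (fun s => k ∉ s) with hT₀
  set T₁ := T.filter (fun s => ¬ k ∉ s) with hT₁
  set U := T₁.image (fun s => s.erase k) with hU
  have hcard : T₀.card + T₁.card = T.card := Finset.card_filter_add_card_filter_not _
  have hU1 : U.card ≤ T₁.card := Finset.card_image_le
  have hUI : (T₀ ∪ U).card + (T₀ ∩ U).card = T₀.card + U.card := Finset.card_union_add_card_inter _ _
  have hSsub : S ⊆ T₀ ∪ U := by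
    intro s hs
    rw [hS, rx_mem_codPats hc0 hc1] at hs
    obtain ⟨ψ, rfl⟩ := hs
    have hmem : cod θ c ψ (insert k K) ∈ T := by
      rw [hT, rx_mem_codPats hc0 hc1]; exact ⟨ψ, rfl⟩
    rw [Finset.mem_union]
    by_cases hkk : k ∈ cod θ c ψ (insert k K)
    · right
      rw [hU, Finset.mem_image]
      refine ⟨_, Finset.mem_filter.2 ⟨hmem, not_not.2 hkk⟩, ?_⟩
      ext κ
      rw [Finset.mem_erase, rx_mem_cod, rx_mem_cod, Finset.mem_insert]
      constructor
      · rintro ⟨hne, h1 | h1, h2⟩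
        · exact absurd h1 hne
        · exact ⟨h1, h2⟩
      · rintro ⟨h1, h2⟩
        exact ⟨fun h => hk (h ▸ h1), Or.inr h1, h2⟩
    · left
      rw [hT₀, Finset.mem_filter]
      have : cod θ c ψ K = cod θ c ψ (insert k K) := by
        ext κ
        rw [rx_mem_cod, rx_mem_cod, Finset.mem_insert]
        constructor
        · rintro ⟨h1, h2⟩; exact ⟨Or.inr h1, h2⟩
        · rintro ⟨h1 | h1, h2⟩
          · exact absurd (rx_mem_cod.2 ⟨Finset.mem_insert_self _ _,
              by rw [← h1]; exact h2⟩) hkk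
          · exact ⟨h1, h2⟩
      rw [this]
      exact ⟨hmem, hkk⟩
  -- the two special patterns
  have hirr : ∀ κ ∈ K, ∀ w : ℤ, -(k : ℝ) * θ + κ * θ ≠ w := by
    intro κ hκ w hw
    have hne : (κ : ℤ) - k ≠ 0 := by
      intro h
      have : κ = k := by omega
      exact hk (this ▸ hκ)
    apply hθ.intCast_mul hne
    refine ⟨(w : ℚ), ?_⟩
    push_cast
    linarith
  have hg0 : gen θ c (-(k : ℝ) * θ) K := by
    intro κ hκ
    constructor
    · intro h
      have h1 : (-(k : ℝ) * θ + κ * θ) = ⌊-(k : ℝ) * θ + κ * θ⌋ := by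
        rw [Int.fract] at h; linarith
      exact hirr κ hκ _ h1
    · intro h
      have h1 : (κ : ℝ) * θ - k * θ - c = ⌊-(k : ℝ) * θ + κ * θ⌋ := by
        rw [Int.fract] at h; linarith
      exact hsep κ (Finset.mem_insert_of_mem hκ) k (Finset.mem_insert_self _ _) _ h1
  have hg1 : gen θ c (c - (k : ℝ) * θ) K := by
    intro κ hκ
    constructor
    · intro h
      have h1 : (k : ℝ) * θ - κ * θ - c = (-⌊c - (k : ℝ) * θ + κ * θ⌋ : ℤ) := by
        rw [Int.fract] at h; push_cast; linarith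
      exact hsep k (Finset.mem_insert_self _ _) κ (Finset.mem_insert_of_mem hκ) _ h1
    · intro h
      have h1 : (-(k : ℝ) * θ + κ * θ) = ⌊c - (k : ℝ) * θ + κ * θ⌋ := by
        rw [Int.fract] at h; linarith
      exact hirr κ hκ _ h1
  have hb0 : Int.fract (-(k : ℝ) * θ + k * θ) = 0 := by
    rw [show -(k : ℝ) * θ + k * θ = 0 by ring, Int.fract_zero]
  have hb1 : Int.fract (c - (k : ℝ) * θ + k * θ) = c := by
    rw [show c - (k : ℝ) * θ + k * θ = c by ring]
    exact Int.fract_eq_self.2 ⟨hc0.le, hc1⟩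
  have h0 := rx_two_ext hc0 hc1 hk _ hg0 (Or.inl hb0)
  have h1 := rx_two_ext hc0 hc1 hk _ hg1 (Or.inr hb1)
  have hin : ∀ s : Finset ℕ, k ∉ s → s ∈ T → insert k s ∈ T → s ∈ T₀ ∩ U := by
    intro s hks hs1 hs2
    rw [Finset.mem_inter]
    refine ⟨Finset.mem_filter.2 ⟨hs1, hks⟩, Finset.mem_image.2 ⟨insert k s,
      Finset.mem_filter.2 ⟨hs2, not_not.2 (Finset.mem_insert_self _ _)⟩, ?_⟩⟩
    exact Finset.erase_insert hks
  have hnk : ∀ ψ, k ∉ cod θ c ψ K := fun ψ h => hk (rx_mem_cod.1 h).1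
  have hP0 := hin _ (hnk _) h0.1 h0.2
  have hP1 := hin _ (hnk _) h1.1 h1.2
  have hne : cod θ c (-(k : ℝ) * θ) K ≠ cod θ c (c - (k : ℝ) * θ) K := by
    intro heq
    set δ : ℝ := (k' : ℝ) * θ - k * θ + z with hδ
    have hcl1 := abs_lt.1 hcl
    have hm1 := min_le_left c (1 - c)
    have hm2 := min_le_right c (1 - c)
    have hδ0 : δ ≠ 0 := by
      intro h
      exact hirr k' hk' (-z) (by push_cast; linarith)
    have hiff : (Int.fract (-(k : ℝ) * θ + k' * θ) < c ↔ Int.fract (c - (k : ℝ) * θ + k' * θ) < c) := by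
      constructor
      · intro h
        have : k' ∈ cod θ c (c - (k : ℝ) * θ) K := heq ▸ rx_mem_cod.2 ⟨hk', h⟩
        exact (rx_mem_cod.1 this).2
      · intro h
        have : k' ∈ cod θ c (-(k : ℝ) * θ) K := heq ▸ rx_mem_cod.2 ⟨hk', h⟩
        exact (rx_mem_cod.1 this).2
    rcases lt_or_gt_of_ne hδ0 with hd | hd
    · have e0 : Int.fract (-(k : ℝ) * θ + k' * θ) = 1 + δ :=
        rx_fract_eq (-z - 1) (by linarith) (by linarith) (by push_cast; linarith)
      have e1 : Int.fract (c - (k : ℝ) * θ + k' * θ) = c + δ :=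
        rx_fract_eq (-z) (by linarith) (by linarith) (by push_cast; linarith)
      rw [e0, e1] at hiff
      have := hiff.2 (by linarith)
      linarith
    · have e0 : Int.fract (-(k : ℝ) * θ + k' * θ) = δ :=
        rx_fract_eq (-z) (by linarith) (by linarith) (by push_cast; linarith)
      have e1 : Int.fract (c - (k : ℝ) * θ + k' * θ) = c + δ :=
        rx_fract_eq (-z) (by linarith) (by linarith) (by push_cast; linarith)
      rw [e0, e1] at hiff
      have := hiff.1 (by linarith)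
      linarith
  have htwo : 2 ≤ (T₀ ∩ U).card := by
    have hpair : ({cod θ c (-(k : ℝ) * θ) K, cod θ c (c - (k : ℝ) * θ) K} : Finset (Finset ℕ)) ⊆
        T₀ ∩ U := by
      intro s hs
      rw [Finset.mem_insert, Finset.mem_singleton] at hs
      rcases hs with rfl | rfl
      · exact hP0
      · exact hP1
    calc 2 = _ := (Finset.card_pair hne).symm
      _ ≤ _ := Finset.card_le_card hpair
  have hSc := Finset.card_le_card hSsub
  omega

theorem rx_base {θ c : ℝ} (hc0 : 0 < c) (hc1 : c < 1) (k : ℕ) :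
    2 ≤ (codPats θ c {k}).card := by
  classical
  have hpair : ({{k}, ∅} : Finset (Finset ℕ)) ⊆ codPats θ c {k} := by
    intro s hs
    rw [Finset.mem_insert, Finset.mem_singleton] at hs
    rcases hs with rfl | rfl
    · rw [rx_mem_codPats hc0 hc1]
      refine ⟨-(k : ℝ) * θ, ?_⟩
      ext κ
      rw [rx_mem_cod, Finset.mem_singleton]
      constructor
      · exact fun h => h.1
      · rintro rfl
        refine ⟨rfl, ?_⟩
        rw [show -(κ : ℝ) * θ + κ * θ = 0 by ring, Int.fract_zero]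
        exact hc0
    · rw [rx_mem_codPats hc0 hc1]
      refine ⟨c - (k : ℝ) * θ, ?_⟩
      ext κ
      rw [rx_mem_cod, Finset.mem_singleton]
      constructor
      · rintro ⟨rfl, h⟩
        rw [show c - (κ : ℝ) * θ + κ * θ = c by ring, Int.fract_eq_self.2 ⟨hc0.le, hc1⟩] at h
        exact absurd h (lt_irrefl _)
      · intro h
        exact absurd h (Finset.notMem_empty _)
  calc 2 = _ := (Finset.card_pair (Finset.singleton_ne_empty k)).symm
    _ ≤ _ := Finset.card_le_card hpair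

theorem rot_full (θ c : ℝ) (hθ : Irrational θ) (hc0 : 0 < c) (hc1 : c < 1) (K₀ : Finset ℕ)
    (hsep : sep θ c K₀) (N : ℕ) :
    ∃ K : Finset ℕ, K₀ ⊆ K ∧ sep θ c K ∧ (∀ k ∈ K, k ∉ K₀ → N ≤ k) ∧
      2 * K.card ≤ (codPats θ c K).card := by
  classical
  obtain ⟨B, hB1, hB⟩ := rx_bound θ c hθ hc0 hc1
  set ε := min c (1 - c) with hε
  have hε0 : 0 < ε := lt_min hc0 (by linarith)
  obtain ⟨s, hsB, zs, hzs1, hzs2⟩ := rx_dens θ hθ 0 ε hε0 B
  set d := K₀.sup id + B + N with hd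
  have hK₀d : ∀ k ∈ K₀, k + B ≤ d := by
    intro k hk
    have : k ≤ K₀.sup id := Finset.le_sup (f := id) hk
    omega
  have hsθ : Irrational ((s : ℝ) * θ) := hθ.natCast_mul (show s ≠ 0 by omega)
  have hj : ∀ k : ℕ, ∃ j : ℕ, ∃ z : ℤ,
      |((d + j * s : ℕ) : ℝ) * θ - k * θ + z| < ε := by
    intro k
    obtain ⟨j, -, z, h1, h2⟩ := rx_dens _ hsθ ((k : ℝ) * θ - d * θ) ε hε0 0
    refine ⟨j, z, ?_⟩
    rw [abs_lt]
    push_cast
    constructor
    · nlinarith
    · nlinarith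
  choose J ZJ hJ using hj
  set L := K₀.sup J with hL
  set D : ℕ → Finset ℕ := fun l => (Finset.range (l + 1)).image (fun j => d + j * s) with hD
  have hmemD : ∀ l k, k ∈ D l ↔ ∃ j, j ≤ l ∧ k = d + j * s := by
    intro l k
    rw [hD]
    simp only [Finset.mem_image, Finset.mem_range]
    constructor
    · rintro ⟨j, hj, rfl⟩; exact ⟨j, by omega, rfl⟩
    · rintro ⟨j, hj, rfl⟩; exact ⟨j, by omega, rfl⟩
  -- separation of everything
  have hsepAll : ∀ l, sep θ c (K₀ ∪ D l) := by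
    intro l k hk k' hk' z hz
    obtain ⟨hne, h1, h2⟩ := hB k k' z hz
    rw [Finset.mem_union, hmemD] at hk hk'
    rcases hk with hk | ⟨j, hj, rfl⟩
    · rcases hk' with hk' | ⟨j', hj', rfl⟩
      · exact hsep k hk k' hk' z hz
      · have := hK₀d k hk
        have h3 : 0 ≤ j' * s := Nat.zero_le _
        omega
    · rcases hk' with hk' | ⟨j', hj', rfl⟩
      · have := hK₀d k' hk'
        have h3 : 0 ≤ j * s := Nat.zero_le _
        omega
      · rcases lt_trichotomy j j' with hlt | heq | hgt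
        · have : (j + 1) * s ≤ j' * s := Nat.mul_le_mul_right s hlt
          rw [add_mul] at this
          omega
        · exact hne (by rw [heq])
        · have : (j' + 1) * s ≤ j * s := Nat.mul_le_mul_right s hgt
          rw [add_mul] at this
          omega
  have hGoodD : ∀ l, 2 * (D l).card ≤ (codPats θ c (D l)).card := by
    intro l
    induction l with
    | zero =>
      have : D 0 = {d} := by
        ext k; rw [hmemD, Finset.mem_singleton]
        constructor
        · rintro ⟨j, hj, rfl⟩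
          have : j = 0 := by omega
          subst this; simp
        · rintro rfl; exact ⟨0, le_refl _, by simp⟩
      rw [this, Finset.card_singleton]
      exact rx_base hc0 hc1 d
    | succ l ih =>
      have hins : D (l + 1) = insert (d + (l + 1) * s) (D l) := by
        ext k; rw [Finset.mem_insert, hmemD, hmemD]
        constructor
        · rintro ⟨j, hj, rfl⟩
          rcases Nat.lt_or_ge j (l + 1) with h | h
          · exact Or.inr ⟨j, by omega, rfl⟩
          · have : j = l + 1 := by omega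
            subst this; exact Or.inl rfl
        · rintro (rfl | ⟨j, hj, rfl⟩)
          · exact ⟨l + 1, le_refl _, rfl⟩
          · exact ⟨j, by omega, rfl⟩
      have hnot : d + (l + 1) * s ∉ D l := by
        rw [hmemD]
        rintro ⟨j, hj, h⟩
        have : (j + 1) * s ≤ (l + 1) * s := Nat.mul_le_mul_right s (by omega)
        rw [add_mul] at this
        omega
      have hstep := rx_step hθ hc0 hc1 hnot
        (hins ▸ rx_sep_mono Finset.subset_union_right (hsepAll (l + 1)))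
        (k' := d + l * s) ((hmemD l _).2 ⟨l, le_refl _, rfl⟩) (-zs) (by
          have : ((d + l * s : ℕ) : ℝ) * θ - ((d + (l + 1) * s : ℕ) : ℝ) * θ + ((-zs : ℤ) : ℝ) =
            -((s : ℝ) * θ + zs) := by push_cast; ring
          rw [this, abs_neg, abs_lt]
          constructor <;> linarith)
      rw [hins, Finset.card_insert_of_notMem hnot]
      omega
  have hGoodS : ∀ S : Finset ℕ, S ⊆ K₀ →
      2 * (S ∪ D L).card ≤ (codPats θ c (S ∪ D L)).card := by
    intro S
    induction S using Finset.induction_on with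
    | empty => intro _; rw [Finset.empty_union]; exact hGoodD L
    | insert k S hkS ih =>
      intro hsub
      have hk0 : k ∈ K₀ := hsub (Finset.mem_insert_self _ _)
      have hS0 : S ⊆ K₀ := fun x hx => hsub (Finset.mem_insert_of_mem hx)
      have ih' := ih hS0
      have hkD : k ∉ S ∪ D L := by
        rw [Finset.mem_union, hmemD]
        rintro (h | ⟨j, hj, h⟩)
        · exact hkS h
        · have := hK₀d k hk0
          have h3 : 0 ≤ j * s := Nat.zero_le _
          omega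
      have hstep := rx_step hθ hc0 hc1 hkD (rx_sep_mono (by
          intro x hx
          rw [Finset.mem_insert, Finset.mem_union] at hx
          rw [Finset.mem_union]
          rcases hx with rfl | hx | hx
          · exact Or.inl hk0
          · exact Or.inl (hS0 hx)
          · exact Or.inr hx) (hsepAll L))
        (k' := d + J k * s) (Finset.mem_union_right _ ((hmemD L _).2
          ⟨J k, Finset.le_sup (f := J) hk0, rfl⟩)) (ZJ k) (hJ k)
      rw [Finset.insert_union, Finset.card_insert_of_notMem hkD]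
      omega
  refine ⟨K₀ ∪ D L, Finset.subset_union_left, hsepAll L, ?_, hGoodS K₀ (Finset.Subset.refl _)⟩
  intro k hk hk0
  rw [Finset.mem_union, hmemD] at hk
  rcases hk with hk | ⟨j, -, rfl⟩
  · exact absurd hk hk0
  · have h3 : 0 ≤ j * s := Nat.zero_le _
    omega

/-- A window on which no phase codes a constant pattern. -/
theorem rx_hit {θ c : ℝ} {K : Finset ℕ} {η : ℝ}
    (hη : η ≤ min c (1 - c))
    (hK : ∀ x : ℝ, ∃ k ∈ K, ∃ z : ℤ, x < (k : ℝ) * θ + z ∧ (k : ℝ) * θ + z < x + η) (ψ : ℝ) :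
    (∃ k ∈ K, Int.fract (ψ + k * θ) < c) ∧ (∃ k ∈ K, ¬ Int.fract (ψ + k * θ) < c) := by
  have hm1 := min_le_left c (1 - c)
  have hm2 := min_le_right c (1 - c)
  constructor
  · obtain ⟨k, hk, z, h1, h2⟩ := hK (-ψ)
    refine ⟨k, hk, ?_⟩
    have e : Int.fract (ψ + k * θ) = ψ + k * θ + z :=
      rx_fract_eq (-z) (by linarith) (by linarith) (by push_cast; ring)
    rw [e]; linarith
  · obtain ⟨k, hk, z, h1, h2⟩ := hK (-ψ + c)
    refine ⟨k, hk, ?_⟩
    have e : Int.fract (ψ + k * θ) = ψ + k * θ + z :=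
      rx_fract_eq (-z) (by linarith) (by linarith) (by push_cast; ring)
    rw [e]; linarith

theorem rot_nonconst (θ c : ℝ) (hθ : Irrational θ) (hc0 : 0 < c) (hc1 : c < 1) :
    ∃ K : Finset ℕ, K.Nonempty ∧
      2 * K.card ≤ ((codPats θ c K).filter (fun s => s ≠ ∅ ∧ s ≠ K)).card := by
  classical
  obtain ⟨B, hB1, hB⟩ := rx_bound θ c hθ hc0 hc1
  obtain ⟨K₀, hne, hK₀, hnet⟩ := rx_net θ hθ (min c (1 - c)) (lt_min hc0 (by linarith)) B 0 hB1
  have hsep : sep θ c K₀ := by
    intro k hk k' hk' z hz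
    obtain ⟨hne, h1, h2⟩ := hB k k' z hz
    obtain ⟨a, rfl⟩ := (hK₀ k hk).2
    obtain ⟨b, rfl⟩ := (hK₀ k' hk').2
    rcases lt_trichotomy a b with hlt | heq | hgt
    · have : B * (a + 1) ≤ B * b := Nat.mul_le_mul_left B hlt
      rw [mul_add] at this
      omega
    · exact hne (by rw [heq])
    · have : B * (b + 1) ≤ B * a := Nat.mul_le_mul_left B hgt
      rw [mul_add] at this
      omega
  obtain ⟨K, hsub, -, -, hcard⟩ := rot_full θ c hθ hc0 hc1 K₀ hsep 0
  refine ⟨K, hne.mono hsub, ?_⟩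
  rw [Finset.filter_true_of_mem]
  · exact hcard
  · intro s hs
    rw [rx_mem_codPats hc0 hc1] at hs
    obtain ⟨ψ, rfl⟩ := hs
    obtain ⟨⟨k, hk, h1⟩, ⟨k', hk', h2⟩⟩ := rx_hit (le_refl _) hnet ψ
    constructor
    · intro h
      have : k ∈ cod θ c ψ K := rx_mem_cod.2 ⟨hsub hk, h1⟩
      rw [h] at this
      exact absurd this (Finset.notMem_empty _)
    · intro h
      have : k' ∈ cod θ c ψ K := by rw [h]; exact hsub hk'
      exact h2 (rx_mem_cod.1 this).2

/-- Windows which locate the phase. -/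
theorem rx_locate {θ c : ℝ} {K : Finset ℕ} {η : ℝ}
    (hη : η ≤ min c (1 - c))
    (hK : ∀ x : ℝ, ∃ k ∈ K, ∃ z : ℤ, x < (k : ℝ) * θ + z ∧ (k : ℝ) * θ + z < x + η)
    (ψ ψ' : ℝ) (h : cod θ c ψ K = cod θ c ψ' K) :
    ∃ z : ℤ, |ψ' - ψ - z| < η := by
  have hm1 := min_le_left c (1 - c)
  have hm2 := min_le_right c (1 - c)
  set δ := Int.fract (ψ' - ψ) with hδ
  have hδ' : ψ' - ψ = δ + ⌊ψ' - ψ⌋ := by rw [hδ, Int.fract]; ring
  have hf0 : 0 ≤ δ := Int.fract_nonneg _
  have hf1 : δ < 1 := Int.fract_lt_one _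
  have hη0 : 0 < η := by
    obtain ⟨k, -, z, h1, h2⟩ := hK 0
    linarith
  have hiff : ∀ k ∈ K, (Int.fract (ψ + k * θ) < c ↔ Int.fract (ψ' + k * θ) < c) := by
    intro k hk
    constructor
    · intro h1
      have : k ∈ cod θ c ψ' K := h ▸ rx_mem_cod.2 ⟨hk, h1⟩
      exact (rx_mem_cod.1 this).2
    · intro h1
      have : k ∈ cod θ c ψ K := h ▸ rx_mem_cod.2 ⟨hk, h1⟩
      exact (rx_mem_cod.1 this).2
  by_contra hcon
  push Not at hcon
  have h0 := hcon ⌊ψ' - ψ⌋
  have h1 := hcon (⌊ψ' - ψ⌋ + 1)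
  have e0 : ψ' - ψ - (⌊ψ' - ψ⌋ : ℝ) = δ := by linarith
  have e1 : ψ' - ψ - ((⌊ψ' - ψ⌋ + 1 : ℤ) : ℝ) = δ - 1 := by push_cast; linarith
  rw [e0, abs_of_nonneg hf0] at h0
  rw [e1, abs_of_nonpos (by linarith)] at h1
  rcases lt_or_ge δ c with hd | hd
  · -- a point just before zero
    obtain ⟨k, hk, z, h2, h3⟩ := hK (-ψ - η)
    have e2 : Int.fract (ψ + k * θ) = ψ + k * θ + z + 1 :=
      rx_fract_eq (-z - 1) (by linarith) (by linarith) (by push_cast; ring)
    have e3 : Int.fract (ψ' + k * θ) = ψ + k * θ + z + δ :=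
      rx_fract_eq (-z + ⌊ψ' - ψ⌋) (by linarith) (by linarith) (by push_cast; linarith)
    have := (hiff k hk).2 (by rw [e3]; linarith)
    rw [e2] at this
    linarith
  · obtain ⟨k, hk, z, h2, h3⟩ := hK (-ψ)
    have e2 : Int.fract (ψ + k * θ) = ψ + k * θ + z :=
      rx_fract_eq (-z) (by linarith) (by linarith) (by push_cast; ring)
    have e3 : Int.fract (ψ' + k * θ) = ψ + k * θ + z + δ :=
      rx_fract_eq (-z + ⌊ψ' - ψ⌋) (by linarith) (by linarith) (by push_cast; linarith)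
    have := (hiff k hk).1 (by rw [e2]; linarith)
    rw [e3] at this
    linarith

theorem rot_ext (f : ℕ → Bool) (hlow : LowN f) (θ c : ℝ) (hθ : Irrational θ) (hc0 : 0 < c)
    (hc1 : c < 1) (h : ∀ K : Finset ℕ, codPats θ c K ⊆ trs f K) : RotType f := by
  classical
  obtain ⟨B, hB1, hB⟩ := rx_bound θ c hθ hc0 hc1
  -- step one: traces on separated windows are codings
  have step1 : ∀ K₀ : Finset ℕ, K₀.Nonempty → sep θ c K₀ → ∃ ψ, ∀ k ∈ K₀,
      (Int.fract (ψ + k * θ) < c ↔ f k = true) ∧ Int.fract (ψ + k * θ) ≠ c := by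
    intro K₀ hne hsep
    obtain ⟨K, hsub, -, -, hcard⟩ := rot_full θ c hθ hc0 hc1 K₀ hsep 0
    have hKne : K.Nonempty := hne.mono hsub
    have heq : codPats θ c K = trs f K :=
      Finset.eq_of_subset_of_card_le (h K) ((hlow K hKne).trans hcard)
    have hmem : tr f K 0 ∈ codPats θ c K := heq ▸ tr_mem_trs f K 0
    unfold codPats at hmem
    obtain ⟨-, ψ, hg, hψ⟩ := Finset.mem_filter.1 hmem
    refine ⟨ψ, fun k hk => ⟨?_, (hg k (hsub hk)).2⟩⟩
    have h1 : k ∈ cod θ c ψ K ↔ k ∈ tr f K 0 := by rw [hψ]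
    rw [rx_mem_cod] at h1
    unfold tr at h1
    rw [Finset.mem_filter, Nat.zero_add] at h1
    constructor
    · intro h2; exact (h1.1 ⟨hsub hk, h2⟩).2
    · intro h2; exact (h1.2 ⟨hsub hk, h2⟩).2
  -- step two: locating windows
  have hε0 : 0 < min c (1 - c) := lt_min hc0 (by linarith)
  have hηpos : ∀ n : ℕ, 0 < min (min c (1 - c)) (1 / ((n : ℝ) + 1)) :=
    fun n => lt_min hε0 (by positivity)
  have hnet := fun n : ℕ => rx_net θ hθ _ (hηpos n) B (n + B) hB1
  choose K hKne hKmem hKnet using hnet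
  have hsepK : ∀ n m : ℕ, m ≤ n → sep θ c (insert m (K n)) := by
    intro n m hmn k hk k' hk' z hz
    obtain ⟨hne, h1, h2⟩ := hB k k' z hz
    rw [Finset.mem_insert] at hk hk'
    rcases hk with rfl | hk
    · rcases hk' with rfl | hk'
      · exact hne rfl
      · have := (hKmem n k' hk').1
        omega
    · rcases hk' with rfl | hk'
      · have := (hKmem n k hk).1
        omega
      · obtain ⟨a, rfl⟩ := (hKmem n k hk).2
        obtain ⟨b, rfl⟩ := (hKmem n k' hk').2
        rcases lt_trichotomy a b with hlt | heq | hgt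
        · have : B * (a + 1) ≤ B * b := Nat.mul_le_mul_left B hlt
          rw [mul_add] at this
          omega
        · exact hne (by rw [heq])
        · have : B * (b + 1) ≤ B * a := Nat.mul_le_mul_left B hgt
          rw [mul_add] at this
          omega
  have hphi := fun n : ℕ => step1 (K n) (hKne n)
    (rx_sep_mono (Finset.subset_insert 0 (K n)) (hsepK n 0 (Nat.zero_le _)))
  choose φ hφ using hphi
  obtain ⟨Φ, -, u, hu, hlim⟩ := (isCompact_Icc (a := (0 : ℝ)) (b := 1)).tendsto_subseq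
    (x := fun n => Int.fract (φ n)) (fun n => ⟨Int.fract_nonneg _, (Int.fract_lt_one _).le⟩)
  -- the key estimate
  have key : ∀ m : ℕ, ∀ ρ : ℝ, 0 < ρ → ∃ ψ : ℝ, ∃ z : ℤ, |ψ - Φ - z| < ρ ∧
      (Int.fract (ψ + m * θ) < c ↔ f m = true) := by
    intro m ρ hρ
    have hev1 : ∀ᶠ n in atTop, |Int.fract (φ (u n)) - Φ| < ρ / 2 := by
      have := (Metric.tendsto_nhds.1 hlim) (ρ / 2) (by positivity)
      filter_upwards [this] with n hn
      rw [Real.dist_eq] at hn
      exact hn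
    have hev2 : ∀ᶠ n : ℕ in atTop, 2 / ρ < n := by
      obtain ⟨N, hN⟩ := exists_nat_gt (2 / ρ)
      filter_upwards [eventually_ge_atTop N] with n hn
      have : (N : ℝ) ≤ n := by exact_mod_cast hn
      linarith
    obtain ⟨n, hn1, hn2, hn3⟩ := (hev1.and (hev2.and (eventually_ge_atTop m))).exists
    have hun : n ≤ u n := hu.id_le n
    obtain ⟨ψ, hψ⟩ := step1 (insert m (K (u n))) (Finset.insert_nonempty _ _)
      (hsepK (u n) m (hn3.trans hun))
    have hcod : cod θ c (φ (u n)) (K (u n)) = cod θ c ψ (K (u n)) := by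
      ext k
      rw [rx_mem_cod, rx_mem_cod]
      constructor
      · rintro ⟨hk, h1⟩
        exact ⟨hk, (hψ k (Finset.mem_insert_of_mem hk)).1.2 ((hφ _ k hk).1.1 h1)⟩
      · rintro ⟨hk, h1⟩
        exact ⟨hk, (hφ _ k hk).1.2 ((hψ k (Finset.mem_insert_of_mem hk)).1.1 h1)⟩
    obtain ⟨z, hz⟩ := rx_locate (min_le_left _ _) (hKnet (u n)) _ _ hcod
    have hz' : |ψ - φ (u n) - z| < ρ / 2 := by
      refine lt_of_lt_of_le hz ((min_le_right _ _).trans ?_)
      have h5 : (n : ℝ) ≤ u n := by exact_mod_cast hun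
      have h6 : 2 / ρ < (u n : ℝ) + 1 := by linarith
      rw [div_lt_iff₀ hρ] at h6
      rw [div_le_div_iff₀ (by positivity) (by norm_num)]
      linarith
    refine ⟨ψ, z + ⌊φ (u n)⌋, ?_, (hψ m (Finset.mem_insert_self _ _)).1⟩
    have e : ψ - Φ - ((z + ⌊φ (u n)⌋ : ℤ) : ℝ) =
        (ψ - φ (u n) - z) + (Int.fract (φ (u n)) - Φ) := by
      rw [Int.fract]; push_cast; ring
    rw [e]
    calc _ ≤ |ψ - φ (u n) - z| + |Int.fract (φ (u n)) - Φ| := abs_add_le _ _
      _ < ρ / 2 + ρ / 2 := add_lt_add hz' hn1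
      _ = ρ := by ring
  refine ⟨θ, Φ, c, hθ, hc0, hc1, fun m => ⟨?_, ?_⟩⟩
  · intro h1 h2
    set v := Int.fract (Φ + m * θ) with hv
    have hv' : Φ + m * θ = v + ⌊Φ + m * θ⌋ := by rw [hv, Int.fract]; ring
    obtain ⟨ψ, z, hψ, hf⟩ := key m (min v (c - v)) (lt_min h1 (by linarith))
    have hm1 := min_le_left v (c - v)
    have hm2 := min_le_right v (c - v)
    have hψ' := abs_lt.1 hψ
    rw [← hf]
    have e : Int.fract (ψ + m * θ) = v + (ψ - Φ - z) :=
      rx_fract_eq (z + ⌊Φ + m * θ⌋) (by linarith) (by linarith) (by push_cast; linarith)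
    rw [e]; linarith
  · intro h1
    set v := Int.fract (Φ + m * θ) with hv
    have hv1 : v < 1 := Int.fract_lt_one _
    have hv' : Φ + m * θ = v + ⌊Φ + m * θ⌋ := by rw [hv, Int.fract]; ring
    obtain ⟨ψ, z, hψ, hf⟩ := key m (min (1 - v) (v - c)) (lt_min (by linarith) (by linarith))
    have hm1 := min_le_left (1 - v) (v - c)
    have hm2 := min_le_right (1 - v) (v - c)
    have hψ' := abs_lt.1 hψ
    have e : Int.fract (ψ + m * θ) = v + (ψ - Φ - z) :=
      rx_fract_eq (z + ⌊Φ + m * θ⌋) (by linarith) (by linarith) (by push_cast; linarith)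
    rw [e] at hf
    by_contra hcon
    have : f m = true := by
      cases hfm : f m
      · exact absurd hfm hcon
      · rfl
    have := hf.2 this
    linarith

end PatSturm
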