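import Mathlib
import Pool.Agent.LibPS.Defs

/-!
# The rotation theorem for link systems
-/

namespace PatSturm

namespace RT

open Filter Topology

variable {X : Set Pt} {I : Type}

/-! ## Basic facts on agreement and locally constant functions -/

theorem agr_sh {x y : Pt} {W : ℕ} (k : ℤ) (h : agr x y (W + k.natAbs)) : agr (sh k x) (sh k y) W := by
  intro i hi
  exact h (i + k) (by omega)

theorem loc_sh (hX : IsSub X) {g : Pt → Bool} (hg : Loc X g) (k : ℤ) : Loc X (fun x => g (sh k x)) := by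
  obtain ⟨M, hM⟩ := hg
  refine ⟨M + k.natAbs, fun x hx y hy h => hM _ (hX.inv x hx k) _ (hX.inv y hy k) (agr_sh k h)⟩

theorem loc_op (f : Bool → Bool → Bool) {g h : Pt → Bool} (hg : Loc X g) (hh : Loc X h) :
    Loc X (fun x => f (g x) (h x)) := by
  obtain ⟨M, hM⟩ := hg
  obtain ⟨M', hM'⟩ := hh
  refine ⟨max M M', fun x hx y hy hxy => ?_⟩
  show f (g x) (h x) = f (g y) (h y)
  rw [hM x hx y hy (hxy.mono (le_max_left _ _)), hM' x hx y hy (hxy.mono (le_max_right _ _))]

theorem loc_not {g : Pt → Bool} (hg : Loc X g) : Loc X (fun x => !g x) :=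
  loc_op (fun a _ => !a) hg hg

theorem loc_coord (k : ℤ) : Loc X (fun x => x k) :=
  ⟨k.natAbs, fun _ _ _ _ h => h k le_rfl⟩

/-! ## Cuts -/

/-- The index `i` is cut by `g`. -/
def Cut (S : LinkSys X I) (g : Pt → Bool) (i : I) : Prop := g (S.P i) ≠ g (S.M i)

theorem mv_inj (S : LinkSys X I) {k l : ℤ} {i : I} (h : S.mv k i = S.mv l i) : k = l := by
  have h1 : S.mv (-l) (S.mv k i) = S.mv (-l) (S.mv l i) := by rw [h]
  rw [S.mv_mv, S.mv_mv, neg_add_cancel, S.mv_zero] at h1
  have := S.free _ _ h1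
  omega

theorem mv_inj' (S : LinkSys X I) {k : ℤ} {i j : I} (h : S.mv k i = S.mv k j) : i = j := by
  have h1 : S.mv (-k) (S.mv k i) = S.mv (-k) (S.mv k j) := by rw [h]
  rwa [S.mv_mv, S.mv_mv, neg_add_cancel, S.mv_zero, S.mv_zero] at h1

theorem sh_P (S : LinkSys X I) (k : ℤ) (i : I) : sh k (S.P i) = S.P (S.mv (-k) i) := by
  rw [S.P_mv, neg_neg]

theorem sh_M (S : LinkSys X I) (k : ℤ) (i : I) : sh k (S.M i) = S.M (S.mv (-k) i) := by
  rw [S.M_mv, neg_neg]

theorem cut_sh (S : LinkSys X I) (g : Pt → Bool) (k : ℤ) (i : I) :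
    Cut S (fun x => g (sh k x)) (S.mv k i) ↔ Cut S g i := by
  unfold Cut
  simp only [sh_P, sh_M, S.mv_mv, neg_add_cancel, S.mv_zero]

theorem cut_sh' (S : LinkSys X I) (g : Pt → Bool) (k : ℤ) (i : I) :
    Cut S (fun x => g (sh k x)) i ↔ Cut S g (S.mv (-k) i) := by
  unfold Cut
  simp only [sh_P, sh_M]

theorem cut_coord (S : LinkSys X I) (k : ℤ) (i : I) :
    S.P i k ≠ S.M i k ↔ i = S.mv k S.i₀ ∨ i = S.mv k S.i₁ := by
  have h := S.cut (S.mv (-k) i)
  rw [S.P_mv, S.M_mv, neg_neg, sh_apply, sh_apply, zero_add] at h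
  rw [h]
  constructor
  · rintro (h | h)
    · left; rw [← h, S.mv_mv, add_neg_cancel, S.mv_zero]
    · right; rw [← h, S.mv_mv, add_neg_cancel, S.mv_zero]
  · rintro (h | h)
    · left; rw [h, S.mv_mv, neg_add_cancel, S.mv_zero]
    · right; rw [h, S.mv_mv, neg_add_cancel, S.mv_zero]

/-- The two points of a link differ at finitely many coordinates. -/
theorem diff_bdd (S : LinkSys X I) (i : I) : ∃ B : ℕ, ∀ k : ℤ, S.P i k ≠ S.M i k → k.natAbs ≤ B := by
  have h1 : ∀ j : I, ∃ B : ℕ, ∀ k : ℤ, i = S.mv k j → k.natAbs ≤ B := by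
    intro j
    by_cases h : ∃ k, i = S.mv k j
    · obtain ⟨k, hk⟩ := h
      refine ⟨k.natAbs, fun k' hk' => ?_⟩
      rw [mv_inj S (hk'.symm.trans hk)]
    · exact ⟨0, fun k hk => absurd ⟨k, hk⟩ h⟩
  obtain ⟨B0, hB0⟩ := h1 S.i₀
  obtain ⟨B1, hB1⟩ := h1 S.i₁
  refine ⟨max B0 B1, fun k hk => ?_⟩
  rcases (cut_coord S k i).1 hk with h | h
  · exact (hB0 k h).trans (le_max_left _ _)
  · exact (hB1 k h).trans (le_max_right _ _)

/-! ## Minimality of powers of the shift -/

/-- Orbit closure under the `N`-th power of the shift. -/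
def CC (N : ℤ) (x : Pt) : Set Pt := {z | ∀ W : ℕ, ∃ n : ℤ, agr (sh (N * n) x) z W}

theorem CC_sub (hX : IsSub X) {N : ℤ} {x : Pt} (hx : x ∈ X) : CC N x ⊆ X := fun z hz =>
  hX.cl z fun W => by
    obtain ⟨n, hn⟩ := hz W
    exact ⟨_, hX.inv x hx _, hn⟩

theorem CC_self (N : ℤ) (x : Pt) : x ∈ CC N x := fun W => ⟨0, by simpa using agr_refl x W⟩

theorem CC_trans {N : ℤ} {x z w : Pt} (h1 : z ∈ CC N x) (h2 : w ∈ CC N z) : w ∈ CC N x := by
  intro W
  obtain ⟨n, hn⟩ := h2 W
  obtain ⟨m, hm⟩ := h1 (W + (N * n).natAbs)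
  refine ⟨n + m, ?_⟩
  have := (agr_sh (N * n) hm).trans hn
  rwa [sh_sh, ← mul_add] at this

theorem CC_closed {N : ℤ} {x z : Pt} (h : ∀ W : ℕ, ∃ y ∈ CC N x, agr y z W) : z ∈ CC N x := by
  intro W
  obtain ⟨y, hy, hyz⟩ := h W
  obtain ⟨n, hn⟩ := hy W
  exact ⟨n, hn.trans hyz⟩

theorem CC_sh {N : ℤ} {x z : Pt} (k : ℤ) (h : z ∈ CC N x) : sh k z ∈ CC N (sh k x) := by
  intro W
  obtain ⟨n, hn⟩ := h (W + k.natAbs)
  refine ⟨n, ?_⟩
  have := agr_sh k hn
  rwa [sh_sh, add_comm, ← sh_sh] at this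

theorem CC_inv {N : ℤ} (n : ℤ) (x : Pt) : sh (N * n) x ∈ CC N x := fun W => ⟨n, agr_refl _ W⟩

/-- Pigeonhole for finitely many classes. -/
theorem pigeon {N : ℕ} (Q : ℕ → ℕ → Prop) (h : ∀ W, ∃ i, i < N ∧ Q i W)
    (hmono : ∀ i W W', W ≤ W' → Q i W' → Q i W) : ∃ i, i < N ∧ ∀ W, Q i W := by
  by_contra hcon
  push Not at hcon
  choose f hf using hcon
  obtain ⟨W0, hW0⟩ : ∃ W0, ∀ i (hi : i < N), f i hi ≤ W0 := by
    refine ⟨∑ i ∈ (Finset.range N).attach, f i.1 (Finset.mem_range.1 i.2), fun i hi => ?_⟩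
    exact Finset.single_le_sum (f := fun i : {x // x ∈ Finset.range N} =>
      f i.1 (Finset.mem_range.1 i.2)) (fun _ _ => Nat.zero_le _)
      (Finset.mem_attach _ ⟨i, Finset.mem_range.2 hi⟩)
  obtain ⟨i, hi, hQ⟩ := h W0
  exact hf i hi (hmono i _ _ (hW0 i hi) hQ)

theorem CC_class (hmin : Mini X) {N : ℕ} (hN : 1 ≤ N) {x z : Pt} (hx : x ∈ X) (hz : z ∈ X) :
    ∃ i : ℕ, i < N ∧ sh (-(i : ℤ)) z ∈ CC N x := by
  obtain ⟨i, hi, h⟩ := pigeon (fun i W => ∃ n : ℤ, agr (sh (N * n) x) (sh (-(i : ℤ)) z) W)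
    (fun W => by
      obtain ⟨n, hn⟩ := hmin x hx z hz (W + N)
      refine ⟨(n % N).toNat, ?_, n / N, ?_⟩
      · have hN' : (0 : ℤ) < N := by exact_mod_cast hN
        have := Int.emod_lt_of_pos n hN'
        have := Int.emod_nonneg n (by omega : (N : ℤ) ≠ 0)
        show (n % N).toNat < N
        omega
      · have h1 := Int.emod_lt_of_pos n (by exact_mod_cast hN : (0 : ℤ) < N)
        have h2 := Int.emod_nonneg n (by omega : (N : ℤ) ≠ 0)
        have h3 : (((n % N).toNat : ℕ) : ℤ) = n % N := Int.toNat_of_nonneg h2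
        rw [h3]
        have h4 := agr_sh (x := sh n x) (y := z) (W := W) (-(n % N)) (hn.mono (by omega))
        rw [sh_sh] at h4
        have h5 : -(n % N) + n = N * (n / N) := by
          have := Int.emod_add_mul_ediv n N
          linarith
        rwa [h5] at h4)
    (fun i W W' hW ⟨n, hn⟩ => ⟨n, hn.mono hW⟩)
  exact ⟨i, hi, h⟩

theorem CC_symm (hX : IsSub X) (hmin : Mini X) {N : ℕ} (hN : 1 ≤ N) {x z : Pt} (hx : x ∈ X)
    (hz : z ∈ CC N x) : x ∈ CC N z := by
  have hzX : z ∈ X := CC_sub hX hx hz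
  obtain ⟨i, hi, h⟩ := CC_class hmin hN hzX hx
  -- sh (-i) z ∈ CC z
  have h1 : sh (-(i : ℤ)) z ∈ CC N z := CC_trans h (CC_sh _ hz)
  have h2 : ∀ k : ℕ, sh (-((i : ℤ) * k)) z ∈ CC N z := by
    intro k
    induction k with
    | zero => simpa using CC_self (N : ℤ) z
    | succ k ih =>
      have h3 := CC_sh (-(i : ℤ)) ih
      rw [sh_sh] at h3
      have h4 := CC_trans h1 h3
      have h5 : -(i : ℤ) + -(i * (k : ℤ)) = -((i : ℤ) * ((k + 1 : ℕ) : ℤ)) := by push_cast; ring
      rwa [h5] at h4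
  obtain ⟨M, rfl⟩ : ∃ M, N = M + 1 := ⟨N - 1, by omega⟩
  have h3 := CC_sh (-((i : ℤ) * M)) h
  rw [sh_sh] at h3
  have h4 := CC_trans (h2 M) h3
  have h5 : -((i : ℤ) * M) + -(i : ℤ) = ((M + 1 : ℕ) : ℤ) * (-(i : ℤ)) := by push_cast; ring
  rw [h5] at h4
  have h6 := CC_inv (N := ((M + 1 : ℕ) : ℤ)) (i : ℤ) (sh (((M + 1 : ℕ) : ℤ) * (-(i : ℤ))) x)
  rw [sh_sh] at h6
  have h7 : ((M + 1 : ℕ) : ℤ) * (i : ℤ) + ((M + 1 : ℕ) : ℤ) * (-(i : ℤ)) = 0 := by ring
  rw [h7, sh_zero] at h6
  exact CC_trans h4 h6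

theorem sep_closed {A B : Set Pt} (hA : ∀ y : Pt, (∀ N : ℕ, ∃ x ∈ A, agr x y N) → y ∈ A)
    (hB : ∀ y : Pt, (∀ N : ℕ, ∃ x ∈ B, agr x y N) → y ∈ B) (hAB : ∀ x ∈ A, x ∉ B) :
    ∃ M : ℕ, ∀ x ∈ A, ∀ y ∈ B, ¬ agr x y M := by
  by_contra hcon
  push Not at hcon
  choose a ha b hb hab using hcon
  obtain ⟨z, hz⟩ := exists_cluster a
  refine hAB z (hA z fun N => ?_) (hB z fun N => ?_)
  · obtain ⟨n, -, hn⟩ := hz N 0
    exact ⟨a n, ha n, hn⟩
  · obtain ⟨n, hn', hn⟩ := hz N N
    exact ⟨b n, hb n, ((hab n).mono hn').symm.trans hn⟩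

open Classical in
theorem CC_loc (hX : IsSub X) (hmin : Mini X) {N : ℕ} (hN : 1 ≤ N) {x : Pt} (hx : x ∈ X) :
    Loc X (fun z => decide (z ∈ CC N x)) := by
  -- for every `i < N` the classes of `x` and of `sh i x` are equal or separated
  have h1 : ∀ i : ℕ, ∃ M : ℕ, ∀ y ∈ CC N x, ∀ z ∈ CC N (sh i x), agr y z M → z ∈ CC N x := by
    intro i
    by_cases h : ∃ w ∈ CC N x, w ∈ CC N (sh i x)
    · obtain ⟨w, hw1, hw2⟩ := h
      refine ⟨0, fun y hy z hz _ => ?_⟩
      have h2 := CC_symm hX hmin hN (hX.inv x hx i) hw2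
      exact CC_trans hw1 (CC_trans h2 hz)
    · push Not at h
      obtain ⟨M, hM⟩ := sep_closed (A := CC N x) (B := CC N (sh i x)) (fun y hy => CC_closed hy)
        (fun y hy => CC_closed hy) h
      exact ⟨M, fun y hy z hz hyz => absurd hyz (hM y hy z hz)⟩
  choose F hF using h1
  have key : ∀ y ∈ X, ∀ z ∈ X, agr y z (∑ i ∈ Finset.range N, F i) → y ∈ CC N x → z ∈ CC N x := by
    intro y _ z hz hyz hyC
    obtain ⟨i, hi, h⟩ := CC_class hmin hN hx hz
    have h2 := CC_sh (i : ℤ) h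
    rw [sh_sh, add_neg_cancel, sh_zero] at h2
    exact hF i y hyC z h2 (hyz.mono (Finset.single_le_sum (fun _ _ => Nat.zero_le _)
      (Finset.mem_range.2 hi)))
  refine ⟨∑ i ∈ Finset.range N, F i, fun y hy z hz hyz => ?_⟩
  simp only [decide_eq_decide]
  exact ⟨key y hy z hz hyz, key z hz y hy hyz.symm⟩

/-- Powers of the shift are minimal. -/
theorem powmin (hX : IsSub X) (hmin : Mini X) (S : LinkSys X I) {N : ℕ} (hN : 1 ≤ N) {x y : Pt}
    (hx : x ∈ X) (hy : y ∈ X) (W : ℕ) : ∃ n : ℤ, agr (sh (N * n) x) y W := by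
  classical
  obtain ⟨M, hM⟩ := CC_loc hX hmin hN hx
  have hcut : ∀ i, decide (S.P i ∈ CC N x) = decide (S.M i ∈ CC N x) := by
    intro i
    obtain ⟨B, hB⟩ := diff_bdd S i
    have hagr : agr (sh (N * (B + M + 1 : ℕ)) (S.P i)) (sh (N * (B + M + 1 : ℕ)) (S.M i)) M := by
      intro k hk
      by_contra hne
      have := hB _ hne
      have h1 : ((B + M + 1 : ℕ) : ℤ) ≤ (N : ℤ) * (B + M + 1 : ℕ) := by
        have : (1 : ℤ) ≤ N := by exact_mod_cast hN
        nlinarith
      omega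
    have h1 := hM _ (hX.inv _ (S.hP i) (N * (B + M + 1 : ℕ))) _ (hX.inv _ (S.hM i) (N * (B + M + 1 : ℕ))) hagr
    have h2 : ∀ z ∈ X, (sh (N * (B + M + 1 : ℕ)) z ∈ CC N x ↔ z ∈ CC N x) := by
      intro z hz
      constructor
      · intro h
        have h3 := CC_symm hX hmin hN hz (CC_inv (N := (N : ℤ)) ((B + M + 1 : ℕ) : ℤ) z)
        exact CC_trans h h3
      · intro h
        exact CC_trans h (CC_inv (N := (N : ℤ)) ((B + M + 1 : ℕ) : ℤ) z)
    simp only [decide_eq_decide] at h1 ⊢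
    rw [← h2 _ (S.hP i), h1, h2 _ (S.hM i)]
  have h3 := S.sat (fun z => decide (z ∈ CC N x)) ⟨M, hM⟩ hcut x hx y hy
  have h4 : y ∈ CC N x := by
    have : x ∈ CC N x := CC_self _ _
    simpa [this] using h3.symm
  exact h4 W


/-! ## Full pairs -/

theorem mono_const (hX : IsSub X) (hmin : Mini X) (S : LinkSys X I) {g : Pt → Bool} (hg : Loc X g)
    {k : ℕ} (hk : 1 ≤ k) (hmono : ∀ x ∈ X, g x = true → g (sh (k : ℤ) x) = true) :
    ∀ x ∈ X, g (sh (k : ℤ) x) = g x := by
  intro x hx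
  cases hgx : g x with
  | true => exact hmono x hx hgx
  | false =>
    by_contra hne
    have h1 : g (sh (k : ℤ) x) = true := by simpa using hne
    have h2 : ∀ n : ℕ, g (sh ((k : ℤ) * (n + 1 : ℕ)) x) = true := by
      intro n
      induction n with
      | zero => simpa using h1
      | succ n ih =>
        have h3 := hmono _ (hX.inv x hx _) ih
        rw [sh_sh] at h3
        have h4 : (k : ℤ) + (k : ℤ) * (n + 1 : ℕ) = (k : ℤ) * (n + 1 + 1 : ℕ) := by
          push_cast; ring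
        rwa [h4] at h3
    obtain ⟨M, hM⟩ := hg
    obtain ⟨z, hz⟩ := exists_cluster (fun n : ℕ => sh ((k : ℤ) * n) x)
    have hzX : z ∈ X := hX.cl z fun W => by
      obtain ⟨n, -, hn⟩ := hz W 0
      exact ⟨_, hX.inv x hx _, hn⟩
    obtain ⟨n, hn⟩ := powmin hX hmin S hk hzX hx M
    obtain ⟨m, hm, hzm⟩ := hz (M + ((k : ℤ) * n).natAbs) (n.natAbs + 1)
    have h5 := (agr_sh ((k : ℤ) * n) hzm).trans hn
    rw [sh_sh] at h5
    have h6 := hM _ (hX.inv x hx _) _ hx h5
    rw [hgx] at h6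
    have h7 := h2 (n + m - 1).toNat
    have h8 : ((((n + m - 1).toNat + 1 : ℕ)) : ℤ) = n + m := by omega
    rw [h8, mul_add, h6] at h7
    exact absurd h7 (by simp)

theorem same_pair (hX : IsSub X) (hmin : Mini X) (S : LinkSys X I) {g : Pt → Bool} (hg : Loc X g)
    {N : ℕ} (hN : 1 ≤ N) (b : Bool) (hb : ∃ x ∈ X, g x = b) :
    ∃ m : ℕ, 1 ≤ m ∧ ∃ x ∈ X, g x = b ∧ g (sh ((N * m : ℕ) : ℤ) x) = b := by
  obtain ⟨M, hM⟩ := hg
  obtain ⟨x, hx, hgx⟩ := hb
  obtain ⟨n, hn⟩ := powmin hX hmin S (N := 2 * N) (by omega) (hX.inv x hx N) hx M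
  rw [sh_sh] at hn
  have h1 := hM _ (hX.inv x hx _) _ hx hn
  rw [hgx] at h1
  have h2 : (((2 * N : ℕ) : ℤ) * n + N) = N * (2 * n + 1) := by push_cast; ring
  rw [h2] at h1
  rcases lt_or_ge 0 (2 * n + 1) with h | h
  · refine ⟨(2 * n + 1).toNat, by omega, x, hx, hgx, ?_⟩
    have h3 : ((N * (2 * n + 1).toNat : ℕ) : ℤ) = N * (2 * n + 1) := by
      push_cast
      rw [Int.toNat_of_nonneg h.le]
    rw [h3]; exact h1
  · refine ⟨(-(2 * n + 1)).toNat, by omega, sh (N * (2 * n + 1)) x, hX.inv x hx _, h1, ?_⟩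
    have h3 : ((N * (-(2 * n + 1)).toNat : ℕ) : ℤ) = -(N * (2 * n + 1)) := by
      push_cast
      rw [Int.toNat_of_nonneg (by omega)]; ring
    rw [h3, sh_sh, neg_add_cancel, sh_zero]; exact hgx

theorem full_pair (hX : IsSub X) (hmin : Mini X) (S : LinkSys X I) {g : Pt → Bool} (hg : Loc X g)
    {N : ℕ} (hN : 1 ≤ N) (hne : ∀ e : ℕ, 1 ≤ e → ∃ x ∈ X, g (sh ((N * e : ℕ) : ℤ) x) ≠ g x) :
    ∃ m : ℕ, 1 ≤ m ∧ ∀ a b : Bool, ∃ x ∈ X, g x = a ∧ g (sh ((N * m : ℕ) : ℤ) x) = b := by
  have hval : ∀ b : Bool, ∃ x ∈ X, g x = b := by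
    obtain ⟨x, hx, h⟩ := hne 1 le_rfl
    intro b
    by_cases h1 : g x = b
    · exact ⟨x, hx, h1⟩
    · refine ⟨sh ((N * 1 : ℕ) : ℤ) x, hX.inv x hx _, ?_⟩
      revert h h1
      generalize g x = u
      generalize g (sh ((N * 1 : ℕ) : ℤ) x) = v
      revert u v b
      decide
  have hTF : ∀ m : ℕ, 1 ≤ m → ∀ b : Bool, ∃ x ∈ X, g x = b ∧ g (sh ((N * m : ℕ) : ℤ) x) = !b := by
    intro m hm b
    by_contra hcon
    push Not at hcon
    obtain ⟨x, hx, h⟩ := hne m hm
    have hNm : 1 ≤ N * m := Nat.mul_pos hN hm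
    cases b with
    | true =>
      refine h (mono_const hX hmin S hg hNm (fun y hy hgy => ?_) x hx)
      simpa using hcon y hy hgy
    | false =>
      have := mono_const hX hmin S (loc_not hg) hNm (fun y hy hgy => by
        have h1 : g y = false := by simpa using hgy
        simpa using hcon y hy h1) x hx
      exact h (by simpa using this)
  obtain ⟨m1, hm1, x1, hx1, h11, h12⟩ := same_pair hX hmin S hg hN true (hval true)
  obtain ⟨m0, hm0, x0, hx0, h01, h02⟩ := same_pair hX hmin S hg hN false (hval false)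
  by_cases hA : ∃ x ∈ X, g x = false ∧ g (sh ((N * m1 : ℕ) : ℤ) x) = false
  · obtain ⟨y, hy, hy1, hy2⟩ := hA
    refine ⟨m1, hm1, fun a b => ?_⟩
    cases a <;> cases b
    · exact ⟨y, hy, hy1, hy2⟩
    · exact hTF m1 hm1 false
    · exact hTF m1 hm1 true
    · exact ⟨x1, hx1, h11, h12⟩
  by_cases hB : ∃ x ∈ X, g x = true ∧ g (sh ((N * m0 : ℕ) : ℤ) x) = true
  · obtain ⟨y, hy, hy1, hy2⟩ := hB
    refine ⟨m0, hm0, fun a b => ?_⟩
    cases a <;> cases b
    · exact ⟨x0, hx0, h01, h02⟩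
    · exact hTF m0 hm0 false
    · exact hTF m0 hm0 true
    · exact ⟨y, hy, hy1, hy2⟩
  exfalso
  push Not at hA hB
  have hc : g (sh ((N * m0 : ℕ) : ℤ) x1) = false := by simpa using hB x1 hx1 h11
  have hd : g (sh ((N * m0 : ℕ) : ℤ) (sh ((N * m1 : ℕ) : ℤ) x1)) = false := by
    simpa using hB _ (hX.inv x1 hx1 _) h12
  have := hA _ (hX.inv x1 hx1 ((N * m0 : ℕ) : ℤ)) hc
  rw [sh_sh, add_comm, ← sh_sh] at this
  exact this hd

/-! ## No function cuts exactly one link -/

theorem not_cut {S : LinkSys X I} {g : Pt → Bool} {i : I} (h : ¬ Cut S g i) :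
    g (S.P i) = g (S.M i) := not_not.1 h

theorem no_single (hX : IsSub X) (hmin : Mini X) (S : LinkSys X I) {g : Pt → Bool} (hg : Loc X g)
    (i : I) (hcut : ∀ j, Cut S g j ↔ j = i) : False := by
  obtain ⟨m, hm, hfull⟩ := full_pair hX hmin S hg le_rfl (fun e he => by
    by_contra hcon
    push Not at hcon
    have h1 : Cut S g (S.mv (-((1 * e : ℕ) : ℤ)) i) := by
      rw [← cut_sh']
      show g (sh ((1 * e : ℕ) : ℤ) (S.P i)) ≠ g (sh ((1 * e : ℕ) : ℤ) (S.M i))
      rw [hcon _ (S.hP i), hcon _ (S.hM i)]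
      exact (hcut i).2 rfl
    have h2 := S.free _ _ ((hcut _).1 h1)
    omega)
  rw [one_mul] at hfull
  have hi' : ¬ Cut S (fun x => g (sh (m : ℤ) x)) i := by
    rw [cut_sh', hcut]
    intro h
    have := S.free _ _ h
    omega
  have hmi : S.mv (m : ℤ) i ≠ i := by
    intro h
    have := S.free _ _ h
    omega
  have hi'' : ¬ Cut S g (S.mv (m : ℤ) i) := by
    rw [hcut]; exact hmi
  have hβ := not_cut hi'
  have hα := not_cut hi''
  beta_reduce at hβ
  have hG : Loc X (fun x => (g x == !(g (S.P (S.mv (m : ℤ) i)))) &&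
      (g (sh (m : ℤ) x) == !(g (sh (m : ℤ) (S.P i))))) :=
    loc_op (fun a b => (a == !(g (S.P (S.mv (m : ℤ) i)))) && (b == !(g (sh (m : ℤ) (S.P i))))) hg
      (loc_sh hX hg m)
  have hcon := S.sat _ hG (fun j => by
    by_cases h1 : j = i
    · subst h1
      beta_reduce
      rw [← hβ]
      simp
    · by_cases h2 : j = S.mv (m : ℤ) i
      · subst h2
        beta_reduce
        rw [← hα]
        simp
      · have h3 := not_cut (S := S) (g := g) (i := j) (by rw [hcut]; exact h1)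
        have h4 := not_cut (S := S) (g := fun x => g (sh (m : ℤ) x)) (i := j) (by
          rw [cut_sh', hcut]
          intro h
          apply h2
          rw [← h, S.mv_mv, add_neg_cancel, S.mv_zero])
        beta_reduce at h4
        beta_reduce
        rw [h3, h4])
  obtain ⟨x, hx, hx1, hx2⟩ := hfull (!(g (S.P (S.mv (m : ℤ) i)))) (!(g (sh (m : ℤ) (S.P i))))
  obtain ⟨y, hy, hy1, hy2⟩ := hfull (g (S.P (S.mv (m : ℤ) i))) (g (sh (m : ℤ) (S.P i)))
  have := hcon x hx y hy
  beta_reduce at this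
  rw [hx1, hx2, hy1, hy2] at this
  simp at this

/-! ## Corner lemma -/

theorem bf1 : ∀ u v w a b : Bool, u ≠ v →
    (((u == a) && (w == b)) ≠ ((v == a) && (w == b)) ↔ w = b) := by decide

theorem bf2 : ∀ u v w a b : Bool, u ≠ v →
    (((w == a) && (u == b)) ≠ ((w == a) && (v == b)) ↔ w = a) := by decide

/-- A locally constant function cutting at most one link is constant. -/
theorem const_of_le_one (hX : IsSub X) (hmin : Mini X) (S : LinkSys X I) {g : Pt → Bool}
    (hg : Loc X g) (i : I) (h : ∀ j, j ≠ i → ¬ Cut S g j) : ∀ x ∈ X, ∀ y ∈ X, g x = g y := by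
  by_cases hi : Cut S g i
  · exact (no_single hX hmin S hg i (fun j => ⟨fun hj => by
      by_contra hne
      exact h j hne hj, fun hj => hj ▸ hi⟩)).elim
  · refine S.sat g hg fun j => ?_
    by_cases hj : j = i
    · subst hj; exact not_cut hi
    · exact not_cut (h j hj)

theorem corner_aux (hX : IsSub X) (hmin : Mini X) (S : LinkSys X I) {g h : Pt → Bool}
    (hg : Loc X g) (hh : Loc X h) {i1 i2 j1 j2 : I}
    (hcg : ∀ i, Cut S g i ↔ i = i1 ∨ i = i2) (hch : ∀ i, Cut S h i ↔ i = j1 ∨ i = j2)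
    (d11 : i1 ≠ j1) (d12 : i1 ≠ j2) (d21 : i2 ≠ j1) (d22 : i2 ≠ j2)
    (hfull : ∀ a b : Bool, ∃ x ∈ X, g x = a ∧ h x = b) : h (S.P i1) ≠ h (S.P i2) := by
  intro heq
  have n1 : h (S.P i1) = h (S.M i1) := not_cut (by rw [hch]; tauto)
  have n2 : h (S.P i2) = h (S.M i2) := not_cut (by rw [hch]; tauto)
  have m1 : g (S.P j1) = g (S.M j1) := not_cut (by
    rw [hcg]; rintro (h | h); exacts [d11 h.symm, d21 h.symm])
  have hG : Loc X (fun x => (g x == !(g (S.P j1))) && (h x == !(h (S.P i1)))) :=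
    loc_op (fun a b => (a == !(g (S.P j1))) && (b == !(h (S.P i1)))) hg hh
  have hcon := const_of_le_one hX hmin S hG j2 (fun j hj hcut => hcut (by
    simp only
    by_cases e1 : j = i1
    · subst e1
      rw [← n1]; simp
    by_cases e2 : j = i2
    · subst e2
      rw [← n2, heq]; simp
    by_cases e3 : j = j1
    · subst e3
      rw [← m1]; simp
    have h1 : g (S.P j) = g (S.M j) := not_cut (by rw [hcg]; tauto)
    have h2 : h (S.P j) = h (S.M j) := not_cut (by rw [hch]; tauto)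
    rw [h1, h2]))
  obtain ⟨x, hx, hx1, hx2⟩ := hfull (!(g (S.P j1))) (!(h (S.P i1)))
  obtain ⟨y, hy, hy1, hy2⟩ := hfull (g (S.P j1)) (h (S.P i1))
  have := hcon x hx y hy
  beta_reduce at this
  rw [hx1, hx2, hy1, hy2] at this
  simp at this

theorem corner (hX : IsSub X) (hmin : Mini X) (S : LinkSys X I) {g h : Pt → Bool}
    (hg : Loc X g) (hh : Loc X h) {i1 i2 j1 j2 : I}
    (hcg : ∀ i, Cut S g i ↔ i = i1 ∨ i = i2) (hch : ∀ i, Cut S h i ↔ i = j1 ∨ i = j2)
    (d11 : i1 ≠ j1) (d12 : i1 ≠ j2) (d21 : i2 ≠ j1) (d22 : i2 ≠ j2)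
    (hfull : ∀ a b : Bool, ∃ x ∈ X, g x = a ∧ h x = b) :
    ∃ G : Pt → Bool, Loc X G ∧ ∀ i, Cut S G i ↔ i = i1 ∨ i = j1 := by
  have k1 := corner_aux hX hmin S hg hh hcg hch d11 d12 d21 d22 hfull
  have k2 := corner_aux hX hmin S hh hg hch hcg d11.symm d21.symm d12.symm d22.symm
    (fun a b => by
      obtain ⟨x, hx, h1, h2⟩ := hfull b a
      exact ⟨x, hx, h2, h1⟩)
  have n1 : h (S.P i1) = h (S.M i1) := not_cut (by rw [hch]; tauto)
  have n2 : h (S.P i2) = h (S.M i2) := not_cut (by rw [hch]; tauto)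
  have m1 : g (S.P j1) = g (S.M j1) := not_cut (by
    rw [hcg]; rintro (h | h); exacts [d11 h.symm, d21 h.symm])
  have m2 : g (S.P j2) = g (S.M j2) := not_cut (by
    rw [hcg]; rintro (h | h); exacts [d12 h.symm, d22 h.symm])
  refine ⟨fun x => (g x == g (S.P j1)) && (h x == h (S.P i1)),
    loc_op (fun a b => (a == g (S.P j1)) && (b == h (S.P i1))) hg hh, fun j => ?_⟩
  by_cases e1 : j = i1
  · subst e1
    have c1 : g (S.P j) ≠ g (S.M j) := (hcg j).2 (Or.inl rfl)
    unfold Cut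
    simp only
    rw [← n1, bf1 _ _ _ _ _ c1]
    simp
  by_cases e3 : j = j1
  · subst e3
    have c1 : h (S.P j) ≠ h (S.M j) := (hch j).2 (Or.inl rfl)
    unfold Cut
    simp only
    rw [← m1, bf2 _ _ _ _ _ c1]
    simp
  have hR : ¬ (j = i1 ∨ j = j1) := by tauto
  rw [iff_false_right hR]
  by_cases e2 : j = i2
  · subst e2
    have c1 : g (S.P j) ≠ g (S.M j) := (hcg j).2 (Or.inr rfl)
    unfold Cut
    simp only
    rw [← n2, bf1 _ _ _ _ _ c1]
    exact fun h => k1 h.symm
  by_cases e4 : j = j2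
  · subst e4
    have c1 : h (S.P j) ≠ h (S.M j) := (hch j).2 (Or.inr rfl)
    unfold Cut
    simp only
    rw [← m2, bf2 _ _ _ _ _ c1]
    exact fun h => k2 h.symm
  have h1 : g (S.P j) = g (S.M j) := not_cut (by rw [hcg]; tauto)
  have h2 : h (S.P j) = h (S.M j) := not_cut (by rw [hch]; tauto)
  unfold Cut
  simp only
  rw [h1, h2]
  simp

/-! ## The equivalence relation on indices -/

/-- `i` and `j` are equal or form the cut set of a locally constant function. -/
def Rel (S : LinkSys X I) (i j : I) : Prop :=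
  i = j ∨ ∃ G : Pt → Bool, Loc X G ∧ ∀ l, Cut S G l ↔ l = i ∨ l = j

theorem Rel.symm {S : LinkSys X I} {i j : I} (h : Rel S i j) : Rel S j i := by
  rcases h with h | ⟨G, hG, hc⟩
  · exact Or.inl h.symm
  · exact Or.inr ⟨G, hG, fun l => by rw [hc, or_comm]⟩

theorem cut_xor {S : LinkSys X I} {g h : Pt → Bool} {l : I} :
    Cut S (fun x => xor (g x) (h x)) l ↔ (Cut S g l ↔ ¬ Cut S h l) := by
  unfold Cut
  simp only
  generalize g (S.P l) = a
  generalize g (S.M l) = b
  generalize h (S.P l) = c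
  generalize h (S.M l) = d
  revert a b c d
  decide

theorem Rel.trans {S : LinkSys X I} {i j k : I} (h : Rel S i j) (h' : Rel S j k) : Rel S i k := by
  by_cases hij : i = j
  · rw [hij]; exact h'
  by_cases hjk : j = k
  · rw [← hjk]; exact h
  by_cases hik : i = k
  · exact Or.inl hik
  rcases h with h | ⟨G, hG, hc⟩
  · exact absurd h hij
  rcases h' with h' | ⟨H, hH, hd⟩
  · exact absurd h' hjk
  refine Or.inr ⟨fun x => xor (G x) (H x), loc_op xor hG hH, fun l => ?_⟩
  rw [cut_xor, hc, hd]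
  by_cases e1 : l = i
  · subst e1; tauto
  by_cases e2 : l = j
  · subst e2; tauto
  by_cases e3 : l = k
  · subst e3; tauto
  tauto

theorem mv_eq_iff (S : LinkSys X I) (k : ℤ) (i j : I) : S.mv (-k) i = j ↔ i = S.mv k j := by
  constructor
  · rintro rfl; rw [S.mv_mv, add_neg_cancel, S.mv_zero]
  · rintro rfl; rw [S.mv_mv, neg_add_cancel, S.mv_zero]

theorem Rel.mv (hX : IsSub X) {S : LinkSys X I} {i j : I} (k : ℤ) (h : Rel S i j) :
    Rel S (S.mv k i) (S.mv k j) := by
  rcases h with h | ⟨G, hG, hc⟩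
  · exact Or.inl (by rw [h])
  · refine Or.inr ⟨fun x => G (sh k x), loc_sh hX hG k, fun l => ?_⟩
    rw [cut_sh', hc, mv_eq_iff, mv_eq_iff]


theorem coord_cut (S : LinkSys X I) (i : I) : Cut S (fun x => x 0) i ↔ i = S.i₀ ∨ i = S.i₁ :=
  S.cut i

theorem rel01 (S : LinkSys X I) : Rel S S.i₀ S.i₁ :=
  Or.inr ⟨fun x => x 0, loc_coord 0, coord_cut S⟩

/-- There is a positive `t` with `i₀` related to `mv t i₀`. -/
theorem exists_t (hX : IsSub X) (hmin : Mini X) (hnp : NP X) (S : LinkSys X I) :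
    ∃ t : ℕ, 1 ≤ t ∧ Rel S S.i₀ (S.mv (t : ℤ) S.i₀) := by
  obtain ⟨N, hN, hd⟩ : ∃ N : ℕ, 1 ≤ N ∧ ∀ d : ℤ, S.mv d S.i₀ = S.i₁ → d.natAbs < N := by
    by_cases h : ∃ d, S.mv d S.i₀ = S.i₁
    · obtain ⟨d, hd⟩ := h
      refine ⟨d.natAbs + 1, by omega, fun d' hd' => ?_⟩
      rw [mv_inj S (hd'.trans hd.symm)]
      omega
    · exact ⟨1, le_rfl, fun d hd => absurd ⟨d, hd⟩ h⟩
  obtain ⟨m, hm, hfull⟩ := full_pair hX hmin S (loc_coord 0) hN (fun e he => by
    by_contra hcon
    push Not at hcon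
    obtain ⟨x, hx⟩ := hX.ne
    obtain ⟨i, hi⟩ := hnp x hx ((N * e : ℕ) : ℤ) (by
      have := Nat.mul_pos hN he
      omega)
    apply hi
    have := hcon _ (hX.inv x hx i)
    simp only [sh_apply, zero_add] at this
    rw [add_comm]
    exact this)
  have hNm : 1 ≤ N * m := Nat.mul_pos hN hm
  have hle : N ≤ N * m := Nat.le_mul_of_pos_right _ hm
  refine ⟨N * m, hNm, Or.inr ?_⟩
  refine corner (i2 := S.i₁) (j2 := S.mv ((N * m : ℕ) : ℤ) S.i₁) hX hmin S (loc_coord 0)
    (loc_sh hX (loc_coord 0) ((N * m : ℕ) : ℤ)) (coord_cut S) ?_ ?_ ?_ ?_ ?_ hfull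
  · intro i
    exact (cut_sh' S (fun x : Pt => x 0) _ i).trans (by rw [coord_cut, mv_eq_iff, mv_eq_iff])
  · intro h
    have := S.free _ _ h.symm
    omega
  · intro h
    have h1 : S.mv (-((N * m : ℕ) : ℤ)) S.i₀ = S.i₁ := (mv_eq_iff S _ _ _).2 h
    have := hd _ h1
    omega
  · intro h
    have := hd _ h.symm
    omega
  · intro h
    have := S.free _ _ h.symm
    omega

/-- All shifts of `i₀` are related. -/
theorem rel_mv (hX : IsSub X) (hmin : Mini X) (hnp : NP X) (S : LinkSys X I) (k : ℤ) :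
    Rel S S.i₀ (S.mv k S.i₀) := by
  obtain ⟨t, ht, hrel⟩ := exists_t hX hmin hnp S
  by_contra hk
  have h1 : ∀ n : ℕ, Rel S (S.mv k S.i₀) (S.mv (k + t * n) S.i₀) := by
    intro n
    induction n with
    | zero => exact Or.inl (by simp)
    | succ n ih =>
      refine ih.trans ?_
      have := hrel.mv hX (k + t * n)
      rw [S.mv_mv] at this
      have h : k + (t : ℤ) * n + t = k + t * (n + 1 : ℕ) := by push_cast; ring
      rwa [h] at this
  have h2 : ∀ n : ℕ, Rel S (S.mv k S.i₀) (S.mv (k - t * n) S.i₀) := by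
    intro n
    induction n with
    | zero => exact Or.inl (by simp)
    | succ n ih =>
      refine ih.trans (Rel.symm ?_)
      have := hrel.mv hX (k - t * (n + 1 : ℕ))
      rw [S.mv_mv] at this
      have h : k - (t : ℤ) * (n + 1 : ℕ) + t = k - t * n := by push_cast; ring
      rwa [h] at this
  have h3 : ∀ n : ℤ, Rel S (S.mv k S.i₀) (S.mv (k + t * n) S.i₀) := by
    intro n
    rcases le_or_gt 0 n with hn | hn
    · have := h1 n.toNat
      rwa [Int.toNat_of_nonneg hn] at this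
    · have := h2 (-n).toNat
      rw [Int.toNat_of_nonneg (by omega)] at this
      have h : k - (t : ℤ) * -n = k + t * n := by ring
      rwa [h] at this
  -- none of these indices is cut by the coordinate zero
  have hnc : ∀ n : ℤ, S.mv (k + t * n) S.i₀ ≠ S.i₀ ∧ S.mv (k + t * n) S.i₀ ≠ S.i₁ := by
    intro n
    constructor
    · intro h
      exact hk ((h ▸ h3 n).symm)
    · intro h
      exact hk ((rel01 S).trans (h ▸ h3 n).symm)
  -- values of the coordinate zero
  have hval : ∀ n : ℤ, S.P (S.mv (k + t * n) S.i₀) 0 = S.P (S.mv k S.i₀) 0 := by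
    intro n
    by_contra hne
    have hnn : S.mv k S.i₀ ≠ S.mv (k + t * n) S.i₀ := fun h => hne (by rw [← h])
    rcases h3 n with h | ⟨G, hG, hc⟩
    · exact hnn h
    have hnc0 := hnc 0
    rw [mul_zero, add_zero] at hnc0
    have v1 : S.P (S.mv k S.i₀) 0 = S.M (S.mv k S.i₀) 0 :=
      not_cut (S := S) (g := fun x => x 0) (by rw [coord_cut]; tauto)
    have v2 : S.P (S.mv (k + t * n) S.i₀) 0 = S.M (S.mv (k + t * n) S.i₀) 0 :=
      not_cut (S := S) (g := fun x => x 0) (by rw [coord_cut]; have := hnc n; tauto)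
    have c1 : G (S.P (S.mv k S.i₀)) ≠ G (S.M (S.mv k S.i₀)) := (hc _).2 (Or.inl rfl)
    have c2 : G (S.P (S.mv (k + t * n) S.i₀)) ≠ G (S.M (S.mv (k + t * n) S.i₀)) :=
      (hc _).2 (Or.inr rfl)
    have hfull : ∀ a b : Bool, ∃ x ∈ X, G x = a ∧ x 0 = b := by
      intro a b
      by_cases hb : b = S.P (S.mv k S.i₀) 0
      · by_cases ha : a = G (S.P (S.mv k S.i₀))
        · exact ⟨_, S.hP _, ha.symm, hb.symm⟩
        · refine ⟨_, S.hM (S.mv k S.i₀), ?_, (hb.trans v1).symm⟩
          revert ha c1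
          generalize G (S.P (S.mv k S.i₀)) = u
          generalize G (S.M (S.mv k S.i₀)) = v
          revert a u v
          decide
      · have hb' : b = S.P (S.mv (k + t * n) S.i₀) 0 := by
          revert hb hne
          generalize S.P (S.mv k S.i₀) 0 = u
          generalize S.P (S.mv (k + t * n) S.i₀) 0 = v
          revert b u v
          decide
        by_cases ha : a = G (S.P (S.mv (k + t * n) S.i₀))
        · exact ⟨_, S.hP _, ha.symm, hb'.symm⟩
        · refine ⟨_, S.hM (S.mv (k + t * n) S.i₀), ?_, (hb'.trans v2).symm⟩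
          revert ha c2
          generalize G (S.P (S.mv (k + t * n) S.i₀)) = u
          generalize G (S.M (S.mv (k + t * n) S.i₀)) = v
          revert a u v
          decide
    have := corner hX hmin S hG (loc_coord 0) hc (coord_cut S) hnc0.1 hnc0.2 (hnc n).1 (hnc n).2 hfull
    exact hk (Rel.symm (Or.inr this))
  -- contradiction with minimality of the `t`-th power
  have hconst : ∀ x ∈ X, x 0 = S.P (S.mv k S.i₀) 0 := by
    intro x hx
    obtain ⟨n, hn⟩ := powmin hX hmin S ht (S.hP (S.mv k S.i₀)) hx 0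
    have h4 := hn 0 (by simp)
    rw [sh_P, S.mv_mv] at h4
    have h5 : -((t : ℤ) * n) + k = k + t * -n := by ring
    rw [← h4, ← hval (-n), h5]
  obtain ⟨x, hx⟩ := hX.ne
  obtain ⟨i, hi⟩ := hnp x hx 1 one_ne_zero
  apply hi
  have e1 := hconst _ (hX.inv x hx (i + 1))
  have e2 := hconst _ (hX.inv x hx i)
  simp only [sh_apply, zero_add] at e1 e2
  rw [e1, e2]

/-! ## Comparison -/

/-- `g = h` or `g = ¬ h` on `X` when the cuts agree. -/
theorem unique_cut (S : LinkSys X I) {g h : Pt → Bool} (hg : Loc X g) (hh : Loc X h)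
    (hc : ∀ i, Cut S g i ↔ Cut S h i) {z : Pt} (hz : z ∈ X) (hgz : g z = h z) :
    ∀ x ∈ X, g x = h x := by
  intro x hx
  have := S.sat (fun x => xor (g x) (h x)) (loc_op xor hg hh) (fun i => by
    by_contra hne
    have h1 : Cut S (fun x => xor (g x) (h x)) i := hne
    rw [cut_xor, hc i] at h1
    tauto) x hx z hz
  beta_reduce at this
  rw [hgz] at this
  revert this
  generalize g x = a
  generalize h x = b
  generalize h z = c
  revert a b c
  decide

theorem unique_cut_not (S : LinkSys X I) {g h : Pt → Bool} (hg : Loc X g) (hh : Loc X h)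
    (hc : ∀ i, Cut S g i ↔ Cut S h i) {z : Pt} (hz : z ∈ X) (hgz : g z ≠ h z) :
    ∀ x ∈ X, g x = !h x := by
  have hc' : ∀ i, Cut S g i ↔ Cut S (fun x => !h x) i := by
    intro i
    rw [hc i]
    unfold Cut
    simp
  refine unique_cut S hg (loc_not hh) hc' hz ?_
  revert hgz
  generalize g z = a
  generalize h z = b
  revert a b
  decide

/-- The chain lemma. -/
theorem chain (hX : IsSub X) (hmin : Mini X) (S : LinkSys X I) {G H : Pt → Bool}
    (hG : Loc X G) (hH : Loc X H) {i j : I} (hi : i ≠ S.i₀) (hj : j ≠ S.i₀) (hij : i ≠ j)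
    (hcG : ∀ l, Cut S G l ↔ l = S.i₀ ∨ l = i) (hcH : ∀ l, Cut S H l ↔ l = S.i₀ ∨ l = j)
    (hG0 : G (S.P S.i₀) = true) (hH0 : H (S.P S.i₀) = true) :
    (H (S.P i) = true → ∀ x ∈ X, G x = true → H x = true) ∧
    (H (S.P i) = false → ∀ x ∈ X, H x = true → G x = true) := by
  have nH : H (S.P i) = H (S.M i) := not_cut (by rw [hcH]; tauto)
  have nG : G (S.P j) = G (S.M j) := not_cut (by rw [hcG]; rintro (h | h); exacts [hj h, hij h.symm])
  have cG0 : G (S.P S.i₀) ≠ G (S.M S.i₀) := (hcG _).2 (Or.inl rfl)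
  have cH0 : H (S.P S.i₀) ≠ H (S.M S.i₀) := (hcH _).2 (Or.inl rfl)
  have cGi : G (S.P i) ≠ G (S.M i) := (hcG _).2 (Or.inr rfl)
  have cHj : H (S.P j) ≠ H (S.M j) := (hcH _).2 (Or.inr rfl)
  have hG0' : G (S.M S.i₀) = false := by
    rw [hG0] at cG0; simpa using cG0.symm
  have hH0' : H (S.M S.i₀) = false := by
    rw [hH0] at cH0; simpa using cH0.symm
  have other : ∀ l, l ≠ S.i₀ → l ≠ i → l ≠ j → G (S.P l) = G (S.M l) ∧ H (S.P l) = H (S.M l) := by
    intro l h1 h2 h3
    exact ⟨not_cut (by rw [hcG]; tauto), not_cut (by rw [hcH]; tauto)⟩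
  -- G ∧ ¬ H
  have hGH : Loc X (fun x => G x && !H x) := loc_op (fun a b => a && !b) hG hH
  have hHG : Loc X (fun x => H x && !G x) := loc_op (fun a b => a && !b) hH hG
  -- constant function false at M i₀
  have conc1 : (∀ l, ¬ Cut S (fun x => G x && !H x) l) → ∀ x ∈ X, G x = true → H x = true := by
    intro hnc x hx hGx
    have := S.sat _ hGH (fun l => not_cut (hnc l)) x hx _ (S.hM S.i₀)
    beta_reduce at this
    rw [hGx, hG0'] at this
    simpa using this
  have conc2 : (∀ l, ¬ Cut S (fun x => H x && !G x) l) → ∀ x ∈ X, H x = true → G x = true := by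
    intro hnc x hx hHx
    have := S.sat _ hHG (fun l => not_cut (hnc l)) x hx _ (S.hM S.i₀)
    beta_reduce at this
    rw [hHx, hH0'] at this
    simpa using this
  constructor
  · intro hHi
    cases hGj : G (S.P j) with
    | true =>
      exfalso
      refine no_single hX hmin S hGH j (fun l => ?_)
      unfold Cut
      beta_reduce
      by_cases e0 : l = S.i₀
      · subst e0
        rw [hG0, hH0, hG0', hH0']
        simp [Ne.symm hj]
      by_cases e1 : l = i
      · subst e1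
        rw [← nH, hHi]
        simp [hij]
      by_cases e2 : l = j
      · subst e2
        rw [← nG, hGj]
        simpa using cHj
      obtain ⟨o1, o2⟩ := other l e0 e1 e2
      rw [o1, o2]
      simp [e2]
    | false =>
      refine conc1 (fun l => ?_)
      unfold Cut
      beta_reduce
      by_cases e0 : l = S.i₀
      · subst e0
        rw [hG0, hH0, hG0', hH0']
        simp
      by_cases e1 : l = i
      · subst e1
        rw [← nH, hHi]
        simp
      by_cases e2 : l = j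
      · subst e2
        rw [← nG, hGj]
        simp
      obtain ⟨o1, o2⟩ := other l e0 e1 e2
      rw [o1, o2]
      simp
  · intro hHi
    cases hGj : G (S.P j) with
    | false =>
      exfalso
      refine no_single hX hmin S hGH i (fun l => ?_)
      unfold Cut
      beta_reduce
      by_cases e0 : l = S.i₀
      · subst e0
        rw [hG0, hH0, hG0', hH0']
        simp [Ne.symm hi]
      by_cases e1 : l = i
      · subst e1
        rw [← nH, hHi]
        simpa using cGi
      by_cases e2 : l = j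
      · subst e2
        rw [← nG, hGj]
        simp [hij.symm]
      obtain ⟨o1, o2⟩ := other l e0 e1 e2
      rw [o1, o2]
      simp [e1]
    | true =>
      refine conc2 (fun l => ?_)
      unfold Cut
      beta_reduce
      by_cases e0 : l = S.i₀
      · subst e0
        rw [hG0, hH0, hG0', hH0']
        simp
      by_cases e1 : l = i
      · subst e1
        rw [← nH, hHi]
        simp
      by_cases e2 : l = j
      · subst e2
        rw [← nG, hGj]
        simp
      obtain ⟨o1, o2⟩ := other l e0 e1 e2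
      rw [o1, o2]
      simp


/-! ## Invariant means -/

/-- The indicator. -/
noncomputable def ind (b : Bool) : ℝ := if b = true then 1 else 0

@[simp] theorem ind_true : ind true = 1 := by simp [ind]
@[simp] theorem ind_false : ind false = 0 := by simp [ind]
theorem ind_nonneg (b : Bool) : 0 ≤ ind b := by cases b <;> simp
theorem ind_le_one (b : Bool) : ind b ≤ 1 := by cases b <;> simp

/-- Birkhoff averages. -/
noncomputable def av (x : Pt) (g : Pt → Bool) (n : ℕ) : ℝ :=
  (∑ m ∈ Finset.range n, ind (g (sh (m : ℤ) x))) / n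

theorem av_mem (x : Pt) (g : Pt → Bool) (n : ℕ) : av x g n ∈ Set.Icc (0 : ℝ) 1 := by
  unfold av
  constructor
  · exact div_nonneg (Finset.sum_nonneg fun _ _ => ind_nonneg _) (Nat.cast_nonneg _)
  · rcases Nat.eq_zero_or_pos n with rfl | hn
    · simp
    · rw [div_le_one (by exact_mod_cast hn)]
      calc (∑ m ∈ Finset.range n, ind (g (sh (m : ℤ) x))) ≤ ∑ m ∈ Finset.range n, (1 : ℝ) :=
            Finset.sum_le_sum fun _ _ => ind_le_one _
        _ = n := by simp

theorem exists_lim (x : Pt) (g : Pt → Bool) :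
    ∃ l : ℝ, Tendsto (av x g) (hyperfilter ℕ : Filter ℕ) (𝓝 l) := by
  have h := isCompact_Icc (a := (0 : ℝ)) (b := 1)
  obtain ⟨l, -, hl⟩ := h.ultrafilter_le_nhds ((hyperfilter ℕ).map (av x g)) (by
    rw [Filter.le_principal_iff, Ultrafilter.mem_coe, Ultrafilter.mem_map]
    exact Filter.Eventually.of_forall fun n => av_mem x g n)
  exact ⟨l, hl⟩

/-- Existence of an invariant mean. -/
theorem exists_mean (hX : IsSub X) (hmin : Mini X) : ∃ μ : (Pt → Bool) → ℝ,
    (∀ g h k : Pt → Bool, (∀ x ∈ X, ind (g x) + ind (h x) = ind (k x)) → μ g + μ h = μ k) ∧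
    (∀ g h : Pt → Bool, (∀ x ∈ X, g x = true → h x = true) → μ g ≤ μ h) ∧
    (∀ (g : Pt → Bool) (k : ℤ), μ (fun x => g (sh k x)) = μ g) ∧
    (∀ g : Pt → Bool, μ g + μ (fun x => !g x) = 1) ∧
    (∀ g : Pt → Bool, Loc X g → (∃ x ∈ X, g x = true) → 0 < μ g) := by
  obtain ⟨x0, hx0⟩ := hX.ne
  choose μ hμ using exists_lim x0
  have hle : (hyperfilter ℕ : Filter ℕ) ≤ atTop := Nat.hyperfilter_le_atTop
  have hmono : ∀ g h : Pt → Bool, (∀ x ∈ X, g x = true → h x = true) → μ g ≤ μ h := by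
    intro g h hgh
    refine le_of_tendsto_of_tendsto' (hμ g) (hμ h) fun n => ?_
    unfold av
    gcongr with m hm
    have := hgh _ (hX.inv x0 hx0 (m : ℤ))
    revert this
    cases g (sh (m : ℤ) x0) <;> cases h (sh (m : ℤ) x0) <;> simp
  have hshift1 : ∀ g : Pt → Bool, μ (fun x => g (sh 1 x)) = μ g := by
    intro g
    have h1 : Tendsto (fun n => av x0 (fun x => g (sh 1 x)) n - av x0 g n)
        (hyperfilter ℕ : Filter ℕ) (𝓝 (μ (fun x => g (sh 1 x)) - μ g)) := (hμ _).sub (hμ g)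
    have h2 : Tendsto (fun n => av x0 (fun x => g (sh 1 x)) n - av x0 g n) atTop (𝓝 0) := by
      have h3 : ∀ n, av x0 (fun x => g (sh 1 x)) n - av x0 g n =
          (ind (g (sh (n : ℤ) x0)) - ind (g x0)) / n := by
        intro n
        unfold av
        rw [← sub_div]
        congr 1
        have h4 : ∀ n : ℕ, (∑ m ∈ Finset.range n, ind (g (sh 1 (sh (m : ℤ) x0)))) -
            ∑ m ∈ Finset.range n, ind (g (sh (m : ℤ) x0)) =
            ind (g (sh (n : ℤ) x0)) - ind (g x0) := by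
          intro n
          induction n with
          | zero => simp
          | succ n ih =>
            rw [Finset.sum_range_succ, Finset.sum_range_succ, sh_sh]
            have : ((n + 1 : ℕ) : ℤ) = 1 + n := by push_cast; ring
            rw [this]
            linarith
        exact h4 n
      simp only [h3]
      refine squeeze_zero_norm (a := fun n : ℕ => 1 / (n : ℝ)) (fun n => ?_)
        tendsto_one_div_atTop_nhds_zero_nat
      rw [norm_div, Real.norm_eq_abs, Real.norm_natCast]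
      gcongr
      have a1 := ind_nonneg (g (sh (n : ℤ) x0))
      have a2 := ind_le_one (g (sh (n : ℤ) x0))
      have a3 := ind_nonneg (g x0)
      have a4 := ind_le_one (g x0)
      rw [abs_le]
      constructor <;> linarith
    have := tendsto_nhds_unique h1 (h2.mono_left hle)
    linarith
  have hshiftn : ∀ (n : ℕ) (g : Pt → Bool), μ (fun x => g (sh (n : ℤ) x)) = μ g := by
    intro n
    induction n with
    | zero => intro g; simp
    | succ n ih =>
      intro g
      have h1 := hshift1 (fun x => g (sh (n : ℤ) x))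
      beta_reduce at h1
      rw [ih] at h1
      rw [← h1]
      congr 1
      funext x
      rw [sh_sh]
      push_cast
      rfl
  refine ⟨μ, ?_, hmono, ?_, ?_, ?_⟩
  · intro g h k hgh
    refine tendsto_nhds_unique ((hμ g).add (hμ h)) ?_
    have : (fun n => av x0 g n + av x0 h n) = av x0 k := by
      funext n
      unfold av
      rw [← add_div, ← Finset.sum_add_distrib]
      congr 1
      exact Finset.sum_congr rfl fun m _ => hgh _ (hX.inv x0 hx0 _)
    rw [this]
    exact hμ k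
  · intro g k
    rcases le_or_gt 0 k with hk | hk
    · have := hshiftn k.toNat g
      rwa [Int.toNat_of_nonneg hk] at this
    · have := hshiftn (-k).toNat (fun x => g (sh k x))
      rw [Int.toNat_of_nonneg (by omega)] at this
      rw [← this]
      congr 1
      funext x
      rw [sh_sh, add_neg_cancel, sh_zero]
  · intro g
    have h1 : Tendsto (fun n => av x0 g n + av x0 (fun x => !g x) n)
        (hyperfilter ℕ : Filter ℕ) (𝓝 (μ g + μ (fun x => !g x))) := (hμ g).add (hμ _)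
    refine tendsto_nhds_unique h1 ?_
    refine Tendsto.mono_left ?_ hle
    refine tendsto_const_nhds.congr' ?_
    filter_upwards [eventually_ge_atTop 1] with n hn
    unfold av
    rw [← add_div, ← Finset.sum_add_distrib]
    have : ∀ m ∈ Finset.range n, ind (g (sh (m : ℤ) x0)) + ind (!g (sh (m : ℤ) x0)) = 1 := by
      intro m _
      cases g (sh (m : ℤ) x0) <;> simp
    rw [Finset.sum_congr rfl this]
    have hn' : (n : ℝ) ≠ 0 := by positivity
    simp [hn']
  · intro g hg hgx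
    -- syndetic recurrence
    obtain ⟨L, hL⟩ : ∃ L : ℕ, ∀ x ∈ X, ∃ n, n < L ∧ g (sh (n : ℤ) x) = true := by
      by_contra hcon
      push Not at hcon
      choose x hx hfx using hcon
      obtain ⟨z, hz⟩ := exists_cluster (fun L => sh (L : ℤ) (x (2 * L + 1)))
      have hzX : z ∈ X := hX.cl z fun W => by
        obtain ⟨n, -, hn⟩ := hz W 0
        exact ⟨_, hX.inv _ (hx _) _, hn⟩
      obtain ⟨M, hM⟩ := hg
      obtain ⟨y, hy, hgy⟩ := hgx
      obtain ⟨n, hn⟩ := hmin z hzX y hy M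
      obtain ⟨m, hm, hzm⟩ := hz (M + n.natAbs) n.natAbs
      have h5 := (agr_sh n hzm).trans hn
      rw [sh_sh] at h5
      have h6 := hM _ (hX.inv _ (hx _) _) _ hy h5
      have h7 := hfx (2 * m + 1) (n + m).toNat (by omega)
      rw [Int.toNat_of_nonneg (by omega), h6, hgy] at h7
      exact h7 rfl
    have h1 : Tendsto (fun N => ∑ n ∈ Finset.range L, av x0 (fun x => g (sh (n : ℤ) x)) N)
        (hyperfilter ℕ : Filter ℕ) (𝓝 (∑ n ∈ Finset.range L, μ (fun x => g (sh (n : ℤ) x)))) :=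
      tendsto_finsetSum _ fun n _ => hμ _
    have h2 : (1 : ℝ) ≤ ∑ n ∈ Finset.range L, μ (fun x => g (sh (n : ℤ) x)) := by
      refine ge_of_tendsto h1 ?_
      refine Filter.Eventually.filter_mono hle ?_
      filter_upwards [eventually_ge_atTop 1] with N hN
      unfold av
      rw [← Finset.sum_div, Finset.sum_comm, le_div_iff₀ (by positivity), one_mul]
      have h3 : ∀ m ∈ Finset.range N, (1 : ℝ) ≤
          ∑ n ∈ Finset.range L, ind (g (sh (n : ℤ) (sh (m : ℤ) x0))) := by
        intro m _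
        obtain ⟨n, hn, hgn⟩ := hL _ (hX.inv x0 hx0 (m : ℤ))
        calc (1 : ℝ) = ind (g (sh (n : ℤ) (sh (m : ℤ) x0))) := by rw [hgn]; simp
          _ ≤ _ := Finset.single_le_sum (f := fun n : ℕ => ind (g (sh (n : ℤ) (sh (m : ℤ) x0))))
              (fun _ _ => ind_nonneg _) (Finset.mem_range.2 hn)
      calc (N : ℝ) = ∑ m ∈ Finset.range N, (1 : ℝ) := by simp
        _ ≤ _ := Finset.sum_le_sum h3
    simp only [hshiftn, Finset.sum_const, Finset.card_range, nsmul_eq_mul] at h2
    by_contra hneg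
    push Not at hneg
    have : (L : ℝ) * μ g ≤ 0 := mul_nonpos_of_nonneg_of_nonpos (Nat.cast_nonneg _) hneg
    linarith

end RT

open RT in
/-- The rotation theorem. -/
theorem rotation_theorem (X : Set Pt) (hX : IsSub X) (hmin : Mini X) (hnp : NP X) (I : Type)
    (S : LinkSys X I) :
    ∃ θ c : ℝ, Irrational θ ∧ 0 < c ∧ c < 1 ∧ CodedZ (S.P S.i₀) θ 0 c := by
  obtain ⟨μ, hadd, hmono, hinv, hcompl, hpos⟩ := exists_mean hX hmin
  have hlt1 : ∀ g : Pt → Bool, Loc X g → (∃ x ∈ X, g x = false) → μ g < 1 := by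
    intro g hg ⟨x, hx, hgx⟩
    have h1 := hcompl g
    have h2 := hpos (fun x => !g x) (loc_not hg) ⟨x, hx, by simp [hgx]⟩
    linarith
  -- the functions A k
  have hA : ∀ k : ℤ, k ≠ 0 → ∃ A : Pt → Bool, Loc X A ∧
      (∀ l, Cut S A l ↔ l = S.i₀ ∨ l = S.mv k S.i₀) ∧ A (S.P S.i₀) = true := by
    intro k hk
    rcases rel_mv hX hmin hnp S k with h | ⟨G, hG, hc⟩
    · exact absurd (S.free _ _ h.symm) hk
    · cases h : G (S.P S.i₀) with
      | true => exact ⟨G, hG, hc, h⟩
      | false =>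
        refine ⟨fun x => !G x, loc_not hG, fun l => ?_, by simp [h]⟩
        rw [← hc l]
        unfold Cut
        simp
  choose! A hAl hAc hA0 using hA
  have hAM : ∀ k : ℤ, k ≠ 0 → A k (S.M S.i₀) = false := by
    intro k hk
    have := (hAc k hk _).2 (Or.inl rfl)
    unfold Cut at this
    rw [hA0 k hk] at this
    simpa using this.symm
  have hne : ∀ k l : ℤ, k ≠ l → S.mv k S.i₀ ≠ S.mv l S.i₀ := fun k l h h' => h (mv_inj S h')
  have hne0 : ∀ k : ℤ, k ≠ 0 → S.mv k S.i₀ ≠ S.i₀ := fun k h h' => h (S.free _ _ h')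
  -- A_l ∘ sh k
  have hB : ∀ k l : ℤ, l ≠ 0 → (∀ i, Cut S (fun x => A l (sh k x)) i ↔
      i = S.mv k S.i₀ ∨ i = S.mv (k + l) S.i₀) ∧ A l (sh k (S.P (S.mv k S.i₀))) = true := by
    intro k l hl
    constructor
    · intro i
      rw [cut_sh', hAc l hl, mv_eq_iff, mv_eq_iff, S.mv_mv]
    · rw [sh_P, S.mv_mv, neg_add_cancel, S.mv_zero]
      exact hA0 l hl
  have hX' : ∀ k l : ℤ, k ≠ 0 → k + l ≠ 0 → l ≠ 0 → ∀ i,
      Cut S (fun x => A l (sh k x)) i ↔ Cut S (fun x => xor (A k x) (A (k + l) x)) i := by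
    intro k l hk hkl hl i
    rw [(hB k l hl).1, cut_xor, hAc k hk, hAc (k + l) hkl]
    have h1 := hne0 k hk
    have h2 := hne0 (k + l) hkl
    have h3 := hne k (k + l) (by omega)
    by_cases e0 : i = S.i₀
    · subst e0
      have := h1.symm
      have := h2.symm
      tauto
    by_cases e1 : i = S.mv k S.i₀
    · subst e1; tauto
    by_cases e2 : i = S.mv (k + l) S.i₀
    · subst e2
      have := h3.symm
      tauto
    tauto
  -- (8) the value at P (mv k i₀)
  have hval : ∀ k : ℤ, k ≠ 0 → A k (S.P (S.mv k S.i₀)) = false := by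
    intro k hk
    by_contra hcon
    have hk1 : A k (S.P (S.mv k S.i₀)) = true := by simpa using hcon
    have h2k : k + k ≠ 0 := by omega
    have hch := chain hX hmin S (hAl k hk) (hAl (k + k) h2k) (hne0 k hk) (hne0 (k + k) h2k)
      (hne k (k + k) (by omega)) (hAc k hk) (hAc (k + k) h2k) (hA0 k hk) (hA0 (k + k) h2k)
    have hBk := (hB k k hk).2
    cases h2 : A (k + k) (S.P (S.mv k S.i₀)) with
    | true =>
      have hle := hch.1 h2
      have huniq := unique_cut_not S (loc_sh hX (hAl k hk) k)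
        (loc_op xor (hAl k hk) (hAl (k + k) h2k)) (hX' k k hk h2k hk) (S.hP (S.mv k S.i₀))
        (by beta_reduce; rw [hBk, hk1, h2]; simp)
      beta_reduce at huniq
      -- A (k+k) = A k + (A (k+k) ∧ ¬ A k)
      have e1 := hadd (A k) (fun x => xor (A k x) (A (k + k) x)) (A (k + k)) (fun x hx => by
        have := hle x hx
        revert this
        cases A k x <;> cases A (k + k) x <;> simp)
      have e2 := hcompl (fun x => xor (A k x) (A (k + k) x))
      have e3 : μ (fun x => A k (sh k x)) = μ (fun x => !(xor (A k x) (A (k + k) x))) := by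
        apply le_antisymm
        · exact hmono _ _ fun x hx h => by rw [← huniq x hx]; exact h
        · exact hmono _ _ fun x hx h => by rw [huniq x hx]; exact h
      rw [hinv] at e3
      have e4 := hlt1 (A (k + k)) (hAl _ h2k) ⟨_, S.hM S.i₀, hAM _ h2k⟩
      linarith
    | false =>
      have hle := hch.2 h2
      have huniq := unique_cut S (loc_sh hX (hAl k hk) k)
        (loc_op xor (hAl k hk) (hAl (k + k) h2k)) (hX' k k hk h2k hk) (S.hP (S.mv k S.i₀))
        (by beta_reduce; rw [hBk, hk1, h2]; simp)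
      beta_reduce at huniq
      have e1 := hadd (A (k + k)) (fun x => xor (A k x) (A (k + k) x)) (A k) (fun x hx => by
        have := hle x hx
        revert this
        cases A k x <;> cases A (k + k) x <;> simp)
      have e3 : μ (fun x => A k (sh k x)) = μ (fun x => (xor (A k x) (A (k + k) x))) := by
        apply le_antisymm
        · exact hmono _ _ fun x hx h => by rw [← huniq x hx]; exact h
        · exact hmono _ _ fun x hx h => by rw [huniq x hx]; exact h
      rw [hinv] at e3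
      have e4 := hpos (A (k + k)) (hAl _ h2k) ⟨_, S.hP S.i₀, hA0 _ h2k⟩
      linarith
  -- additivity modulo one
  obtain ⟨m, hm0, hmk⟩ : ∃ m : ℤ → ℝ, m 0 = 0 ∧ ∀ k, k ≠ 0 → m k = μ (A k) :=
    ⟨fun k => if k = 0 then 0 else μ (A k), by simp, fun k hk => by simp [hk]⟩
  have hrange : ∀ k : ℤ, k ≠ 0 → 0 < m k ∧ m k < 1 := by
    intro k hk
    rw [hmk k hk]
    exact ⟨hpos _ (hAl k hk) ⟨_, S.hP S.i₀, hA0 k hk⟩, hlt1 _ (hAl k hk) ⟨_, S.hM S.i₀, hAM k hk⟩⟩
  have haddm : ∀ k l : ℤ, ∃ z : ℤ, m (k + l) = m k + m l + z := by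
    intro k l
    by_cases hk : k = 0
    · exact ⟨0, by simp [hk, hm0]⟩
    by_cases hl : l = 0
    · exact ⟨0, by simp [hl, hm0]⟩
    have hBk := (hB k l hl).2
    by_cases hkl : k + l = 0
    · -- A_l ∘ sh k = ¬ A_k
      have hc : ∀ i, Cut S (fun x => A l (sh k x)) i ↔ Cut S (A k) i := by
        intro i
        rw [(hB k l hl).1, hkl, S.mv_zero, hAc k hk, or_comm]
      have huniq := unique_cut_not S (loc_sh hX (hAl l hl) k) (hAl k hk) hc (S.hP (S.mv k S.i₀))
        (by beta_reduce; rw [hBk, hval k hk]; simp)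
      beta_reduce at huniq
      have e2 := hcompl (A k)
      have e3 : μ (fun x => A l (sh k x)) = μ (fun x => !(A k x)) := by
        apply le_antisymm
        · exact hmono _ _ fun x hx h => by rw [← huniq x hx]; exact h
        · exact hmono _ _ fun x hx h => by rw [huniq x hx]; exact h
      rw [hinv] at e3
      refine ⟨-1, ?_⟩
      rw [hkl, hm0, hmk k hk, hmk l hl]
      push_cast
      linarith
    · have hch := chain hX hmin S (hAl k hk) (hAl (k + l) hkl) (hne0 k hk) (hne0 (k + l) hkl)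
        (hne k (k + l) (by omega)) (hAc k hk) (hAc (k + l) hkl) (hA0 k hk) (hA0 (k + l) hkl)
      have hk1 := hval k hk
      rw [hmk k hk, hmk l hl, hmk (k + l) hkl]
      cases h2 : A (k + l) (S.P (S.mv k S.i₀)) with
      | true =>
        have hle := hch.1 h2
        have huniq := unique_cut S (loc_sh hX (hAl l hl) k)
          (loc_op xor (hAl k hk) (hAl (k + l) hkl)) (hX' k l hk hkl hl) (S.hP (S.mv k S.i₀))
          (by beta_reduce; rw [hBk, hk1, h2]; simp)
        beta_reduce at huniq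
        have e1 := hadd (A k) (fun x => xor (A k x) (A (k + l) x)) (A (k + l)) (fun x hx => by
          have := hle x hx
          revert this
          cases A k x <;> cases A (k + l) x <;> simp)
        have e3 : μ (fun x => A l (sh k x)) = μ (fun x => (xor (A k x) (A (k + l) x))) := by
          apply le_antisymm
          · exact hmono _ _ fun x hx h => by rw [← huniq x hx]; exact h
          · exact hmono _ _ fun x hx h => by rw [huniq x hx]; exact h
        rw [hinv] at e3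
        refine ⟨0, ?_⟩
        push_cast
        linarith
      | false =>
        have hle := hch.2 h2
        have huniq := unique_cut_not S (loc_sh hX (hAl l hl) k)
          (loc_op xor (hAl k hk) (hAl (k + l) hkl)) (hX' k l hk hkl hl) (S.hP (S.mv k S.i₀))
          (by beta_reduce; rw [hBk, hk1, h2]; simp)
        beta_reduce at huniq
        have e1 := hadd (A (k + l)) (fun x => xor (A k x) (A (k + l) x)) (A k) (fun x hx => by
          have := hle x hx
          revert this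
          cases A k x <;> cases A (k + l) x <;> simp)
        have e2 := hcompl (fun x => xor (A k x) (A (k + l) x))
        have e3 : μ (fun x => A l (sh k x)) = μ (fun x => !(xor (A k x) (A (k + l) x))) := by
          apply le_antisymm
          · exact hmono _ _ fun x hx h => by rw [← huniq x hx]; exact h
          · exact hmono _ _ fun x hx h => by rw [huniq x hx]; exact h
        rw [hinv] at e3
        refine ⟨-1, ?_⟩
        push_cast
        linarith
  -- m k = fract (k τ)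
  have hlin : ∀ k : ℤ, ∃ z : ℤ, m k = k * m 1 + z := by
    intro k
    induction k using Int.induction_on with
    | zero => exact ⟨0, by simp [hm0]⟩
    | succ k ih =>
      obtain ⟨z, hz⟩ := ih
      obtain ⟨z', hz'⟩ := haddm k 1
      refine ⟨z + z', ?_⟩
      rw [hz', hz]
      push_cast
      ring
    | pred k ih =>
      obtain ⟨z, hz⟩ := ih
      obtain ⟨z', hz'⟩ := haddm (-(k : ℤ) - 1) 1
      refine ⟨z - z', ?_⟩
      rw [sub_add_cancel] at hz'
      rw [hz'] at hz
      push_cast at hz ⊢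
      linarith
  have hfract : ∀ k : ℤ, Int.fract ((k : ℝ) * m 1) = m k := by
    intro k
    obtain ⟨z, hz⟩ := hlin k
    have h1 : (k : ℝ) * m 1 = m k + ((-z : ℤ) : ℝ) := by rw [hz]; push_cast; ring
    rw [h1, Int.fract_add_intCast, Int.fract_eq_self]
    by_cases hk : k = 0
    · subst hk; rw [hm0]; constructor <;> norm_num
    · exact ⟨(hrange k hk).1.le, (hrange k hk).2⟩
  have hirr : Irrational (m 1) := by
    rintro ⟨r, hr⟩
    have hden : (r.den : ℤ) ≠ 0 := by
      have := r.pos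
      omega
    have h1 := (hrange (r.den : ℤ) hden).1
    rw [← hfract, ← hr] at h1
    have h2 : (((r.den : ℤ) : ℝ)) * (r : ℝ) = ((r.num : ℤ) : ℝ) := by
      have : (r.den : ℚ) * r = r.num := Rat.den_mul_eq_num r
      exact_mod_cast this
    rw [h2, Int.fract_intCast] at h1
    exact lt_irrefl _ h1
  have hE0 : (fun x : Pt => x 0) (S.P S.i₀) = true := S.p0
  have hEM : (S.M S.i₀) 0 = false := by
    have := (S.cut S.i₀).2 (Or.inl rfl)
    rw [S.p0] at this
    simpa using this.symm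
  refine ⟨-(m 1), μ (fun x => x 0), hirr.neg, hpos _ (loc_coord 0) ⟨_, S.hP S.i₀, S.p0⟩,
    hlt1 _ (loc_coord 0) ⟨_, S.hM S.i₀, hEM⟩, ?_⟩
  intro n
  have hph : Int.fract (0 + (n : ℝ) * -(m 1)) = m (-n) := by
    rw [← hfract (-n)]
    congr 1
    push_cast
    ring
  rw [hph]
  by_cases hn : n = 0
  · subst hn
    rw [neg_zero, hm0]
    refine ⟨fun h => absurd h (lt_irrefl _), fun h => ?_⟩
    have := hpos _ (loc_coord 0) ⟨_, S.hP S.i₀, S.p0⟩
    exact absurd h (not_lt.2 this.le)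
  have hn' : -n ≠ 0 := by omega
  have hPn : S.P S.i₀ n = S.P (S.mv (-n) S.i₀) 0 := by
    rw [S.P_mv, neg_neg, sh_apply, zero_add]
  by_cases hi1 : S.mv (-n) S.i₀ = S.i₁
  · have huniq := unique_cut S (hAl (-n) hn') (loc_coord 0) (fun i => by
      rw [hAc (-n) hn', hi1]
      exact (coord_cut S i).symm) (S.hP S.i₀) (by rw [hA0 _ hn']; exact S.p0.symm)
    have e3 : m (-n) = μ (fun x => x 0) := by
      rw [hmk _ hn']
      apply le_antisymm
      · exact hmono _ _ fun x hx h => by rw [← huniq x hx]; exact h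
      · exact hmono _ _ fun x hx h => by rw [huniq x hx]; exact h
    rw [e3]
    exact ⟨fun _ h => absurd h (lt_irrefl _), fun h => absurd h (lt_irrefl _)⟩
  · have hch := chain hX hmin S (hAl (-n) hn') (loc_coord 0) (hne0 _ hn') S.ne.symm hi1
      (hAc _ hn') (coord_cut S) (hA0 _ hn') S.p0
    beta_reduce at hch
    constructor
    · intro _ hlt
      rw [hPn]
      by_contra hcon
      have h0 : S.P (S.mv (-n) S.i₀) 0 = false := by simpa using hcon
      have := hmono _ _ (hch.2 h0)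
      rw [hmk _ hn'] at hlt
      linarith
    · intro hlt
      rw [hPn]
      by_contra hcon
      have h0 : S.P (S.mv (-n) S.i₀) 0 = true := by simpa using hcon
      have := hmono _ _ (hch.1 h0)
      rw [hmk _ hn'] at hlt
      linarith

end PatSturm
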