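import Pool.Agent.LibPS.Defs
import Mathlib

/-!
# The skeleton theorem for words with one hole
-/

namespace PatSturm

/-- The skeleton of a word modulo `N`, with the hole filled by `b`. -/
def skv (w : Pt) (N : ℕ) (b : Bool) (x : ZMod N) : Bool := if x = 0 then b else w (x.val : ℤ)

theorem skv_zero (w : Pt) (N : ℕ) (b : Bool) : skv w N b 0 = b := by simp [skv]

theorem skv_of_ne (w : Pt) (N : ℕ) (b b' : Bool) (x : ZMod N) (hx : x ≠ 0) :
    skv w N b x = skv w N b' x := by simp [skv, hx]

theorem skel_per_mul (w : Pt) (N : ℕ) (hw : ∀ n : ℤ, ¬ (N : ℤ) ∣ n → w (n + N) = w n) (n : ℤ)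
    (hn : ¬ (N : ℤ) ∣ n) (k : ℤ) : w (n + N * k) = w n := by
  induction k using Int.induction_on with
  | zero => simp
  | succ i ih =>
    have h1 : ¬ (N : ℤ) ∣ n + N * i := by
      intro h
      exact hn ((Int.dvd_add_left (Dvd.intro _ rfl)).1 h)
    have h2 := hw _ h1
    rw [ih] at h2
    rw [← h2]
    congr 1
    ring
  | pred i ih =>
    have h1 : ¬ (N : ℤ) ∣ n + N * (-(i : ℤ) - 1) := by
      intro h
      exact hn ((Int.dvd_add_left (Dvd.intro _ rfl)).1 h)
    have h2 := hw _ h1
    rw [← h2, ← ih]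
    congr 1
    ring

theorem skv_cast (w : Pt) (N : ℕ) [NeZero N]
    (hw : ∀ n : ℤ, ¬ (N : ℤ) ∣ n → w (n + N) = w n) (b : Bool) (n : ℤ)
    (hn : ((n : ℤ) : ZMod N) ≠ 0) : skv w N b (n : ZMod N) = w n := by
  have hn' : ¬ (N : ℤ) ∣ n := fun h => hn ((ZMod.intCast_zmod_eq_zero_iff_dvd n N).2 h)
  unfold skv
  rw [if_neg hn, ZMod.val_intCast]
  have h1 := skel_per_mul w N hw n hn' (-(n / N))
  rw [← h1]
  congr 1
  have := Int.emod_add_mul_ediv n N
  linarith

/-- Windows meeting every residue at most once show all the fillings. -/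
theorem skv_occ (w : Pt) (N : ℕ) [NeZero N]
    (hw : ∀ n : ℤ, ¬ (N : ℤ) ∣ n → w (n + N) = w n) (K : Finset ℤ)
    (hinj : ∀ k ∈ K, ∀ k' ∈ K, (k : ZMod N) = (k' : ZMod N) → k = k') (s : ZMod N) (b : Bool) :
    K.filter (fun k : ℤ => skv w N b (s + (k : ZMod N)) = true) ∈ hp w K := by
  classical
  unfold hp
  rw [Finset.mem_filter]
  refine ⟨Finset.mem_powerset.2 (Finset.filter_subset _ _), b, ?_⟩
  by_cases h : ∃ k₀ ∈ K, s + (k₀ : ZMod N) = 0
  · obtain ⟨k₀, hk₀, h0⟩ := h
    refine ⟨-k₀, ?_⟩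
    unfold ztr
    refine Finset.filter_congr fun k hk => ?_
    have hs : s = -(k₀ : ZMod N) := eq_neg_of_add_eq_zero_left h0
    rw [sh_apply]
    by_cases hkk : k = k₀
    · subst hkk
      rw [h0, skv_zero]
      simp [fil]
    · have h1 : k + -k₀ ≠ 0 := fun h => hkk (by linarith)
      have h2 : ((k + -k₀ : ℤ) : ZMod N) ≠ 0 := by
        intro h
        apply hkk
        apply hinj k hk k₀ hk₀
        push_cast at h
        exact add_neg_eq_zero.1 h
      have h3 : s + (k : ZMod N) = ((k + -k₀ : ℤ) : ZMod N) := by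
        rw [hs]; push_cast; ring
      rw [h3, skv_cast w N hw b _ h2, fil, Function.update_of_ne h1]
  · push Not at h
    refine ⟨(s.val : ℤ), ?_⟩
    unfold ztr
    refine Finset.filter_congr fun k hk => ?_
    have h3 : s + (k : ZMod N) = ((k + s.val : ℤ) : ZMod N) := by
      push_cast
      rw [ZMod.natCast_zmod_val]; ring
    have h2 : ((k + s.val : ℤ) : ZMod N) ≠ 0 := by
      rw [← h3]; exact h k hk
    have h1 : k + (s.val : ℤ) ≠ 0 := by
      intro h
      apply h2
      rw [h]; simp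
    rw [sh_apply, h3, skv_cast w N hw b _ h2, fil, Function.update_of_ne h1]

/-- The two fillings have different numbers of true values. -/
theorem skv_count_ne (w : Pt) (N : ℕ) [NeZero N] (H : AddSubgroup (ZMod N)) (h h' : ZMod N)
    (hh : h ∈ H) (hh' : h' ∈ H)
    (heq : ∀ x ∈ H, skv w N false (h + x) = skv w N true (h' + x)) : False := by
  classical
  have e1 : ∑ x : H, (if skv w N false (h + x) = true then 1 else 0) =
      ∑ x : H, (if skv w N false (x : ZMod N) = true then 1 else 0) :=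
    Equiv.sum_comp (Equiv.addLeft (⟨h, hh⟩ : H))
      (fun x : H => if skv w N false (x : ZMod N) = true then 1 else 0)
  have e2 : ∑ x : H, (if skv w N true (h' + x) = true then 1 else 0) =
      ∑ x : H, (if skv w N true (x : ZMod N) = true then 1 else 0) :=
    Equiv.sum_comp (Equiv.addLeft (⟨h', hh'⟩ : H))
      (fun x : H => if skv w N true (x : ZMod N) = true then 1 else 0)
  have e3 : ∑ x : H, (if skv w N false (h + x) = true then 1 else 0) =
      ∑ x : H, (if skv w N true (h' + x) = true then 1 else 0) := by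
    refine Finset.sum_congr rfl fun x _ => ?_
    rw [heq x x.2]
  have e4 : ∑ x : H, (if skv w N false (x : ZMod N) = true then 1 else 0) <
      ∑ x : H, (if skv w N true (x : ZMod N) = true then 1 else 0) := by
    refine Finset.sum_lt_sum (fun x _ => ?_) ⟨0, Finset.mem_univ _, ?_⟩
    · by_cases hx : (x : ZMod N) = 0
      · rw [hx, skv_zero, skv_zero]; simp
      · rw [skv_of_ne w N false true x hx]
    · simp [skv_zero]
  omega


/-- The hypothesis on the level `N`. -/
def GoodLevel (w : Pt) (N : ℕ) : Prop :=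
  1 ≤ N ∧ (∀ n : ℤ, ¬ (N : ℤ) ∣ n → w (n + N) = w n) ∧ ∃ p a, STail w N p a

/-- Periods of the skeleton give a smaller level. -/
theorem smaller_level (w : Pt) (N : ℕ) [NeZero N] (h : GoodLevel w N) (b : Bool) (δ : ZMod N)
    (hδ : δ ≠ 0) (hper : ∀ x, skv w N b (x + δ) = skv w N b x) :
    ∃ M, M < N ∧ GoodLevel w M := by
  obtain ⟨hN, hw, p, a, hp, ha, hT⟩ := h
  -- multiples of `δ` are periods
  have hnat : ∀ (n : ℕ) (x : ZMod N), skv w N b (x + n * δ) = skv w N b x := by
    intro n
    induction n with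
    | zero => intro x; simp
    | succ n ih =>
      intro x
      have : x + ((n + 1 : ℕ) : ZMod N) * δ = (x + n * δ) + δ := by push_cast; ring
      rw [this, hper, ih]
  have hint : ∀ (n : ℤ) (x : ZMod N), skv w N b (x + n * δ) = skv w N b x := by
    intro n x
    obtain ⟨m, rfl | rfl⟩ := n.eq_nat_or_neg
    · exact_mod_cast hnat m x
    · have := hnat m (x + ((-(m : ℤ) : ℤ) : ZMod N) * δ)
      rw [← this]
      congr 1
      push_cast; ring
  obtain ⟨M, hM⟩ : ∃ M : ℕ, M = Nat.gcd δ.val N := ⟨_, rfl⟩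
  have hMN : M ∣ N := hM ▸ Nat.gcd_dvd_right _ _
  have hMd : M ∣ δ.val := hM ▸ Nat.gcd_dvd_left _ _
  have hNpos : 0 < N := hN
  have hMpos : 0 < M := Nat.pos_of_dvd_of_pos hMN hNpos
  have hMlt : M < N := by
    rcases Nat.lt_or_ge M N with h | h
    · exact h
    · exfalso
      have h1 : M = N := le_antisymm (Nat.le_of_dvd hNpos hMN) h
      rw [h1] at hMd
      have h2 : δ.val < N := ZMod.val_lt δ
      have h3 : δ.val = 0 := Nat.eq_zero_of_dvd_of_lt hMd h2
      exact hδ ((ZMod.val_eq_zero δ).1 h3)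
  have hMper : ∀ x : ZMod N, skv w N b (x + (M : ℕ)) = skv w N b x := by
    intro x
    have h1 : (M : ℤ) = δ.val * Nat.gcdA δ.val N + N * Nat.gcdB δ.val N := by
      rw [hM]; exact Nat.gcd_eq_gcd_ab _ _
    have h2 : ((M : ℕ) : ZMod N) = ((Nat.gcdA δ.val N : ℤ) : ZMod N) * δ := by
      have h3 := congrArg (fun z : ℤ => (z : ZMod N)) h1
      push_cast at h3
      rw [ZMod.natCast_zmod_val] at h3
      rw [h3]
      simp
      ring
    rw [h2]
    exact hint _ _
  refine ⟨M, hMlt, hMpos, ?_, ?_⟩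
  · intro n hn
    have h1 : ¬ (N : ℤ) ∣ n := fun h => hn (dvd_trans (by exact_mod_cast hMN) h)
    have h2 : ¬ (N : ℤ) ∣ n + M := by
      intro h
      apply hn
      have h3 : (M : ℤ) ∣ n + M := dvd_trans (by exact_mod_cast hMN) h
      exact (Int.dvd_add_left (dvd_refl _)).1 h3
    have h1' : ((n : ℤ) : ZMod N) ≠ 0 := fun h => h1 ((ZMod.intCast_zmod_eq_zero_iff_dvd n N).1 h)
    have h2' : ((n + M : ℤ) : ZMod N) ≠ 0 :=
      fun h => h2 ((ZMod.intCast_zmod_eq_zero_iff_dvd (n + M) N).1 h)
    rw [← skv_cast w N hw b _ h1', ← skv_cast w N hw b _ h2', ← hMper ((n : ℤ) : ZMod N)]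
    congr 1
    push_cast; ring
  · obtain ⟨K, hK⟩ := hMN
    refine ⟨fun i => if i = 0 then K else p (i - 1), fun i => if i = 0 then b else a (i - 1), ?_,
      ?_, ?_⟩
    · intro i
      rcases Nat.eq_zero_or_pos i with rfl | hi
      · simp only [if_true]
        by_contra hc
        interval_cases K
        · omega
        · omega
      · simp only [Nat.pos_iff_ne_zero.1 hi, if_false]; exact hp _
    · intro c L
      obtain ⟨i, hi, hai⟩ := ha c L
      exact ⟨i + 1, by omega, by simpa using hai⟩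
    · intro n hn i hi1 hi2
      rcases Nat.eq_zero_or_pos i with rfl | hi
      · simp only [Finset.prod_range_succ, Finset.prod_range_zero, one_mul, if_true] at hi2
        simp only [if_true]
        have h1 : ¬ (N : ℤ) ∣ M * n := by
          intro h
          apply hi2
          rw [hK] at h
          push_cast at h
          exact (mul_dvd_mul_iff_left (by positivity : (M : ℤ) ≠ 0)).1 h
        have h1' : ((M * n : ℤ) : ZMod N) ≠ 0 :=
          fun h => h1 ((ZMod.intCast_zmod_eq_zero_iff_dvd _ N).1 h)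
        rw [← skv_cast w N hw b _ h1']
        have h2 : ∀ k : ℕ, skv w N b ((M * (k : ℤ) : ℤ) : ZMod N) = b := by
          intro k
          induction k with
          | zero => simp [skv_zero]
          | succ k ih =>
            have h3 := hMper ((M * (k : ℤ) : ℤ) : ZMod N)
            rw [ih] at h3
            rw [← h3]
            congr 1
            push_cast; ring
        have h4 : ((M * n : ℤ) : ZMod N) = ((M * ((n % N).toNat : ℤ) : ℤ) : ZMod N) := by
          rw [Int.toNat_of_nonneg (Int.emod_nonneg _ (by positivity))]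
          push_cast
          simp
        rw [h4, h2]
      · obtain ⟨i', rfl⟩ : ∃ i', i = i' + 1 := ⟨i - 1, by omega⟩
        have e1 : ∀ t : ℕ, ∏ l ∈ Finset.range (t + 1), (if l = 0 then K else p (l - 1)) =
            (∏ l ∈ Finset.range t, p l) * K := by
          intro t
          rw [Finset.prod_range_succ']
          simp
        rw [e1] at hi1 hi2
        push_cast at hi1 hi2
        obtain ⟨n', rfl⟩ : (K : ℤ) ∣ n := dvd_trans (Dvd.intro_left _ rfl) hi1
        have hKne : (K : ℤ) ≠ 0 := by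
          intro h; apply hn; rw [h]; simp
        have e2 := hT n' (by rintro rfl; simp at hn) i' (by
          rw [mul_comm (K : ℤ)] at hi1
          push_cast
          exact (mul_dvd_mul_iff_right hKne).1 hi1) (by
          intro h
          apply hi2
          rw [mul_comm (K : ℤ)]
          push_cast at h
          exact mul_dvd_mul_right h _)
        simp only [Nat.add_eq_zero_iff, one_ne_zero, and_false, if_false, Nat.add_sub_cancel]
        rw [← e2, hK]
        congr 1
        push_cast; ring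


/-- If two translates agree off zero they agree at zero. -/
theorem shift_eq_zero {G : Type*} [AddCommGroup G] [Fintype G] (g : G → Bool) (s s' : G)
    (h : ∀ x, x ≠ 0 → g (s + x) = g (s' + x)) : g (s + 0) = g (s' + 0) := by
  classical
  let c : Bool → ℕ := fun b => if b = true then 1 else 0
  have e1 : ∑ x : G, c (g (s + x)) = ∑ x : G, c (g x) :=
    Equiv.sum_comp (Equiv.addLeft s) (fun x => c (g x))
  have e2 : ∑ x : G, c (g (s' + x)) = ∑ x : G, c (g x) :=
    Equiv.sum_comp (Equiv.addLeft s') (fun x => c (g x))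
  have e3 : ∑ x ∈ Finset.univ.erase (0 : G), c (g (s + x)) =
      ∑ x ∈ Finset.univ.erase (0 : G), c (g (s' + x)) := by
    refine Finset.sum_congr rfl fun x hx => ?_
    rw [h x (Finset.ne_of_mem_erase hx)]
  have e4 := Finset.add_sum_erase (Finset.univ : Finset G)
    (fun x => c (g (s + x))) (Finset.mem_univ 0)
  have e5 := Finset.add_sum_erase (Finset.univ : Finset G)
    (fun x => c (g (s' + x))) (Finset.mem_univ 0)
  have e6 : c (g (s + 0)) = c (g (s' + 0)) := by
    have e4' : c (g (s + 0)) + ∑ x ∈ Finset.univ.erase (0 : G), c (g (s + x)) =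
      ∑ x : G, c (g (s + x)) := e4
    have e5' : c (g (s' + 0)) + ∑ x ∈ Finset.univ.erase (0 : G), c (g (s' + x)) =
      ∑ x : G, c (g (s' + x)) := e5
    rw [e1] at e4'
    rw [e2] at e5'
    rw [e3] at e4'
    omega
  have hc : ∀ a b : Bool, c a = c b → a = b := by decide
  exact hc _ _ e6

/-- The exceptional shift: a coincidence between the two fillings. -/
theorem exists_coincidence (w : Pt) (N : ℕ) [NeZero N] (hN2 : 2 ≤ N)
    (hw : ∀ n : ℤ, ¬ (N : ℤ) ∣ n → w (n + N) = w n) (hlow : HLow w)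
    (hno : ∀ (b : Bool) (δ : ZMod N), δ ≠ 0 → ∃ x, skv w N b (x + δ) ≠ skv w N b x) :
    ∃ s s' : ZMod N, ¬ (s = 0 ∧ s' = 0) ∧
      ∀ x, x ≠ 0 → skv w N false (s + x) = skv w N true (s' + x) := by
  classical
  set K : Finset ℤ := Finset.Icc 1 (N - 1) with hK
  have hKcard : K.card = N - 1 := by
    rw [hK, Int.card_Icc]; omega
  have hKne : K.Nonempty := ⟨1, by rw [hK, Finset.mem_Icc]; omega⟩
  have hinj : ∀ k ∈ K, ∀ k' ∈ K, (k : ZMod N) = (k' : ZMod N) → k = k' := by
    intro k hk k' hk' h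
    rw [hK, Finset.mem_Icc] at hk hk'
    rw [ZMod.intCast_eq_intCast_iff] at h
    have h1 := Int.emod_emod_of_dvd k (dvd_refl (N : ℤ))
    have h2 : k % N = k := Int.emod_eq_of_lt (by omega) (by omega)
    have h3 : k' % N = k' := Int.emod_eq_of_lt (by omega) (by omega)
    have h4 : k % N = k' % N := h
    omega
  -- every nonzero residue is represented
  have hrep : ∀ x : ZMod N, x ≠ 0 → ∃ k ∈ K, (k : ZMod N) = x := by
    intro x hx
    refine ⟨(x.val : ℤ), ?_, ?_⟩
    · rw [hK, Finset.mem_Icc]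
      have h1 : x.val < N := ZMod.val_lt x
      have h2 : x.val ≠ 0 := fun h => hx ((ZMod.val_eq_zero x).1 h)
      omega
    · push_cast; exact ZMod.natCast_zmod_val x
  let F : ZMod N × Bool → Finset ℤ := fun sb =>
    K.filter (fun k : ℤ => skv w N sb.2 (sb.1 + (k : ZMod N)) = true)
  have hF : ∀ sb : ZMod N × Bool, F sb ∈ hp w K := fun sb => skv_occ w N hw K hinj sb.1 sb.2
  set T : Finset (ZMod N × Bool) := Finset.univ.erase (0, true) with hT
  have hTcard : T.card = 2 * N - 1 := by
    rw [hT, Finset.card_erase_of_mem (Finset.mem_univ _), Finset.card_univ, Fintype.card_prod,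
      ZMod.card, Fintype.card_bool, mul_comm]
  have hlt : (hp w K).card < T.card := by
    have := hlow K hKne
    rw [hKcard] at this
    omega
  obtain ⟨sb, hsb, sb', hsb', hne, heq⟩ := Finset.exists_ne_map_eq_of_card_lt_of_maps_to hlt
    (f := F) (fun sb _ => hF sb)
  have key : ∀ x : ZMod N, x ≠ 0 → skv w N sb.2 (sb.1 + x) = skv w N sb'.2 (sb'.1 + x) := by
    intro x hx
    obtain ⟨k, hk, rfl⟩ := hrep x hx
    have h1 : k ∈ F sb ↔ k ∈ F sb' := by rw [heq]
    simp only [F, Finset.mem_filter, hk, true_and] at h1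
    exact Bool.eq_iff_iff.2 h1
  obtain ⟨s, b⟩ := sb
  obtain ⟨s', b'⟩ := sb'
  simp only at key
  rw [hT, Finset.mem_erase] at hsb hsb'
  by_cases hb : b = b'
  · exfalso
    subst hb
    have hss : s ≠ s' := by
      rintro rfl; exact hne rfl
    have key0 : skv w N b (s + 0) = skv w N b (s' + 0) :=
      shift_eq_zero (skv w N b) s s' key
    have keyall : ∀ x : ZMod N, skv w N b (s + x) = skv w N b (s' + x) := by
      intro x
      by_cases hx : x = 0
      · rw [hx]; exact key0
      · exact key x hx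
    obtain ⟨x, hx⟩ := hno b (s' - s) (sub_ne_zero.2 (Ne.symm hss))
    apply hx
    have := keyall (x - s)
    rw [show s + (x - s) = x by ring, show s' + (x - s) = x + (s' - s) by ring] at this
    exact this.symm
  · cases b <;> cases b'
    · exact absurd rfl hb
    · refine ⟨s, s', ?_, key⟩
      rintro ⟨h1, h2⟩
      exact hsb'.1 (by rw [h2])
    · refine ⟨s', s, ?_, fun x hx => (key x hx).symm⟩
      rintro ⟨h1, h2⟩
      exact hsb.1 (by rw [h2])
    · exact absurd rfl hb


/-- Comparing two functions whose translates agree off zero. -/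
theorem shift_lt {G : Type*} [AddCommGroup G] [Fintype G] (c : Bool → ℕ)
    (hc0 : c false = 0) (hc1 : c true = 1) (g g' : G → Bool)
    (hlt : ∑ x : G, c (g x) < ∑ x : G, c (g' x)) (s s' : G)
    (h : ∀ x, x ≠ 0 → g (s + x) = g' (s' + x)) : g s = false ∧ g' s' = true := by
  classical
  have e1 : ∑ x : G, c (g (s + x)) = ∑ x : G, c (g x) :=
    Equiv.sum_comp (Equiv.addLeft s) (fun x => c (g x))
  have e2 : ∑ x : G, c (g' (s' + x)) = ∑ x : G, c (g' x) :=
    Equiv.sum_comp (Equiv.addLeft s') (fun x => c (g' x))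
  have e3 : ∑ x ∈ Finset.univ.erase (0 : G), c (g (s + x)) =
      ∑ x ∈ Finset.univ.erase (0 : G), c (g' (s' + x)) := by
    refine Finset.sum_congr rfl fun x hx => ?_
    rw [h x (Finset.ne_of_mem_erase hx)]
  have e4 : c (g (s + 0)) + ∑ x ∈ Finset.univ.erase (0 : G), c (g (s + x)) =
    ∑ x : G, c (g (s + x)) := Finset.add_sum_erase (Finset.univ : Finset G)
    (fun x => c (g (s + x))) (Finset.mem_univ 0)
  have e5 : c (g' (s' + 0)) + ∑ x ∈ Finset.univ.erase (0 : G), c (g' (s' + x)) =
    ∑ x : G, c (g' (s' + x)) := Finset.add_sum_erase (Finset.univ : Finset G)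
    (fun x => c (g' (s' + x))) (Finset.mem_univ 0)
  have e6 : c (g (s + 0)) < c (g' (s' + 0)) := by
    rw [e1] at e4
    rw [e2] at e5
    rw [e3] at e4
    omega
  rw [add_zero, add_zero] at e6
  cases h1 : g s <;> cases h2 : g' s' <;> rw [h1, h2] at e6 <;> simp_all

theorem skv_sum_lt (w : Pt) (N : ℕ) [NeZero N] (c : Bool → ℕ)
    (hc0 : c false = 0) (hc1 : c true = 1) :
    ∑ x : ZMod N, c (skv w N false x) < ∑ x : ZMod N, c (skv w N true x) := by
  classical
  refine Finset.sum_lt_sum (fun x _ => ?_) ⟨0, Finset.mem_univ _, ?_⟩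
  · by_cases hx : x = 0
    · rw [hx, skv_zero, skv_zero, hc0]; omega
    · rw [skv_of_ne w N false true x hx]
  · rw [skv_zero, skv_zero, hc0, hc1]; omega

/-- The rotation structure of the skeleton. -/
theorem exists_step (w : Pt) (N : ℕ) [NeZero N] (hN2 : 2 ≤ N)
    (hw : ∀ n : ℤ, ¬ (N : ℤ) ∣ n → w (n + N) = w n) (hlow : HLow w)
    (hno : ∀ (b : Bool) (δ : ZMod N), δ ≠ 0 → ∃ x, skv w N b (x + δ) ≠ skv w N b x) :
    ∃ s δ : ZMod N, s ≠ -δ ∧ skv w N false s = false ∧ skv w N false (s + δ) = true ∧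
      (∀ y, y ≠ s → y ≠ -δ → skv w N false (y + δ) = skv w N false y) ∧
      skv w N false (-δ) = true := by
  obtain ⟨s, s', hss, key⟩ := exists_coincidence w N hN2 hw hlow hno
  obtain ⟨hs1, hs2⟩ := shift_lt (fun b => cond b 1 0) rfl rfl
    (skv w N false) (skv w N true) (skv_sum_lt w N (fun b => cond b 1 0) rfl rfl) s s' key
  obtain ⟨δ, hδ⟩ : ∃ δ, δ = s' - s := ⟨_, rfl⟩
  have hs' : s' = s + δ := by rw [hδ]; ring
  have hδ0 : δ ≠ 0 := by
    intro h
    rw [h, add_zero] at hs'
    subst hs'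
    by_cases h0 : s' = 0
    · exact hss ⟨h0, h0⟩
    · have := key (-s') (neg_ne_zero.2 h0)
      rw [add_neg_cancel, skv_zero, skv_zero] at this
      exact absurd this (by decide)
  have hstep : ∀ y, y ≠ s → y ≠ -δ → skv w N false (y + δ) = skv w N false y := by
    intro y hy1 hy2
    have h1 := key (y - s) (sub_ne_zero.2 hy1)
    rw [show s + (y - s) = y by ring, show s' + (y - s) = y + δ by rw [hs']; ring] at h1
    rw [h1]
    apply skv_of_ne
    intro h
    exact hy2 (eq_neg_of_add_eq_zero_left h)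
  have hsne : s ≠ -δ := by
    intro h
    obtain ⟨x, hx⟩ := hno false δ hδ0
    apply hx
    by_cases hxs : x = s
    · rw [hxs, hs1, h, neg_add_cancel, skv_zero]
    · exact hstep x hxs (fun h' => hxs (h'.trans h.symm))
  refine ⟨s, δ, hsne, hs1, ?_, hstep, ?_⟩
  · rw [← hs', ← hs2]
    apply skv_of_ne
    intro h
    apply hsne
    rw [hs'] at h
    exact eq_neg_of_add_eq_zero_left h
  · have h1 := key (-δ - s) (sub_ne_zero.2 (Ne.symm hsne))
    rw [show s + (-δ - s) = -δ by ring, show s' + (-δ - s) = 0 by rw [hs']; ring, skv_zero] at h1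
    exact h1

/-- The step generates the whole group. -/
theorem step_generates (w : Pt) (N : ℕ) [NeZero N]
    (hw : ∀ n : ℤ, ¬ (N : ℤ) ∣ n → w (n + N) = w n) (hlow : HLow w)
    (hno : ∀ (b : Bool) (δ : ZMod N), δ ≠ 0 → ∃ x, skv w N b (x + δ) ≠ skv w N b x)
    (s δ : ZMod N) (hsne : s ≠ -δ)
    (hstep : ∀ y, y ≠ s → y ≠ -δ → skv w N false (y + δ) = skv w N false y)
    (hend : skv w N false (-δ) = true) :
    AddSubgroup.zmultiples δ = ⊤ := by
  classical
  have hδ0 : δ ≠ 0 := by
    rintro rfl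
    rw [neg_zero, skv_zero] at hend
    exact absurd hend (by decide)
  by_contra hH
  set H := AddSubgroup.zmultiples δ with hHdef
  have hδH : δ ∈ H := AddSubgroup.mem_zmultiples δ
  -- `s` lies in `H`
  have hsH : s ∈ H := by
    by_contra hs
    have hord : 0 < addOrderOf δ := addOrderOf_pos δ
    have h1 : ∀ n : ℕ, n < addOrderOf δ → skv w N false (n • δ) = false := by
      intro n
      induction n with
      | zero => intro _; rw [zero_smul, skv_zero]
      | succ n ih =>
        intro hn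
        rw [succ_nsmul, hstep, ih (by omega)]
        · rintro rfl
          exact hs (H.nsmul_mem hδH n)
        · intro h
          have h2 : (n + 1) • δ = 0 := by rw [succ_nsmul, h, neg_add_cancel]
          have h3 := addOrderOf_dvd_of_nsmul_eq_zero h2
          exact absurd (Nat.le_of_dvd (by omega) h3) (by omega)
    have h2 := h1 (addOrderOf δ - 1) (by omega)
    have h3 : (addOrderOf δ - 1) • δ = -δ := by
      apply eq_neg_of_add_eq_zero_left
      rw [← succ_nsmul, Nat.sub_add_cancel hord, addOrderOf_nsmul_eq_zero]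
    rw [h3, hend] at h2
    exact absurd h2 (by decide)
  have hnat : ∀ (b : Bool) (y : ZMod N), y ∉ H → skv w N b (y + δ) = skv w N b y := by
    intro b y hy
    have hy0 : y ≠ 0 := fun h => hy (h ▸ H.zero_mem)
    have hy1 : y + δ ≠ 0 := by
      intro h
      apply hy
      rw [eq_neg_of_add_eq_zero_left h]
      exact H.neg_mem hδH
    rw [skv_of_ne w N b false _ hy1, skv_of_ne w N b false _ hy0]
    exact hstep y (fun h => hy (h ▸ hsH)) (fun h => hy (h ▸ H.neg_mem hδH))
  have hconst : ∀ (b : Bool) (y : ZMod N), y ∉ H → ∀ h ∈ H, skv w N b (y + h) = skv w N b y := by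
    intro b y hy h hh
    obtain ⟨n, rfl⟩ := AddSubgroup.mem_zmultiples_iff.1 hh
    clear hh
    have hmem : ∀ n : ℤ, y + n • δ ∉ H := by
      intro n h
      apply hy
      exact (AddSubgroup.add_mem_cancel_right H (H.zsmul_mem hδH n)).1 h
    induction n using Int.induction_on with
    | zero => rw [zero_smul, add_zero]
    | succ i ih =>
      rw [add_smul, one_smul, ← add_assoc, hnat b _ (hmem i), ih]
    | pred i ih =>
      rw [← ih, ← hnat b _ (hmem (-(i : ℤ) - 1))]
      congr 1
      rw [sub_smul, one_smul]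
      ring
  obtain ⟨y₀, hy₀⟩ : ∃ y₀, y₀ ∉ H := by
    by_contra hc
    push Not at hc
    exact hH ((AddSubgroup.eq_top_iff' _).2 hc)
  set Hf : Finset (ZMod N) := Finset.univ.filter (fun x => x ∈ H) with hHf
  have hmemHf : ∀ x, x ∈ Hf ↔ x ∈ H := by intro x; rw [hHf]; simp
  set K : Finset ℤ := Hf.image (fun x : ZMod N => (x.val : ℤ)) with hK
  have hKcard : K.card = Hf.card := by
    rw [hK]
    apply Finset.card_image_of_injective
    intro x x' h
    simp only [Nat.cast_inj] at h
    exact ZMod.val_injective N h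
  have hcast : ∀ x : ZMod N, (((x.val : ℕ) : ℤ) : ZMod N) = x := by
    intro x; push_cast; exact ZMod.natCast_zmod_val x
  have hKmem : ∀ x, x ∈ H → (x.val : ℤ) ∈ K := by
    intro x hx
    rw [hK]
    exact Finset.mem_image_of_mem _ ((hmemHf x).2 hx)
  have hinj : ∀ k ∈ K, ∀ k' ∈ K, (k : ZMod N) = (k' : ZMod N) → k = k' := by
    intro k hk k' hk' h
    rw [hK, Finset.mem_image] at hk hk'
    obtain ⟨x, -, rfl⟩ := hk
    obtain ⟨x', -, rfl⟩ := hk'
    rw [hcast, hcast] at h
    rw [h]
  let F : ZMod N × Bool → Finset ℤ := fun sb =>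
    K.filter (fun k : ℤ => skv w N sb.2 (sb.1 + (k : ZMod N)) = true)
  have hF : ∀ sb : ZMod N × Bool, F sb ∈ hp w K := fun sb => skv_occ w N hw K hinj sb.1 sb.2
  have hFeq : ∀ sb sb' : ZMod N × Bool, F sb = F sb' → ∀ x ∈ H,
      skv w N sb.2 (sb.1 + x) = skv w N sb'.2 (sb'.1 + x) := by
    intro sb sb' h x hx
    have h1 : (x.val : ℤ) ∈ F sb ↔ (x.val : ℤ) ∈ F sb' := by rw [h]
    simp only [F, Finset.mem_filter, hKmem x hx, true_and, hcast] at h1
    exact Bool.eq_iff_iff.2 h1
  have hinjF : Set.InjOn F ↑(Hf ×ˢ (Finset.univ : Finset Bool)) := by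
    rintro ⟨h, b⟩ hh ⟨h', b'⟩ hh' heq
    simp only [Finset.coe_product, Set.mem_prod, Finset.mem_coe, hmemHf] at hh hh'
    have h1 := hFeq _ _ heq
    simp only at h1
    by_cases hb : b = b'
    · subst hb
      by_cases hhh : h = h'
      · rw [hhh]
      · exfalso
        obtain ⟨x, hx⟩ := hno b (h' - h) (sub_ne_zero.2 (Ne.symm hhh))
        apply hx
        by_cases hxH : x ∈ H
        · have h2 := h1 (x - h) (H.sub_mem hxH hh.1)
          rw [show h + (x - h) = x by ring, show h' + (x - h) = x + (h' - h) by ring] at h2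
          exact h2.symm
        · exact hconst b x hxH _ (H.sub_mem hh'.1 hh.1)
    · exfalso
      cases b <;> cases b'
      · exact hb rfl
      · exact skv_count_ne w N H h h' hh.1 hh'.1 h1
      · exact skv_count_ne w N H h' h hh'.1 hh.1 (fun x hx => (h1 x hx).symm)
      · exact hb rfl
  have hcardT : ((Hf ×ˢ (Finset.univ : Finset Bool)).image F).card = 2 * Hf.card := by
    rw [Finset.card_image_of_injOn hinjF, Finset.card_product, Finset.card_univ,
      Fintype.card_bool, mul_comm]
  have hnot : F (y₀, false) ∉ (Hf ×ˢ (Finset.univ : Finset Bool)).image F := by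
    intro h
    rw [Finset.mem_image] at h
    obtain ⟨⟨h, b⟩, hh, heq⟩ := h
    simp only [Finset.mem_product, hmemHf] at hh
    have h1 := hFeq _ _ heq
    simp only at h1
    have h2 : ∀ x ∈ H, skv w N b x = skv w N false y₀ := by
      intro x hx
      have h3 := h1 (x - h) (H.sub_mem hx hh.1)
      rw [show h + (x - h) = x by ring, hconst false y₀ hy₀ _ (H.sub_mem hx hh.1)] at h3
      exact h3
    obtain ⟨x, hx⟩ := hno b δ hδ0
    apply hx
    by_cases hxH : x ∈ H
    · rw [h2 x hxH, h2 _ (H.add_mem hxH hδH)]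
    · exact hnat b x hxH
  have hsub : insert (F (y₀, false)) ((Hf ×ˢ (Finset.univ : Finset Bool)).image F) ⊆ hp w K := by
    intro z hz
    rw [Finset.mem_insert] at hz
    rcases hz with rfl | hz
    · exact hF _
    · rw [Finset.mem_image] at hz
      obtain ⟨sb, -, rfl⟩ := hz
      exact hF _
  have h1 := Finset.card_le_card hsub
  rw [Finset.card_insert_of_notMem hnot, hcardT] at h1
  have hKne : K.Nonempty := ⟨_, hKmem 0 H.zero_mem⟩
  have h2 := hlow K hKne
  rw [hKcard] at h2
  omega


/-- The skeleton is the coding of a rational rotation. -/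
theorem skeleton_coded (w : Pt) (N : ℕ) [NeZero N] (hN2 : 2 ≤ N)
    (hw : ∀ n : ℤ, ¬ (N : ℤ) ∣ n → w (n + N) = w n) (hlow : HLow w)
    (hno : ∀ (b : Bool) (δ : ZMod N), δ ≠ 0 → ∃ x, skv w N b (x + δ) ≠ skv w N b x) :
    ∃ (r : ℤ) (j : ℕ), IsCoprime r (N : ℤ) ∧ ∀ m : ℤ, ¬ (N : ℤ) ∣ m →
      (w m = true ↔ (r * m) % (N : ℤ) ≤ j) := by
  obtain ⟨s, δ, hsne, hs1, hs2, hstep, hend⟩ := exists_step w N hN2 hw hlow hno
  have htop := step_generates w N hw hlow hno s δ hsne hstep hend
  have h1mem : (1 : ZMod N) ∈ AddSubgroup.zmultiples δ := by rw [htop]; trivial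
  obtain ⟨k, hk⟩ := AddSubgroup.mem_zmultiples_iff.1 h1mem
  rw [zsmul_eq_mul] at hk
  -- the index of `s`
  set j₀ : ℕ := ((k : ZMod N) * s).val with hj₀
  have hj₀lt : j₀ < N := ZMod.val_lt _
  have hj₀s : (j₀ : ZMod N) * δ = s := by
    rw [hj₀, ZMod.natCast_zmod_val, mul_right_comm, hk, one_mul]
  have hinj : ∀ i i' : ℕ, i < N → i' < N → (i : ZMod N) * δ = (i' : ZMod N) * δ → i = i' := by
    intro i i' hi hi' h
    have h2 : (i : ZMod N) = (i' : ZMod N) := by
      have h3 := congrArg (fun z => (k : ZMod N) * z) h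
      rw [← mul_assoc, ← mul_assoc, mul_comm (k : ZMod N), mul_comm (k : ZMod N) (i' : ZMod N),
        mul_assoc, mul_assoc, hk, mul_one, mul_one] at h3
      exact h3
    rw [ZMod.natCast_eq_natCast_iff'] at h2
    rwa [Nat.mod_eq_of_lt hi, Nat.mod_eq_of_lt hi'] at h2
  have hlast : ∀ i : ℕ, i + 1 < N → (i : ZMod N) * δ ≠ -δ := by
    intro i hi h
    have h2 : ((i + 1 : ℕ) : ZMod N) * δ = ((0 : ℕ) : ZMod N) * δ := by
      push_cast
      rw [add_mul, one_mul, h]; ring
    have := hinj (i + 1) 0 hi (by omega) h2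
    omega
  have hA : ∀ i : ℕ, i ≤ j₀ → skv w N false ((i : ZMod N) * δ) = false := by
    intro i
    induction i with
    | zero => intro _; rw [Nat.cast_zero, zero_mul, skv_zero]
    | succ i ih =>
      intro hi
      rw [show (((i + 1 : ℕ) : ZMod N)) * δ = (i : ZMod N) * δ + δ by push_cast; ring,
        hstep _ _ (hlast i (by omega)), ih (by omega)]
      rw [← hj₀s]
      intro h
      have := hinj i j₀ (by omega) hj₀lt h
      omega
  have hB : ∀ i : ℕ, j₀ + 1 ≤ i → i < N → skv w N false ((i : ZMod N) * δ) = true := by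
    intro i hi
    induction i, hi using Nat.le_induction with
    | base =>
      intro _
      rw [show (((j₀ + 1 : ℕ) : ZMod N)) * δ = (j₀ : ZMod N) * δ + δ by push_cast; ring, hj₀s]
      exact hs2
    | succ i hi ih =>
      intro hi'
      rw [show (((i + 1 : ℕ) : ZMod N)) * δ = (i : ZMod N) * δ + δ by push_cast; ring,
        hstep _ _ (hlast i (by omega)), ih (by omega)]
      rw [← hj₀s]
      intro h
      have := hinj i j₀ (by omega) hj₀lt h
      omega
  have hj₀1 : j₀ + 1 < N := by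
    by_contra hc
    apply hsne
    have h2 : j₀ + 1 = N := by omega
    have h3 : ((j₀ + 1 : ℕ) : ZMod N) = 0 := by rw [h2]; exact ZMod.natCast_self N
    push_cast at h3
    rw [← hj₀s, eq_neg_of_add_eq_zero_left h3]
    ring
  refine ⟨-k, N - 1 - j₀, ?_, ?_⟩
  · have h2 : ((k * δ.val - 1 : ℤ) : ZMod N) = 0 := by
      push_cast
      rw [ZMod.natCast_zmod_val, hk, sub_self]
    obtain ⟨t, ht⟩ := (ZMod.intCast_zmod_eq_zero_iff_dvd _ N).1 h2
    refine ⟨-(δ.val : ℤ), -t, ?_⟩
    linarith
  · intro m hm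
    have hm0 : ((m : ℤ) : ZMod N) ≠ 0 := fun h => hm ((ZMod.intCast_zmod_eq_zero_iff_dvd m N).1 h)
    have hNpos : (0 : ℤ) < N := by exact_mod_cast (by omega : 0 < N)
    obtain ⟨e, he⟩ : ∃ e : ℕ, (e : ℤ) = (k * m) % N :=
      ⟨((k * m) % N).toNat, Int.toNat_of_nonneg (Int.emod_nonneg _ hNpos.ne')⟩
    have heN : e < N := by
      have := Int.emod_lt_of_pos (k * m) hNpos
      omega
    have hecast : (e : ZMod N) = (k : ZMod N) * (m : ZMod N) := by
      have h2 : ((e : ℤ) : ZMod N) = (((k * m) % N : ℤ) : ZMod N) := by rw [he]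
      simpa using h2
    have hem : (e : ZMod N) * δ = (m : ZMod N) := by
      rw [hecast, mul_right_comm, hk, one_mul]
    have he0 : e ≠ 0 := by
      rintro rfl
      apply hm0
      rw [← hem, Nat.cast_zero, zero_mul]
    have hval : (-k * m) % (N : ℤ) = N - e := by
      have h2 : -k * m = (N - e) + N * (-(k * m / N) - 1) := by
        have := Int.emod_add_mul_ediv (k * m) N
        rw [he]
        linarith
      rw [h2, Int.add_mul_emod_self_left]
      exact Int.emod_eq_of_lt (by omega) (by omega)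
    rw [hval, ← skv_cast w N hw false m hm0, ← hem]
    constructor
    · intro h
      have : ¬ e ≤ j₀ := by
        intro h'
        rw [hA e h'] at h
        exact absurd h (by decide)
      omega
    · intro h
      exact hB e (by omega) heN

/-- Task G2. -/
theorem skeleton (w : Pt) (hlow : HLow w)
    (h : ∃ N : ℕ, 1 ≤ N ∧ (∀ n : ℤ, ¬ (N : ℤ) ∣ n → w (n + N) = w n) ∧ ∃ p a, STail w N p a) :
    ∃ D : TPar, D.Ok ∧ ∀ m : ℤ, m ≠ 0 → D.Cod (fun _ => 0) m (w m) := by
  classical
  have h' : ∃ N : ℕ, GoodLevel w N := h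
  have hgood : GoodLevel w (Nat.find h') := Nat.find_spec h'
  have hmin : ∀ M, M < Nat.find h' → ¬ GoodLevel w M := fun M hM => Nat.find_min h' hM
  set N := Nat.find h' with hN
  have hgood' := hgood
  obtain ⟨hN1, hw, p, a, hp, ha, hT⟩ := hgood
  have : NeZero N := ⟨by omega⟩
  obtain ⟨r, j, hr, hrj⟩ : ∃ (r : ℤ) (j : ℕ), IsCoprime r (N : ℤ) ∧ ∀ m : ℤ, ¬ (N : ℤ) ∣ m →
      (w m = true ↔ (r * m) % (N : ℤ) ≤ j) := by
    by_cases hN2 : 2 ≤ N
    · refine skeleton_coded w N hN2 hw hlow fun b δ hδ => ?_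
      by_contra hc
      push Not at hc
      obtain ⟨M, hM, hMg⟩ := smaller_level w N hgood' b δ hδ hc
      exact hmin M hM hMg
    · have hN1' : N = 1 := by omega
      refine ⟨1, 0, isCoprime_one_left, fun m hm => ?_⟩
      exact absurd (by rw [hN1']; simp) hm
  refine ⟨⟨N, r, j, p, a⟩, ⟨hN1, hr, hp, ha⟩, fun m hm => ⟨?_, ?_⟩⟩
  · intro h
    simp only [TPar.Q, Finset.range_zero, Finset.prod_empty, mul_one, sub_zero] at h ⊢
    exact hrj m h
  · intro i hi1 hi2
    simp only [TPar.Q, sub_zero] at hi1 hi2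
    obtain ⟨n, rfl⟩ : (N : ℤ) ∣ m := dvd_trans (by push_cast; exact Dvd.intro _ rfl) hi1
    have hN0 : (N : ℤ) ≠ 0 := by
      have := NeZero.ne N
      exact_mod_cast this
    refine hT n (by rintro rfl; simp at hm) i ?_ ?_
    · rw [Nat.cast_mul] at hi1
      exact (mul_dvd_mul_iff_left hN0).1 hi1
    · intro hc
      apply hi2
      rw [Nat.cast_mul]
      exact mul_dvd_mul_left _ hc

end PatSturm
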