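import Mathlib

/-!
# Bipartite graphs without induced cycles of length at least six and without induced dominoes

Every such finite graph has a vertex of degree at most one or two twins; hence a family of sets of
size at least two, whose incidence graph is of this kind, has fewer members than points.
-/

namespace PatSturm

section Graph

variable {V : Type*}

/-- Bipartite, no induced cycle of length at least six, no induced domino. -/
structure Bdh (G : SimpleGraph V) (side : V → Bool) : Prop where
  hb : ∀ x y, G.Adj x y → side x ≠ side y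
  nc : ∀ n : ℕ, 3 ≤ n → ∀ a b : ZMod n → V, (∀ i j, side (a i) ≠ side (b j)) →
    ¬ ∀ i j, (G.Adj (a i) (b j) ↔ j = i ∨ j = i + 1)
  nd : ∀ x₁ x₂ x₃ y₁ y₂ y₃ : V, G.Adj x₁ y₁ → G.Adj x₁ y₂ → ¬ G.Adj x₁ y₃ → G.Adj x₂ y₁ →
    G.Adj x₂ y₂ → G.Adj x₂ y₃ → ¬ G.Adj x₃ y₁ → G.Adj x₃ y₂ → ¬ G.Adj x₃ y₃

/-- No induced cycle, in sequence form. -/
theorem Bdh.no_seq {G : SimpleGraph V} {side : V → Bool} (h : Bdh G side) (n : ℕ) (hn : 3 ≤ n)
    (c : ℕ → V)
    (hside : ∀ t, t < 2 * n → side (c t) = Bool.xor (side (c 0)) (decide (t % 2 = 1)))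
    (hadj : ∀ s t, s < t → t < 2 * n →
      (G.Adj (c s) (c t) ↔ t = s + 1 ∨ (s = 0 ∧ t = 2 * n - 1))) : False := by
  have : NeZero n := ⟨by omega⟩
  have hval : ∀ i : ZMod n, i.val < n := fun i => ZMod.val_lt i
  have hval1 : ∀ i : ZMod n, (i + 1).val = if i.val + 1 < n then i.val + 1 else 0 := by
    intro i
    have h1 : (1 : ZMod n).val = 1 := by
      have : Fact (1 < n) := ⟨by omega⟩
      exact ZMod.val_one n
    rw [ZMod.val_add, h1]
    split_ifs with h2
    · exact Nat.mod_eq_of_lt h2
    · have : i.val + 1 = n := by have := hval i; omega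
      rw [this, Nat.mod_self]
  refine h.nc n hn (fun i => c (2 * i.val + 1)) (fun j => c (2 * j.val)) ?_ ?_
  · intro i j
    have hi := hval i
    have hj := hval j
    rw [hside _ (by omega), hside _ (by omega : 2 * j.val < 2 * n)]
    have e1 : (2 * i.val + 1) % 2 = 1 := by omega
    have e2 : (2 * j.val) % 2 = 0 := by omega
    rw [e1, e2]
    cases side (c 0) <;> simp
  · intro i j
    have hi := hval i
    have hj := hval j
    have e1 : j = i ↔ j.val = i.val := ⟨fun h => by rw [h], fun h => ZMod.val_injective n h⟩
    have e2 : j = i + 1 ↔ j.val = (i + 1).val :=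
      ⟨fun h => by rw [h], fun h => ZMod.val_injective n h⟩
    rw [e1, e2, hval1]
    rcases Nat.lt_or_ge i.val j.val with hlt | hge
    · show G.Adj (c (2 * i.val + 1)) (c (2 * j.val)) ↔ _
      rw [hadj _ _ (by omega) (by omega)]
      split_ifs <;> omega
    · show G.Adj (c (2 * i.val + 1)) (c (2 * j.val)) ↔ _
      rw [G.adj_comm, hadj _ _ (by omega) (by omega)]
      split_ifs <;> omega

/-- The graph restricted to a set of vertices. -/
def resG (G : SimpleGraph V) (S : Set V) : SimpleGraph V where
  Adj x y := G.Adj x y ∧ x ∈ S ∧ y ∈ S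
  symm := ⟨fun _ _ h => ⟨h.1.symm, h.2.2, h.2.1⟩⟩
  loopless := ⟨fun x h => G.loopless.irrefl x h.1⟩

theorem exists_induced_path (G : SimpleGraph V) (S : Set V) (z z' : V) (hz : z ∈ S)
    (hr : (resG G S).Reachable z z') :
    ∃ (m : ℕ) (p : ℕ → V), p 0 = z ∧ p m = z' ∧ (∀ i, i ≤ m → p i ∈ S) ∧
      (∀ i j, i < j → j ≤ m → (G.Adj (p i) (p j) ↔ j = i + 1)) ∧
      (∀ i j, i < j → j ≤ m → p i ≠ p j) := by
  obtain ⟨w, hw⟩ := hr.exists_walk_length_eq_dist
  have hadj : ∀ i, i < w.length → (resG G S).Adj (w.getVert i) (w.getVert (i + 1)) :=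
    fun i hi => w.adj_getVert_succ hi
  have hS : ∀ i, i ≤ w.length → w.getVert i ∈ S := by
    intro i hi
    rcases Nat.eq_zero_or_pos i with h0 | h0
    · subst h0; simpa using hz
    · obtain ⟨j, rfl⟩ : ∃ j, i = j + 1 := ⟨i - 1, by omega⟩
      exact (hadj j (by omega)).2.2
  have hne : ∀ i j, i < j → j ≤ w.length → w.getVert i ≠ w.getVert j := by
    intro i j hij hj he
    have h1 : (resG G S).dist z z' ≤ ((w.take i).append ((w.drop j).copy he.symm rfl)).length :=
      SimpleGraph.dist_le _
    rw [SimpleGraph.Walk.length_append, SimpleGraph.Walk.length_copy,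
      SimpleGraph.Walk.take_length, SimpleGraph.Walk.drop_length, ← hw] at h1
    have : min i w.length ≤ i := min_le_left _ _
    omega
  refine ⟨w.length, w.getVert, by simp, by simp, hS, ?_, hne⟩
  intro i j hij hj
  constructor
  · intro ha
    have ha' : (resG G S).Adj (w.getVert i) (w.getVert j) :=
      ⟨ha, hS i (by omega), hS j hj⟩
    have h1 : (resG G S).dist z z' ≤
        ((w.take i).append (SimpleGraph.Walk.cons ha' (w.drop j))).length :=
      SimpleGraph.dist_le _
    rw [SimpleGraph.Walk.length_append, SimpleGraph.Walk.length_cons,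
      SimpleGraph.Walk.take_length, SimpleGraph.Walk.drop_length, ← hw] at h1
    have : min i w.length ≤ i := min_le_left _ _
    omega
  · rintro rfl
    exact (hadj i (by omega)).1

theorem walk_side {G : SimpleGraph V} {side : V → Bool} (hb : ∀ x y, G.Adj x y → side x ≠ side y)
    {u v : V} (w : G.Walk u v) : side v = Bool.xor (side u) (decide (w.length % 2 = 1)) := by
  induction w with
  | nil => simp
  | @cons a b c hab w ih =>
    rw [ih, SimpleGraph.Walk.length_cons]
    have h1 := hb _ _ hab
    rcases Nat.mod_two_eq_zero_or_one w.length with h2 | h2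
    · have h3 : (w.length + 1) % 2 = 1 := by omega
      rw [h2, h3]
      revert h1
      cases side a <;> cases side b <;> simp
    · have h3 : (w.length + 1) % 2 = 0 := by omega
      rw [h2, h3]
      revert h1
      cases side a <;> cases side b <;> simp

theorem lev_side {G : SimpleGraph V} {side : V → Bool} (hb : ∀ x y, G.Adj x y → side x ≠ side y)
    {u v : V} (hr : G.Reachable u v) :
    side v = Bool.xor (side u) (decide (G.dist u v % 2 = 1)) := by
  obtain ⟨w, hw⟩ := hr.exists_walk_length_eq_dist
  rw [← hw]
  exact walk_side hb w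

theorem lev_par {G : SimpleGraph V} {side : V → Bool} (hb : ∀ x y, G.Adj x y → side x ≠ side y)
    {u x y : V} (hr : G.Reachable u x) (ha : G.Adj x y) :
    G.dist u x = G.dist u y + 1 ∨ G.dist u y = G.dist u x + 1 := by
  have hry : G.Reachable u y := hr.trans ha.reachable
  obtain ⟨w, hw⟩ := hr.exists_walk_length_eq_dist
  obtain ⟨w', hw'⟩ := hry.exists_walk_length_eq_dist
  have h1 : G.dist u y ≤ G.dist u x + 1 := by
    have := SimpleGraph.dist_le (w.append (SimpleGraph.Walk.cons ha SimpleGraph.Walk.nil))
    rw [SimpleGraph.Walk.length_append, SimpleGraph.Walk.length_cons,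
      SimpleGraph.Walk.length_nil] at this
    omega
  have h2 : G.dist u x ≤ G.dist u y + 1 := by
    have := SimpleGraph.dist_le (w'.append (SimpleGraph.Walk.cons ha.symm SimpleGraph.Walk.nil))
    rw [SimpleGraph.Walk.length_append, SimpleGraph.Walk.length_cons,
      SimpleGraph.Walk.length_nil] at this
    omega
  have h3 : G.dist u x ≠ G.dist u y := by
    intro he
    have e1 := lev_side hb hr
    have e2 := lev_side hb hry
    rw [he, ← e2] at e1
    exact hb _ _ ha e1
  omega

theorem lev_low {G : SimpleGraph V} {u x : V} {k : ℕ} (hk : G.dist u x = k + 1) :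
    ∃ y, G.Adj x y ∧ G.Reachable u y ∧ G.dist u y = k := by
  have hr : G.Reachable u x := SimpleGraph.Reachable.of_dist_ne_zero (by omega)
  obtain ⟨w, hw⟩ := hr.symm.exists_walk_length_eq_dist
  rw [SimpleGraph.dist_comm, hk] at hw
  cases w with
  | nil => simp at hw
  | @cons _ y _ hab w =>
    refine ⟨y, hab, w.reachable.symm, ?_⟩
    rw [SimpleGraph.Walk.length_cons] at hw
    have h1 : G.dist u y ≤ k := by
      have := SimpleGraph.dist_le w.reverse
      rw [SimpleGraph.Walk.length_reverse] at this
      omega
    obtain ⟨w', hw'⟩ := w.reachable.symm.exists_walk_length_eq_dist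
    have h2 : G.dist u x ≤ G.dist u y + 1 := by
      have := SimpleGraph.dist_le (w'.append (SimpleGraph.Walk.cons hab.symm SimpleGraph.Walk.nil))
      rw [SimpleGraph.Walk.length_append, SimpleGraph.Walk.length_cons,
        SimpleGraph.Walk.length_nil] at this
      omega
    omega

/-- Inside the vertices of level at most `k` the root is reachable. -/
theorem res_reach {G : SimpleGraph V} {u : V} (S : Set V) (k : ℕ)
    (hS : ∀ v, G.Reachable u v → G.dist u v ≤ k → v ∈ S) :
    ∀ d v, G.Reachable u v → G.dist u v = d → d ≤ k → (resG G S).Reachable v u := by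
  intro d
  induction d with
  | zero =>
    intro v hr hd _
    rw [hr.dist_eq_zero_iff] at hd
    subst hd
    exact SimpleGraph.Reachable.refl _
  | succ d ih =>
    intro v hr hd hk
    obtain ⟨y, hy, hyr, hyd⟩ := lev_low hd
    have h1 : (resG G S).Adj v y := ⟨hy, hS v hr (by omega), hS y hyr (by omega)⟩
    exact h1.reachable.trans (ih y hyr hyd (by omega))

/-- Two vertices of level `k + 1` with a common upper neighbour have the same lower
neighbours. -/
theorem Bdh.same_lower {G : SimpleGraph V} {side : V → Bool} (h : Bdh G side) (u : V) :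
    ∀ (k : ℕ) (y₁ y₂ x z : V), G.dist u y₁ = k + 1 → G.dist u y₂ = k + 1 →
      G.dist u x = k + 2 → G.Adj x y₁ → G.Adj x y₂ → G.Reachable u z → G.dist u z = k →
      G.Adj z y₁ → G.Adj z y₂ := by
  intro k
  induction k with
  | zero =>
    intro y₁ y₂ x z h1 h2 h3 a1 a2 hr hz _
    rw [hr.dist_eq_zero_iff] at hz
    subst hz
    exact SimpleGraph.dist_eq_one_iff_adj.1 h2
  | succ k ih =>
    intro y₁ y₂ x z h1 h2 h3 a1 a2 hr hz ha
    by_contra hna
    obtain ⟨z', hz', hr', hd'⟩ := lev_low h2
    by_cases hc : G.Adj z' y₁
    · -- domino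
      obtain ⟨t, ht, htr, htd⟩ := lev_low hz
      have ht' : G.Adj z' t := (ih z z' y₁ t hz hd' (by omega) ha.symm hc.symm htr htd ht.symm).symm
      have hxt : ¬ G.Adj x t := by
        intro hxt
        have hrx : G.Reachable u x := SimpleGraph.Reachable.of_dist_ne_zero (by omega)
        rcases lev_par h.hb hrx hxt with h5 | h5 <;> omega
      exact h.nd x z' z y₂ y₁ t a2 a1 hxt hz'.symm hc ht' hna ha ht
    · -- a long cycle
      have hry₁ : G.Reachable u y₁ := SimpleGraph.Reachable.of_dist_ne_zero (by omega)
      have hry₂ : G.Reachable u y₂ := SimpleGraph.Reachable.of_dist_ne_zero (by omega)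
      have hrx : G.Reachable u x := SimpleGraph.Reachable.of_dist_ne_zero (by omega)
      set S : Set V := {v | G.Reachable u v ∧ (G.dist u v ≤ k ∨ v = z ∨ v = z')} with hS
      have hzS : z ∈ S := ⟨hr, Or.inr (Or.inl rfl)⟩
      have hzS' : z' ∈ S := ⟨hr', Or.inr (Or.inr rfl)⟩
      have hlow : ∀ v, G.Reachable u v → G.dist u v ≤ k → v ∈ S := fun v hv hk => ⟨hv, Or.inl hk⟩
      have reach : ∀ v ∈ S, G.Reachable u v → G.dist u v = k + 1 → (resG G S).Reachable v u := by
        intro v hv hvr hvd
        obtain ⟨t, ht, htr, htd⟩ := lev_low hvd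
        have h5 : (resG G S).Adj v t := ⟨ht, hv, hlow t htr (by omega)⟩
        exact h5.reachable.trans (res_reach S k hlow k t htr htd le_rfl)
      have hreach : (resG G S).Reachable z z' :=
        (reach z hzS hr hz).trans (reach z' hzS' hr' hd').symm
      obtain ⟨m, p, p0, pm, pS, padj, pne⟩ := exists_induced_path G S z z' hzS hreach
      -- levels of interior vertices
      have hzz : z ≠ z' := by
        rintro rfl
        exact hna hz'.symm
      have hm0 : m ≠ 0 := by
        rintro rfl
        exact hzz (p0.symm.trans pm)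
      have pint : ∀ i, 0 < i → i < m → G.dist u (p i) ≤ k := by
        intro i hi him
        rcases (pS i him.le).2 with h5 | h5 | h5
        · exact h5
        · exact absurd (p0.trans h5.symm) (pne 0 i hi (by omega))
        · exact absurd (h5.trans pm.symm) (pne i m him le_rfl)
      have pr : ∀ i, i ≤ m → G.Reachable u (p i) := fun i hi => (pS i hi).1
      have pside : ∀ i, i ≤ m → side (p i) = Bool.xor (side z) (decide (i % 2 = 1)) := by
        intro i
        induction i with
        | zero => intro _; rw [p0]; simp
        | succ i ihi =>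
          intro hi
          have h5 := ihi (by omega)
          have h6 : G.Adj (p i) (p (i + 1)) := (padj i (i + 1) (by omega) hi).2 rfl
          have h7 := h.hb _ _ h6
          rw [h5] at h7
          rcases Nat.mod_two_eq_zero_or_one i with h8 | h8
          · have h9 : (i + 1) % 2 = 1 := by omega
            rw [h9]
            rw [h8] at h7
            revert h7
            cases side z <;> cases side (p (i + 1)) <;> simp
          · have h9 : (i + 1) % 2 = 0 := by omega
            rw [h9]
            rw [h8] at h7
            revert h7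
            cases side z <;> cases side (p (i + 1)) <;> simp
      have sz : side z' = side z := by
        rw [lev_side h.hb hr, lev_side h.hb hr', hz, hd']
      have meven : m % 2 = 0 := by
        have h5 := pside m le_rfl
        rw [pm, sz] at h5
        rcases Nat.mod_two_eq_zero_or_one m with h8 | h8
        · exact h8
        · rw [h8] at h5
          revert h5
          cases side z <;> simp
      have sx : side x = side z := by
        have h5 := h.hb _ _ a1
        have h6 := h.hb _ _ ha
        revert h5 h6
        cases side x <;> cases side z <;> cases side y₁ <;> simp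
      have sy₁ : side y₁ = !side z := by
        have h6 := h.hb _ _ ha
        revert h6
        cases side z <;> cases side y₁ <;> simp
      have sy₂ : side y₂ = !side z := by
        have h5 := h.hb _ _ a2
        rw [sx] at h5
        revert h5
        cases side z <;> cases side y₂ <;> simp
      -- the cyclic sequence
      set c : ℕ → V := fun t => if t ≤ m then p t else if t = m + 1 then y₂ else
        if t = m + 2 then x else y₁ with hcdef
      have c1 : ∀ t, t ≤ m → c t = p t := by
        intro t ht
        simp only [hcdef]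
        rw [if_pos ht]
      have c2 : c (m + 1) = y₂ := by
        simp only [hcdef]
        rw [if_neg (by omega), if_pos trivial]
      have c3 : c (m + 2) = x := by
        simp only [hcdef]
        rw [if_neg (by omega), if_neg (by omega), if_pos trivial]
      have c4 : c (m + 3) = y₁ := by
        simp only [hcdef]
        rw [if_neg (by omega), if_neg (by omega), if_neg (by omega)]
      have hnadj : ∀ i, 0 < i → i < m → ∀ y, G.Reachable u y → k + 2 ≤ G.dist u y →
          ¬ G.Adj (p i) y := by
        intro i hi him y hy hyd hadj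
        have h5 := pint i hi him
        rcases lev_par h.hb (pr i him.le) hadj with h6 | h6 <;> omega
      refine h.no_seq ((m + 4) / 2) (by omega) c ?_ ?_
      · intro t ht
        rw [c1 0 (by omega), p0]
        rcases Nat.lt_or_ge m t with hmt | hmt
        · have : t = m + 1 ∨ t = m + 2 ∨ t = m + 3 := by omega
          rcases this with rfl | rfl | rfl
          · rw [c2, sy₂]
            have : (m + 1) % 2 = 1 := by omega
            rw [this]; cases side z <;> simp
          · rw [c3, sx]
            have : (m + 2) % 2 = 0 := by omega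
            rw [this]; cases side z <;> simp
          · rw [c4, sy₁]
            have : (m + 3) % 2 = 1 := by omega
            rw [this]; cases side z <;> simp
        · rw [c1 t hmt]
          exact pside t hmt
      · intro s t hst ht
        have hmm : 2 * ((m + 4) / 2) - 1 = m + 3 := by omega
        rw [hmm]
        rcases Nat.lt_or_ge m t with hmt | hmt
        · have : t = m + 1 ∨ t = m + 2 ∨ t = m + 3 := by omega
          rcases this with rfl | rfl | rfl
          · rw [c2, c1 s (by omega)]
            rcases Nat.eq_zero_or_pos s with rfl | hs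
            · rw [p0]
              constructor
              · intro h5; exact absurd h5 hna
              · intro h5; omega
            · rcases Nat.lt_or_ge s m with hsm | hsm
              · constructor
                · intro h5; exact absurd h5 (hnadj s hs hsm y₂ hry₂ (by omega))
                · intro h5; omega
              · have : s = m := by omega
                subst this
                rw [pm]
                exact ⟨fun _ => Or.inl rfl, fun _ => hz'.symm⟩
          · rw [c3]
            rcases Nat.lt_or_ge m s with hsm | hsm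
            · have : s = m + 1 := by omega
              subst this
              rw [c2]
              exact ⟨fun _ => Or.inl rfl, fun _ => a2.symm⟩
            · rw [c1 s hsm]
              constructor
              · intro h5
                exfalso
                have h6 : G.dist u (p s) ≤ k + 1 := by
                  rcases Nat.eq_zero_or_pos s with rfl | hs
                  · rw [p0]; omega
                  · rcases Nat.lt_or_ge s m with hsm' | hsm'
                    · have := pint s hs hsm'; omega
                    · have : s = m := by omega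
                      subst this
                      rw [pm]; omega
                rcases lev_par h.hb (pr s hsm) h5 with h7 | h7 <;> omega
              · intro h5; omega
          · rw [c4]
            rcases Nat.lt_or_ge m s with hsm | hsm
            · have : s = m + 1 ∨ s = m + 2 := by omega
              rcases this with rfl | rfl
              · rw [c2]
                constructor
                · intro h5
                  exfalso
                  have := h.hb _ _ h5
                  rw [sy₁, sy₂] at this
                  exact this rfl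
                · intro h5; omega
              · rw [c3]
                exact ⟨fun _ => Or.inl rfl, fun _ => a1⟩
            · rw [c1 s hsm]
              rcases Nat.eq_zero_or_pos s with rfl | hs
              · rw [p0]
                exact ⟨fun _ => Or.inr ⟨rfl, rfl⟩, fun _ => ha⟩
              · rcases Nat.lt_or_ge s m with hsm' | hsm'
                · constructor
                  · intro h5; exact absurd h5 (hnadj s hs hsm' y₁ hry₁ (by omega))
                  · intro h5; omega
                · have : s = m := by omega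
                  subst this
                  rw [pm]
                  constructor
                  · intro h5; exact absurd h5 hc
                  · intro h5; omega
        · rw [c1 t hmt, c1 s (by omega), padj s t hst hmt]
          omega

/-- A vertex of degree at most one, or two twins. -/
theorem Bdh.exists_pt [Finite V] {G : SimpleGraph V} {side : V → Bool} (h : Bdh G side) (u : V) :
    ∃ x, (∀ y y', G.Adj x y → G.Adj x y' → y = y') ∨
      ∃ x', x' ≠ x ∧ (∃ y, G.Adj x y) ∧ ∀ y, G.Adj x y ↔ G.Adj x' y := by
  obtain ⟨v, hv, hmax⟩ := Set.exists_max_image {v | G.Reachable u v} (fun v => G.dist u v)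
    (Set.toFinite _) ⟨u, SimpleGraph.Reachable.refl u⟩
  have hv' : G.Reachable u v := hv
  have hmax' : ∀ w, G.Reachable u w → G.dist u w ≤ G.dist u v := fun w hw => hmax w hw
  obtain h0 | h1 | h2 : G.dist u v = 0 ∨ G.dist u v = 1 ∨ 2 ≤ G.dist u v := by omega
  · refine ⟨u, Or.inl ?_⟩
    intro y y' hy _
    have h3 := hmax' y hy.reachable
    rw [h0] at h3
    have h4 : G.dist u y = 1 := SimpleGraph.dist_eq_one_iff_adj.2 hy
    omega
  · refine ⟨v, Or.inl ?_⟩
    have key : ∀ y, G.Adj v y → y = u := by
      intro y hy
      have hry : G.Reachable u y := hv'.trans hy.reachable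
      have h3 := hmax' y hry
      rcases lev_par h.hb hv' hy with h4 | h4
      · have h5 : G.dist u y = 0 := by omega
        rw [hry.dist_eq_zero_iff] at h5
        exact h5.symm
      · omega
    intro y y' hy hy'
    rw [key y hy, key y' hy']
  · obtain ⟨x, hx, hmin⟩ := Set.exists_min_image {x | G.dist u x = G.dist u v}
      (fun x => (G.neighborSet x).ncard) (Set.toFinite _) ⟨v, rfl⟩
    have hx' : G.dist u x = G.dist u v := hx
    have hmin' : ∀ w, G.dist u w = G.dist u v →
        (G.neighborSet x).ncard ≤ (G.neighborSet w).ncard := fun w hw => hmin w hw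
    by_cases hp : ∀ y y', G.Adj x y → G.Adj x y' → y = y'
    · exact ⟨x, Or.inl hp⟩
    push Not at hp
    obtain ⟨y₁, y₂, hy₁, hy₂, hne⟩ := hp
    obtain ⟨k, hk⟩ : ∃ k, G.dist u v = k + 2 := ⟨G.dist u v - 2, by omega⟩
    have lowl : ∀ w y, G.dist u w = k + 2 → G.Adj w y → G.dist u y = k + 1 := by
      intro w y hw hwy
      have hrw : G.Reachable u w := SimpleGraph.Reachable.of_dist_ne_zero (by omega)
      have h3 := hmax' y (hrw.trans hwy.reachable)
      rcases lev_par h.hb hrw hwy with h4 | h4 <;> omega
    have main : ∀ y₁ y₂, G.Adj x y₁ → G.Adj x y₂ → ∀ w, G.Adj y₁ w → G.Adj y₂ w := by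
      intro y₁ y₂ hy₁ hy₂ w hw
      have e1 := lowl x y₁ (by omega) hy₁
      have e2 := lowl x y₂ (by omega) hy₂
      have r1 : G.Reachable u y₁ := SimpleGraph.Reachable.of_dist_ne_zero (by omega)
      rcases lev_par h.hb r1 hw with h3 | h3
      · exact (h.same_lower u k y₁ y₂ x w e1 e2 (by omega) hy₁ hy₂ (r1.trans hw.reachable)
          (by omega) hw.symm).symm
      · -- upper neighbour
        have hwl : G.dist u w = k + 2 := by omega
        have nested : (∀ y, G.Adj x y → G.Adj w y) ∨ (∀ y, G.Adj w y → G.Adj x y) := by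
          by_contra hc
          push Not at hc
          obtain ⟨⟨y, hy, hy'⟩, ⟨t, ht, ht'⟩⟩ := hc
          obtain ⟨z, hz, hzr, hzd⟩ := lev_low e1
          have a1 : G.Adj z y := h.same_lower u k y₁ y x z e1 (lowl x y (by omega) hy) (by omega)
            hy₁ hy hzr hzd hz.symm
          have a2 : G.Adj z t := h.same_lower u k y₁ t w z e1 (lowl w t (by omega) ht) (by omega)
            hw.symm ht hzr hzd hz.symm
          exact h.nd x z w y y₁ t hy hy₁ ht' a1 hz.symm a2 hy' hw.symm ht
        rcases nested with hn | hn
        · exact (hn y₂ hy₂).symm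
        · have hsub : G.neighborSet w ⊆ G.neighborSet x := fun y hy => hn y hy
          have heq : G.neighborSet w = G.neighborSet x :=
            Set.eq_of_subset_of_ncard_le hsub (hmin' w (by omega)) (Set.toFinite _)
          have : y₂ ∈ G.neighborSet w := by rw [heq]; exact hy₂
          exact (show G.Adj w y₂ from this).symm
    exact ⟨y₁, Or.inr ⟨y₂, hne.symm, ⟨x, hy₁.symm⟩,
      fun w => ⟨main y₁ y₂ hy₁ hy₂ w, main y₂ y₁ hy₂ hy₁ w⟩⟩⟩

end Graph

/-- The incidence graph of a family of sets. -/
def incG (K : Finset ℕ) (F : Finset (Finset ℕ)) :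
    SimpleGraph ({v // v ∈ K} ⊕ {e // e ∈ F}) where
  Adj x y := (∃ v e, x = Sum.inl v ∧ y = Sum.inr e ∧ v.1 ∈ e.1) ∨
    (∃ v e, x = Sum.inr e ∧ y = Sum.inl v ∧ v.1 ∈ e.1)
  symm := ⟨by
    rintro x y (⟨v, e, h1, h2, h3⟩ | ⟨v, e, h1, h2, h3⟩)
    · exact Or.inr ⟨v, e, h2, h1, h3⟩
    · exact Or.inl ⟨v, e, h2, h1, h3⟩⟩
  loopless := ⟨by
    rintro x (⟨v, e, h1, h2, h3⟩ | ⟨v, e, h1, h2, h3⟩)
    · rw [h1] at h2; simp at h2
    · rw [h1] at h2; simp at h2⟩

theorem incG_lr {K : Finset ℕ} {F : Finset (Finset ℕ)} (v : {v // v ∈ K}) (e : {e // e ∈ F}) :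
    (incG K F).Adj (Sum.inl v) (Sum.inr e) ↔ v.1 ∈ e.1 := by
  simp [incG]

theorem incG_rl {K : Finset ℕ} {F : Finset (Finset ℕ)} (v : {v // v ∈ K}) (e : {e // e ∈ F}) :
    (incG K F).Adj (Sum.inr e) (Sum.inl v) ↔ v.1 ∈ e.1 := by
  simp [incG]

theorem incG_ll {K : Finset ℕ} {F : Finset (Finset ℕ)} (v v' : {v // v ∈ K}) :
    ¬ (incG K F).Adj (Sum.inl v) (Sum.inl v') := by
  simp [incG]

theorem incG_rr {K : Finset ℕ} {F : Finset (Finset ℕ)} (e e' : {e // e ∈ F}) :
    ¬ (incG K F).Adj (Sum.inr e) (Sum.inr e') := by
  simp [incG]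

/-- No induced cycles of length at least six in the incidence graph. -/
def FNC (F : Finset (Finset ℕ)) : Prop :=
  ∀ n : ℕ, 3 ≤ n → ∀ (e : ZMod n → Finset ℕ) (v : ZMod n → ℕ), (∀ i, e i ∈ F) →
    ¬ ∀ i j, (v j ∈ e i ↔ j = i ∨ j = i + 1)

/-- No induced domino in the incidence graph. -/
def FND (F : Finset (Finset ℕ)) : Prop :=
  ∀ e₁ ∈ F, ∀ e₂ ∈ F, ∀ e₃ ∈ F, ∀ v₁ v₂ v₃ : ℕ, v₁ ∈ e₁ → v₂ ∈ e₁ → v₃ ∉ e₁ → v₁ ∈ e₂ → v₂ ∈ e₂ →
    v₃ ∈ e₂ → v₁ ∉ e₃ → v₂ ∈ e₃ → v₃ ∉ e₃

theorem incG_bdh (K : Finset ℕ) (F : Finset (Finset ℕ)) (hnc : FNC F) (hnd : FND F) :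
    Bdh (incG K F) Sum.isLeft where
  hb := by
    rintro (v | e) (v' | e') h
    · exact absurd h (incG_ll v v')
    · simp
    · simp
    · exact absurd h (incG_rr e e')
  nc := by
    intro n hn a b hab h
    have ha : ∀ i, Sum.isLeft (a i) = !Sum.isLeft (b 0) := by
      intro i
      have := hab i 0
      revert this
      cases Sum.isLeft (a i) <;> cases Sum.isLeft (b 0) <;> simp
    have hb : ∀ j, Sum.isLeft (b j) = Sum.isLeft (b 0) := by
      intro j
      have h1 := hab 0 j
      have h2 := ha 0
      rw [h2] at h1
      revert h1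
      cases Sum.isLeft (b j) <;> cases Sum.isLeft (b 0) <;> simp
    cases hb0 : Sum.isLeft (b 0) with
    | true =>
      -- `a` are members, `b` are points
      have ha' : ∀ i, ∃ e, a i = Sum.inr e := by
        intro i
        have := ha i
        rw [hb0] at this
        rcases hai : a i with v | e
        · rw [hai] at this; simp at this
        · exact ⟨e, rfl⟩
      have hb' : ∀ i, ∃ v, b i = Sum.inl v := by
        intro i
        have := hb i
        rw [hb0] at this
        rcases hbi : b i with v | e
        · exact ⟨v, rfl⟩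
        · rw [hbi] at this; simp at this
      choose e he using ha'
      choose v hv using hb'
      refine hnc n hn (fun i => (e i).1) (fun j => (v j).1) (fun i => (e i).2) ?_
      intro i j
      rw [← h i j, he, hv, incG_rl]
    | false =>
      have ha' : ∀ i, ∃ v, a i = Sum.inl v := by
        intro i
        have := ha i
        rw [hb0] at this
        rcases hai : a i with v | e
        · exact ⟨v, rfl⟩
        · rw [hai] at this; simp at this
      have hb' : ∀ i, ∃ e, b i = Sum.inr e := by
        intro i
        have := hb i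
        rw [hb0] at this
        rcases hbi : b i with v | e
        · rw [hbi] at this; simp at this
        · exact ⟨e, rfl⟩
      choose v hv using ha'
      choose e he using hb'
      refine hnc n hn (fun i => (e (-i)).1) (fun j => (v (-j)).1) (fun i => (e (-i)).2) ?_
      intro i j
      have h1 := h (-j) (-i)
      rw [he, hv, incG_lr] at h1
      rw [h1]
      constructor
      · rintro (h2 | h2)
        · left; exact (neg_injective h2).symm
        · right
          have : i = j - 1 := by
            have := congrArg Neg.neg h2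
            rw [neg_neg] at this
            rw [this]; ring
          rw [this]; ring
      · rintro (h2 | h2)
        · left; rw [h2]
        · right; rw [h2]; ring
  nd := by
    intro x₁ x₂ x₃ y₁ y₂ y₃ h1 h2 h3 h4 h5 h6 h7 h8 h9
    rcases x₁ with v₁ | e₁
    · rcases y₁ with w₁ | f₁
      · exact incG_ll _ _ h1
      rcases y₂ with w₂ | f₂
      · exact incG_ll _ _ h2
      rcases x₂ with v₂ | e₂
      swap
      · exact incG_rr _ _ h4
      rcases y₃ with w₃ | f₃
      · exact incG_ll _ _ h6
      rcases x₃ with v₃ | e₃
      swap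
      · exact incG_rr _ _ h8
      rw [incG_lr] at h1 h2 h3 h4 h5 h6 h7 h8 h9
      exact hnd f₁.1 f₁.2 f₂.1 f₂.2 f₃.1 f₃.2 v₁.1 v₂.1 v₃.1 h1 h4 h7 h2 h5 h8 h3 h6 h9
    · rcases y₁ with w₁ | f₁
      swap
      · exact incG_rr _ _ h1
      rcases y₂ with w₂ | f₂
      swap
      · exact incG_rr _ _ h2
      rcases x₂ with v₂ | e₂
      · exact incG_ll _ _ h4
      rcases y₃ with w₃ | f₃
      swap
      · exact incG_rr _ _ h6
      rcases x₃ with v₃ | e₃
      · exact incG_ll _ _ h8
      rw [incG_rl] at h1 h2 h3 h4 h5 h6 h7 h8 h9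
      exact hnd e₁.1 e₁.2 e₂.1 e₂.2 e₃.1 e₃.2 w₁.1 w₂.1 w₃.1 h1 h2 h3 h4 h5 h6 h7 h8 h9

/-- The family obtained by deleting a point. -/
def delF (v : ℕ) (F : Finset (Finset ℕ)) : Finset (Finset ℕ) :=
  (F.image (fun e => e.erase v)).filter (fun e => 2 ≤ e.card)

theorem mem_delF {v : ℕ} {F : Finset (Finset ℕ)} {e : Finset ℕ} :
    e ∈ delF v F ↔ (∃ f ∈ F, f.erase v = e) ∧ 2 ≤ e.card := by
  simp [delF]

theorem delF_nc {v : ℕ} {F : Finset (Finset ℕ)} (h : FNC F) : FNC (delF v F) := by
  intro n hn e w he hc
  choose f hf hfe using fun i => (mem_delF.1 (he i)).1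
  refine h n hn f w hf ?_
  intro i j
  rw [← hc i j, ← hfe i, Finset.mem_erase]
  have hwj : w j ≠ v := by
    have h1 : w j ∈ e j := (hc j j).2 (Or.inl rfl)
    rw [← hfe j, Finset.mem_erase] at h1
    exact h1.1
  exact ⟨fun h => ⟨hwj, h⟩, fun h => h.2⟩

theorem delF_nd {v : ℕ} {F : Finset (Finset ℕ)} (h : FND F) : FND (delF v F) := by
  intro e₁ he₁ e₂ he₂ e₃ he₃ v₁ v₂ v₃ h1 h2 h3 h4 h5 h6 h7 h8 h9
  obtain ⟨⟨f₁, hf₁, rfl⟩, -⟩ := mem_delF.1 he₁
  obtain ⟨⟨f₂, hf₂, rfl⟩, -⟩ := mem_delF.1 he₂
  obtain ⟨⟨f₃, hf₃, rfl⟩, -⟩ := mem_delF.1 he₃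
  rw [Finset.mem_erase] at h1 h2 h3 h4 h5 h6 h7 h8 h9
  refine h f₁ hf₁ f₂ hf₂ f₃ hf₃ v₁ v₂ v₃ h1.2 h2.2 ?_ h4.2 h5.2 h6.2 ?_ h8.2 h9.2
  · intro h10; exact h3 ⟨h6.1, h10⟩
  · intro h10; exact h7 ⟨h4.1, h10⟩

/-- If deletion of `v` is injective and keeps size two except possibly on one member. -/
theorem card_le_delF {v : ℕ} {F : Finset (Finset ℕ)} (e₀ : Finset ℕ)
    (hinj : ∀ e ∈ F, ∀ e' ∈ F, e ≠ e₀ → e' ≠ e₀ → e.erase v = e'.erase v → e = e')
    (hcard : ∀ e ∈ F, e ≠ e₀ → 2 ≤ (e.erase v).card) : F.card ≤ (delF v F).card + 1 := by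
  have h1 : (F.erase e₀).card ≤ (delF v F).card := by
    refine Finset.card_le_card_of_injOn (fun e => e.erase v) ?_ ?_
    · intro e he
      have he' := Finset.mem_erase.1 (Finset.mem_coe.1 he)
      exact mem_delF.2 ⟨⟨e, he'.2, rfl⟩, hcard e he'.2 he'.1⟩
    · intro e he e' he' hee
      have h1 := Finset.mem_erase.1 (Finset.mem_coe.1 he)
      have h2 := Finset.mem_erase.1 (Finset.mem_coe.1 he')
      exact hinj e h1.2 e' h2.2 h1.1 h2.1 hee
  have h2 : F.card ≤ (F.erase e₀).card + 1 := by
    have := Finset.pred_card_le_card_erase (s := F) (a := e₀)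
    omega
  omega

/-- The bound for families. -/
theorem family_bound : ∀ (n : ℕ) (K : Finset ℕ) (F : Finset (Finset ℕ)), K.card = n →
    K.Nonempty → (∀ e ∈ F, e ⊆ K ∧ 2 ≤ e.card) → FNC F → FND F → F.card + 1 ≤ K.card := by
  intro n
  induction n with
  | zero =>
    intro K F hn hK
    rw [Finset.card_eq_zero] at hn
    exact absurd hn hK.ne_empty
  | succ n ih =>
    intro K F hn hK hF hnc hnd
    obtain ⟨u, hu⟩ := hK
    -- it suffices to find a good point
    have step : ∀ v ∈ K, ∀ e₀ : Finset ℕ,
        (∀ e ∈ F, ∀ e' ∈ F, e ≠ e₀ → e' ≠ e₀ → e.erase v = e'.erase v → e = e') →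
        (∀ e ∈ F, e ≠ e₀ → 2 ≤ (e.erase v).card) → F.card + 1 ≤ K.card := by
      intro v hv e₀ hinj hcard
      have h1 := card_le_delF e₀ hinj hcard
      have hcK : (K.erase v).card = n := by rw [Finset.card_erase_of_mem hv, hn]; omega
      rcases Finset.eq_empty_or_nonempty (K.erase v) with h2 | h2
      · -- one point
        have h3 : F = ∅ := by
          rw [Finset.eq_empty_iff_forall_notMem]
          intro e he
          obtain ⟨h4, h5⟩ := hF e he
          have h6 : e ⊆ {v} := by
            intro x hx
            by_contra hxv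
            have : x ∈ K.erase v := Finset.mem_erase.2 ⟨by simpa using hxv, h4 hx⟩
            rw [h2] at this
            simp at this
          have h7 := Finset.card_le_card h6
          rw [Finset.card_singleton] at h7
          omega
        rw [h3, Finset.card_empty, hn]
        omega
      · have h3 := ih (K.erase v) (delF v F) hcK h2 ?_ (delF_nc hnc) (delF_nd hnd)
        · omega
        · intro e he
          obtain ⟨⟨f, hf, rfl⟩, h4⟩ := mem_delF.1 he
          exact ⟨Finset.erase_subset_erase v (hF f hf).1, h4⟩
    obtain ⟨x, hx⟩ := (incG_bdh K F hnc hnd).exists_pt (Sum.inl ⟨u, hu⟩)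
    rcases hx with hp | ⟨x', hne, ⟨y, hy⟩, htw⟩
    · rcases x with v | e
      · -- a point in at most one member
        have hone : ∀ e ∈ F, ∀ e' ∈ F, v.1 ∈ e → v.1 ∈ e' → e = e' := by
          intro e he e' he' h1 h2
          have h3 := hp (Sum.inr ⟨e, he⟩) (Sum.inr ⟨e', he'⟩) ((incG_lr _ _).2 h1)
            ((incG_lr _ _).2 h2)
          simpa using h3
        by_cases hex : ∃ e₀ ∈ F, v.1 ∈ e₀
        · obtain ⟨e₀, he₀, hve₀⟩ := hex
          have hnot : ∀ e ∈ F, e ≠ e₀ → v.1 ∉ e := fun e he hne hv => hne (hone e he e₀ he₀ hv hve₀)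
          refine step v.1 v.2 e₀ ?_ ?_
          · intro e he e' he' h1 h2 h3
            rwa [Finset.erase_eq_of_notMem (hnot e he h1),
              Finset.erase_eq_of_notMem (hnot e' he' h2)] at h3
          · intro e he h1
            rw [Finset.erase_eq_of_notMem (hnot e he h1)]
            exact (hF e he).2
        · push Not at hex
          refine step v.1 v.2 ∅ ?_ ?_
          · intro e he e' he' h1 h2 h3
            rwa [Finset.erase_eq_of_notMem (hex e he),
              Finset.erase_eq_of_notMem (hex e' he')] at h3
          · intro e he h1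
            rw [Finset.erase_eq_of_notMem (hex e he)]
            exact (hF e he).2
      · -- a member has at least two points
        exfalso
        obtain ⟨h1, h2⟩ := hF e.1 e.2
        obtain ⟨a, ha, b, hb, hab⟩ := Finset.one_lt_card.1 (show 1 < e.1.card by omega)
        have h3 := hp (Sum.inl ⟨a, h1 ha⟩) (Sum.inl ⟨b, h1 hb⟩) ((incG_rl _ _).2 ha)
          ((incG_rl _ _).2 hb)
        simp only [Sum.inl.injEq, Subtype.mk.injEq] at h3
        exact hab h3
    · rcases x with v | e
      · rcases x' with v' | e'
        · -- twin points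
          have hvv : v'.1 ≠ v.1 := fun h => hne (by rw [Subtype.ext h])
          have htw' : ∀ e ∈ F, v.1 ∈ e ↔ v'.1 ∈ e := by
            intro e he
            have := htw (Sum.inr ⟨e, he⟩)
            rwa [incG_lr, incG_lr] at this
          refine step v.1 v.2 {v.1, v'.1} ?_ ?_
          · intro e he e' he' _ _ h3
            have h4 : ∀ a, a ≠ v.1 → (a ∈ e ↔ a ∈ e') := by
              intro a ha
              have h5 : a ∈ e.erase v.1 ↔ a ∈ e'.erase v.1 := by rw [h3]
              rw [Finset.mem_erase, Finset.mem_erase] at h5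
              exact ⟨fun h => (h5.1 ⟨ha, h⟩).2, fun h => (h5.2 ⟨ha, h⟩).2⟩
            ext a
            by_cases ha : a = v.1
            · rw [ha, htw' e he, htw' e' he']
              exact h4 _ hvv
            · exact h4 a ha
          · intro e he h1
            by_cases hv : v.1 ∈ e
            · have hv' : v'.1 ∈ e := (htw' e he).1 hv
              rw [Finset.card_erase_of_mem hv]
              by_contra hlt
              have h2 := (hF e he).2
              have h3 : ({v.1, v'.1} : Finset ℕ) = e := by
                refine Finset.eq_of_subset_of_card_le ?_ ?_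
                · intro a ha
                  rw [Finset.mem_insert, Finset.mem_singleton] at ha
                  rcases ha with rfl | rfl
                  · exact hv
                  · exact hv'
                · rw [Finset.card_pair hvv.symm]
                  omega
              exact h1 h3.symm
            · rw [Finset.erase_eq_of_notMem hv]
              exact (hF e he).2
        · exfalso
          rcases y with w | f
          · exact incG_ll _ _ hy
          · exact incG_rr _ _ ((htw _).1 hy)
      · rcases x' with v' | e'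
        · exfalso
          rcases y with w | f
          · exact incG_ll _ _ ((htw _).1 hy)
          · exact incG_rr _ _ hy
        · exfalso
          apply hne
          have : e'.1 = e.1 := by
            ext a
            constructor
            · intro ha
              have haK := (hF e'.1 e'.2).1 ha
              exact (incG_rl ⟨a, haK⟩ e).1 ((htw _).2 ((incG_rl ⟨a, haK⟩ e').2 ha))
            · intro ha
              have haK := (hF e.1 e.2).1 ha
              exact (incG_rl ⟨a, haK⟩ e').1 ((htw _).1 ((incG_rl ⟨a, haK⟩ e).2 ha))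
          rw [Subtype.ext this]

end PatSturm
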