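import Pool.Agent.LibPS.Defs
import Pool.Agent.LibPS.SpGraph

/-!
# Sparse words
-/

namespace PatSturm

open Classical in
/-- The trace on the window `K` at position `m` of a set of naturals. -/
noncomputable def spT (A : Set ℕ) (K : Finset ℕ) (m : ℕ) : Finset ℕ :=
  K.filter (fun k => m + k ∈ A)

open Classical in
/-- All traces of a set of naturals. -/
noncomputable def spTs (A : Set ℕ) (K : Finset ℕ) : Finset (Finset ℕ) :=
  K.powerset.filter (fun s => ∃ m, spT A K m = s)

theorem mem_spT {A : Set ℕ} {K : Finset ℕ} {m k : ℕ} : k ∈ spT A K m ↔ k ∈ K ∧ m + k ∈ A := by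
  classical
  unfold spT
  rw [Finset.mem_filter]

theorem spT_sub (A : Set ℕ) (K : Finset ℕ) (m : ℕ) : spT A K m ⊆ K := by
  intro k hk
  exact (mem_spT.1 hk).1

theorem mem_spTs {A : Set ℕ} {K s : Finset ℕ} : s ∈ spTs A K ↔ ∃ m, spT A K m = s := by
  classical
  unfold spTs
  rw [Finset.mem_filter, Finset.mem_powerset]
  constructor
  · rintro ⟨-, h⟩; exact h
  · rintro ⟨m, rfl⟩; exact ⟨spT_sub A K m, m, rfl⟩

theorem card_trs (f : ℕ → Bool) (b : Bool) (K : Finset ℕ) :
    (trs f K).card = (spTs {m | f m = b} K).card := by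
  cases b with
  | true =>
    have h : ∀ m, spT {m | f m = true} K m = tr f K m := by
      intro m
      ext k
      rw [mem_spT]
      simp [tr]
    congr 1
    ext s
    rw [mem_trs, mem_spTs]
    simp only [h]
  | false =>
    have h : ∀ m, spT {m | f m = false} K m = K \ tr f K m := by
      intro m
      ext k
      rw [mem_spT]
      simp only [tr, Set.mem_ofPred_eq, Finset.mem_sdiff, Finset.mem_filter, not_and,
        Bool.not_eq_true]
      tauto
    have hsub : ∀ s ∈ trs f K, s ⊆ K := by
      intro s hs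
      obtain ⟨m, rfl⟩ := mem_trs.1 hs
      exact Finset.filter_subset _ _
    refine Finset.card_bij' (fun s _ => K \ s) (fun s _ => K \ s) ?_ ?_ ?_ ?_
    · intro s hs
      obtain ⟨m, rfl⟩ := mem_trs.1 hs
      exact mem_spTs.2 ⟨m, h m⟩
    · intro s hs
      obtain ⟨m, rfl⟩ := mem_spTs.1 hs
      rw [h m]
      refine mem_trs.2 ⟨m, ?_⟩
      exact (Finset.sdiff_sdiff_eq_self (hsub _ (tr_mem_trs f K m))).symm
    · intro s hs
      exact Finset.sdiff_sdiff_eq_self (hsub s hs)
    · intro s hs
      obtain ⟨m, rfl⟩ := mem_spTs.1 hs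
      exact Finset.sdiff_sdiff_eq_self (spT_sub _ _ _)

/-- The windows of a gappy set show the empty trace. -/
theorem gappy_empty {A : Set ℕ} (hA : Gappy A) (K : Finset ℕ) : ∅ ∈ spTs A K := by
  obtain ⟨N, hN⟩ := hA.2 (K.sup id + 1)
  obtain ⟨a, ha, hNa⟩ := hA.1.exists_gt N
  refine mem_spTs.2 ⟨a + 1, ?_⟩
  rw [Finset.eq_empty_iff_forall_notMem]
  intro k hk
  obtain ⟨hkK, hkA⟩ := mem_spT.1 hk
  have h1 : k ≤ K.sup id := Finset.le_sup (f := id) hkK
  have h2 := hN a (by omega) ha (k + 1) (by omega) (by omega)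
  rw [show a + (k + 1) = a + 1 + k by ring] at h2
  exact h2 hkA

/-- The windows of a gappy set show all singletons. -/
theorem gappy_single {A : Set ℕ} (hA : Gappy A) (K : Finset ℕ) (k : ℕ) (hk : k ∈ K) :
    {k} ∈ spTs A K := by
  obtain ⟨N, hN⟩ := hA.2 (K.sup id + 1)
  obtain ⟨a, ha, hNa⟩ := hA.1.exists_gt (N + K.sup id)
  have hkL : k ≤ K.sup id := Finset.le_sup (f := id) hk
  refine mem_spTs.2 ⟨a - k, ?_⟩
  ext k'
  rw [mem_spT, Finset.mem_singleton]
  constructor
  · rintro ⟨h1, h2⟩
    by_contra hne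
    have h3 : k' ≤ K.sup id := Finset.le_sup (f := id) h1
    rcases Nat.lt_or_ge k k' with h4 | h4
    · have h5 := hN a (by omega) ha (k' - k) (by omega) (by omega)
      rw [show a + (k' - k) = a - k + k' by omega] at h5
      exact h5 h2
    · have h5 := hN (a - k + k') (by omega) h2 (k - k') (by omega) (by omega)
      rw [show a - k + k' + (k - k') = a by omega] at h5
      exact h5 ha
  · rintro rfl
    refine ⟨hk, ?_⟩
    rw [show a - k' + k' = a by omega]
    exact ha

/-- Lower bound for the number of traces of a gappy set. -/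
theorem gappy_card_ge {A : Set ℕ} (hA : Gappy A) (K : Finset ℕ) (G : Finset (Finset ℕ))
    (hG : ∀ s ∈ G, s ∈ spTs A K ∧ 2 ≤ s.card) : 1 + K.card + G.card ≤ (spTs A K).card := by
  have h1 : insert ∅ (K.image (fun k => ({k} : Finset ℕ)) ∪ G) ⊆ spTs A K := by
    intro s hs
    rw [Finset.mem_insert, Finset.mem_union, Finset.mem_image] at hs
    rcases hs with rfl | ⟨k, hk, rfl⟩ | hs
    · exact gappy_empty hA K
    · exact gappy_single hA K k hk
    · exact (hG s hs).1
  refine le_trans (le_of_eq ?_) (Finset.card_le_card h1)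
  rw [Finset.card_insert_of_notMem, Finset.card_union_of_disjoint, Finset.card_image_of_injective]
  · ring
  · exact Finset.singleton_injective
  · rw [Finset.disjoint_left]
    intro s hs hs'
    obtain ⟨k, -, rfl⟩ := Finset.mem_image.1 hs
    have := (hG _ hs').2
    rw [Finset.card_singleton] at this
    omega
  · intro h
    rw [Finset.mem_union, Finset.mem_image] at h
    rcases h with ⟨k, -, hk⟩ | h
    · exact Finset.singleton_ne_empty k hk
    · have := (hG _ h).2
      rw [Finset.card_empty] at this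
      omega

/-- Upper bound for the number of traces of a set without long induced cycles and dominoes. -/
theorem sp_card_le {A : Set ℕ} (hc : ¬ BadCycle A) (hd : ¬ Domino A) (K : Finset ℕ)
    (hK : K.Nonempty) : (spTs A K).card ≤ 2 * K.card := by
  classical
  set F : Finset (Finset ℕ) := (spTs A K).filter (fun s => 2 ≤ s.card) with hFdef
  have hFmem : ∀ e, e ∈ F ↔ (∃ m, spT A K m = e) ∧ 2 ≤ e.card := by
    intro e
    rw [hFdef, Finset.mem_filter, mem_spTs]
  have hFK : ∀ e ∈ F, e ⊆ K ∧ 2 ≤ e.card := by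
    intro e he
    obtain ⟨⟨m, rfl⟩, h2⟩ := (hFmem e).1 he
    exact ⟨spT_sub _ _ _, h2⟩
  have hnc : FNC F := by
    intro n hn e v he h
    apply hc
    choose m hm using fun i => ((hFmem (e i)).1 (he i)).1
    refine ⟨n, hn, m, v, ?_⟩
    intro i j
    rw [← h i j, ← hm i, mem_spT]
    have hv : v j ∈ K := (hFK (e j) (he j)).1 ((h j j).2 (Or.inl rfl))
    exact ⟨fun h => ⟨hv, h⟩, fun h => h.2⟩
  have hnd : FND F := by
    intro e₁ he₁ e₂ he₂ e₃ he₃ v₁ v₂ v₃ h1 h2 h3 h4 h5 h6 h7 h8 h9
    apply hd
    obtain ⟨⟨m₁, rfl⟩, -⟩ := (hFmem e₁).1 he₁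
    obtain ⟨⟨m₂, rfl⟩, -⟩ := (hFmem e₂).1 he₂
    obtain ⟨⟨m₃, rfl⟩, -⟩ := (hFmem e₃).1 he₃
    rw [mem_spT] at h1 h2 h3 h4 h5 h6 h7 h8 h9
    exact ⟨m₁, m₂, m₃, v₁, v₂, v₃, h1.2, h2.2, fun h => h3 ⟨h6.1, h⟩, h4.2, h5.2, h6.2,
      fun h => h7 ⟨h4.1, h⟩, h8.2, h9.2⟩
  have hb := family_bound K.card K F rfl hK hFK hnc hnd
  have h1 : spTs A K ⊆ insert ∅ (K.image (fun k => ({k} : Finset ℕ)) ∪ F) := by
    intro s hs
    obtain ⟨m, hm⟩ := mem_spTs.1 hs
    have hsK : s ⊆ K := hm ▸ spT_sub A K m
    rw [Finset.mem_insert, Finset.mem_union, Finset.mem_image]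
    have : s.card = 0 ∨ s.card = 1 ∨ 2 ≤ s.card := by omega
    rcases this with h | h | h
    · left; exact Finset.card_eq_zero.1 h
    · obtain ⟨k, rfl⟩ := Finset.card_eq_one.1 h
      right; left
      exact ⟨k, hsK (Finset.mem_singleton_self k), rfl⟩
    · right; right
      exact (hFmem s).2 ⟨⟨m, hm⟩, h⟩
  have h2 := Finset.card_le_card h1
  have h3 : (insert ∅ (K.image (fun k => ({k} : Finset ℕ)) ∪ F)).card ≤ 1 + (K.card + F.card) := by
    refine (Finset.card_insert_le _ _).trans ?_
    have h4 := Finset.card_union_le (K.image (fun k => ({k} : Finset ℕ))) F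
    have h5 := Finset.card_image_le (s := K) (f := fun k => ({k} : Finset ℕ))
    omega
  omega

theorem sparse_low (f : ℕ → Bool) (hf : SparseType f) : LowN f := by
  intro K hK
  obtain ⟨b, -, hc, hd⟩ := hf
  rw [card_trs f b K]
  exact sp_card_le hc hd K hK

/-- Windows with many pairs. -/
theorem gappy_pairs {A : Set ℕ} (hA : Gappy A) (n : ℕ) :
    ∃ K : Finset ℕ, K.card = n + 1 ∧ 0 ∈ K ∧ ∀ x ∈ K, x ≠ 0 → ∃ a, spT A K a = {0, x} := by
  induction n with
  | zero => exact ⟨{0}, by simp, by simp, by simp⟩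
  | succ n ih =>
    obtain ⟨K, hc, h0, hK⟩ := ih
    choose! pos hpos using hK
    set L := K.sup id with hL
    have hLle : ∀ x ∈ K, x ≤ L := fun x hx => Finset.le_sup (f := id) hx
    set D := K.sup pos with hD
    have hDle : ∀ x ∈ K, pos x ≤ D := fun x hx => Finset.le_sup (f := pos) hx
    obtain ⟨N₁, hN₁⟩ := hA.2 (L + 1)
    obtain ⟨a, ha, haN⟩ := hA.1.exists_gt (N₁ + D)
    obtain ⟨N₂, hN₂⟩ := hA.2 (a + 1)
    obtain ⟨a', ha', haN'⟩ := hA.1.exists_gt (N₂ + 2 * a + L + 1)
    have hxL : L < a' - a := by omega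
    have hxK : a' - a ∉ K := by
      intro h
      have := hLle _ h
      omega
    refine ⟨insert (a' - a) K, ?_, Finset.mem_insert_of_mem h0, ?_⟩
    · rw [Finset.card_insert_of_notMem hxK, hc]
    · intro x hx hx0
      rcases Finset.mem_insert.1 hx with rfl | hxK'
      · refine ⟨a, ?_⟩
        ext y
        rw [mem_spT, Finset.mem_insert, Finset.mem_insert, Finset.mem_singleton]
        constructor
        · rintro ⟨h1 | h1, h2⟩
          · right; exact h1
          · by_cases hy : y = 0
            · left; exact hy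
            · exfalso
              have h3 := hLle y h1
              exact hN₁ a (by omega) ha y (by omega) (by omega) h2
        · rintro (rfl | rfl)
          · exact ⟨Or.inr h0, by simpa using ha⟩
          · refine ⟨Or.inl rfl, ?_⟩
            rw [show a + (a' - a) = a' by omega]
            exact ha'
      · refine ⟨pos x, ?_⟩
        have h1 := hpos x hxK' hx0
        have hpx := hDle x hxK'
        ext y
        rw [← h1, mem_spT, mem_spT, Finset.mem_insert]
        constructor
        · rintro ⟨h2 | h2, h3⟩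
          · exfalso
            subst h2
            have h4 := hN₂ (pos x + (a' - a)) (by omega) h3 (a - pos x) (by omega) (by omega)
            rw [show pos x + (a' - a) + (a - pos x) = a' by omega] at h4
            exact h4 ha'
          · exact ⟨h2, h3⟩
        · rintro ⟨h2, h3⟩
          exact ⟨Or.inr h2, h3⟩

theorem sparse_high (f : ℕ → Bool) (hf : SparseType f) : HighN f := by
  intro n hn
  obtain ⟨b, hA, -, -⟩ := hf
  obtain ⟨K, hc, h0, hK⟩ := gappy_pairs hA (n - 1)
  refine ⟨K, by omega, ?_⟩
  rw [card_trs f b K]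
  have h1 := gappy_card_ge hA K ((K.erase 0).image (fun x => ({0, x} : Finset ℕ))) ?_
  · have h2 : ((K.erase 0).image (fun x => ({0, x} : Finset ℕ))).card = (K.erase 0).card := by
      apply Finset.card_image_of_injOn
      intro x hx y hy hxy
      have hx0 : x ≠ 0 := (Finset.mem_erase.1 (Finset.mem_coe.1 hx)).1
      have h3 : x ∈ ({0, x} : Finset ℕ) := by simp
      have hxy' : ({0, x} : Finset ℕ) = {0, y} := hxy
      rw [hxy', Finset.mem_insert, Finset.mem_singleton] at h3
      rcases h3 with h3 | h3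
      · exact absurd h3 hx0
      · exact h3
    rw [h2, Finset.card_erase_of_mem h0] at h1
    omega
  · intro s hs
    obtain ⟨x, hx, rfl⟩ := Finset.mem_image.1 hs
    obtain ⟨hx0, hxK⟩ := Finset.mem_erase.1 hx
    obtain ⟨a, ha⟩ := hK x hxK hx0
    refine ⟨mem_spTs.2 ⟨a, ha⟩, ?_⟩
    rw [Finset.card_pair hx0.symm]

theorem sparse_conv (f : ℕ → Bool) (hlow : LowN f) (b : Bool) (hA : Gappy {m | f m = b}) :
    ¬ BadCycle {m | f m = b} ∧ ¬ Domino {m | f m = b} := by
  classical
  set A : Set ℕ := {m | f m = b} with hAdef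
  have hlow' : ∀ K : Finset ℕ, K.Nonempty → (spTs A K).card ≤ 2 * K.card := by
    intro K hK
    rw [← card_trs f b K]
    exact hlow K hK
  constructor
  · rintro ⟨n, hn, m, v, h⟩
    have : NeZero n := ⟨by omega⟩
    have h2 : (2 : ZMod n) ≠ 0 := by
      intro h2
      have h3 : ((2 : ℕ) : ZMod n) = 0 := by exact_mod_cast h2
      rw [ZMod.natCast_eq_zero_iff] at h3
      have := Nat.le_of_dvd (by omega) h3
      omega
    have hvinj : Function.Injective v := by
      intro j j' hjj
      have h3 : m j + v j' ∈ A := by rw [← hjj]; exact (h j j).2 (Or.inl rfl)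
      have h4 : m (j - 1) + v j' ∈ A := by rw [← hjj]; exact (h (j - 1) j).2 (Or.inr (by ring))
      rw [h] at h3 h4
      rcases h3 with h3 | h3
      · exact h3.symm
      · rcases h4 with h4 | h4
        · exfalso
          apply h2
          have : j + 1 = j - 1 := by rw [← h3, h4]
          have h5 : (2 : ZMod n) = (j + 1) - (j - 1) := by ring
          rw [h5, this, sub_self]
        · rw [h4]; ring
    set K : Finset ℕ := Finset.univ.image v with hK
    have hKc : K.card = n := by
      rw [hK, Finset.card_image_of_injective _ hvinj, Finset.card_univ, ZMod.card]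
    have htr : ∀ i, spT A K (m i) = {v i, v (i + 1)} := by
      intro i
      ext y
      rw [mem_spT, hK, Finset.mem_image, Finset.mem_insert, Finset.mem_singleton]
      constructor
      · rintro ⟨⟨j, -, rfl⟩, h3⟩
        rw [h] at h3
        rcases h3 with rfl | rfl
        · left; rfl
        · right; rfl
      · rintro (rfl | rfl)
        · exact ⟨⟨i, Finset.mem_univ _, rfl⟩, (h i i).2 (Or.inl rfl)⟩
        · exact ⟨⟨i + 1, Finset.mem_univ _, rfl⟩, (h i (i + 1)).2 (Or.inr rfl)⟩
    have hone : ∀ i : ZMod n, i ≠ i + 1 := by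
      intro i hi
      have h3 : (1 : ZMod n) = 0 := by
        have : i + 1 = i + 0 := by rw [add_zero]; exact hi.symm
        exact add_left_cancel this
      apply h2
      have : (2 : ZMod n) = 1 + 1 := by ring
      rw [this, h3, add_zero]
    have h3 := gappy_card_ge hA K (Finset.univ.image (fun i => ({v i, v (i + 1)} : Finset ℕ))) ?_
    · have h4 : (Finset.univ.image (fun i => ({v i, v (i + 1)} : Finset ℕ))).card = n := by
        rw [Finset.card_image_of_injective, Finset.card_univ, ZMod.card]
        intro i i' hii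
        have hii' : ({v i, v (i + 1)} : Finset ℕ) = {v i', v (i' + 1)} := hii
        have h5 : v i ∈ ({v i', v (i' + 1)} : Finset ℕ) := by rw [← hii']; simp
        have h6 : v (i + 1) ∈ ({v i', v (i' + 1)} : Finset ℕ) := by rw [← hii']; simp
        rw [Finset.mem_insert, Finset.mem_singleton] at h5 h6
        rcases h5 with h5 | h5
        · exact hvinj h5
        · have h7 := hvinj h5
          rcases h6 with h6 | h6
          · have h8 := hvinj h6
            exfalso
            apply h2
            rw [h7] at h8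
            have h9 : i' + 2 = i' + 0 := by
              rw [add_zero]
              calc i' + 2 = i' + 1 + 1 := by ring
                _ = i' := h8
            exact add_left_cancel h9
          · have h8 := hvinj h6
            exact add_right_cancel h8
      have h5 := hlow' K (Finset.card_pos.1 (by omega))
      omega
    · intro s hs
      obtain ⟨i, -, rfl⟩ := Finset.mem_image.1 hs
      refine ⟨mem_spTs.2 ⟨m i, htr i⟩, ?_⟩
      rw [Finset.card_pair]
      exact fun h => hone i (hvinj h)
  · rintro ⟨m₁, m₂, m₃, v₁, v₂, v₃, h1, h2, h3, h4, h5, h6, h7, h8, h9⟩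
    have h12 : v₁ ≠ v₂ := by rintro rfl; exact h7 h8
    have h13 : v₁ ≠ v₃ := by rintro rfl; exact h3 h1
    have h23 : v₂ ≠ v₃ := by rintro rfl; exact h3 h2
    set K : Finset ℕ := {v₁, v₂, v₃} with hK
    have hKc : K.card = 3 := by
      rw [hK, Finset.card_insert_of_notMem, Finset.card_pair h23]
      simp [h12, h13]
    have t1 : spT A K m₁ = {v₁, v₂} := by
      ext y
      rw [mem_spT, hK]
      simp only [Finset.mem_insert, Finset.mem_singleton]
      constructor
      · rintro ⟨rfl | rfl | rfl, h⟩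
        · left; rfl
        · right; rfl
        · exact absurd h h3
      · rintro (rfl | rfl)
        · exact ⟨Or.inl rfl, h1⟩
        · exact ⟨Or.inr (Or.inl rfl), h2⟩
    have t2 : spT A K m₂ = {v₁, v₂, v₃} := by
      ext y
      rw [mem_spT, hK]
      simp only [Finset.mem_insert, Finset.mem_singleton]
      constructor
      · rintro ⟨h, -⟩; exact h
      · rintro (rfl | rfl | rfl)
        · exact ⟨Or.inl rfl, h4⟩
        · exact ⟨Or.inr (Or.inl rfl), h5⟩
        · exact ⟨Or.inr (Or.inr rfl), h6⟩
    have t3 : spT A K m₃ = {v₂, v₃} := by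
      ext y
      rw [mem_spT, hK]
      simp only [Finset.mem_insert, Finset.mem_singleton]
      constructor
      · rintro ⟨rfl | rfl | rfl, h⟩
        · exact absurd h h7
        · left; rfl
        · right; rfl
      · rintro (rfl | rfl)
        · exact ⟨Or.inr (Or.inl rfl), h8⟩
        · exact ⟨Or.inr (Or.inr rfl), h9⟩
    have h10 := gappy_card_ge hA K {{v₁, v₂}, {v₁, v₂, v₃}, {v₂, v₃}} ?_
    · have h11 : ({{v₁, v₂}, {v₁, v₂, v₃}, {v₂, v₃}} : Finset (Finset ℕ)).card = 3 := by
        rw [Finset.card_insert_of_notMem, Finset.card_pair]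
        · intro h
          have : v₁ ∈ ({v₂, v₃} : Finset ℕ) := by rw [← h]; simp
          simp [h12, h13] at this
        · intro h
          rw [Finset.mem_insert, Finset.mem_singleton] at h
          rcases h with h | h
          · have : v₃ ∈ ({v₁, v₂} : Finset ℕ) := by rw [h]; simp
            simp [h13.symm, h23.symm] at this
          · have : v₁ ∈ ({v₂, v₃} : Finset ℕ) := by rw [← h]; simp
            simp [h12, h13] at this
      have h12' := hlow' K (Finset.card_pos.1 (by omega))
      omega
    · intro s hs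
      simp only [Finset.mem_insert, Finset.mem_singleton] at hs
      rcases hs with rfl | rfl | rfl
      · exact ⟨mem_spTs.2 ⟨m₁, t1⟩, by rw [Finset.card_pair h12]⟩
      · exact ⟨mem_spTs.2 ⟨m₂, t2⟩, by rw [← hK, hKc]; omega⟩
      · exact ⟨mem_spTs.2 ⟨m₃, t3⟩, by rw [Finset.card_pair h23]⟩

end PatSturm
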