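import Pool.Agent.LibPS.Defs

/-!
# Toeplitz-type words have exactly `2n` patterns
-/

namespace PatSturm

open Finset

/-- Partial products. -/
def PP (p : ℕ → ℕ) (i : ℕ) : ℕ := ∏ l ∈ Finset.range i, p l

theorem PP_zero (p : ℕ → ℕ) : PP p 0 = 1 := by simp [PP]

theorem PP_succ (p : ℕ → ℕ) (i : ℕ) : PP p (i + 1) = PP p i * p i := by
  simp [PP, Finset.prod_range_succ]

theorem PP_succ' (p : ℕ → ℕ) (i : ℕ) : PP p (i + 1) = p 0 * PP (fun l => p (l + 1)) i := by
  simp [PP, Finset.prod_range_succ', mul_comm]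

theorem PP_pos {p : ℕ → ℕ} (hp : ∀ i, 2 ≤ p i) (i : ℕ) : 0 < PP p i :=
  Finset.prod_pos fun l _ => by have := hp l; omega

/-- `x` is coded by the simple structure `(p, a)`. -/
def SC (p : ℕ → ℕ) (a : ℕ → Bool) (x : ℤ → Bool) : Prop :=
  ∃ h : ℕ → ℤ, (∀ i, (PP p i : ℤ) ∣ h (i + 1) - h i) ∧
    ∀ m i, (PP p i : ℤ) ∣ m - h i → ¬ (PP p (i + 1) : ℤ) ∣ m - h (i + 1) → x m = a i

theorem SC.inner {p : ℕ → ℕ} (hp : ∀ i, 2 ≤ p i) {a : ℕ → Bool} {x : ℤ → Bool} (h : SC p a x) :
    ∃ c : ℤ, c % (p 0 : ℤ) = c ∧ (∀ m, m % (p 0 : ℤ) ≠ c → x m = a 0) ∧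
      SC (fun l => p (l + 1)) (fun l => a (l + 1)) (fun n => x (c + p 0 * n)) := by
  obtain ⟨h, hc, hx⟩ := h
  have hp0 : (p 0 : ℤ) ≠ 0 := by have := hp 0; omega
  have hcoh : ∀ i, (p 0 : ℤ) ∣ h (i + 1) - h 1 := by
    intro i
    induction i with
    | zero => simp
    | succ i ih =>
      have h1 : (p 0 : ℤ) ∣ h (i + 1 + 1) - h (i + 1) := by
        refine dvd_trans ?_ (hc (i + 1))
        rw [PP_succ']; push_cast; exact dvd_mul_right _ _
      have e : h (i + 1 + 1) - h 1 = (h (i + 1 + 1) - h (i + 1)) + (h (i + 1) - h 1) := by ring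
      rw [e]; exact dvd_add h1 ih
  set c := h 1 % (p 0 : ℤ) with hcdef
  have hc1 : (p 0 : ℤ) ∣ h 1 - c := by
    rw [hcdef]; exact Int.dvd_self_sub_emod
  have hci : ∀ i, (p 0 : ℤ) ∣ h (i + 1) - c := by
    intro i
    have e : h (i + 1) - c = (h (i + 1) - h 1) + (h 1 - c) := by ring
    rw [e]; exact dvd_add (hcoh i) hc1
  refine ⟨c, ?_, ?_, fun i => (h (i + 1) - c) / p 0, ?_, ?_⟩
  · rw [hcdef]; exact Int.emod_emod_of_dvd _ dvd_rfl
  · intro m hm
    refine hx m 0 (by rw [PP_zero]; simp) ?_
    rw [PP_succ', PP_zero]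
    push_cast
    rw [mul_one]
    intro hd
    apply hm
    rw [hcdef]
    exact Int.emod_eq_emod_iff_emod_sub_eq_zero.2 (Int.emod_eq_zero_of_dvd hd)
  · intro i
    have h1 := hc (i + 1)
    rw [PP_succ'] at h1
    push_cast at h1
    obtain ⟨u, hu⟩ := hci i
    obtain ⟨v, hv⟩ := hci (i + 1)
    show (PP (fun l => p (l + 1)) i : ℤ) ∣ (h (i + 1 + 1) - c) / p 0 - (h (i + 1) - c) / p 0
    rw [hu, hv, Int.mul_ediv_cancel_left _ hp0, Int.mul_ediv_cancel_left _ hp0]
    have h2 : h (i + 1 + 1) - h (i + 1) = p 0 * (v - u) := by linear_combination hv - hu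
    rw [h2] at h1
    exact Int.dvd_of_mul_dvd_mul_left hp0 h1
  · intro m i h1 h2
    obtain ⟨u, hu⟩ := hci i
    obtain ⟨v, hv⟩ := hci (i + 1)
    simp only at h1 h2
    rw [hu, Int.mul_ediv_cancel_left _ hp0] at h1
    rw [hv, Int.mul_ediv_cancel_left _ hp0] at h2
    refine hx _ (i + 1) ?_ ?_
    · rw [PP_succ']
      push_cast
      have : c + p 0 * m - h (i + 1) = p 0 * (m - u) := by linear_combination -hu
      rw [this]
      exact mul_dvd_mul_left _ h1
    · rw [PP_succ']
      push_cast
      have : c + p 0 * m - h (i + 1 + 1) = p 0 * (m - v) := by linear_combination -hv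
      rw [this]
      intro h3
      exact h2 (Int.dvd_of_mul_dvd_mul_left hp0 h3)

open Classical in
/-- Nonconstant patterns of the words coded by `(p, a)`. -/
noncomputable def NPat (p : ℕ → ℕ) (a : ℕ → Bool) (K : Finset ℤ) : Finset (Finset ℤ) :=
  K.powerset.filter (fun s => s ≠ ∅ ∧ s ≠ K ∧ ∃ x, SC p a x ∧ ztr x K = s)

theorem mem_NPat {p : ℕ → ℕ} {a : ℕ → Bool} {K s : Finset ℤ} :
    s ∈ NPat p a K ↔ s ≠ ∅ ∧ s ≠ K ∧ ∃ x, SC p a x ∧ ztr x K = s := by
  classical
  unfold NPat
  simp only [Finset.mem_filter, Finset.mem_powerset]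
  constructor
  · rintro ⟨-, h⟩; exact h
  · rintro ⟨h1, h2, x, hx, rfl⟩; exact ⟨Finset.filter_subset _ _, h1, h2, x, hx, rfl⟩

/-- The window seen by the inner word on the class `c` modulo `q`. -/
def Kc (q : ℤ) (c : ℤ) (K : Finset ℤ) : Finset ℤ :=
  (K.filter (fun k => k % q = c)).image (fun k => (k - c) / q)

theorem mem_Kc {q c : ℤ} (hq : 0 < q) {K : Finset ℤ} {n : ℤ} (hc : c % q = c) :
    n ∈ Kc q c K ↔ c + q * n ∈ K := by
  unfold Kc
  simp only [mem_image, mem_filter]
  constructor
  · rintro ⟨k, ⟨hk, hkc⟩, rfl⟩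
    have h1 : q ∣ k - c := by
      rw [← hkc]; exact Int.dvd_self_sub_emod
    rw [Int.mul_ediv_cancel' h1]
    convert hk using 1; ring
  · intro h
    refine ⟨c + q * n, ⟨h, ?_⟩, ?_⟩
    · rw [Int.add_mul_emod_self_left, hc]
    · have : c + q * n - c = q * n := by ring
      rw [this, Int.mul_ediv_cancel_left _ hq.ne']

theorem card_Kc {q c : ℤ} (K : Finset ℤ) :
    (Kc q c K).card = (K.filter (fun k => k % q = c)).card := by
  unfold Kc
  refine card_image_of_injOn ?_
  intro k hk k' hk' h
  simp only [coe_filter, Set.mem_ofPred_eq] at hk hk' h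
  have h1 : q ∣ k - c := by rw [← hk.2]; exact Int.dvd_self_sub_emod
  have h2 : q ∣ k' - c := by rw [← hk'.2]; exact Int.dvd_self_sub_emod
  have h3 := Int.mul_ediv_cancel' h1
  have h4 := Int.mul_ediv_cancel' h2
  rw [h] at h3
  linarith

theorem sum_classes (q : ℤ) (K : Finset ℤ) :
    ∑ c ∈ K.image (fun k => k % q), (K.filter (fun k => k % q = c)).card = K.card :=
  (Finset.card_eq_sum_card_image _ _).symm

/-- The number of nonconstant patterns of simple Toeplitz words. -/
theorem NPat_card (B : ℕ) : ∀ (p : ℕ → ℕ) (_ : ∀ i, 2 ≤ p i) (a : ℕ → Bool) (K : Finset ℤ),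
    K.Nonempty → (∀ k ∈ K, ∀ k' ∈ K, |k - k'| ≤ B) → (NPat p a K).card + 2 ≤ 2 * K.card := by
  classical
  induction B using Nat.strong_induction_on with
  | _ B ih =>
  intro p hp a K hne hB
  by_cases h1 : K.card = 1
  · obtain ⟨k, rfl⟩ := card_eq_one.1 h1
    have : NPat p a {k} = ∅ := by
      rw [Finset.eq_empty_iff_forall_notMem]
      intro s hs
      obtain ⟨h1, h2, x, -, rfl⟩ := mem_NPat.1 hs
      rcases Finset.subset_singleton_iff.1 (Finset.filter_subset (fun k => x k = true) {k}) with
        h | h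
      · exact h1 h
      · exact h2 h
    rw [this]; simp
  have h2 : 2 ≤ K.card := by
    have := hne.card_pos; omega
  -- B is positive
  have hBpos : 0 < B := by
    rcases Nat.eq_zero_or_pos B with h0 | h0
    · exfalso
      subst h0
      apply h1
      rw [card_eq_one]
      obtain ⟨k, hk⟩ := hne
      refine ⟨k, Finset.eq_singleton_iff_unique_mem.2 ⟨hk, fun k' hk' => ?_⟩⟩
      have := hB k' hk' k hk
      have := abs_nonneg (k' - k)
      have h3 : |k' - k| = 0 := by push_cast at *; linarith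
      rw [abs_eq_zero] at h3; linarith
    · exact h0
  have hp0 : 2 ≤ p 0 := hp 0
  have hq : (0 : ℤ) < p 0 := by omega
  set q : ℤ := (p 0 : ℤ) with hqdef
  set C := K.image (fun k => k % q) with hC
  have hCc : ∀ c ∈ C, c % q = c := by
    intro c hc
    rw [hC, mem_image] at hc
    obtain ⟨k, -, rfl⟩ := hc
    exact Int.emod_emod_of_dvd _ dvd_rfl
  have hKne : ∀ c ∈ C, (Kc q c K).Nonempty := by
    intro c hc
    rw [hC, mem_image] at hc
    obtain ⟨k, hk, rfl⟩ := hc
    unfold Kc
    exact ⟨_, mem_image_of_mem _ (mem_filter.2 ⟨hk, rfl⟩)⟩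
  -- induction hypothesis for the inner windows
  have hin : ∀ c ∈ C, (NPat (fun l => p (l + 1)) (fun l => a (l + 1)) (Kc q c K)).card + 2 ≤
      2 * (Kc q c K).card := by
    intro c hc
    refine ih (B / 2) (by omega) _ (fun i => hp (i + 1)) _ _ (hKne c hc) ?_
    intro n hn n' hn'
    rw [mem_Kc hq (hCc c hc)] at hn hn'
    have := hB _ hn _ hn'
    have h3 : c + q * n - (c + q * n') = q * (n - n') := by ring
    rw [h3, abs_mul, abs_of_pos hq] at this
    have h4 : (2 : ℤ) * |n - n'| ≤ B := by
      have : (2 : ℤ) ≤ q := by rw [hqdef]; exact_mod_cast hp0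
      nlinarith [abs_nonneg (n - n')]
    push_cast
    omega
  -- the pattern determined by the class and the inner pattern
  let Φ : ℤ → Finset ℤ → Finset ℤ := fun c s' =>
    (if a 0 = true then K.filter (fun k => k % q ≠ c) else ∅) ∪
      K.filter (fun k => k % q = c ∧ (k - c) / q ∈ s')
  have hmemΦ : ∀ c s' k, k ∈ Φ c s' ↔ k ∈ K ∧ ((k % q ≠ c ∧ a 0 = true) ∨
      (k % q = c ∧ (k - c) / q ∈ s')) := by
    intro c s' k
    simp only [Φ, mem_union, mem_filter]
    split_ifs with ha
    · simp only [mem_filter, ha]; tauto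
    · simp only [notMem_empty, ha]; tauto
  have hrep : ∀ s ∈ NPat p a K, ∃ c ∈ C, ∃ y, SC (fun l => p (l + 1)) (fun l => a (l + 1)) y ∧
      s = Φ c (ztr y (Kc q c K)) := by
    intro s hs
    obtain ⟨hs0, hsK, x, hx, rfl⟩ := mem_NPat.1 hs
    obtain ⟨c, hc, hout, hinn⟩ := hx.inner hp
    refine ⟨c, ?_, _, hinn, ?_⟩
    · by_contra hcC
      have hall : ∀ k ∈ K, x k = a 0 := by
        intro k hk
        apply hout
        intro h
        apply hcC
        rw [hC, mem_image]
        exact ⟨k, hk, h⟩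
      cases ha : a 0 with
      | true =>
        apply hsK
        unfold ztr
        rw [Finset.filter_eq_self]
        intro k hk; rw [hall k hk, ha]
      | false =>
        apply hs0
        unfold ztr
        rw [Finset.filter_eq_empty_iff]
        intro k hk; rw [hall k hk, ha]; simp
    · ext k
      rw [hmemΦ]
      unfold ztr
      simp only [mem_filter]
      constructor
      · rintro ⟨hk, hxk⟩
        refine ⟨hk, ?_⟩
        by_cases hkc : k % q = c
        · right
          have h1 : q ∣ k - c := by rw [← hkc]; exact Int.dvd_self_sub_emod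
          have h2 : c + q * ((k - c) / q) = k := by rw [Int.mul_ediv_cancel' h1]; ring
          refine ⟨hkc, ?_, ?_⟩
          · rw [mem_Kc hq hc, h2]; exact hk
          · rw [← hqdef, h2]; exact hxk
        · left
          exact ⟨hkc, by rw [← hout k hkc]; exact hxk⟩
      · rintro ⟨hk, ⟨hkc, ha⟩ | ⟨hkc, hmem, hxk⟩⟩
        · exact ⟨hk, by rw [hout k hkc, ha]⟩
        · have h1 : q ∣ k - c := by rw [← hkc]; exact Int.dvd_self_sub_emod
          have h2 : c + q * ((k - c) / q) = k := by rw [Int.mul_ediv_cancel' h1]; ring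
          rw [← hqdef, h2] at hxk
          exact ⟨hk, hxk⟩
  have hsum := sum_classes q K
  rw [← hC] at hsum
  have hcards : ∀ c ∈ C, (Kc q c K).card = (K.filter (fun k => k % q = c)).card :=
    fun c _ => card_Kc K
  by_cases hC1 : C.card = 1
  · -- a single class
    obtain ⟨c, hCc'⟩ := card_eq_one.1 hC1
    have hcC : c ∈ C := by rw [hCc']; simp
    have hallc : ∀ k ∈ K, k % q = c := by
      intro k hk
      have : k % q ∈ C := by rw [hC]; exact mem_image_of_mem _ hk
      rw [hCc'] at this
      exact mem_singleton.1 this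
    have hKK : (Kc q c K).card = K.card := by
      rw [card_Kc]
      congr 1
      exact Finset.filter_true_of_mem hallc
    have hsub : NPat p a K ⊆ (NPat (fun l => p (l + 1)) (fun l => a (l + 1)) (Kc q c K)).image
        (Φ c) := by
      intro s hs
      obtain ⟨c', hc', y, hy, hsy⟩ := hrep s hs
      rw [hCc', mem_singleton] at hc'
      subst hc'
      rw [mem_image]
      refine ⟨ztr y (Kc q c' K), ?_, hsy.symm⟩
      rw [mem_NPat]
      obtain ⟨hs0, hsK, -⟩ := mem_NPat.1 hs
      refine ⟨?_, ?_, y, hy, rfl⟩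
      · intro h0
        apply hs0
        rw [hsy, h0, Finset.eq_empty_iff_forall_notMem]
        intro k hk
        rw [hmemΦ] at hk
        rcases hk.2 with h | h
        · exact h.1 (hallc k hk.1)
        · simp at h
      · intro h0
        apply hsK
        rw [hsy, h0]
        ext k
        rw [hmemΦ]
        constructor
        · exact fun h => h.1
        · intro hk
          refine ⟨hk, Or.inr ⟨hallc k hk, ?_⟩⟩
          unfold Kc
          exact mem_image_of_mem _ (mem_filter.2 ⟨hk, hallc k hk⟩)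
    have h3 := (card_le_card hsub).trans card_image_le
    have h4 := hin c hcC
    omega
  · -- at least two classes
    have hC2 : 2 ≤ C.card := by
      have : 0 < C.card := by
        rw [hC]; exact (hne.image _).card_pos
      omega
    have hsub : NPat p a K ⊆ C.biUnion (fun c =>
        (insert (if a 0 = true then ∅ else Kc q c K)
          (NPat (fun l => p (l + 1)) (fun l => a (l + 1)) (Kc q c K))).image (Φ c)) := by
      intro s hs
      obtain ⟨c, hc, y, hy, hsy⟩ := hrep s hs
      rw [mem_biUnion]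
      refine ⟨c, hc, ?_⟩
      rw [mem_image]
      refine ⟨ztr y (Kc q c K), ?_, hsy.symm⟩
      rw [mem_insert]
      obtain ⟨hs0, hsK, -⟩ := mem_NPat.1 hs
      by_cases h0 : ztr y (Kc q c K) = ∅
      · left
        rw [h0]
        split_ifs with ha
        · rfl
        · exfalso
          apply hs0
          rw [hsy, h0, Finset.eq_empty_iff_forall_notMem]
          intro k hk
          rw [hmemΦ] at hk
          rcases hk.2 with h | h
          · exact ha h.2
          · simp at h
      · by_cases hK : ztr y (Kc q c K) = Kc q c K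
        · left
          rw [hK]
          split_ifs with ha
          · exfalso
            apply hsK
            rw [hsy, hK]
            ext k
            rw [hmemΦ]
            constructor
            · exact fun h => h.1
            · intro hk
              refine ⟨hk, ?_⟩
              by_cases hkc : k % q = c
              · right
                refine ⟨hkc, ?_⟩
                unfold Kc
                exact mem_image_of_mem _ (mem_filter.2 ⟨hk, hkc⟩)
              · exact Or.inl ⟨hkc, ha⟩
          · rfl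
        · right
          rw [mem_NPat]
          exact ⟨h0, hK, y, hy, rfl⟩
    have h3 : (NPat p a K).card + C.card ≤ 2 * K.card := by
      calc (NPat p a K).card + C.card
          ≤ ∑ c ∈ C, ((NPat (fun l => p (l + 1)) (fun l => a (l + 1)) (Kc q c K)).card + 1)
            + C.card := by
            gcongr
            refine (card_le_card hsub).trans (card_biUnion_le.trans ?_)
            refine sum_le_sum fun c _ => ?_
            exact card_image_le.trans (card_insert_le _ _)
        _ = ∑ c ∈ C, ((NPat (fun l => p (l + 1)) (fun l => a (l + 1)) (Kc q c K)).card + 2) := by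
            rw [card_eq_sum_ones, ← sum_add_distrib]
        _ ≤ ∑ c ∈ C, 2 * (K.filter (fun k => k % q = c)).card := by
            refine sum_le_sum fun c hc => ?_
            rw [← hcards c hc]; exact hin c hc
        _ = 2 * K.card := by rw [← mul_sum, hsum]
    omega

/-! ## The skeleton patterns -/

/-- The value of the skeleton (with hole filled by `b`) at phase `u` modulo `q`. -/
def Sk (q : ℤ) (j : ℕ) (b : Bool) (u : ℤ) : Prop := (q ∣ u ∧ b = true) ∨ (¬ q ∣ u ∧ u % q ≤ j)

open Classical in
/-- The skeleton pattern on `K` at phase `t`. -/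
noncomputable def Gk (q r : ℤ) (j : ℕ) (K : Finset ℤ) (t : ℤ) (b : Bool) : Finset ℤ :=
  K.filter (fun k => Sk q j b (r * k - t))

theorem Sk_congr {q : ℤ} {j : ℕ} {b : Bool} {u v : ℤ} (h : q ∣ u - v) :
    Sk q j b u ↔ Sk q j b v := by
  have h1 : q ∣ u ↔ q ∣ v := by
    constructor
    · intro h2; have := dvd_sub h2 h; simpa using this
    · intro h2; have := dvd_add h h2; simpa using this
  have h2 : u % q = v % q := Int.emod_eq_emod_iff_emod_sub_eq_zero.2 (Int.emod_eq_zero_of_dvd h)
  unfold Sk
  rw [h1, h2]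

/-- Removing the element at phase `0`. -/
theorem Sk_step1 {q : ℤ} {j : ℕ} {u : ℤ} (h : ¬ q ∣ u) : Sk q j false u ↔ Sk q j true u := by
  unfold Sk; simp [h]

/-- Adding the element at phase `J`. -/
theorem Sk_step2 {q : ℤ} (hq : 0 < q) {j : ℕ} {u : ℤ} (h : ¬ q ∣ u - min (j : ℤ) (q - 1)) :
    Sk q j true u ↔ Sk q j false (u + 1) := by
  have e1 := Int.mul_ediv_add_emod u q
  have h0 := Int.emod_nonneg u hq.ne'
  have h1 := Int.emod_lt_of_pos u hq
  set v := u % q with hv
  have hne : v ≠ min (j : ℤ) (q - 1) := by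
    intro hh
    apply h
    rw [← hh, hv]
    exact Int.dvd_self_sub_emod
  have hd : q ∣ u ↔ v = 0 := by rw [hv]; exact Int.dvd_iff_emod_eq_zero
  have h2 : (u + 1) % q = if v = q - 1 then 0 else v + 1 := by
    have e2 : u + 1 = (v + 1) + q * (u / q) := by linarith
    rw [e2, Int.add_mul_emod_self_left]
    split_ifs with hc
    · rw [hc]; simp
    · exact Int.emod_eq_of_lt (by omega) (by omega)
  have hd1 : q ∣ u + 1 ↔ v = q - 1 := by
    rw [Int.dvd_iff_emod_eq_zero, h2]
    split_ifs with hc
    · simp [hc]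
    · constructor
      · intro h3; omega
      · intro h3; exact absurd h3 hc
  unfold Sk
  rw [hd, hd1, h2]
  split_ifs with hc
  · constructor
    · rintro (⟨h3, -⟩ | ⟨h3, h4⟩)
      · exfalso
        apply hne
        rw [min_def]; split_ifs with hj <;> omega
      · exfalso
        apply hne
        rw [min_def]; split_ifs with hj <;> omega
    · rintro (⟨h3, h4⟩ | ⟨h3, h4⟩)
      · cases h4
      · exact absurd hc h3
  · constructor
    · rintro (⟨h3, -⟩ | ⟨h3, h4⟩)
      · right
        refine ⟨hc, ?_⟩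
        by_contra hcon
        apply hne
        rw [min_def]; split_ifs with hj <;> omega
      · right
        refine ⟨hc, ?_⟩
        by_contra hcon
        apply hne
        rw [min_def]; split_ifs with hj <;> omega
    · rintro (⟨h3, h4⟩ | ⟨h3, h4⟩)
      · cases h4
      · by_cases h5 : v = 0
        · exact Or.inl ⟨h5, rfl⟩
        · exact Or.inr ⟨h5, by omega⟩

/-- A small family containing all the skeleton patterns. -/
noncomputable def Wk (q r : ℤ) (j : ℕ) (K : Finset ℤ) : Finset (Finset ℤ) :=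
  (K.image (fun k => (r * k) % q)).image (fun e => Gk q r j K e false) ∪
    (K.image (fun k => (r * k) % q)).image
      (fun e => Gk q r j K (e - min (j : ℤ) (q - 1)) true)

theorem Gk_congr {q r : ℤ} {j : ℕ} {K : Finset ℤ} {t t' : ℤ} {b : Bool} (h : q ∣ t - t') :
    Gk q r j K t b = Gk q r j K t' b := by
  classical
  unfold Gk
  refine Finset.filter_congr fun k _ => Sk_congr ?_
  have : r * k - t - (r * k - t') = -(t - t') := by ring
  rw [this]; exact (dvd_neg).2 h

theorem Gk_false_mem {q r : ℤ} (hq : 0 < q) {j : ℕ} {K : Finset ℤ} {k₀ : ℤ} (hk₀ : k₀ ∈ K)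
    (d : ℕ) : ∀ t : ℤ, (t - r * k₀) % q = d → Gk q r j K t false ∈ Wk q r j K := by
  classical
  -- the two elementary steps
  have hA : ∀ t, (∃ k ∈ K, q ∣ r * k - t) → Gk q r j K t false ∈ Wk q r j K := by
    rintro t ⟨k, hk, hd⟩
    unfold Wk
    rw [mem_union]; left
    rw [mem_image]
    refine ⟨(r * k) % q, mem_image_of_mem _ hk, ?_⟩
    apply Gk_congr
    have e : (r * k) % q - t = (r * k - t) - (r * k - (r * k) % q) := by ring
    rw [e]; exact dvd_sub hd Int.dvd_self_sub_emod
  have hB : ∀ t, (∃ k ∈ K, q ∣ r * k - t - min (j : ℤ) (q - 1)) →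
      Gk q r j K t true ∈ Wk q r j K := by
    rintro t ⟨k, hk, hd⟩
    unfold Wk
    rw [mem_union]; right
    rw [mem_image]
    refine ⟨(r * k) % q, mem_image_of_mem _ hk, ?_⟩
    apply Gk_congr
    have e : (r * k) % q - min (j : ℤ) (q - 1) - t =
      (r * k - t - min (j : ℤ) (q - 1)) - (r * k - (r * k) % q) := by ring
    rw [e]; exact dvd_sub hd Int.dvd_self_sub_emod
  have hA' : ∀ t, ¬ (∃ k ∈ K, q ∣ r * k - t) → Gk q r j K t false = Gk q r j K t true := by
    intro t ht
    push Not at ht
    unfold Gk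
    exact Finset.filter_congr fun k hk => Sk_step1 (ht k hk)
  have hB' : ∀ t, ¬ (∃ k ∈ K, q ∣ r * k - t - min (j : ℤ) (q - 1)) →
      Gk q r j K t true = Gk q r j K (t - 1) false := by
    intro t ht
    push Not at ht
    unfold Gk
    refine Finset.filter_congr fun k hk => ?_
    rw [Sk_step2 hq (ht k hk)]
    have e : r * k - (t - 1) = r * k - t + 1 := by ring
    rw [e]
  induction d with
  | zero =>
    intro t ht
    apply hA
    refine ⟨k₀, hk₀, ?_⟩
    have h1 : q ∣ t - r * k₀ := Int.dvd_of_emod_eq_zero (by simpa using ht)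
    have e : r * k₀ - t = -(t - r * k₀) := by ring
    rw [e]; exact (dvd_neg).2 h1
  | succ d ih =>
    intro t ht
    by_cases h1 : ∃ k ∈ K, q ∣ r * k - t
    · exact hA t h1
    · rw [hA' t h1]
      by_cases h2 : ∃ k ∈ K, q ∣ r * k - t - min (j : ℤ) (q - 1)
      · exact hB t h2
      · rw [hB' t h2]
        apply ih
        have h3 := Int.emod_lt_of_pos (t - r * k₀) hq
        have e : t - 1 - r * k₀ = d + q * ((t - r * k₀) / q) := by
          have := Int.mul_ediv_add_emod (t - r * k₀) q
          push_cast at ht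
          linarith
        rw [e, Int.add_mul_emod_self_left]
        push_cast at ht
        exact Int.emod_eq_of_lt (by omega) (by omega)

theorem Gk_mem {q r : ℤ} (hq : 0 < q) {j : ℕ} {K : Finset ℤ} (hne : K.Nonempty) (t : ℤ)
    (b : Bool) : Gk q r j K t b ∈ Wk q r j K := by
  classical
  obtain ⟨k₀, hk₀⟩ := hne
  have hf : ∀ t, Gk q r j K t false ∈ Wk q r j K := by
    intro t
    refine Gk_false_mem hq hk₀ ((t - r * k₀) % q).toNat t ?_
    rw [Int.toNat_of_nonneg (Int.emod_nonneg _ hq.ne')]
  cases b with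
  | false => exact hf t
  | true =>
    by_cases h2 : ∃ k ∈ K, q ∣ r * k - t - min (j : ℤ) (q - 1)
    · obtain ⟨k, hk, hd⟩ := h2
      unfold Wk
      rw [mem_union]; right
      rw [mem_image]
      refine ⟨(r * k) % q, mem_image_of_mem _ hk, ?_⟩
      apply Gk_congr
      have e : (r * k) % q - min (j : ℤ) (q - 1) - t =
        (r * k - t - min (j : ℤ) (q - 1)) - (r * k - (r * k) % q) := by ring
      rw [e]; exact dvd_sub hd Int.dvd_self_sub_emod
    · push Not at h2
      have : Gk q r j K t true = Gk q r j K (t - 1) false := by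
        unfold Gk
        refine Finset.filter_congr fun k hk => ?_
        rw [Sk_step2 hq (h2 k hk)]
        have e : r * k - (t - 1) = r * k - t + 1 := by ring
        rw [e]
      rw [this]; exact hf _

theorem Wk_card {q r : ℤ} {j : ℕ} {K : Finset ℤ} :
    (Wk q r j K).card ≤ 2 * (K.image (fun k => k % q)).card := by
  have h1 : (K.image (fun k => (r * k) % q)).card ≤ (K.image (fun k => k % q)).card := by
    have : K.image (fun k => (r * k) % q) = (K.image (fun k => k % q)).image
        (fun e => (r * e) % q) := by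
      rw [image_image]
      refine image_congr fun k _ => ?_
      simp [Function.comp, Int.mul_emod]
    rw [this]; exact card_image_le
  unfold Wk
  refine (card_union_le _ _).trans ?_
  have h2 := card_image_le (s := K.image (fun k => (r * k) % q)) (f := fun e => Gk q r j K e false)
  have h3 := card_image_le (s := K.image (fun k => (r * k) % q))
    (f := fun e => Gk q r j K (e - min (j : ℤ) (q - 1)) true)
  omega

/-! ## Two-sided extension -/

theorem TPar.Q_eq (D : TPar) (i : ℕ) : D.Q i = D.q * PP D.p i := rfl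

theorem TPar.Q_zero (D : TPar) : D.Q 0 = D.q := by simp [TPar.Q]

theorem TPar.Q_succ (D : TPar) (i : ℕ) : D.Q (i + 1) = D.Q i * D.p i := by
  rw [D.Q_eq, D.Q_eq, PP_succ, mul_assoc]

theorem TPar.Q_dvd (D : TPar) {i i' : ℕ} (h : i ≤ i') : D.Q i ∣ D.Q i' := by
  induction h with
  | refl => exact dvd_rfl
  | step _ ih => exact ih.trans (by rw [D.Q_succ]; exact dvd_mul_right _ _)

theorem TPar.Coh.dvd {D : TPar} {h : ℕ → ℤ} (hc : D.Coh h) {i i' : ℕ} (hi : i ≤ i') :
    (D.Q i : ℤ) ∣ h i' - h i := by
  induction hi with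
  | refl => simp
  | @step m hm ih =>
    have h1 : (D.Q i : ℤ) ∣ h (m + 1) - h m := (Int.natCast_dvd_natCast.2 (D.Q_dvd hm)).trans (hc m)
    have e : h (m + 1) - h i = (h (m + 1) - h m) + (h m - h i) := by ring
    rw [e]; exact dvd_add h1 ih

theorem TPar.level_unique {D : TPar} {h : ℕ → ℤ} (hc : D.Coh h) {m : ℤ} {i i' : ℕ}
    (h1 : (D.Q i : ℤ) ∣ m - h i) (h2 : ¬ (D.Q (i + 1) : ℤ) ∣ m - h (i + 1))
    (h1' : (D.Q i' : ℤ) ∣ m - h i') (h2' : ¬ (D.Q (i' + 1) : ℤ) ∣ m - h (i' + 1)) : i = i' := by
  have key : ∀ {i i' : ℕ}, ¬ (D.Q (i + 1) : ℤ) ∣ m - h (i + 1) →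
      (D.Q i' : ℤ) ∣ m - h i' → ¬ i < i' := by
    intro i i' h2 h1' hlt
    apply h2
    have h3 : (D.Q (i + 1) : ℤ) ∣ m - h i' :=
      (Int.natCast_dvd_natCast.2 (D.Q_dvd hlt)).trans h1'
    have h4 := hc.dvd (i := i + 1) (i' := i') hlt
    have e : m - h (i + 1) = (m - h i') + (h i' - h (i + 1)) := by ring
    rw [e]; exact dvd_add h3 h4
  have := key h2 h1'
  have := key h2' h1
  omega

open Classical in
/-- Coded words on the naturals extend to coded two-sided words. -/
theorem TPar.extend {D : TPar} {h : ℕ → ℤ} (hc : D.Coh h) {f : ℕ → Bool}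
    (hf : ∀ m : ℕ, D.Cod h m (f m)) :
    ∃ x : ℤ → Bool, (∀ m : ℤ, D.Cod h m (x m)) ∧ ∀ m : ℕ, x m = f m := by
  refine ⟨fun m => if 0 ≤ m then f m.toNat else
    if ¬ (D.Q 0 : ℤ) ∣ m - h 0 then decide ((D.r * (m - h 0)) % (D.q : ℤ) ≤ D.j) else
    if hi : ∃ i, (D.Q i : ℤ) ∣ m - h i ∧ ¬ (D.Q (i + 1) : ℤ) ∣ m - h (i + 1) then D.a hi.choose
    else true, ?_, ?_⟩
  · intro m
    by_cases hm : 0 ≤ m
    · simp only [hm, if_true]
      have := hf m.toNat
      rwa [Int.toNat_of_nonneg hm] at this
    · simp only [hm, if_false]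
      by_cases h0 : (D.Q 0 : ℤ) ∣ m - h 0
      · rw [if_neg (not_not.2 h0)]
        refine ⟨fun h1 => absurd h0 h1, fun i h1 h2 => ?_⟩
        have hi : ∃ i, (D.Q i : ℤ) ∣ m - h i ∧ ¬ (D.Q (i + 1) : ℤ) ∣ m - h (i + 1) := ⟨i, h1, h2⟩
        rw [dif_pos hi]
        congr 1
        exact D.level_unique hc hi.choose_spec.1 hi.choose_spec.2 h1 h2
      · rw [if_pos h0]
        refine ⟨fun _ => by simp, fun i h1 h2 => ?_⟩
        exfalso
        apply h0
        have h3 : (D.Q 0 : ℤ) ∣ m - h i := (Int.natCast_dvd_natCast.2 (D.Q_dvd (Nat.zero_le i))).trans h1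
        have h4 := hc.dvd (Nat.zero_le i)
        have e : m - h 0 = (m - h i) + (h i - h 0) := by ring
        rw [e]; exact dvd_add h3 h4
  · intro m
    simp

/-- The inner word of a coded word. -/
theorem TPar.inner {D : TPar} (hD : D.Ok) {h : ℕ → ℤ} (hc : D.Coh h) {x : ℤ → Bool}
    (hx : ∀ m : ℤ, D.Cod h m (x m)) :
    SC D.p D.a (fun n => x (h 0 % (D.q : ℤ) + D.q * n)) := by
  have hq : (0 : ℤ) < D.q := by have := hD.hq; omega
  set q : ℤ := (D.q : ℤ) with hqd
  set c := h 0 % q with hcd
  have hci : ∀ i, q ∣ h i - c := by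
    intro i
    have h1 : q ∣ h i - h 0 := by
      have := hc.dvd (Nat.zero_le i)
      rwa [D.Q_zero] at this
    have h2 : q ∣ h 0 - c := by rw [hcd]; exact Int.dvd_self_sub_emod
    have e : h i - c = (h i - h 0) + (h 0 - c) := by ring
    rw [e]; exact dvd_add h1 h2
  refine ⟨fun i => (h i - c) / q, ?_, ?_⟩
  · intro i
    obtain ⟨u, hu⟩ := hci i
    obtain ⟨v, hv⟩ := hci (i + 1)
    show (PP D.p i : ℤ) ∣ (h (i + 1) - c) / q - (h i - c) / q
    rw [hu, hv, Int.mul_ediv_cancel_left _ hq.ne', Int.mul_ediv_cancel_left _ hq.ne']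
    have h1 := hc i
    rw [D.Q_eq] at h1
    push_cast at h1
    have h2 : h (i + 1) - h i = q * (v - u) := by linear_combination hv - hu
    rw [h2] at h1
    exact Int.dvd_of_mul_dvd_mul_left hq.ne' h1
  · intro m i h1 h2
    obtain ⟨u, hu⟩ := hci i
    obtain ⟨v, hv⟩ := hci (i + 1)
    simp only at h1 h2
    rw [hu, Int.mul_ediv_cancel_left _ hq.ne'] at h1
    rw [hv, Int.mul_ediv_cancel_left _ hq.ne'] at h2
    refine (hx _).2 i ?_ ?_
    · rw [D.Q_eq]
      push_cast
      have : c + q * m - h i = q * (m - u) := by linear_combination -hu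
      rw [this]
      exact mul_dvd_mul_left _ h1
    · rw [D.Q_eq]
      push_cast
      have : c + q * m - h (i + 1) = q * (m - v) := by linear_combination -hv
      rw [this]
      intro h3
      exact h2 (Int.dvd_of_mul_dvd_mul_left hq.ne' h3)

open Classical in
/-- All patterns of two-sided words coded by `D`. -/
noncomputable def TPat (D : TPar) (K : Finset ℤ) : Finset (Finset ℤ) :=
  K.powerset.filter (fun s => ∃ h x, D.Coh h ∧ (∀ m : ℤ, D.Cod h m (x m)) ∧ ztr x K = s)

theorem TPat_card {D : TPar} (hD : D.Ok) {K : Finset ℤ} (hne : K.Nonempty) :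
    (TPat D K).card ≤ 2 * K.card := by
  classical
  have hq : (0 : ℤ) < D.q := by have := hD.hq; omega
  set q : ℤ := (D.q : ℤ) with hqd
  set C := K.image (fun k => k % q) with hC
  have hCc : ∀ c ∈ C, c % q = c := by
    intro c hc
    rw [hC, mem_image] at hc
    obtain ⟨k, -, rfl⟩ := hc
    exact Int.emod_emod_of_dvd _ dvd_rfl
  have hKne : ∀ c ∈ C, (Kc q c K).Nonempty := by
    intro c hc
    rw [hC, mem_image] at hc
    obtain ⟨k, hk, rfl⟩ := hc
    unfold Kc
    exact ⟨_, mem_image_of_mem _ (mem_filter.2 ⟨hk, rfl⟩)⟩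
  have hin : ∀ c ∈ C, (NPat D.p D.a (Kc q c K)).card + 2 ≤ 2 * (Kc q c K).card := by
    intro c hc
    obtain ⟨B, hB⟩ : ∃ B : ℕ, ∀ k ∈ Kc q c K, ∀ k' ∈ Kc q c K, |k - k'| ≤ B := by
      refine ⟨2 * ∑ k ∈ Kc q c K, k.natAbs, fun k hk k' hk' => ?_⟩
      have h1 := single_le_sum (f := fun k : ℤ => k.natAbs) (fun _ _ => Nat.zero_le _) hk
      have h2 := single_le_sum (f := fun k : ℤ => k.natAbs) (fun _ _ => Nat.zero_le _) hk'
      rw [abs_le]
      constructor <;> omega
    exact NPat_card B D.p hD.hp D.a _ (hKne c hc) hB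
  let Ψ : ℤ → Finset ℤ → Finset ℤ := fun c s' =>
    K.filter (fun k => (k % q ≠ c ∧ (D.r * (k - c)) % q ≤ D.j) ∨
      (k % q = c ∧ (k - c) / q ∈ s'))
  have hsub : TPat D K ⊆ (C.biUnion (fun c => (NPat D.p D.a (Kc q c K)).image (Ψ c))) ∪
      Wk q D.r D.j K := by
    intro s hs
    unfold TPat at hs
    simp only [mem_filter, mem_powerset] at hs
    obtain ⟨-, h, x, hc, hx, rfl⟩ := hs
    have hinn := TPar.inner hD hc hx
    rw [← hqd] at hinn
    set c := h 0 % q with hcd
    have hcq : c % q = c := by rw [hcd]; exact Int.emod_emod_of_dvd _ dvd_rfl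
    have hdc : q ∣ h 0 - c := by rw [hcd]; exact Int.dvd_self_sub_emod
    have hdvd : ∀ k : ℤ, q ∣ k - h 0 ↔ k % q = c := by
      intro k
      rw [hcd]
      exact (Int.emod_eq_emod_iff_emod_sub_eq_zero.trans Int.dvd_iff_emod_eq_zero.symm).symm
    have hout : ∀ k : ℤ, k % q ≠ c → (x k = true ↔ (D.r * (k - c)) % q ≤ D.j) := by
      intro k hk
      have h1 := (hx k).1 (by
        rw [D.Q_zero]
        intro h1
        exact hk ((hdvd k).1 h1))
      rw [h1, ← hqd]
      have h2 : (D.r * (k - h 0)) % q = (D.r * (k - c)) % q := by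
        apply Int.emod_eq_emod_iff_emod_sub_eq_zero.2
        apply Int.emod_eq_zero_of_dvd
        have e : D.r * (k - h 0) - D.r * (k - c) = D.r * (-(h 0 - c)) := by ring
        rw [e]; exact dvd_mul_of_dvd_right ((dvd_neg).2 hdc) _
      rw [h2]
    -- representation
    have hrep : ztr x K = Ψ c (ztr (fun n => x (c + q * n)) (Kc q c K)) := by
      ext k
      unfold ztr
      simp only [Ψ, mem_filter]
      constructor
      · rintro ⟨hk, hxk⟩
        refine ⟨hk, ?_⟩
        by_cases hkc : k % q = c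
        · right
          have h1 : q ∣ k - c := by rw [← hkc]; exact Int.dvd_self_sub_emod
          have h2 : c + q * ((k - c) / q) = k := by rw [Int.mul_ediv_cancel' h1]; ring
          refine ⟨hkc, ?_, ?_⟩
          · rw [mem_Kc hq hcq, h2]; exact hk
          · rw [h2]; exact hxk
        · left
          exact ⟨hkc, (hout k hkc).1 hxk⟩
      · rintro ⟨hk, ⟨hkc, ha⟩ | ⟨hkc, hmem, hxk⟩⟩
        · exact ⟨hk, (hout k hkc).2 ha⟩
        · have h1 : q ∣ k - c := by rw [← hkc]; exact Int.dvd_self_sub_emod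
          have h2 : c + q * ((k - c) / q) = k := by rw [Int.mul_ediv_cancel' h1]; ring
          rw [h2] at hxk
          exact ⟨hk, hxk⟩
    have hcop : ∀ u : ℤ, q ∣ D.r * u ↔ q ∣ u := by
      intro u
      constructor
      · intro h1
        exact (hD.hr.symm).dvd_of_dvd_mul_left h1
      · intro h1; exact dvd_mul_of_dvd_right h1 _
    -- if the inner pattern is constant, the pattern is a skeleton pattern
    have hconst : ∀ b : Bool, (∀ k ∈ K, k % q = c → x k = b) →
        ztr x K ∈ Wk q D.r D.j K := by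
      intro b hb
      have : ztr x K = Gk q D.r D.j K (D.r * c) b := by
        unfold ztr Gk
        refine filter_congr fun k hk => ?_
        have e : D.r * k - D.r * c = D.r * (k - c) := by ring
        rw [e]
        unfold Sk
        have hkq : q ∣ D.r * (k - c) ↔ k % q = c := by
          rw [hcop, ← hdvd]
          constructor
          · intro h1
            have e : k - h 0 = (k - c) - (h 0 - c) := by ring
            rw [e]; exact dvd_sub h1 hdc
          · intro h1
            have e : k - c = (k - h 0) + (h 0 - c) := by ring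
            rw [e]; exact dvd_add h1 hdc
        rw [hkq]
        by_cases hkc : k % q = c
        · simp [hkc, hb k hk hkc]
        · simp only [hkc, false_and, not_false_eq_true, true_and, false_or]
          exact hout k hkc
      rw [this]
      exact Gk_mem hq hne _ _
    rw [mem_union]
    by_cases hcC : c ∈ C
    · by_cases h0 : ztr (fun n => x (c + q * n)) (Kc q c K) = ∅
      · right
        refine hconst false fun k hk hkc => ?_
        have h1 : q ∣ k - c := by rw [← hkc]; exact Int.dvd_self_sub_emod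
        have h2 : c + q * ((k - c) / q) = k := by rw [Int.mul_ediv_cancel' h1]; ring
        have h3 : (k - c) / q ∈ Kc q c K := by rw [mem_Kc hq hcq, h2]; exact hk
        have h4 : (k - c) / q ∉ ztr (fun n => x (c + q * n)) (Kc q c K) := by rw [h0]; simp
        unfold ztr at h4
        simp only [mem_filter, not_and, h2] at h4
        have := h4 h3
        simpa using this
      · by_cases hK : ztr (fun n => x (c + q * n)) (Kc q c K) = Kc q c K
        · right
          refine hconst true fun k hk hkc => ?_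
          have h1 : q ∣ k - c := by rw [← hkc]; exact Int.dvd_self_sub_emod
          have h2 : c + q * ((k - c) / q) = k := by rw [Int.mul_ediv_cancel' h1]; ring
          have h3 : (k - c) / q ∈ Kc q c K := by rw [mem_Kc hq hcq, h2]; exact hk
          rw [← hK] at h3
          unfold ztr at h3
          simp only [mem_filter, h2] at h3
          exact h3.2
        · left
          rw [mem_biUnion]
          refine ⟨c, hcC, ?_⟩
          rw [mem_image]
          refine ⟨_, ?_, hrep.symm⟩
          rw [mem_NPat]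
          exact ⟨h0, hK, _, hinn, rfl⟩
    · right
      refine hconst true fun k hk hkc => ?_
      exfalso
      apply hcC
      rw [hC, mem_image]
      exact ⟨k, hk, hkc⟩
  have hsum := sum_classes q K
  rw [← hC] at hsum
  calc (TPat D K).card ≤ ∑ c ∈ C, (NPat D.p D.a (Kc q c K)).card + 2 * C.card := by
        refine (card_le_card hsub).trans ((card_union_le _ _).trans ?_)
        refine add_le_add (card_biUnion_le.trans (sum_le_sum fun c _ => card_image_le)) ?_
        rw [hC]; exact Wk_card
    _ = ∑ c ∈ C, ((NPat D.p D.a (Kc q c K)).card + 2) := by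
        rw [sum_add_distrib, sum_const, smul_eq_mul, mul_comm]
    _ ≤ ∑ c ∈ C, 2 * (K.filter (fun k => k % q = c)).card := by
        refine sum_le_sum fun c hc => ?_
        rw [← card_Kc K]; exact hin c hc
    _ = 2 * K.card := by rw [← mul_sum, hsum]

/-- Shifting a coded word. -/
theorem TPar.Cod.shift {D : TPar} {h : ℕ → ℤ} {n m : ℤ} {b : Bool} (hx : D.Cod h (m + n) b) :
    D.Cod (fun i => h i - n) m b := by
  have e : ∀ i, m - (h i - n) = m + n - h i := fun i => by ring
  unfold TPar.Cod at *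
  simp only [e]
  exact hx

theorem toep_low (f : ℕ → Bool) (hf : ToepType f) : LowN f := by
  classical
  obtain ⟨D, hD, h, hc, hfc⟩ := hf
  intro K hne
  obtain ⟨x, hx, hxf⟩ := TPar.extend hc hfc
  let K' : Finset ℤ := K.image (fun k : ℕ => (k : ℤ))
  have hK' : K'.card = K.card := card_image_of_injective _ Nat.cast_injective
  rw [← hK']
  refine le_trans ?_ (TPat_card hD (K := K') (hne.image _))
  refine card_le_card_of_injOn (fun s => s.image (fun k : ℕ => (k : ℤ))) ?_ ?_
  · intro s hs
    simp only [mem_coe] at hs ⊢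
    obtain ⟨m, rfl⟩ := mem_trs.1 hs
    unfold TPat
    simp only [mem_filter, mem_powerset]
    refine ⟨image_subset_image (filter_subset _ _), fun i => h i - m, sh m x, ?_, ?_, ?_⟩
    · intro i
      have e : h (i + 1) - m - (h i - m) = h (i + 1) - h i := by ring
      simp only [e]
      exact hc i
    · intro l
      exact (hx (l + m)).shift
    · ext k
      unfold ztr tr
      simp only [K', mem_filter, mem_image, sh_apply]
      constructor
      · rintro ⟨⟨k', hk', rfl⟩, hk⟩
        refine ⟨k', ⟨hk', ?_⟩, rfl⟩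
        rw [← hxf]
        push_cast
        rw [add_comm]; exact hk
      · rintro ⟨k', ⟨hk', hk⟩, rfl⟩
        refine ⟨⟨k', hk', rfl⟩, ?_⟩
        rw [← hxf] at hk
        push_cast at hk
        rw [add_comm]; exact hk
  · intro s _ s' _ hss
    exact image_injective Nat.cast_injective hss


/-! ## Lower bound -/

theorem TPar.Q_pos {D : TPar} (hD : D.Ok) (i : ℕ) : 0 < D.Q i := by
  unfold TPar.Q
  refine Nat.mul_pos hD.hq (Finset.prod_pos fun l _ => ?_)
  have := hD.hp l
  omega

theorem TPar.Q_not_dvd {D : TPar} (hD : D.Ok) (i : ℕ) : ¬ (D.Q (i + 1) : ℤ) ∣ (D.Q i : ℤ) := by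
  intro h
  have h1 := Int.natCast_dvd_natCast.1 h
  have h2 := Nat.le_of_dvd (D.Q_pos hD i) h1
  rw [D.Q_succ] at h2
  have h3 := hD.hp i
  have h4 := D.Q_pos hD i
  nlinarith

/-- Position `m` has level `i`. -/
def TPar.Lev (D : TPar) (h : ℕ → ℤ) (m : ℤ) (i : ℕ) : Prop :=
  (D.Q i : ℤ) ∣ m - h i ∧ ¬ (D.Q (i + 1) : ℤ) ∣ m - h (i + 1)

theorem TPar.lev_of {D : TPar} {h : ℕ → ℤ} (hc : D.Coh h) {m e : ℤ} {i : ℕ}
    (h1 : (D.Q (i + 1) : ℤ) ∣ m - h (i + 1) - e) (h2 : (D.Q i : ℤ) ∣ e)
    (h3 : ¬ (D.Q (i + 1) : ℤ) ∣ e) : D.Lev h m i := by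
  constructor
  · have h4 : (D.Q i : ℤ) ∣ m - h (i + 1) - e :=
      (Int.natCast_dvd_natCast.2 (D.Q_dvd (Nat.le_succ i))).trans h1
    have e1 : m - h i = (m - h (i + 1) - e) + (h (i + 1) - h i) + e := by ring
    rw [e1]; exact dvd_add (dvd_add h4 (hc i)) h2
  · intro h4
    apply h3
    have e1 : e = (m - h (i + 1)) - (m - h (i + 1) - e) := by ring
    rw [e1]; exact dvd_sub h4 h1

theorem exists_nat_res (Q : ℕ) (hQ : 0 < Q) (c : ℤ) : ∃ m : ℕ, (Q : ℤ) ∣ (m : ℤ) - c := by
  refine ⟨(c % (Q : ℤ)).toNat, ?_⟩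
  have hQ' : (0 : ℤ) < Q := by omega
  rw [Int.toNat_of_nonneg (Int.emod_nonneg _ hQ'.ne')]
  have h := Int.dvd_self_sub_emod (x := c) (m := (Q : ℤ))
  have e : c % (Q : ℤ) - c = -(c - c % (Q : ℤ)) := by ring
  rw [e]; exact (dvd_neg).2 h

theorem toep_step {D : TPar} (hD : D.Ok) {h : ℕ → ℤ} (hc : D.Coh h) {f : ℕ → Bool}
    (hf : ∀ m : ℕ, D.Cod h m (f m)) (n : ℕ) : ∀ i, ∃ K : Finset ℕ, K.card = n + 1 ∧
      ∃ P : Finset (Finset ℕ), 2 * n ≤ P.card ∧ ∀ s ∈ P, s ≠ ∅ ∧ s ≠ K ∧ s ⊆ K ∧
        ∃ m : ℕ, (D.Q i : ℤ) ∣ m - h i ∧ ∀ k ∈ K, (f (m + D.Q i * k) = true ↔ k ∈ s) := by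
  classical
  have hval : ∀ (m : ℕ) (i : ℕ), D.Lev h m i → f m = D.a i := fun m i hl => (hf m).2 i hl.1 hl.2
  induction n with
  | zero =>
    intro i
    exact ⟨{1}, by simp, ∅, by simp, by simp⟩
  | succ n ih =>
    intro i
    obtain ⟨l, hl, hal⟩ := hD.ha (!(D.a i)) (i + 1)
    obtain ⟨K, hK, P, hP, hPs⟩ := ih (l + 1)
    obtain ⟨R, hR⟩ := D.Q_dvd (show i ≤ l + 1 by omega)
    have hQi := D.Q_pos hD i
    have hR2 : 2 ≤ R := by
      by_contra hcon
      have h1 : D.Q (l + 1) ≤ D.Q i := by rw [hR]; nlinarith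
      have h2 := D.Q_not_dvd hD i
      apply h2
      have h3 : D.Q (i + 1) ∣ D.Q (l + 1) := D.Q_dvd (by omega)
      have h4 : D.Q i ∣ D.Q (l + 1) := D.Q_dvd (by omega)
      have h5 := Nat.le_of_dvd (D.Q_pos hD _) h4
      have h6 : D.Q (l + 1) = D.Q i := le_antisymm h1 h5
      rw [← h6]
      exact Int.natCast_dvd_natCast.2 h3
    have hRinj : Function.Injective (fun k : ℕ => R * k) := by
      intro x y hxy
      exact Nat.eq_of_mul_eq_mul_left (by omega) hxy
    have h1n : ∀ k, R * k ≠ 1 := by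
      intro k hk
      have := Nat.eq_one_of_mul_eq_one_right hk
      omega
    have h1img : ∀ s : Finset ℕ, 1 ∉ s.image (fun k => R * k) := by
      intro s hs
      obtain ⟨k, -, hk⟩ := mem_image.1 hs
      exact h1n k hk
    have hKne : K.Nonempty := by
      rw [← Finset.card_pos]; omega
    let W : Finset ℕ := insert 1 (K.image (fun k => R * k))
    let A : Finset ℕ := if D.a i = true then {1} else ∅
    have hA1 : ∀ k ∈ A, k = 1 := by
      intro k hk
      simp only [A] at hk
      split_ifs at hk with ha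
      · simpa using hk
      · simp at hk
    let F : Finset ℕ → Finset ℕ := fun s => A ∪ s.image (fun k => R * k)
    have hFmem : ∀ s k, R * k ∈ F s ↔ k ∈ s := by
      intro s k
      simp only [F, mem_union]
      constructor
      · rintro (h1 | h1)
        · exact absurd (hA1 _ h1) (h1n k)
        · obtain ⟨k', hk', he⟩ := mem_image.1 h1
          have : k' = k := hRinj he
          rwa [← this]
      · intro h1
        exact Or.inr (mem_image_of_mem _ h1)
    have hFinj : Function.Injective F := by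
      intro s s' hss
      ext k
      rw [← hFmem, hss, hFmem]
    have hF1 : ∀ s, 1 ∈ F s ↔ D.a i = true := by
      intro s
      simp only [F, mem_union, A]
      constructor
      · rintro (h1 | h1)
        · split_ifs at h1 with ha
          · exact ha
          · simp at h1
        · exact absurd h1 (h1img s)
      · intro ha
        left
        rw [if_pos ha]; simp
    -- the two new patterns
    let E : Finset ℕ := K.image (fun k => R * k)
    have hE1 : (1 : ℕ) ∉ E := h1img K
    have hEne : E.Nonempty := hKne.image _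
    refine ⟨W, ?_, insert ({1} : Finset ℕ) (insert E (P.image F)), ?_, ?_⟩
    · rw [card_insert_of_notMem (h1img K), card_image_of_injective _ hRinj, hK]
    · have hEP : E ∉ P.image F := by
        intro hE
        obtain ⟨s, hs, he⟩ := mem_image.1 hE
        obtain ⟨-, h2, h3, -⟩ := hPs s hs
        apply h2
        refine subset_antisymm h3 fun k hk => ?_
        rw [← hFmem, he]
        exact mem_image_of_mem _ hk
      have h1P : ({1} : Finset ℕ) ∉ insert E (P.image F) := by
        intro h1
        rcases mem_insert.1 h1 with h1 | h1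
        · apply hE1; rw [← h1]; simp
        · obtain ⟨s, hs, he⟩ := mem_image.1 h1
          obtain ⟨h2, -, h3, -⟩ := hPs s hs
          apply h2
          by_contra hne
          obtain ⟨k, hk⟩ := Finset.nonempty_iff_ne_empty.2 hne
          have h4 := (hFmem s k).2 hk
          rw [he] at h4
          exact h1n k (by simpa using h4)
      rw [card_insert_of_notMem h1P, card_insert_of_notMem hEP, card_image_of_injective _ hFinj]
      omega
    · -- position of level l : (a, not a ...)
      have hd1 : ∀ {u : ℤ}, (D.Q (l + 1) : ℤ) ∣ u → (D.Q (i + 1) : ℤ) ∣ u := fun hu =>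
        (Int.natCast_dvd_natCast.2 (D.Q_dvd (by omega))).trans hu
      have hd0 : ∀ {u : ℤ}, (D.Q (i + 1) : ℤ) ∣ u → (D.Q i : ℤ) ∣ u := fun hu =>
        (Int.natCast_dvd_natCast.2 (D.Q_dvd (by omega))).trans hu
      have hdl : (D.Q (i + 1) : ℤ) ∣ (D.Q l : ℤ) := Int.natCast_dvd_natCast.2 (D.Q_dvd hl)
      have hcl : (D.Q (i + 1) : ℤ) ∣ h (l + 1) - h (i + 1) := hc.dvd (by omega)
      have hQR : ∀ k : ℕ, D.Q i * (R * k) = D.Q (l + 1) * k := fun k => by rw [hR]; ring
      have hB : ∃ m : ℕ, (D.Q i : ℤ) ∣ m - h i ∧ f (m + D.Q i * 1) = D.a i ∧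
          ∀ k, f (m + D.Q i * (R * k)) = !(D.a i) := by
        obtain ⟨m, hm⟩ := exists_nat_res (D.Q (l + 1)) (D.Q_pos hD _) (h (l + 1) + D.Q l)
        have hmi : (D.Q (i + 1) : ℤ) ∣ m - h (i + 1) := by
          have e : (m : ℤ) - h (i + 1) =
            ((m : ℤ) - (h (l + 1) + D.Q l)) + (h (l + 1) - h (i + 1)) + D.Q l := by ring
          rw [e]; exact dvd_add (dvd_add (hd1 hm) hcl) hdl
        refine ⟨m, ?_, ?_, ?_⟩
        · have e : (m : ℤ) - h i = (m - h (i + 1)) + (h (i + 1) - h i) := by ring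
          rw [e]; exact dvd_add (hd0 hmi) (hc i)
        · apply hval
          refine TPar.lev_of hc (e := D.Q i) ?_ dvd_rfl (D.Q_not_dvd hD i)
          push_cast
          have e : (m : ℤ) + D.Q i * 1 - h (i + 1) - D.Q i = m - h (i + 1) := by ring
          rw [e]; exact hmi
        · intro k
          rw [← hal]
          apply hval
          refine TPar.lev_of hc (e := D.Q l) ?_ dvd_rfl (D.Q_not_dvd hD l)
          rw [hQR]
          push_cast
          have e : (m : ℤ) + D.Q (l + 1) * k - h (l + 1) - D.Q l =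
            (m - (h (l + 1) + D.Q l)) + D.Q (l + 1) * k := by ring
          rw [e]; exact dvd_add hm (dvd_mul_right _ _)
      have hC : ∃ m : ℕ, (D.Q i : ℤ) ∣ m - h i ∧ f (m + D.Q i * 1) = !(D.a i) ∧
          ∀ k, f (m + D.Q i * (R * k)) = D.a i := by
        obtain ⟨m, hm⟩ := exists_nat_res (D.Q (l + 1)) (D.Q_pos hD _) (h (l + 1) + D.Q l - D.Q i)
        have hmi : (D.Q (i + 1) : ℤ) ∣ m - h (i + 1) + D.Q i := by
          have e : (m : ℤ) - h (i + 1) + D.Q i =
            ((m : ℤ) - (h (l + 1) + D.Q l - D.Q i)) + (h (l + 1) - h (i + 1)) + D.Q l := by ring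
          rw [e]; exact dvd_add (dvd_add (hd1 hm) hcl) hdl
        refine ⟨m, ?_, ?_, ?_⟩
        · have e : (m : ℤ) - h i = (m - h (i + 1) + D.Q i) + (h (i + 1) - h i) - D.Q i := by ring
          rw [e]; exact dvd_sub (dvd_add (hd0 hmi) (hc i)) dvd_rfl
        · rw [← hal]
          apply hval
          refine TPar.lev_of hc (e := D.Q l) ?_ dvd_rfl (D.Q_not_dvd hD l)
          push_cast
          have e : (m : ℤ) + D.Q i * 1 - h (l + 1) - D.Q l =
            m - (h (l + 1) + D.Q l - D.Q i) := by ring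
          rw [e]; exact hm
        · intro k
          apply hval
          refine TPar.lev_of hc (e := -(D.Q i : ℤ)) ?_ ((dvd_neg).2 dvd_rfl) ?_
          · rw [hQR]
            push_cast
            have e : (m : ℤ) + D.Q (l + 1) * k - h (i + 1) - -(D.Q i : ℤ) =
              (m - h (i + 1) + D.Q i) + D.Q (l + 1) * k := by ring
            rw [e]; exact dvd_add hmi (hd1 (dvd_mul_right _ _))
          · intro hneg
            exact D.Q_not_dvd hD i ((dvd_neg).1 hneg)
      have h1W : W ≠ {1} := by
        intro hW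
        obtain ⟨k, hk⟩ := hEne
        have : k ∈ W := mem_insert_of_mem hk
        rw [hW, mem_singleton] at this
        rw [this] at hk
        exact hE1 hk
      have hEW : W ≠ E := by
        intro hW
        apply hE1
        rw [← hW]; exact mem_insert_self _ _
      have hpos1 : ∃ m : ℕ, (D.Q i : ℤ) ∣ m - h i ∧
          ∀ k ∈ W, (f (m + D.Q i * k) = true ↔ k ∈ ({1} : Finset ℕ)) := by
        have hgen : ∀ m : ℕ, f (m + D.Q i * 1) = true → (∀ k, f (m + D.Q i * (R * k)) = false) →
            ∀ k ∈ W, (f (m + D.Q i * k) = true ↔ k ∈ ({1} : Finset ℕ)) := by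
          intro m h1 h2 k hk
          rcases mem_insert.1 hk with rfl | hk
          · rw [h1]; simp
          · obtain ⟨k', -, rfl⟩ := mem_image.1 hk
            rw [h2 k']
            simp [h1n k']
        cases ha : D.a i with
        | true =>
          obtain ⟨m, hm1, hm2, hm3⟩ := hB
          rw [ha] at hm2 hm3
          exact ⟨m, hm1, hgen m hm2 hm3⟩
        | false =>
          obtain ⟨m, hm1, hm2, hm3⟩ := hC
          rw [ha] at hm2 hm3
          exact ⟨m, hm1, hgen m hm2 hm3⟩
      have hposE : ∃ m : ℕ, (D.Q i : ℤ) ∣ m - h i ∧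
          ∀ k ∈ W, (f (m + D.Q i * k) = true ↔ k ∈ E) := by
        have hgen : ∀ m : ℕ, f (m + D.Q i * 1) = false → (∀ k, f (m + D.Q i * (R * k)) = true) →
            ∀ k ∈ W, (f (m + D.Q i * k) = true ↔ k ∈ E) := by
          intro m h1 h2 k hk
          rcases mem_insert.1 hk with rfl | hk
          · rw [h1]; simp [hE1]
          · obtain ⟨k', -, rfl⟩ := mem_image.1 hk
            rw [h2 k']
            simp [E, hk]
        cases ha : D.a i with
        | true =>
          obtain ⟨m, hm1, hm2, hm3⟩ := hC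
          rw [ha] at hm2 hm3
          exact ⟨m, hm1, hgen m hm2 hm3⟩
        | false =>
          obtain ⟨m, hm1, hm2, hm3⟩ := hB
          rw [ha] at hm2 hm3
          exact ⟨m, hm1, hgen m hm2 hm3⟩
      intro s hs
      rcases mem_insert.1 hs with rfl | hs
      · refine ⟨by simp, h1W.symm, ?_, hpos1⟩
        rw [singleton_subset_iff]; exact mem_insert_self _ _
      · rcases mem_insert.1 hs with rfl | hs
        · exact ⟨hEne.ne_empty, hEW.symm, subset_insert _ _, hposE⟩
        · obtain ⟨s, hsP, rfl⟩ := mem_image.1 hs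
          obtain ⟨h2, h3, h4, m, hm, hk⟩ := hPs s hsP
          have hFW : F s ⊆ W := by
            intro k hk
            simp only [F, mem_union] at hk
            rcases hk with hk | hk
            · rw [hA1 k hk]; exact mem_insert_self _ _
            · obtain ⟨k', hk', rfl⟩ := mem_image.1 hk
              exact mem_insert_of_mem (mem_image_of_mem _ (h4 hk'))
          refine ⟨?_, ?_, hFW, m, ?_, ?_⟩
          · obtain ⟨k, hk⟩ := Finset.nonempty_iff_ne_empty.2 h2
            exact (Finset.nonempty_iff_ne_empty.1 ⟨R * k, (hFmem s k).2 hk⟩)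
          · intro hFs
            apply h3
            refine subset_antisymm h4 fun k hk => ?_
            rw [← hFmem, hFs]
            exact mem_insert_of_mem (mem_image_of_mem _ hk)
          · have h5 : (D.Q i : ℤ) ∣ h (l + 1) - h i := hc.dvd (by omega)
            have e : (m : ℤ) - h i = (m - h (l + 1)) + (h (l + 1) - h i) := by ring
            rw [e]; exact dvd_add (hd0 (hd1 hm)) h5
          · intro k hkW
            rcases mem_insert.1 hkW with rfl | hkE
            · rw [hF1]
              have : f (m + D.Q i * 1) = D.a i := by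
                apply hval
                refine TPar.lev_of hc (e := D.Q i) ?_ dvd_rfl (D.Q_not_dvd hD i)
                push_cast
                have e : (m : ℤ) + D.Q i * 1 - h (i + 1) - D.Q i =
                  (m - h (l + 1)) + (h (l + 1) - h (i + 1)) := by ring
                rw [e]; exact dvd_add (hd1 hm) hcl
              rw [this]
            · obtain ⟨k', hk', rfl⟩ := mem_image.1 hkE
              rw [hFmem, hQR]
              exact hk k' hk'

theorem toep_high (f : ℕ → Bool) (hf : ToepType f) : HighN f := by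
  classical
  obtain ⟨D, hD, h, hc, hfc⟩ := hf
  intro n hn
  have hval : ∀ (m : ℕ) (i : ℕ), D.Lev h m i → f m = D.a i := fun m i hl => (hfc m).2 i hl.1 hl.2
  obtain ⟨i₁, -, ha₁⟩ := hD.ha true 0
  obtain ⟨i₂, -, ha₂⟩ := hD.ha false 0
  set i := max i₁ i₂ + 1 with hi
  obtain ⟨K, hK, P, hP, hPs⟩ := toep_step hD hc hfc (n - 1) i
  have hQi := D.Q_pos hD i
  have hQinj : Function.Injective (fun k : ℕ => D.Q i * k) := by
    intro x y hxy
    exact Nat.eq_of_mul_eq_mul_left hQi hxy
  have hKne : K.Nonempty := by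
    rw [← Finset.card_pos]; omega
  have hlev : ∀ l, l < i → ∃ m : ℕ, ∀ k, f (m + D.Q i * k) = D.a l := by
    intro l hl
    obtain ⟨m, hm⟩ := exists_nat_res (D.Q (l + 1)) (D.Q_pos hD _) (h (l + 1) + D.Q l)
    refine ⟨m, fun k => ?_⟩
    apply hval
    refine TPar.lev_of hc (e := D.Q l) ?_ dvd_rfl (D.Q_not_dvd hD l)
    push_cast
    have e : (m : ℤ) + D.Q i * k - h (l + 1) - D.Q l =
      (m - (h (l + 1) + D.Q l)) + D.Q i * k := by ring
    rw [e]
    exact dvd_add hm (dvd_mul_of_dvd_left (Int.natCast_dvd_natCast.2 (D.Q_dvd hl)) _)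
  obtain ⟨m₁, hm₁⟩ := hlev i₁ (by omega)
  obtain ⟨m₂, hm₂⟩ := hlev i₂ (by omega)
  rw [ha₁] at hm₁
  rw [ha₂] at hm₂
  let V : Finset ℕ := K.image (fun k => D.Q i * k)
  refine ⟨V, by rw [card_image_of_injective _ hQinj, hK]; omega, ?_⟩
  have himg : (fun s : Finset ℕ => s.image (fun k => D.Q i * k)).Injective :=
    image_injective hQinj
  have hsub : insert (∅ : Finset ℕ) (insert V (P.image (fun s => s.image (fun k => D.Q i * k)))) ⊆
      trs f V := by
    intro s hs
    rw [mem_trs]
    rcases mem_insert.1 hs with rfl | hs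
    · refine ⟨m₂, ?_⟩
      unfold tr
      rw [filter_eq_empty_iff]
      intro k hk
      obtain ⟨k', -, rfl⟩ := mem_image.1 hk
      rw [hm₂]; simp
    · rcases mem_insert.1 hs with rfl | hs
      · refine ⟨m₁, ?_⟩
        unfold tr
        rw [filter_eq_self]
        intro k hk
        obtain ⟨k', -, rfl⟩ := mem_image.1 hk
        exact hm₁ k'
      · obtain ⟨s, hsP, rfl⟩ := mem_image.1 hs
        obtain ⟨-, -, h4, m, -, hk⟩ := hPs s hsP
        refine ⟨m, ?_⟩
        ext k
        unfold tr
        simp only [mem_filter, V, mem_image]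
        constructor
        · rintro ⟨⟨k', hk', rfl⟩, h5⟩
          exact ⟨k', (hk k' hk').1 h5, rfl⟩
        · rintro ⟨k', hk', rfl⟩
          exact ⟨⟨k', h4 hk', rfl⟩, (hk k' (h4 hk')).2 hk'⟩
  refine le_trans ?_ (card_le_card hsub)
  have hV : V.Nonempty := hKne.image _
  have h1 : V ∉ P.image (fun s => s.image (fun k => D.Q i * k)) := by
    intro hV
    obtain ⟨s, hsP, he⟩ := mem_image.1 hV
    exact (hPs s hsP).2.1 (himg he)
  have h2 : (∅ : Finset ℕ) ∉ insert V (P.image (fun s => s.image (fun k => D.Q i * k))) := by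
    intro h0
    rcases mem_insert.1 h0 with h0 | h0
    · exact hV.ne_empty h0.symm
    · obtain ⟨s, hsP, he⟩ := mem_image.1 h0
      exact (hPs s hsP).1 (image_eq_empty.1 he)
  rw [card_insert_of_notMem h2, card_insert_of_notMem h1, card_image_of_injective _ himg]
  omega

end PatSturm
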