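import Mathlib
import Pool.Agent.LibPS.Defs

/-!
# The extension theorem for Toeplitz type words

If the windows of a one-sided word far to the right are windows of a coded word with one hole, and
all windows of the two fillings occur, then low pattern complexity forces the whole word to be
coded.
-/

namespace PatSturm

open Finset

theorem te_Q_zero (D : TPar) : D.Q 0 = D.q := by simp [TPar.Q]

theorem te_Q_succ (D : TPar) (i : ℕ) : D.Q (i + 1) = D.Q i * D.p i := by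
  simp [TPar.Q, Finset.prod_range_succ, mul_assoc]

theorem te_Q_dvd (D : TPar) {i i' : ℕ} (h : i ≤ i') : (D.Q i : ℤ) ∣ (D.Q i' : ℤ) := by
  induction h with
  | refl => exact dvd_rfl
  | step _ ih => exact ih.trans (by rw [te_Q_succ]; push_cast; exact dvd_mul_right _ _)

theorem te_q_dvd (D : TPar) (i : ℕ) : (D.q : ℤ) ∣ (D.Q i : ℤ) := by
  have := te_Q_dvd D (Nat.zero_le i)
  rwa [te_Q_zero] at this

theorem te_Q_pos {D : TPar} (hD : D.Ok) (i : ℕ) : 0 < D.Q i := by
  unfold TPar.Q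
  refine Nat.mul_pos hD.hq (Finset.prod_pos fun l _ => ?_)
  have := hD.hp l
  omega

theorem te_Q_not_dvd {D : TPar} (hD : D.Ok) (i : ℕ) : ¬ (D.Q (i + 1) : ℤ) ∣ (D.Q i : ℤ) := by
  intro h
  have h1 := Int.natCast_dvd_natCast.1 h
  have h2 := Nat.le_of_dvd (te_Q_pos hD i) h1
  rw [te_Q_succ] at h2
  have h3 := hD.hp i
  have h4 := te_Q_pos hD i
  nlinarith

theorem te_exists_k (P : ℕ) (hP : 0 < P) (n c : ℤ) : ∃ k : ℕ, k < P ∧ (P : ℤ) ∣ n + k - c := by
  have hP' : (0 : ℤ) < P := by omega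
  have h0 := Int.emod_nonneg (c - n) hP'.ne'
  have h1 := Int.emod_lt_of_pos (c - n) hP'
  refine ⟨((c - n) % (P : ℤ)).toNat, by omega, ?_⟩
  rw [Int.toNat_of_nonneg h0]
  have h := Int.dvd_self_sub_emod (x := c - n) (m := (P : ℤ))
  have e : n + (c - n) % (P : ℤ) - c = -((c - n) - (c - n) % (P : ℤ)) := by ring
  rw [e]; exact (dvd_neg).2 h

/-- A position congruent to `Q l` modulo `Q (l+1)` in every long window. -/
theorem te_exists_lev {D : TPar} (hD : D.Ok) (l : ℕ) (n : ℤ) :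
    ∃ k : ℕ, k ≤ D.Q (l + 1) ∧ (D.Q l : ℤ) ∣ n + k ∧ ¬ (D.Q (l + 1) : ℤ) ∣ n + k := by
  obtain ⟨k, hk, hd⟩ := te_exists_k (D.Q (l + 1)) (te_Q_pos hD _) n (D.Q l)
  refine ⟨k, hk.le, ?_, ?_⟩
  · have e : n + k = (n + k - D.Q l) + D.Q l := by ring
    rw [e]; exact dvd_add ((te_Q_dvd D (Nat.le_succ l)).trans hd) dvd_rfl
  · intro h
    apply te_Q_not_dvd hD l
    have e : (D.Q l : ℤ) = (n + k) - (n + k - D.Q l) := by ring
    rw [e]; exact dvd_sub h hd

theorem te_rec_zero {D : TPar} (hD : D.Ok) {w : Pt}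
    (hs : ∀ m : ℤ, ¬ (D.q : ℤ) ∣ m → (w m = true ↔ (D.r * m) % (D.q : ℤ) ≤ D.j))
    (hl : ∀ (m : ℤ) (i : ℕ), (D.Q i : ℤ) ∣ m → ¬ (D.Q (i + 1) : ℤ) ∣ m → w m = D.a i) :
    ∃ M : ℕ, ∀ n n' : ℤ, (∀ k : ℕ, k ≤ M → w (n + k) = w (n' + k)) → (D.q : ℤ) ∣ n - n' := by
  have hq1 := hD.hq
  have hq : (0 : ℤ) < D.q := by omega
  by_cases hj : 1 ≤ D.j ∧ D.j + 2 ≤ D.q
  · refine ⟨D.q, fun n n' h => ?_⟩
    by_contra hnd
    obtain ⟨u, v, huv⟩ := hD.hr
    set q : ℤ := (D.q : ℤ) with hqd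
    set s : ℤ := (D.r * (n' - n)) % q with hsd
    have hs0 := Int.emod_nonneg (D.r * (n' - n)) hq.ne'
    have hs1 := Int.emod_lt_of_pos (D.r * (n' - n)) hq
    have hsdvd : q ∣ D.r * (n' - n) - s := by rw [hsd]; exact Int.dvd_self_sub_emod
    have hsne : s ≠ 0 := by
      intro h0
      have h1 : q ∣ D.r * (n' - n) := by rw [h0] at hsdvd; simpa using hsdvd
      apply hnd
      have h2 : q ∣ n' - n := (hD.hr.symm).dvd_of_dvd_mul_left h1
      have e : n - n' = -(n' - n) := by ring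
      rw [e]; exact (dvd_neg).2 h2
    have key : ∀ y : ℤ, ¬ q ∣ y → ¬ q ∣ y + s → (y % q ≤ D.j ↔ (y + s) % q ≤ D.j) := by
      intro y hy hys
      obtain ⟨k, hk, hd⟩ := te_exists_k D.q hq1 n (u * y)
      rw [← hqd] at hd
      have e1 : q ∣ D.r * (n + k) - y := by
        have e : D.r * (n + k) - y = D.r * (n + k - u * y) - q * (v * y) := by
          linear_combination y * huv
        rw [e]; exact dvd_sub (dvd_mul_of_dvd_right hd _) (dvd_mul_right _ _)
      have e2 : q ∣ D.r * (n' + k) - (y + s) := by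
        have e : D.r * (n' + k) - (y + s) =
          (D.r * (n + k) - y) + (D.r * (n' - n) - s) := by ring
        rw [e]; exact dvd_add e1 hsdvd
      have n1 : ¬ q ∣ n + k := by
        intro h3
        apply hy
        have e : y = D.r * (n + k) - (D.r * (n + k) - y) := by ring
        rw [e]; exact dvd_sub (dvd_mul_of_dvd_right h3 _) e1
      have n2 : ¬ q ∣ n' + k := by
        intro h3
        apply hys
        have e : y + s = D.r * (n' + k) - (D.r * (n' + k) - (y + s)) := by ring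
        rw [e]; exact dvd_sub (dvd_mul_of_dvd_right h3 _) e2
      have f1 : (D.r * (n + k)) % q = y % q :=
        Int.emod_eq_emod_iff_emod_sub_eq_zero.2 (Int.emod_eq_zero_of_dvd e1)
      have f2 : (D.r * (n' + k)) % q = (y + s) % q :=
        Int.emod_eq_emod_iff_emod_sub_eq_zero.2 (Int.emod_eq_zero_of_dvd e2)
      rw [← f1, ← f2, ← hs _ n1, ← hs _ n2, h k hk.le]
    have nd : ∀ y : ℤ, 1 ≤ y → y < q → ¬ q ∣ y := by
      intro y h1 h2 h3
      have := Int.le_of_dvd (by omega) h3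
      omega
    by_cases hc : (D.j : ℤ) + s ≤ q - 1
    · have h1 := key D.j (nd _ (by omega) (by omega)) (nd _ (by omega) (by omega))
      rw [Int.emod_eq_of_lt (by omega) (by omega), Int.emod_eq_of_lt (by omega) (by omega)] at h1
      omega
    · have h1 := key (D.j + 1) (nd _ (by omega) (by omega)) (by
        intro h3
        refine nd ((D.j : ℤ) + 1 + s - q) (by omega) (by omega) ?_
        exact dvd_sub h3 dvd_rfl)
      have h2 : ((D.j : ℤ) + 1 + s) % q = D.j + 1 + s - q := by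
        rw [← Int.emod_eq_of_lt (a := (D.j : ℤ) + 1 + s - q) (b := q) (by omega) (by omega)]
        rw [Int.sub_emod_right]
      rw [h2, Int.emod_eq_of_lt (by omega) (by omega)] at h1
      omega
  · have hb : ∃ b : Bool, ∀ m : ℤ, ¬ (D.q : ℤ) ∣ m → w m = b := by
      by_cases hj0 : D.j = 0
      · refine ⟨false, fun m hm => ?_⟩
        have h1 := hs m hm
        rw [hj0] at h1
        cases hwm : w m with
        | false => rfl
        | true =>
          exfalso
          have h2 := h1.1 hwm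
          have h3 := Int.emod_nonneg (D.r * m) hq.ne'
          have h4 : (D.r * m) % (D.q : ℤ) = 0 := by
            push_cast at h2
            omega
          exact hm ((hD.hr.symm).dvd_of_dvd_mul_left (Int.dvd_of_emod_eq_zero h4))
      · refine ⟨true, fun m hm => ?_⟩
        rw [hs m hm]
        have h4 := Int.emod_lt_of_pos (D.r * m) hq
        omega
    obtain ⟨b, hb⟩ := hb
    obtain ⟨l, -, hal⟩ := hD.ha (!b) 0
    refine ⟨D.Q (l + 1), fun n n' h => ?_⟩
    obtain ⟨k, hk, h3, h4⟩ := te_exists_lev hD l n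
    have e1 := hl (n + k) l h3 h4
    rw [h k hk, hal] at e1
    have e2 : (D.q : ℤ) ∣ n' + k := by
      by_contra hcon
      rw [hb _ hcon] at e1
      cases b <;> simp at e1
    have e : n - n' = (n + k) - (n' + k) := by ring
    rw [e]; exact dvd_sub ((te_q_dvd D l).trans h3) e2

/-- Recognizability. -/
theorem te_rec {D : TPar} (hD : D.Ok) {w : Pt}
    (hs : ∀ m : ℤ, ¬ (D.q : ℤ) ∣ m → (w m = true ↔ (D.r * m) % (D.q : ℤ) ≤ D.j))
    (hl : ∀ (m : ℤ) (i : ℕ), (D.Q i : ℤ) ∣ m → ¬ (D.Q (i + 1) : ℤ) ∣ m → w m = D.a i) (i : ℕ) :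
    ∃ M : ℕ, ∀ n n' : ℤ, (∀ k : ℕ, k ≤ M → w (n + k) = w (n' + k)) → (D.Q i : ℤ) ∣ n - n' := by
  induction i with
  | zero => rw [te_Q_zero]; exact te_rec_zero hD hs hl
  | succ i ih =>
    obtain ⟨M, hM⟩ := ih
    obtain ⟨l, hl1, hal⟩ := hD.ha (!(D.a i)) (i + 1)
    refine ⟨max M (D.Q (l + 1)), fun n n' h => ?_⟩
    have h0 := hM n n' fun k hk => h k (hk.trans (le_max_left _ _))
    obtain ⟨k, hk, h3, h4⟩ := te_exists_lev hD l n
    have e1 := hl (n + k) l h3 h4
    rw [h k (hk.trans (le_max_right _ _)), hal] at e1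
    have h5 : (D.Q i : ℤ) ∣ n' + k := by
      have e : n' + k = (n + k) - (n - n') := by ring
      rw [e]; exact dvd_sub ((te_Q_dvd D (by omega)).trans h3) h0
    have e2 : (D.Q (i + 1) : ℤ) ∣ n' + k := by
      by_contra hcon
      rw [hl _ i h5 hcon] at e1
      cases D.a i <;> simp at e1
    have e : n - n' = (n + k) - (n' + k) := by ring
    rw [e]; exact dvd_sub ((te_Q_dvd D hl1).trans h3) e2

/-- The three point argument. -/
theorem te_key {f : ℕ → Bool} (hlow : LowN f) {D : TPar} (hD : D.Ok) {w : Pt}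
    (hl : ∀ (m : ℤ) (i : ℕ), (D.Q i : ℤ) ∣ m → ¬ (D.Q (i + 1) : ℤ) ∣ m → w m = D.a i)
    (h1 : ∀ (K : Finset ℕ) (v : Bool) (n : ℤ),
      K.filter (fun k : ℕ => fil w v (n + k) = true) ∈ trs f K)
    (m : ℕ) (b : Bool) (l₀ N : ℕ) (hb : ∀ t : ℕ, D.Q l₀ ∣ t → N ≤ m + t → f (m + t) = b) :
    f m = b := by
  classical
  by_contra hfm
  have hfm' : f m = !b := by
    cases b <;> cases hh : f m <;> simp_all
  obtain ⟨i₁, hi₁, ha₁⟩ := hD.ha true l₀
  obtain ⟨i₂, hi₂, ha₂⟩ := hD.ha false l₀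
  obtain ⟨i, hi, hai⟩ := hD.ha (!b) (i₁ + i₂ + 1)
  obtain ⟨l, hli, hal⟩ := hD.ha b (i + 1)
  have hQl := te_Q_pos hD l
  have hQi := te_Q_pos hD i
  set T₁ : ℕ := D.Q l * (1 + D.p l * N) with hT₁
  set T₂ : ℕ := D.Q i * (1 + D.p i * N) with hT₂
  have hlevT : ∀ c : ℕ, ¬ (D.Q (c + 1) : ℤ) ∣ ((D.Q c * (1 + D.p c * N) : ℕ) : ℤ) := by
    intro c hcon
    apply te_Q_not_dvd hD c
    have e : (D.Q c : ℤ) = ((D.Q c * (1 + D.p c * N) : ℕ) : ℤ) - (D.Q (c + 1) : ℤ) * N := by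
      rw [te_Q_succ]; push_cast; ring
    rw [e]; exact dvd_sub hcon (dvd_mul_right _ _)
  have hdT : ∀ c : ℕ, (D.Q c : ℤ) ∣ ((D.Q c * (1 + D.p c * N) : ℕ) : ℤ) := by
    intro c; push_cast; exact dvd_mul_right _ _
  have d1l : (D.Q l : ℤ) ∣ (T₁ : ℤ) := hdT l
  have n1l : ¬ (D.Q (l + 1) : ℤ) ∣ (T₁ : ℤ) := hlevT l
  have d2i : (D.Q i : ℤ) ∣ (T₂ : ℤ) := hdT i
  have n2i : ¬ (D.Q (i + 1) : ℤ) ∣ (T₂ : ℤ) := hlevT i
  have d1i' : (D.Q (i + 1) : ℤ) ∣ (T₁ : ℤ) := (te_Q_dvd D hli).trans d1l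
  have d1i : (D.Q i : ℤ) ∣ (T₁ : ℤ) := (te_Q_dvd D (Nat.le_succ i)).trans d1i'
  have hbig : ∀ c : ℕ, N ≤ D.Q c * (1 + D.p c * N) := by
    intro c
    have h3 := te_Q_pos hD c
    have h4 := hD.hp c
    have h5 : N ≤ 1 + D.p c * N := by nlinarith
    calc N ≤ 1 + D.p c * N := h5
      _ ≤ D.Q c * (1 + D.p c * N) := Nat.le_mul_of_pos_left _ h3
  have hTpos₁ : 0 < T₁ := by rw [hT₁]; positivity
  have hTpos₂ : 0 < T₂ := by rw [hT₂]; positivity
  have hTne : T₁ ≠ T₂ := by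
    intro h
    rw [h] at d1i'
    exact n2i d1i'
  let K : Finset ℕ := {0, T₁, T₂}
  have hKc : K.card = 3 := by
    rw [Finset.card_eq_three]
    exact ⟨0, T₁, T₂, by omega, by omega, hTne, rfl⟩
  -- patterns as triples
  let G : Bool × Bool × Bool → Finset ℕ := fun x =>
    K.filter (fun k => (k = 0 ∧ x.1 = true) ∨ (k = T₁ ∧ x.2.1 = true) ∨ (k = T₂ ∧ x.2.2 = true))
  have hG0 : ∀ x, 0 ∈ G x ↔ x.1 = true := by
    intro x
    simp only [G, K, mem_filter, mem_insert, mem_singleton]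
    constructor
    · rintro ⟨-, ⟨-, h⟩ | ⟨h, -⟩ | ⟨h, -⟩⟩
      · exact h
      · omega
      · omega
    · intro h; exact ⟨Or.inl trivial, Or.inl ⟨trivial, h⟩⟩
  have hG1 : ∀ x, T₁ ∈ G x ↔ x.2.1 = true := by
    intro x
    simp only [G, K, mem_filter, mem_insert, mem_singleton]
    constructor
    · rintro ⟨-, ⟨h, -⟩ | ⟨-, h⟩ | ⟨h, -⟩⟩
      · omega
      · exact h
      · exact absurd h hTne
    · intro h; exact ⟨Or.inr (Or.inl trivial), Or.inr (Or.inl ⟨trivial, h⟩)⟩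
  have hG2 : ∀ x, T₂ ∈ G x ↔ x.2.2 = true := by
    intro x
    simp only [G, K, mem_filter, mem_insert, mem_singleton]
    constructor
    · rintro ⟨-, ⟨h, -⟩ | ⟨h, -⟩ | ⟨-, h⟩⟩
      · omega
      · exact absurd h.symm hTne
      · exact h
    · intro h; exact ⟨Or.inr (Or.inr trivial), Or.inr (Or.inr ⟨trivial, h⟩)⟩
  have hGinj : Function.Injective G := by
    intro x y hxy
    have g0 : x.1 = true ↔ y.1 = true := by rw [← hG0, ← hG0, hxy]
    have g1 : x.2.1 = true ↔ y.2.1 = true := by rw [← hG1, ← hG1, hxy]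
    have g2 : x.2.2 = true ↔ y.2.2 = true := by rw [← hG2, ← hG2, hxy]
    have g0' := Bool.eq_iff_iff.2 g0
    have g1' := Bool.eq_iff_iff.2 g1
    have g2' := Bool.eq_iff_iff.2 g2
    exact Prod.ext g0' (Prod.ext g1' g2')
  have hGK : ∀ (g : ℕ → Bool) , G (g 0, g T₁, g T₂) = K.filter (fun k => g k = true) := by
    intro g
    ext k
    constructor
    · intro hk
      have hkK : k ∈ K := (mem_filter.1 hk).1
      refine mem_filter.2 ⟨hkK, ?_⟩
      simp only [K, mem_insert, mem_singleton] at hkK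
      rcases hkK with rfl | rfl | rfl
      · exact (hG0 _).1 hk
      · exact (hG1 _).1 hk
      · exact (hG2 _).1 hk
    · intro hk
      obtain ⟨hkK, hg⟩ := mem_filter.1 hk
      simp only [K, mem_insert, mem_singleton] at hkK
      rcases hkK with rfl | rfl | rfl
      · exact (hG0 _).2 hg
      · exact (hG1 _).2 hg
      · exact (hG2 _).2 hg
  have hWin : ∀ (v : Bool) (n : ℤ),
      G (fil w v n, fil w v (n + T₁), fil w v (n + T₂)) ∈ trs f K := by
    intro v n
    have h3 := h1 K v n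
    have h4 := hGK (fun k : ℕ => fil w v (n + k))
    simp only [Nat.cast_zero, add_zero] at h4
    rw [h4]; exact h3
  have hfilw : ∀ (v : Bool) (n : ℤ), n ≠ 0 → fil w v n = w n := by
    intro v n hn
    unfold fil
    rw [Function.update_of_ne hn]
  have hfil0 : ∀ (v : Bool), fil w v 0 = v := by
    intro v
    unfold fil
    rw [Function.update_self]
  have hlf : ∀ (v : Bool) (n : ℤ) (c : ℕ), (D.Q c : ℤ) ∣ n → ¬ (D.Q (c + 1) : ℤ) ∣ n →
      fil w v n = D.a c := by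
    intro v n c h3 h4
    rw [hfilw v n (by rintro rfl; exact h4 (dvd_zero _))]
    exact hl n c h3 h4
  -- constants
  have hconst : ∀ c : ℕ, c < i → G (D.a c, D.a c, D.a c) ∈ trs f K := by
    intro c hc
    have h3 := hWin true (D.Q c)
    have hQd : (D.Q (c + 1) : ℤ) ∣ (D.Q i : ℤ) := te_Q_dvd D hc
    have g : ∀ t : ℤ, (D.Q i : ℤ) ∣ t → fil w true ((D.Q c : ℤ) + t) = D.a c := by
      intro t ht
      refine hlf true _ c (dvd_add dvd_rfl ((te_Q_dvd D hc.le).trans ht)) ?_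
      intro h4
      apply te_Q_not_dvd hD c
      have e : (D.Q c : ℤ) = ((D.Q c : ℤ) + t) - t := by ring
      rw [e]; exact dvd_sub h4 (hQd.trans ht)
    have g0 := g 0 (dvd_zero _)
    rw [add_zero] at g0
    rw [g0, g _ d1i, g _ d2i] at h3
    exact h3
  -- the other windows
  have w1 : ∀ v : Bool, G (v, b, !b) ∈ trs f K := by
    intro v
    have h3 := hWin v 0
    rw [hfil0, zero_add, zero_add, hlf v _ l d1l n1l, hlf v _ i d2i n2i, hal, hai] at h3
    exact h3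
  have w2 : ∀ v : Bool, G (b, v, !b) ∈ trs f K := by
    intro v
    have h3 := hWin v (-(T₁ : ℤ))
    rw [hlf v _ l ((dvd_neg).2 d1l) (fun h => n1l ((dvd_neg).1 h)), neg_add_cancel, hfil0,
      hlf v (-(T₁ : ℤ) + T₂) i (dvd_add ((dvd_neg).2 d1i) d2i) (fun h => n2i (by
        have e : (T₂ : ℤ) = (-(T₁ : ℤ) + T₂) + T₁ := by ring
        rw [e]; exact dvd_add h d1i')), hal, hai] at h3
    exact h3
  have w3 : G (!b, !b, b) ∈ trs f K := by
    have h3 := hWin b (-(T₂ : ℤ))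
    rw [hlf b _ i ((dvd_neg).2 d2i) (fun h => n2i ((dvd_neg).1 h)), neg_add_cancel, hfil0,
      hlf b (-(T₂ : ℤ) + T₁) i (dvd_add ((dvd_neg).2 d2i) d1i) (fun h => n2i (by
        have e : (T₂ : ℤ) = T₁ - (-(T₂ : ℤ) + T₁) := by ring
        rw [e]; exact dvd_sub d1i' h)), hai] at h3
    exact h3
  have w4 : G (!b, b, b) ∈ trs f K := by
    have h3 := hGK (fun k => f (m + k))
    have hdl : ∀ t : ℕ, (D.Q i : ℤ) ∣ (t : ℤ) → D.Q l₀ ∣ t := by
      intro t ht
      exact Int.natCast_dvd_natCast.1 ((te_Q_dvd D (by omega)).trans ht)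
    have e1 : f (m + T₁) = b := hb T₁ (hdl _ d1i) (by have := hbig l; omega)
    have e2 : f (m + T₂) = b := hb T₂ (hdl _ d2i) (by have := hbig i; omega)
    simp only [add_zero] at h3
    rw [hfm', e1, e2] at h3
    rw [h3]
    exact tr_mem_trs f K m
  have c1 := hconst i₁ (by omega)
  have c2 := hconst i₂ (by omega)
  rw [ha₁] at c1
  rw [ha₂] at c2
  have hall : ∀ x : Bool × Bool × Bool, x ≠ (b, !b, b) → G x ∈ trs f K := by
    rintro ⟨x, y, z⟩ hx
    cases b <;> cases x <;> cases y <;> cases z <;>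
      first
        | exact c1
        | exact c2
        | exact w1 true
        | exact w1 false
        | exact w2 true
        | exact w2 false
        | exact w3
        | exact w4
        | exact absurd rfl hx
  have hsub : ((univ : Finset (Bool × Bool × Bool)).erase (b, !b, b)).image G ⊆ trs f K := by
    intro s hs
    obtain ⟨x, hx, rfl⟩ := mem_image.1 hs
    exact hall x (mem_erase.1 hx).1
  have h7 := card_le_card hsub
  rw [card_image_of_injective _ hGinj, card_erase_of_mem (mem_univ _)] at h7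
  have h8 : (univ : Finset (Bool × Bool × Bool)).card = 8 := by decide
  have h9 := hlow K ⟨0, by simp [K]⟩
  rw [hKc] at h9
  omega

theorem toep_ext (f : ℕ → Bool) (hlow : LowN f) (D : TPar) (hD : D.Ok) (w : Pt)
    (hw : ∀ m : ℤ, m ≠ 0 → D.Cod (fun _ => 0) m (w m))
    (h1 : ∀ (K : Finset ℕ) (v : Bool) (n : ℤ),
      K.filter (fun k : ℕ => fil w v (n + k) = true) ∈ trs f K)
    (h2 : ∀ L : ℕ, ∃ N : ℕ, ∀ m : ℕ, N ≤ m → ∃ n : ℤ, ∀ i : ℕ, i ≤ L → f (m + i) = w (n + i)) :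
    ToepType f := by
  have hs : ∀ m : ℤ, ¬ (D.q : ℤ) ∣ m → (w m = true ↔ (D.r * m) % (D.q : ℤ) ≤ D.j) := by
    intro m hm
    have h3 := (hw m (by rintro rfl; exact hm (dvd_zero _))).1
    rw [te_Q_zero] at h3
    simp only [sub_zero] at h3
    exact h3 hm
  have hl : ∀ (m : ℤ) (i : ℕ), (D.Q i : ℤ) ∣ m → ¬ (D.Q (i + 1) : ℤ) ∣ m → w m = D.a i := by
    intro m i hm1 hm2
    have h3 := (hw m (by rintro rfl; exact hm2 (dvd_zero _))).2 i
    simp only [sub_zero] at h3
    exact h3 hm1 hm2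
  -- the residues
  let E : ℕ → ℤ → Prop := fun i h => ∀ L : ℕ, ∃ N : ℕ, ∀ m : ℕ, N ≤ m → ∃ n : ℤ,
    (D.Q i : ℤ) ∣ (m : ℤ) - h - n ∧ ∀ k : ℕ, k ≤ L → f (m + k) = w (n + k)
  have hE : ∀ i, ∃ h, E i h := by
    intro i
    obtain ⟨M, hM⟩ := te_rec hD hs hl i
    obtain ⟨N₀, hN₀⟩ := h2 (M + 1)
    choose! g hg using hN₀
    have hstep : ∀ d : ℕ, (D.Q i : ℤ) ∣ ((N₀ + d : ℕ) : ℤ) - (N₀ - g N₀) - g (N₀ + d) := by
      intro d
      induction d with
      | zero => simp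
      | succ d ih =>
        have h3 : (D.Q i : ℤ) ∣ (g (N₀ + d) + 1) - g (N₀ + (d + 1)) := by
          apply hM
          intro k hk
          have e1 := hg (N₀ + d) (by omega) (k + 1) (by omega)
          have e2 := hg (N₀ + (d + 1)) (by omega) k (by omega)
          have e3 : N₀ + d + (k + 1) = N₀ + (d + 1) + k := by ring
          rw [e3, e2] at e1
          rw [e1]
          congr 1
          push_cast; ring
        have e : ((N₀ + (d + 1) : ℕ) : ℤ) - (N₀ - g N₀) - g (N₀ + (d + 1)) =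
          (((N₀ + d : ℕ) : ℤ) - (N₀ - g N₀) - g (N₀ + d)) +
            ((g (N₀ + d) + 1) - g (N₀ + (d + 1))) := by push_cast; ring
        rw [e]; exact dvd_add ih h3
    refine ⟨(N₀ : ℤ) - g N₀, fun L => ?_⟩
    obtain ⟨N, hN⟩ := h2 (max L M)
    refine ⟨max N N₀, fun m hm => ?_⟩
    obtain ⟨n, hn⟩ := hN m ((le_max_left _ _).trans hm)
    refine ⟨n, ?_, fun k hk => hn k (hk.trans (le_max_left _ _))⟩
    obtain ⟨d, rfl⟩ := Nat.exists_eq_add_of_le ((le_max_right _ _).trans hm)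
    have h3 : (D.Q i : ℤ) ∣ g (N₀ + d) - n := by
      apply hM
      intro k hk
      rw [← hg (N₀ + d) (by omega) k (by omega), hn k (hk.trans (le_max_right _ _))]
    have e : ((N₀ + d : ℕ) : ℤ) - (N₀ - g N₀) - n =
      (((N₀ + d : ℕ) : ℤ) - (N₀ - g N₀) - g (N₀ + d)) + (g (N₀ + d) - n) := by ring
    rw [e]; exact dvd_add (hstep d) h3
  choose h hh using hE
  have hcoh : D.Coh h := by
    intro i
    obtain ⟨M, hM⟩ := te_rec hD hs hl i
    obtain ⟨N, hN⟩ := hh i M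
    obtain ⟨N', hN'⟩ := hh (i + 1) M
    obtain ⟨n, hn1, hn2⟩ := hN (max N N') (le_max_left _ _)
    obtain ⟨n', hn1', hn2'⟩ := hN' (max N N') (le_max_right _ _)
    have h3 : (D.Q i : ℤ) ∣ n - n' := by
      apply hM
      intro k hk
      rw [← hn2 k hk, hn2' k hk]
    have h4 := (te_Q_dvd D (Nat.le_succ i)).trans hn1'
    have e : h (i + 1) - h i = (((max N N' : ℕ) : ℤ) - h i - n) -
      (((max N N' : ℕ) : ℤ) - h (i + 1) - n') + (n - n') := by ring
    rw [e]; exact dvd_add (dvd_sub hn1 h4) h3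
  refine ⟨D, hD, h, hcoh, fun m => ⟨?_, ?_⟩⟩
  · intro hm
    rw [te_Q_zero] at hm
    obtain ⟨N, hN⟩ := hh 0 0
    have hfm : f m = decide ((D.r * ((m : ℤ) - h 0)) % (D.q : ℤ) ≤ D.j) := by
      refine te_key hlow hD hl h1 m _ 0 N fun t ht hmt => ?_
      obtain ⟨n, hn1, hn2⟩ := hN (m + t) hmt
      have h3 := hn2 0 le_rfl
      simp only [add_zero, Nat.cast_zero] at h3
      rw [te_Q_zero] at ht hn1
      have ht' : (D.q : ℤ) ∣ (t : ℤ) := Int.natCast_dvd_natCast.2 ht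
      have h4 : (D.q : ℤ) ∣ ((m : ℤ) - h 0) - n := by
        have e : ((m : ℤ) - h 0) - n = (((m + t : ℕ) : ℤ) - h 0 - n) - t := by push_cast; ring
        rw [e]; exact dvd_sub hn1 ht'
      have h5 : ¬ (D.q : ℤ) ∣ n := by
        intro h6
        apply hm
        have e : (m : ℤ) - h 0 = ((m : ℤ) - h 0 - n) + n := by ring
        rw [e]; exact dvd_add h4 h6
      have h6 := hs n h5
      have h7 : (D.r * ((m : ℤ) - h 0)) % (D.q : ℤ) = (D.r * n) % (D.q : ℤ) := by
        apply Int.emod_eq_emod_iff_emod_sub_eq_zero.2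
        apply Int.emod_eq_zero_of_dvd
        have e : D.r * ((m : ℤ) - h 0) - D.r * n = D.r * ((m : ℤ) - h 0 - n) := by ring
        rw [e]; exact dvd_mul_of_dvd_right h4 _
      rw [h3, h7]
      cases hwn : w n with
      | true => rw [hwn] at h6; simpa using h6.1 rfl
      | false =>
        rw [hwn] at h6
        symm
        rw [decide_eq_false_iff_not]
        intro h8
        have := h6.2 h8
        simp at this
    rw [hfm]
    exact decide_eq_true_iff
  · intro i hi1 hi2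
    obtain ⟨N, hN⟩ := hh (i + 1) 0
    refine te_key hlow hD hl h1 m _ (i + 1) N fun t ht hmt => ?_
    obtain ⟨n, hn1, hn2⟩ := hN (m + t) hmt
    have h3 := hn2 0 le_rfl
    simp only [add_zero, Nat.cast_zero] at h3
    have ht' : (D.Q (i + 1) : ℤ) ∣ (t : ℤ) := Int.natCast_dvd_natCast.2 ht
    have h4 : (D.Q (i + 1) : ℤ) ∣ ((m : ℤ) - h (i + 1)) - n := by
      have e : ((m : ℤ) - h (i + 1)) - n = (((m + t : ℕ) : ℤ) - h (i + 1) - n) - t := by
        push_cast; ring
      rw [e]; exact dvd_sub hn1 ht'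
    rw [h3]
    apply hl
    · have e : n = ((m : ℤ) - h i) - (h (i + 1) - h i) - ((m : ℤ) - h (i + 1) - n) := by ring
      rw [e]
      exact dvd_sub (dvd_sub hi1 (hcoh i)) ((te_Q_dvd D (Nat.le_succ i)).trans h4)
    · intro h5
      apply hi2
      have e : (m : ℤ) - h (i + 1) = ((m : ℤ) - h (i + 1) - n) + n := by ring
      rw [e]; exact dvd_add h4 h5

end PatSturm
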