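import Pool.Agent.LibPS.OmegaMin
import Pool.Agent.LibPS.RotConv
import Pool.Agent.LibPS.RotExt
import Pool.Agent.LibPS.RotThm
import Pool.Agent.LibPS.ToepConv
import Pool.Agent.LibPS.ToepExt
import Pool.Agent.LibPS.Sparse
import Pool.Agent.LibPS.PerCase
import Pool.Agent.LibPS.OneHole
import Pool.Agent.LibPS.Skeleton

/-! # Words with pattern complexity `2n`: the classification -/

namespace PatSturm

/-! ## Pattern complexity and traces -/

theorem mem_tr {f : ℕ → Bool} {K : Finset ℕ} {m k : ℕ} :
    k ∈ tr f K m ↔ k ∈ K ∧ f (m + k) = true := Finset.mem_filter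

theorem patCount_eq (f : ℕ → Bool) (K : Finset ℕ) : patCount f K = (trs f K).card := by
  classical
  unfold patCount
  set Φ : ({k // k ∈ K} → Bool) → Finset ℕ :=
    fun g => (K.attach.filter (fun k => g k = true)).image Subtype.val with hΦ
  have hmem : ∀ g (k : {k // k ∈ K}), k.1 ∈ Φ g ↔ g k = true := by
    intro g k
    simp only [hΦ, Finset.mem_image, Finset.mem_filter, Finset.mem_attach, true_and]
    constructor
    · rintro ⟨a, h1, h2⟩
      have : a = k := Subtype.ext h2
      rw [← this]; exact h1
    · intro h; exact ⟨k, h, rfl⟩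
  have hinj : Function.Injective Φ := by
    intro g g' h
    funext k
    have h1 := hmem g k
    have h2 := hmem g' k
    rw [h] at h1
    cases hg : g k <;> cases hg' : g' k <;> simp_all
  rw [← Set.ncard_image_of_injective _ hinj, ← Set.ncard_coe_finset]
  congr 1
  ext s
  simp only [Set.mem_image, Set.mem_range, exists_exists_eq_and, Finset.mem_coe, mem_trs]
  have key : ∀ m : ℕ, Φ (fun k : {k // k ∈ K} => f (m + k)) = tr f K m := by
    intro m
    ext k
    rw [mem_tr]
    constructor
    · intro h
      have hk : k ∈ K := by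
        simp only [hΦ, Finset.mem_image] at h
        obtain ⟨a, -, rfl⟩ := h
        exact a.2
      exact ⟨hk, (hmem _ ⟨k, hk⟩).1 h⟩
    · rintro ⟨hk, h⟩
      exact (hmem (fun k : {k // k ∈ K} => f (m + k)) ⟨k, hk⟩).2 h
  constructor
  · rintro ⟨m, h⟩; exact ⟨m, by rw [← key, h]⟩
  · rintro ⟨m, h⟩; exact ⟨m, by rw [key, h]⟩

theorem trs_card_le (f : ℕ → Bool) (K : Finset ℕ) : (trs f K).card ≤ 2 ^ K.card := by
  classical
  rw [← Finset.card_powerset]
  exact Finset.card_le_card (Finset.filter_subset _ _)

theorem PC_iff (f : ℕ → Bool) : (∀ n : ℕ, 1 ≤ n → PC f n = 2 * n) ↔ LowN f ∧ HighN f := by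
  have hbdd : ∀ n, BddAbove {c | ∃ K : Finset ℕ, K.card = n ∧ patCount f K = c} := by
    intro n
    refine ⟨2 ^ n, ?_⟩
    rintro c ⟨K, hK, rfl⟩
    rw [patCount_eq, ← hK]
    exact trs_card_le f K
  have hne : ∀ n, {c | ∃ K : Finset ℕ, K.card = n ∧ patCount f K = c}.Nonempty := by
    intro n
    exact ⟨_, Finset.range n, Finset.card_range n, rfl⟩
  constructor
  · intro h
    constructor
    · intro K hK
      have h1 := h K.card (Finset.card_pos.2 hK)
      rw [← h1, ← patCount_eq]
      exact le_csSup (hbdd _) ⟨K, rfl, rfl⟩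
    · intro n hn
      obtain ⟨K, hK, hc⟩ := Nat.sSup_mem (hne n) (hbdd n)
      refine ⟨K, hK, ?_⟩
      rw [← patCount_eq, hc]
      exact (h n hn).ge
  · rintro ⟨h1, h2⟩ n hn
    apply le_antisymm
    · apply csSup_le (hne n)
      rintro c ⟨K, hK, rfl⟩
      rw [patCount_eq, ← hK]
      exact h1 K (Finset.card_pos.1 (by omega))
    · obtain ⟨K, hK, hc⟩ := h2 n hn
      refine hc.trans ?_
      rw [← patCount_eq]
      exact le_csSup (hbdd n) ⟨K, hK, rfl⟩

theorem not_ultPer {f : ℕ → Bool} (h : HighN f) : ¬ UltPer f := by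
  classical
  rintro ⟨p, hp, N, hN⟩
  obtain ⟨K, hK, hc⟩ := h (N + p) (by omega)
  have hsub : trs f K ⊆ (Finset.range (N + p)).image (tr f K) := by
    intro s hs
    obtain ⟨m, rfl⟩ := mem_trs.1 hs
    have key : ∀ m : ℕ, ∃ m' < N + p, tr f K m' = tr f K m := by
      intro m
      induction m using Nat.strong_induction_on with
      | _ m ih =>
        by_cases hm : m < N + p
        · exact ⟨m, hm, rfl⟩
        · obtain ⟨m', h1, h2⟩ := ih (m - p) (by omega)
          refine ⟨m', h1, h2.trans ?_⟩
          unfold tr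
          apply Finset.filter_congr
          intro k _
          have := hN (m - p + k) (by omega)
          rw [show m - p + k + p = m + k by omega] at this
          rw [this]
    obtain ⟨m', h1, h2⟩ := key m
    exact Finset.mem_image.2 ⟨m', Finset.mem_range.2 h1, h2⟩
  have := (Finset.card_le_card hsub).trans Finset.card_image_le
  rw [Finset.card_range] at this
  omega

/-! ## The nonconstant windows -/

theorem nonconst_of : NonconstStmt := by
  classical
  intro x θ c hθ hc0 hc1 hx
  obtain ⟨K, hne, hK⟩ := rot_nonconst θ c hθ hc0 hc1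
  have hinj : Function.Injective (fun n : ℕ => (n : ℤ)) := Nat.cast_injective
  refine ⟨K.image (fun n : ℕ => (n : ℤ)), hne.image _, ?_⟩
  rw [Finset.card_image_of_injective _ hinj]
  refine hK.trans ?_
  rw [← Finset.card_image_of_injective _ (Finset.image_injective hinj)]
  apply Finset.card_le_card
  intro s hs
  rw [Finset.mem_image] at hs
  obtain ⟨t, ht, rfl⟩ := hs
  rw [Finset.mem_filter] at ht
  obtain ⟨ht1, ht2, ht3⟩ := ht
  obtain ⟨n, hn⟩ := codPats_occurs x θ 0 c hθ hc0 hc1 hx K t ht1
  rw [Finset.mem_filter]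
  refine ⟨mem_ztrs.2 ⟨sh n x, ⟨n, rfl⟩, ?_⟩, ?_, ?_⟩
  · rw [← hn]
    ext k
    constructor
    · intro h
      obtain ⟨h1, h2⟩ := mem_ztr.1 h
      obtain ⟨k', hk', rfl⟩ := Finset.mem_image.1 h1
      refine Finset.mem_image.2 ⟨k', Finset.mem_filter.2 ⟨hk', ?_⟩, rfl⟩
      rw [← h2]; simp [sh, add_comm]
    · intro h
      obtain ⟨k', hk', rfl⟩ := Finset.mem_image.1 h
      rw [Finset.mem_filter] at hk'
      refine mem_ztr.2 ⟨Finset.mem_image_of_mem _ hk'.1, ?_⟩
      rw [← hk'.2]; simp [sh, add_comm]
  · intro h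
    exact ht2 (Finset.image_eq_empty.1 h)
  · intro h
    exact ht3 (Finset.image_injective hinj h)

/-! ## Forward direction -/

/-- Windows of points of the limit set, restricted to natural positions, are traces of `f`. -/
theorem filter_mem_trs {f : ℕ → Bool} {x : Pt} (hx : x ∈ omg f) (K : Finset ℕ) (n : ℤ) :
    K.filter (fun k : ℕ => x (n + k) = true) ∈ trs f K := by
  classical
  obtain ⟨m, -, hm⟩ := exists_window ((omg_sub f).inv x hx n) (K.image (fun k : ℕ => (k : ℤ))) 0
  refine mem_trs.2 ⟨m, ?_⟩
  unfold tr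
  apply Finset.filter_congr
  intro k hk
  have := hm k (Finset.mem_image_of_mem _ hk)
  simp only [sh_apply, fz] at this
  rw [add_comm n, ← this]
  have e : ((m : ℤ) + k).toNat = m + k := by omega
  rw [e]

theorem forward (f : ℕ → Bool) (hlow : LowN f) (hnp : ¬ UltPer f) :
    RotType f ∨ ToepType f ∨ SparseType f := by
  classical
  by_cases hper : NP (omg f)
  · have hX := omg_sub f
    have hlz := omg_low f hlow
    have hmin := omg_mini hlow hper
    rcases minimal_main rotation_theorem nonconst_of hX hper hlz hmin with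
      ⟨x, hx, θ, c, hθ, hc0, hc1, hcod⟩ | ⟨w, hw, hHL, hHNP, hLev⟩
    · left
      apply rot_ext f hlow θ c hθ hc0 hc1
      intro K s hs
      obtain ⟨n, hn⟩ := codPats_occurs x θ 0 c hθ hc0 hc1 hcod K s hs
      rw [← hn]
      exact filter_mem_trs hx K n
    · right; left
      obtain ⟨D, hD, hDw⟩ := skeleton w hHL (exists_level w _ hHL hHNP hLev)
      apply toep_ext f hlow D hD w hDw
      · intro K v n
        exact filter_mem_trs (hw v) K n
      · intro L
        by_contra hc
        push Not at hc
        choose m hm1 hm2 using hc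
        obtain ⟨x, hx⟩ := exists_cluster (fun k => fz f (m k))
        have hxX : x ∈ omg f := omg_of_cluster m hm1 hx
        have hwX : w ∈ omg f := by
          have := hw (w 0)
          rwa [fil, Function.update_eq_self] at this
        obtain ⟨n, hn⟩ := hmin w hwX x hxX L
        obtain ⟨k, -, hk⟩ := hx L 0
        obtain ⟨i, hi, hne⟩ := hm2 k n
        apply hne
        have h1 := hk i (by omega)
        have h2 := hn i (by omega)
        simp only [fz, sh_apply] at h1 h2
        rw [show n + (i : ℤ) = i + n by ring, h2, ← h1]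
        congr 1
  · right; right
    unfold NP at hper
    push Not at hper
    obtain ⟨x, hx, p, hp, hpx⟩ := hper
    have key : ∀ p : ℕ, 1 ≤ p → (∀ i : ℤ, x (i + p) = x i) → SparseType f := by
      intro p hp hpx
      obtain ⟨b, hb⟩ := periodic_case f hlow hnp p hp (by
        intro L N
        obtain ⟨m, h1, h2, h3⟩ := (mem_omg.1 hx) (L + p) N
        refine ⟨m, h1, fun i hi => ?_⟩
        have e1 := h3 (i + p : ℤ) (by omega)
        have e2 := h3 (i : ℤ) (by omega)
        simp only [fz] at e1 e2
        rw [show ((m : ℤ) + (i + p)).toNat = m + i + p by omega] at e1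
        rw [show ((m : ℤ) + i).toNat = m + i by omega] at e2
        rw [e1, e2, hpx])
      exact ⟨b, hb, sparse_conv f hlow b hb⟩
    rcases lt_or_gt_of_ne hp with h | h
    · apply key p.natAbs (by omega)
      intro i
      rw [← hpx (i + p.natAbs)]
      congr 1; omega
    · apply key p.natAbs (by omega)
      intro i
      rw [← hpx i]
      congr 1; omega

/-- The classification of words with pattern complexity `2n`. -/
theorem classification (f : ℕ → Bool) :
    (∀ n : ℕ, 1 ≤ n → PC f n = 2 * n) ↔ RotType f ∨ ToepType f ∨ SparseType f := by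
  rw [PC_iff]
  constructor
  · rintro ⟨h1, h2⟩
    exact forward f h1 (not_ultPer h2)
  · rintro (h | h | h)
    · exact ⟨rot_low f h, rot_high f h⟩
    · exact ⟨toep_low f h, toep_high f h⟩
    · exact ⟨sparse_low f h, sparse_high f h⟩

end PatSturm
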