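import Pool.Agent.LibPS.Bounded

/-! # The limit set of a one-sided word -/

namespace PatSturm

/-- Extension of a window of `f` at position `m`. -/
def fz (f : ℕ → Bool) (m : ℕ) : Pt := fun i => f ((m : ℤ) + i).toNat

theorem mem_ztr {x : Pt} {K : Finset ℤ} {k : ℤ} : k ∈ ztr x K ↔ k ∈ K ∧ x k = true :=
  Finset.mem_filter

theorem mem_omg {f : ℕ → Bool} {x : Pt} :
    x ∈ omg f ↔ ∀ M N : ℕ, ∃ m : ℕ, N ≤ m ∧ M ≤ m ∧ agr (fz f m) x M := Iff.rfl

theorem fz_shift (f : ℕ → Bool) (m m' : ℕ) (s : ℤ) (h : (m' : ℤ) = m + s) :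
    sh s (fz f m) = fz f m' := by
  funext i
  simp only [sh_apply, fz]
  rw [h]; congr 2; ring

theorem omg_of_cluster {f : ℕ → Bool} {x : Pt} (s : ℕ → ℕ) (hs : ∀ k, k ≤ s k)
    (h : ∀ M N : ℕ, ∃ n, N ≤ n ∧ agr (fz f (s n)) x M) : x ∈ omg f := by
  rw [mem_omg]
  intro M N
  obtain ⟨n, hn, ha⟩ := h M (max M N)
  exact ⟨s n, by have := hs n; omega, by have := hs n; omega, ha⟩

theorem omg_sub (f : ℕ → Bool) : IsSub (omg f) := by
  refine ⟨?_, ?_, ?_⟩
  · obtain ⟨x, hx⟩ := exists_cluster (fun n => fz f n)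
    exact ⟨x, omg_of_cluster (fun n => n) (fun k => le_rfl) hx⟩
  · intro x hx n
    rw [mem_omg] at hx ⊢
    intro M N
    obtain ⟨m, h1, h2, h3⟩ := hx (M + n.natAbs) (N + n.natAbs)
    refine ⟨((m : ℤ) + n).toNat, by omega, by omega, ?_⟩
    rw [← fz_shift f m _ n (by omega)]
    exact agr_shift h3 le_rfl
  · intro y hy
    rw [mem_omg]
    intro M N
    obtain ⟨x, hx, hxy⟩ := hy M
    obtain ⟨m, h1, h2, h3⟩ := (mem_omg.1 hx) M N
    exact ⟨m, h1, h2, h3.trans hxy⟩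

/-- All windows of `f`. -/
def Yf (f : ℕ → Bool) : Set Pt := {y | ∃ m : ℕ, y = fz f m}

theorem Yf_low (f : ℕ → Bool) (hlow : LowN f) (K : Finset ℤ) (hK : ∀ k ∈ K, 0 ≤ k)
    (hne : K.Nonempty) : (ztrs (Yf f) K).card ≤ 2 * K.card := by
  classical
  set K₀ : Finset ℕ := K.image Int.toNat with hK₀
  have hinj : Set.InjOn Int.toNat (K : Set ℤ) := by
    intro a ha b hb h
    have := hK a ha
    have := hK b hb
    omega
  have hcard : K₀.card = K.card := Finset.card_image_of_injOn hinj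
  have h1 := hlow K₀ (hne.image _)
  rw [hcard] at h1
  refine le_trans ?_ h1
  refine le_trans (Finset.card_le_card ?_) (Finset.card_image_le (s := trs f K₀)
    (f := fun s => s.image (fun n : ℕ => (n : ℤ))))
  intro s hs
  obtain ⟨y, ⟨m, rfl⟩, rfl⟩ := mem_ztrs.1 hs
  rw [Finset.mem_image]
  refine ⟨tr f K₀ m, tr_mem_trs _ _ _, ?_⟩
  ext k
  rw [mem_ztr, Finset.mem_image]
  constructor
  · rintro ⟨n, hn, rfl⟩
    rw [tr, Finset.mem_filter, hK₀, Finset.mem_image] at hn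
    obtain ⟨⟨k', hk', rfl⟩, h2⟩ := hn
    have h3 := hK k' hk'
    have h4 : ((k'.toNat : ℕ) : ℤ) = k' := by omega
    rw [h4]
    refine ⟨hk', ?_⟩
    rw [← h2]; unfold fz; congr 1; omega
  · rintro ⟨hk, h2⟩
    have h3 := hK k hk
    refine ⟨k.toNat, ?_, by omega⟩
    rw [tr, Finset.mem_filter, hK₀, Finset.mem_image]
    refine ⟨⟨k, hk, rfl⟩, ?_⟩
    rw [← h2]; unfold fz; congr 1; omega

/-- Windows of points of the limit set are windows of `f`. -/
theorem exists_window {f : ℕ → Bool} {x : Pt} (hx : x ∈ omg f) (K : Finset ℤ) (N : ℕ) :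
    ∃ m : ℕ, N ≤ m ∧ ∀ k ∈ K, fz f m k = x k := by
  obtain ⟨M, hM⟩ := bdd_of_finset K
  obtain ⟨m, h1, h2, h3⟩ := (mem_omg.1 hx) M N
  exact ⟨m, h1, fun k hk => h3 k (hM k hk)⟩

theorem omg_low (f : ℕ → Bool) (hlow : LowN f) : LowZ (omg f) := by
  classical
  intro K hne
  obtain ⟨M, hM⟩ := bdd_of_finset K
  set K' := K.image (fun k => k + (M : ℤ)) with hK'
  have hinj : Function.Injective (fun k : ℤ => k + (M : ℤ)) := fun a b h => by simpa using h
  have h1 := Yf_low f hlow K' (by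
    intro k hk
    rw [hK', Finset.mem_image] at hk
    obtain ⟨k', hk', rfl⟩ := hk
    have := hM k' hk'; omega) (hne.image _)
  rw [hK', Finset.card_image_of_injective _ hinj, ← hK'] at h1
  refine le_trans ?_ h1
  rw [← Finset.card_image_of_injective (ztrs (omg f) K) (Finset.image_injective hinj)]
  apply Finset.card_le_card
  intro s hs
  rw [Finset.mem_image] at hs
  obtain ⟨t, ht, rfl⟩ := hs
  obtain ⟨x, hx, rfl⟩ := mem_ztrs.1 ht
  obtain ⟨m, -, hm⟩ := exists_window ((omg_sub f).inv x hx (-(M : ℤ))) K' 0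
  refine mem_ztrs.2 ⟨fz f m, ⟨m, rfl⟩, ?_⟩
  ext k
  constructor
  · intro h
    obtain ⟨hk, h2⟩ := mem_ztr.1 h
    rw [hm k hk] at h2
    obtain ⟨k', hk', rfl⟩ := Finset.mem_image.1 hk
    refine Finset.mem_image.2 ⟨k', mem_ztr.2 ⟨hk', ?_⟩, rfl⟩
    rw [← h2]; simp [sh]
  · intro h
    obtain ⟨k', hk', rfl⟩ := Finset.mem_image.1 h
    rw [mem_ztr] at hk'
    have hk : k' + (M : ℤ) ∈ K' := Finset.mem_image.2 ⟨k', hk'.1, rfl⟩
    refine mem_ztr.2 ⟨hk, ?_⟩
    rw [hm _ hk, ← hk'.2]; simp [sh]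

/-! ## Existence of minimal subsystems -/

theorem IsSub.isClosed {X : Set Pt} (hX : IsSub X) : IsClosed X := by
  rw [← closure_subset_iff_isClosed]
  intro y hy
  apply hX.cl
  intro N
  have hU : {z : Pt | agr z y N} ∈ nhds y := by
    have : {z : Pt | agr z y N} = ⋂ i ∈ (Finset.Icc (-(N : ℤ)) N), {z : Pt | z i = y i} := by
      ext z
      simp only [Set.mem_ofPred_eq, Set.mem_iInter, Finset.mem_Icc, agr]
      constructor
      · intro h i hi; exact h i (by omega)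
      · intro h i hi; exact h i (by omega)
    rw [this]
    refine (Filter.biInter_finset_mem _).2 fun i _ => ?_
    have hcont : Continuous (fun z : Pt => z i) := continuous_apply i
    exact (hcont.isOpen_preimage {y i} (isOpen_discrete _)).mem_nhds rfl
  obtain ⟨z, hz1, hz2⟩ := mem_closure_iff_nhds.1 hy _ hU
  exact ⟨z, hz2, hz1⟩

theorem exists_mini {X : Set Pt} (hX : IsSub X) : ∃ Y, Y ⊆ X ∧ IsSub Y ∧ Mini Y := by
  classical
  obtain ⟨Y, hYX, hY⟩ := zorn_superset_nonempty {Y : Set Pt | IsSub Y ∧ Y ⊆ X} (by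
    intro c hc hchain hcne
    refine ⟨⋂₀ c, ⟨⟨?_, ?_, ?_⟩, ?_⟩, fun s hs => Set.sInter_subset_of_mem hs⟩
    · have : Nonempty c := hcne.to_subtype
      apply IsCompact.nonempty_sInter_of_directed_nonempty_isCompact_isClosed
      · intro a ha b hb
        rcases hchain.total ha hb with h | h
        · exact ⟨a, ha, subset_rfl, h⟩
        · exact ⟨b, hb, h, subset_rfl⟩
      · intro U hU; exact (hc hU).1.ne
      · intro U hU; exact (hc hU).1.isClosed.isCompact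
      · intro U hU; exact (hc hU).1.isClosed
    · intro x hx n
      rw [Set.mem_sInter] at hx ⊢
      intro U hU
      exact (hc hU).1.inv x (hx U hU) n
    · intro y hy
      rw [Set.mem_sInter]
      intro U hU
      apply (hc hU).1.cl
      intro N
      obtain ⟨x, hx, hxy⟩ := hy N
      exact ⟨x, hx U hU, hxy⟩
    · obtain ⟨U, hU⟩ := hcne
      exact (Set.sInter_subset_of_mem hU).trans (hc hU).2) X ⟨hX, subset_rfl⟩
  refine ⟨Y, hYX, hY.prop.1, ?_⟩
  intro x hx y hy N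
  set C : Set Pt := {z | ∀ N : ℕ, ∃ n : ℤ, agr (sh n x) z N} with hC
  have hCY : C ⊆ Y := by
    intro z hz
    apply hY.prop.1.cl
    intro N
    obtain ⟨n, hn⟩ := hz N
    exact ⟨_, hY.prop.1.inv x hx n, hn⟩
  have hCsub : IsSub C := by
    refine ⟨⟨x, fun N => ⟨0, by rw [sh_zero]; exact agr_refl _ _⟩⟩, ?_, ?_⟩
    · intro z hz m N
      obtain ⟨n, hn⟩ := hz (N + m.natAbs)
      exact ⟨m + n, by rw [← sh_sh]; exact agr_shift hn le_rfl⟩
    · intro z hz N
      obtain ⟨u, hu, huz⟩ := hz N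
      obtain ⟨n, hn⟩ := hu N
      exact ⟨n, hn.trans huz⟩
  have h1 := hY.le_of_le (y := C) ⟨hCsub, hCY.trans hY.prop.2⟩ hCY
  exact h1 hy N

theorem mini_left {X : Set Pt} (hX : IsSub X) (hmin : Mini X) {x z : Pt} (hx : x ∈ X) (hz : z ∈ X)
    (M : ℕ) (N : ℤ) : ∃ n : ℤ, n < N ∧ agr (sh n x) z M := by
  obtain ⟨φ, w, hφ, hw⟩ := exists_subseq (fun k => sh (-(k : ℤ)) x)
  have hwX : w ∈ X := hX.mem_of_agr _ (fun k => hX.inv x hx _) hw
  obtain ⟨m, hm⟩ := hmin w hwX z hz M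
  set k := M + m.natAbs + N.natAbs + m.natAbs + 1 with hk
  have h1 := hw k
  have h2 : agr (sh m (sh (-(φ k : ℤ)) x)) (sh m w) M :=
    agr_shift (h1.mono (by omega)) (le_refl m.natAbs)
  rw [sh_sh] at h2
  refine ⟨m + -(φ k : ℤ), ?_, h2.trans hm⟩
  have := hφ k
  omega

end PatSturm
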