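import Pool.Agent.LibPS.Omega

/-! # Minimality of the limit set -/

namespace PatSturm

theorem NP.mono {X Y : Set Pt} (h : Y ⊆ X) (hX : NP X) : NP Y := fun x hx => hX x (h hx)

theorem LowZ.mono {X Y : Set Pt} (h : Y ⊆ X) (hX : LowZ X) : LowZ Y := by
  intro K hK
  refine le_trans (Finset.card_le_card ?_) (hX K hK)
  intro s hs
  obtain ⟨x, hx, rfl⟩ := mem_ztrs.1 hs
  exact mem_ztrs.2 ⟨x, h hx, rfl⟩

/-- The forward limit set of a point. -/
def wlim (x : Pt) : Set Pt := {z | ∀ M N : ℕ, ∃ n : ℕ, N ≤ n ∧ agr (sh n x) z M}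

theorem wlim_sub (x : Pt) : IsSub (wlim x) := by
  refine ⟨?_, ?_, ?_⟩
  · obtain ⟨z, hz⟩ := exists_cluster (fun n : ℕ => sh n x)
    exact ⟨z, hz⟩
  · intro z hz n M N
    obtain ⟨m, h1, h2⟩ := hz (M + n.natAbs) (N + n.natAbs)
    refine ⟨((m : ℤ) + n).toNat, by omega, ?_⟩
    have e : sh (((((m : ℤ) + n).toNat : ℕ)) : ℤ) x = sh n (sh m x) := by
      rw [sh_sh]; congr 1; omega
    rw [e]
    exact agr_shift h2 le_rfl
  · intro z hz M N
    obtain ⟨u, hu, huz⟩ := hz M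
    obtain ⟨n, h1, h2⟩ := hu M N
    exact ⟨n, h1, h2.trans huz⟩

theorem wlim_subset {X : Set Pt} (hX : IsSub X) {x : Pt} (hx : x ∈ X) : wlim x ⊆ X := by
  intro z hz
  apply hX.cl
  intro N
  obtain ⟨n, -, h⟩ := hz N 0
  exact ⟨_, hX.inv x hx n, h⟩

theorem exists_sim {X : Set Pt} (hX : IsSub X) (hnp : NP X) (hlow : LowZ X) {x : Pt}
    (hx : x ∈ X) : ∃ Y, Y ⊆ X ∧ IsSub Y ∧ Mini Y ∧ ∃ y ∈ Y, Sim x y := by
  obtain ⟨Y, hYw, hY, hmin⟩ := exists_mini (wlim_sub x)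
  have hYX : Y ⊆ X := hYw.trans (wlim_subset hX hx)
  refine ⟨Y, hYX, hY, hmin, ?_⟩
  obtain ⟨z, hz⟩ := hY.ne
  choose n hn1 hn2 using fun L : ℕ => hYw hz L L
  obtain ⟨φ, y, hφ, hy⟩ := exists_subseq (fun L => sh (-(n L : ℤ)) z)
  have hyY : y ∈ Y := hY.mem_of_agr _ (fun k => hY.inv z hz _) hy
  refine ⟨y, hyY, ?_⟩
  obtain ⟨D, -, hD⟩ := rp hX hnp hlow (x := x) (y := y) (fun L =>
    ⟨x, hx, sh (-(n (φ L) : ℤ)) z, hX.inv z (hYX hz) _, agr_refl _ _, hy L, n (φ L), by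
      rw [sh_sh, add_neg_cancel, sh_zero]
      exact (hn2 (φ L)).mono (hφ L)⟩)
  exact D.finite_toSet.subset fun i hi => (hD i).1 hi

theorem two_classes {X Y : Set Pt} (hX : IsSub X) (hnp : NP X) (hlow : LowZ X) (hYX : Y ⊆ X)
    (hY : IsSub Y) {x y : Pt} (hx : x ∈ X) (hxY : x ∉ Y) (hy : y ∈ Y) (hxy : Sim x y) :
    ∃ g₁ ∈ X, ∃ g₁' ∈ X, ∃ g₂ ∈ X, ∃ g₂' ∈ X, Sim g₁ g₁' ∧ Sim g₂ g₂' ∧ g₁ 0 ≠ g₁' 0 ∧
      g₂ 0 ≠ g₂' 0 ∧ ¬ Sim g₁ g₂ ∧ (∃ y₁ ∈ Y, Sim g₁ y₁) ∧ (∃ y₂ ∈ Y, Sim g₂ y₂) := by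
  obtain ⟨u, hu, u', hu', huu, hu0⟩ := exists_asymp hY (hnp.mono hYX) (hlow.mono hYX)
  have hne : x ≠ y := fun h => hxY (h ▸ hy)
  obtain ⟨e, he⟩ : ∃ e, x e ≠ y e := by
    by_contra hc
    push Not at hc
    exact hne (funext hc)
  by_cases h1 : Sim u (sh e x)
  · -- three points of one class
    have hex : sh e x ∉ Y := by
      intro h
      apply hxY
      have := hY.inv _ h (-e)
      simpa [sh_sh] using this
    have key : ∀ g ∈ X, ∀ g' ∈ X, Sim u g → Sim u g' → ∀ d : ℤ, d ≠ 0 → g d ≠ g' d →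
        ∃ g₁ ∈ X, ∃ g₁' ∈ X, ∃ g₂ ∈ X, ∃ g₂' ∈ X, Sim g₁ g₁' ∧ Sim g₂ g₂' ∧ g₁ 0 ≠ g₁' 0 ∧
        g₂ 0 ≠ g₂' 0 ∧ ¬ Sim g₁ g₂ ∧ (∃ y₁ ∈ Y, Sim g₁ y₁) ∧ (∃ y₂ ∈ Y, Sim g₂ y₂) := by
      intro g hg g' hg' hug hug' d hd hgd
      refine ⟨u, hYX hu, u', hYX hu', sh d g, hX.inv g hg d, sh d g', hX.inv g' hg' d, huu,
        (hug.symm.trans hug').shift d, hu0, by simpa using hgd, ?_, ⟨u, hu, Sim.refl u⟩,
        ⟨sh d u, hY.inv u hu d, (hug.symm).shift d⟩⟩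
      intro h
      exact not_sim_shift hX hnp (hYX hu) hd (h.trans ((hug.symm).shift d))
    by_cases h2 : ∃ d, d ≠ 0 ∧ u d ≠ u' d
    · obtain ⟨d, hd, hd'⟩ := h2
      exact key u (hYX hu) u' (hYX hu') (Sim.refl u) huu d hd hd'
    by_cases h3 : ∃ d, d ≠ 0 ∧ u d ≠ sh e x d
    · obtain ⟨d, hd, hd'⟩ := h3
      exact key u (hYX hu) (sh e x) (hX.inv x hx e) (Sim.refl u) h1 d hd hd'
    exfalso
    push Not at h2 h3
    by_cases h4 : u 0 = sh e x 0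
    · apply hex
      have : sh e x = u := by
        funext i
        by_cases hi : i = 0
        · rw [hi, h4]
        · exact (h3 i hi).symm
      rw [this]; exact hu
    · apply hex
      have : sh e x = u' := by
        funext i
        by_cases hi : i = 0
        · rw [hi]
          cases hA : u 0 <;> cases hB : u' 0 <;> cases hC : sh e x 0 <;> simp_all
        · rw [← h3 i hi, h2 i hi]
      rw [this]; exact hu'
  · refine ⟨u, hYX hu, u', hYX hu', sh e x, hX.inv x hx e, sh e y, hX.inv y (hYX hy) e, huu,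
      hxy.shift e, hu0, by simpa using he, h1, ⟨u, hu, Sim.refl u⟩,
      ⟨sh e y, hY.inv y hy e, hxy.shift e⟩⟩

/-- Far windows of asymptotic points. -/
theorem Sim.far_neg {x y : Pt} (h : Sim x y) (L : ℕ) : ∃ N : ℕ, ∀ k : ℤ, N ≤ k →
    ∀ i : ℤ, i.natAbs ≤ L → x (i - k) = y (i - k) := by
  obtain ⟨N, hN⟩ := h.far L
  refine ⟨N, fun k hk i hi => ?_⟩
  have := hN (-k) (by omega) i hi
  simpa [sh, sub_eq_add_neg] using this

theorem omg_split {f : ℕ → Bool} {g g' : Pt} (hg : g ∈ omg f) (hg' : g' ∈ omg f)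
    {K : Finset ℤ} {k : ℤ} (h : ∀ i ∈ K, g i = g' i) (hk : g k ≠ g' k) :
    Spl (Yf f) K k (ztr g K) := by
  obtain ⟨m, -, hm⟩ := exists_window hg (insert k K) 0
  obtain ⟨m', -, hm'⟩ := exists_window hg' (insert k K) 0
  refine ⟨fz f m, ⟨m, rfl⟩, fz f m', ⟨m', rfl⟩, ?_, ?_, ?_⟩
  · exact ztr_eq_iff.2 fun i hi => hm i (Finset.mem_insert_of_mem hi)
  · exact ztr_eq_iff.2 fun i hi => by rw [hm' i (Finset.mem_insert_of_mem hi), h i hi]
  · rw [hm k (Finset.mem_insert_self _ _), hm' k (Finset.mem_insert_self _ _)]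
    exact hk

theorem omg_ia {f : ℕ → Bool} (hlow : LowN f) (hnp : NP (omg f)) {Y : Set Pt}
    (hYX : Y ⊆ omg f) (hY : IsSub Y) {x y : Pt} (hx : x ∈ omg f) (hy : y ∈ Y)
    (hxy : Sim x y) : x ∈ Y := by
  classical
  by_contra hxY
  have hX := omg_sub f
  have hlz := omg_low f hlow
  obtain ⟨g₁, hg₁, g₁', hg₁', g₂, hg₂, g₂', hg₂', hs₁, hs₂, h₁, h₂, hns, ⟨y₁, hy₁, hsy₁⟩,
    ⟨y₂, hy₂, hsy₂⟩⟩ := two_classes hX hnp hlz hYX hY hx hxY hy hxy
  obtain ⟨M0, hM0⟩ : ∃ M0 : ℕ, ∀ y' ∈ Y, ¬ agr y' x M0 := by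
    by_contra hc
    push Not at hc
    exact hxY (hY.cl x hc)
  obtain ⟨L, hL⟩ := not_sim_sep hX hnp hlz hg₁ hg₂ hns
  set W : ℕ := L + 2 * M0 with hW
  apply no_three (Yf f) (fun K => ∀ k ∈ K, (0 : ℤ) ≤ k) (Finset.Icc (0 : ℤ) (2 * W))
    ⟨0, by simp⟩ (fun k hk => (Finset.mem_Icc.1 hk).1)
    (fun K hP hK => Yf_low f hlow K hP hK)
  intro K hK hP
  obtain ⟨B, hB⟩ := bdd_of_finset K
  obtain ⟨N1, hN1⟩ := hs₁.far_neg B
  obtain ⟨N2, hN2⟩ := hs₂.far_neg B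
  obtain ⟨N3, hN3⟩ := hsy₁.far_neg (B + W)
  obtain ⟨N4, hN4⟩ := hsy₂.far_neg (B + W)
  obtain ⟨N5, hN5⟩ := hxy.far (M0)
  -- two occurrences of `x` in `f`
  obtain ⟨m1, -, hm1, ha1⟩ := (mem_omg.1 hx) (B + M0 + W) 0
  obtain ⟨m2, hm2, -, ha2⟩ := (mem_omg.1 hx) (B + M0 + W)
    (m1 + (N1 + N2 + N3 + N4 + N5 + B + W + M0 + 1))
  set δ : ℤ := (m2 : ℤ) - m1 with hδ
  have hδ' : ((N1 + N2 + N3 + N4 + N5 + B + W + M0 + 1 : ℕ) : ℤ) ≤ δ := by
    rw [hδ]; push_cast; omega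
  push_cast at hδ'
  obtain ⟨s, hs, hsne⟩ : ∃ s : ℤ, s.natAbs ≤ M0 ∧ x (s + δ) ≠ x s := by
    by_contra hc
    push Not at hc
    apply hM0 (sh δ y) (hY.inv y hy δ)
    intro i hi
    rw [← hN5 δ (by omega) i hi]
    exact hc i hi
  set k : ℤ := δ + W with hk
  have hkK : k ∉ K := by
    intro h
    have := hB k h
    omega
  refine ⟨k, hkK, ?_, ztr (sh (-k) g₁) K, ztr (sh (-k) g₂) K, ztr (sh (s - W) x) K,
    ?_, ?_, ?_, ?_, ?_, ?_⟩
  · intro i hi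
    rcases Finset.mem_insert.1 hi with rfl | h
    · omega
    · exact hP i h
  · -- the first two traces differ
    intro h
    rw [ztr_eq_iff] at h
    apply hL (W - k)
    intro i hi
    have := h (i + W) (hK (by rw [Finset.mem_Icc]; omega))
    simp only [sh_apply] at this ⊢
    rw [show i + ((W : ℤ) - k) = i + W + -k by ring]
    exact this
  · intro h
    rw [ztr_eq_iff] at h
    apply hM0 (sh (W - s - k) y₁) (hY.inv y₁ hy₁ _)
    intro i hi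
    have h1 := h (i + W - s) (hK (by rw [Finset.mem_Icc]; omega))
    have h2 := hB (i + W - s) (hK (by rw [Finset.mem_Icc]; omega))
    have h3 := hN3 k (by omega) (i + W - s) (by omega)
    simp only [sh_apply] at h1 ⊢
    rw [show i + W - s + -k = i + W - s - k by ring, h3,
      show i + W - s + (s - W) = i by ring] at h1
    rw [show i + (W - s - k) = i + W - s - k by ring]
    exact h1
  · intro h
    rw [ztr_eq_iff] at h
    apply hM0 (sh (W - s - k) y₂) (hY.inv y₂ hy₂ _)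
    intro i hi
    have h1 := h (i + W - s) (hK (by rw [Finset.mem_Icc]; omega))
    have h2 := hB (i + W - s) (hK (by rw [Finset.mem_Icc]; omega))
    have h3 := hN4 k (by omega) (i + W - s) (by omega)
    simp only [sh_apply] at h1 ⊢
    rw [show i + W - s + -k = i + W - s - k by ring, h3,
      show i + W - s + (s - W) = i by ring] at h1
    rw [show i + (W - s - k) = i + W - s - k by ring]
    exact h1
  · apply omg_split (hX.inv _ hg₁ _) (hX.inv _ hg₁' _)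
    · intro i hi
      simp only [sh_apply]
      exact hN1 k (by omega) i (hB i hi)
    · simp only [sh_apply, add_neg_cancel]
      exact h₁
  · apply omg_split (hX.inv _ hg₂ _) (hX.inv _ hg₂' _)
    · intro i hi
      simp only [sh_apply]
      exact hN2 k (by omega) i (hB i hi)
    · simp only [sh_apply, add_neg_cancel]
      exact h₂
  · obtain ⟨m, -, hm⟩ := exists_window (hX.inv _ hx (s - W)) (insert k K) 0
    have e1 : sh (s - W) (fz f m1) = fz f ((m1 : ℤ) + (s - W)).toNat :=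
      fz_shift f m1 _ _ (by omega)
    refine ⟨fz f m, ⟨m, rfl⟩, sh (s - W) (fz f m1), ⟨_, e1⟩, ?_, ?_, ?_⟩
    · exact ztr_eq_iff.2 fun i hi => hm i (Finset.mem_insert_of_mem hi)
    · refine ztr_eq_iff.2 fun i hi => ?_
      have := hB i hi
      simp only [sh_apply]
      exact ha1 _ (by omega)
    · rw [hm k (Finset.mem_insert_self _ _)]
      simp only [sh_apply]
      rw [show k + (s - (W : ℤ)) = s + δ by rw [hk]; ring]
      have e2 : fz f m1 (s + δ) = fz f m2 s := by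
        unfold fz; congr 2; rw [hδ]; ring
      rw [e2, ha2 s (by omega)]
      exact hsne

/-- The limit set is minimal when it contains no periodic point. -/
theorem omg_mini {f : ℕ → Bool} (hlow : LowN f) (hnp : NP (omg f)) : Mini (omg f) := by
  classical
  have hX := omg_sub f
  have hlz := omg_low f hlow
  have hall : ∀ x ∈ omg f, ∃ Y, Y ⊆ omg f ∧ IsSub Y ∧ Mini Y ∧ x ∈ Y := by
    intro x hx
    obtain ⟨Y, h1, h2, h3, y, hy, hxy⟩ := exists_sim hX hnp hlz hx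
    exact ⟨Y, h1, h2, h3, omg_ia hlow hnp h1 h2 hx hy hxy⟩
  obtain ⟨Y, hYX, hY, hmin⟩ := exists_mini hX
  suffices h : omg f ⊆ Y by
    intro x hx y hy N
    exact hmin x (h hx) y (h hy) N
  intro z0 hz0
  by_contra hz0Y
  obtain ⟨M0, hM0⟩ : ∃ M0 : ℕ, ∀ y' ∈ Y, ¬ agr y' z0 M0 := by
    by_contra hc
    push Not at hc
    exact hz0Y (hY.cl z0 hc)
  obtain ⟨y0, hy0⟩ := hY.ne
  -- first bad window after a long good stretch
  have hstep : ∀ L : ℕ, ∃ t : ℕ, L ≤ t ∧ (∀ y ∈ Y, ¬ agr (fz f t) y M0) ∧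
      ∀ j : ℕ, 1 ≤ j → j ≤ L → ∃ y ∈ Y, agr (fz f (t - j)) y M0 := by
    intro L
    obtain ⟨m, -, hm, hma⟩ := (mem_omg.1 (hYX hy0)) (L + M0) 0
    have hgood : ∀ i : ℤ, i.natAbs ≤ L → ∃ y ∈ Y, agr (fz f ((m : ℤ) + i).toNat) y M0 := by
      intro i hi
      refine ⟨sh i y0, hY.inv y0 hy0 i, ?_⟩
      rw [← fz_shift f m _ i (by omega)]
      exact agr_shift (hma.mono (by omega)) hi
    have hex : ∃ t : ℕ, m ≤ t ∧ ∀ y ∈ Y, ¬ agr (fz f t) y M0 := by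
      obtain ⟨t, h1, h2, h3⟩ := (mem_omg.1 hz0) M0 m
      refine ⟨t, h1, fun y hy h => hM0 y hy (h.symm.trans h3)⟩
    have ht := Nat.find_spec hex
    have htmin : ∀ t', t' < Nat.find hex → ¬ (m ≤ t' ∧ ∀ y ∈ Y, ¬ agr (fz f t') y M0) :=
      fun t' h => Nat.find_min hex h
    set t := Nat.find hex with htdef
    have htm : m + L < t := by
      by_contra hc
      push Not at hc
      obtain ⟨y, hy, hya⟩ := hgood ((t : ℤ) - m) (by omega)
      have : ((m : ℤ) + ((t : ℤ) - m)).toNat = t := by omega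
      rw [this] at hya
      exact ht.2 y hy hya
    refine ⟨t, by omega, ht.2, ?_⟩
    intro j hj1 hj2
    have := htmin (t - j) (by omega)
    push Not at this
    exact this (by omega)
  choose t ht1 ht2 ht3 using hstep
  obtain ⟨z, hz⟩ := exists_cluster (fun L => fz f (t L))
  have hzX : z ∈ omg f := omg_of_cluster t ht1 hz
  obtain ⟨Z, -, hZ, hZmin, hzZ⟩ := hall z hzX
  obtain ⟨n, hn, hna⟩ := mini_left hZ hZmin hzZ hzZ M0 0
  obtain ⟨l, hl1, hl2⟩ := hz (M0 + n.natAbs) (n.natAbs)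
  obtain ⟨y, hy, hya⟩ := ht3 l n.natAbs (by omega) hl1
  have e1 : fz f (t l - n.natAbs) = sh n (fz f (t l)) := by
    have := ht1 l
    rw [fz_shift f (t l) (t l - n.natAbs) n (by omega)]
  rw [e1] at hya
  have h1 : agr (sh n (fz f (t l))) (sh n z) M0 := agr_shift hl2 le_rfl
  have h2 : agr z y M0 := hna.symm.trans (h1.symm.trans hya)
  exact ht2 l y hy ((hl2.mono (by omega)).trans h2)

end PatSturm
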