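import Pool.Agent.LibPS.Events

/-! # One event; two events with unbounded levels -/

namespace PatSturm

section
variable {X : Set Pt}

theorem hp_subset {w : Pt} (hX : IsSub X) (h : ∀ v, fil w v ∈ X) (K : Finset ℤ) :
    hp w K ⊆ ztrs X K := by
  classical
  intro s hs
  unfold hp at hs
  rw [Finset.mem_filter] at hs
  obtain ⟨-, v, n, hv⟩ := hs
  exact mem_ztrs.2 ⟨_, hX.inv _ (h v) n, hv⟩

/-- The one-event case. -/
theorem one_event (hX : IsSub X) (hnp : NP X) (hlow : LowZ X) (hmin : Mini X) {a a' : Pt}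
    (ha : Lnk0 X a a') (huniq : ∀ x y, Lnk0 X x y → x = a ∧ y = a') :
    (∀ v, fil a v ∈ X) ∧ HLow a ∧ HNP a ∧ Levels a {q | Lev a q} := by
  classical
  have haX := ha.lnk.mx
  have ha'X := ha.lnk.my
  have hoff : ∀ i, i ≠ 0 → a i = a' i := by
    intro s hs
    by_contra hne
    have hl := ha.lnk.shift hX s
    have h0 : sh s a 0 ≠ sh s a' 0 := by simpa [sh] using hne
    rcases lnk0_of hl h0 with h | h
    · obtain ⟨h3, -⟩ := huniq _ _ h
      exact not_sim_shift hX hnp haX hs (by rw [h3]; exact Sim.refl a)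
    · obtain ⟨h3, -⟩ := huniq _ _ h
      apply not_sim_shift hX hnp haX hs
      refine Sim.trans ?_ (ha.lnk.sim.symm.shift s)
      rw [h3]; exact Sim.refl a
  have hft : fil a true = a := by
    unfold fil; rw [← ha.px]; exact Function.update_eq_self 0 a
  have hff : fil a false = a' := by
    funext i
    unfold fil
    by_cases hi : i = 0
    · subst hi; rw [Function.update_self, ha.py]
    · rw [Function.update_of_ne hi]; exact hoff i hi
  have hfil : ∀ v, fil a v ∈ X := by
    intro v; cases v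
    · rw [hff]; exact ha'X
    · rw [hft]; exact haX
  refine ⟨hfil, ?_, ?_, ?_⟩
  · intro K hK
    exact (Finset.card_le_card (hp_subset hX hfil K)).trans (hlow K hK)
  · intro v n hn
    exact hnp _ (hfil v) n hn
  · have hup : ∀ q, Lev a q → ∃ q', Lev a q' ∧ q < q' := by
      intro q hq
      obtain ⟨r, hr⟩ := exists_res hX hmin haX hq
      exact level_up hX hnp hlow hmin ha hq hr (fun x y h _ => huniq x y h)
    refine ⟨fun q hq => hq.1, ?_, ?_⟩
    · intro N
      induction N with
      | zero => exact ⟨1, Lev.one a, by omega⟩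
      | succ N ih =>
        obtain ⟨q, hq, hN⟩ := ih
        obtain ⟨q', hq', hlt⟩ := hup q hq
        exact ⟨q', hq', by omega⟩
    · intro q hq
      obtain ⟨r, hr⟩ := exists_res hX hmin haX hq
      set g : Pt → Bool := fun x => !(decide (r x = 0)) && x 0 with hg
      have hgloc : Loc X g := ((hr.loc_eq 0).map not).and (Loc.coord X 0)
      have hra' : r a' = r a := (hr.sim hX haX ha'X ha.lnk.sim).symm
      have hgsat : Sat X g := by
        intro x hx y hy hs
        apply lnk_sat hX hnp hlow g _ hx hy hs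
        intro x y hl
        have hrxy : r x = r y := hr.sim hX hl.mx hl.my hl.sim
        by_cases h0 : x 0 = y 0
        · simp only [hg, hrxy, h0]
        · have hr0 : r x = 0 := by
            rcases lnk0_of hl h0 with h | h
            · rw [(huniq _ _ h).1, hr.base]
            · rw [(huniq _ _ h).2, hra', hr.base]
          simp only [hg, ← hrxy, hr0, decide_true, Bool.not_true, Bool.false_and]
      obtain ⟨e, he, hper⟩ := sat_lev hX hnp hlow hmin haX hgloc hgsat
      refine ⟨Nat.lcm q e, hq.lcm he, Nat.dvd_lcm_left _ _, ?_⟩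
      intro n hn j
      have h1 := per_mul hX hper (n := (Nat.lcm q e : ℤ) * j)
        ((Int.natCast_dvd_natCast.2 (Nat.dvd_lcm_right q e)).trans (dvd_mul_right _ _)) _
        (hX.inv a haX n)
      have hrn : r (sh n a) ≠ 0 := by
        rw [hr.eqv a haX, hr.base, zero_add]
        intro h; exact hn ((ZMod.intCast_zmod_eq_zero_iff_dvd n q).1 h)
      have hrn' : r (sh ((Nat.lcm q e : ℤ) * j) (sh n a)) ≠ 0 := by
        rw [hr.eqv _ (hX.inv a haX n)]
        have : (((Nat.lcm q e : ℤ) * j : ℤ) : ZMod q) = 0 :=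
          (ZMod.intCast_zmod_eq_zero_iff_dvd _ q).2
            ((Int.natCast_dvd_natCast.2 (Nat.dvd_lcm_left q e)).trans (dvd_mul_right _ _))
        rw [this, add_zero]; exact hrn
      simp only [hg, hrn, hrn', decide_false, Bool.not_false, Bool.true_and, sh_apply, zero_add] at h1
      rw [← h1]; congr 1; ring

/-- Two events: equal values far from the events. -/
theorem two_event_coord (hX : IsSub X) (hnp : NP X) (hlow : LowZ X) (hmin : Mini X) {a a' b b' : Pt}
    (ha : Lnk0 X a a') (hb : Lnk0 X b b') (hab : ¬ Sim a b) {q : ℕ} (hq : Lev a q)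
    {r : Pt → ZMod q} (hr : ResF X a q r) (c : ℤ) (h1 : (c : ZMod q) ≠ 0) (h2 : (c : ZMod q) ≠ r b)
    (h3 : (c : ZMod q) ≠ - r b) : a c = b c := by
  classical
  by_contra hne
  have haX := ha.lnk.mx
  have hbX := hb.lnk.mx
  have hcase : ∀ x y, Lnk0 X x y → (x = a ∧ y = a') ∨ (x = b ∧ y = b') := by
    intro x y h
    rcases lnk0_three hX hnp hlow h ha hb with h | h | h
    · left; exact h
    · right; exact h
    · exact absurd (by rw [h.1]; exact Sim.refl b) hab
  -- saturated functions in the classes `c` and `r b + c`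
  have hgs : ∀ κ : ZMod q, κ ≠ 0 → κ ≠ r b → Sat X (fun x => decide (r x = κ) && x 0) := by
    intro κ hκ1 hκ2 x hx y hy hs
    apply lnk_sat hX hnp hlow _ _ hx hy hs
    intro x y hl
    have hrxy : r x = r y := hr.sim hX hl.mx hl.my hl.sim
    by_cases h0 : x 0 = y 0
    · simp only [hrxy, h0]
    · have hr0 : r x ≠ κ := by
        rcases lnk0_of hl h0 with h | h
        · rcases hcase _ _ h with h | h
          · rw [h.1, hr.base]; exact hκ1.symm
          · rw [h.1]; exact hκ2.symm
        · rcases hcase _ _ h with h | h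
          · rw [hrxy, h.1, hr.base]; exact hκ1.symm
          · rw [hrxy, h.1]; exact hκ2.symm
      have hr0' : r y ≠ κ := by rw [← hrxy]; exact hr0
      simp only [hr0, hr0', decide_false, Bool.false_and]
  have hloc : ∀ κ : ZMod q, Loc X (fun x => decide (r x = κ) && x 0) :=
    fun κ => (hr.loc_eq κ).and (Loc.coord X 0)
  obtain ⟨e₁, he₁, hp₁⟩ := sat_lev hX hnp hlow hmin haX (hloc c) (hgs c h1 h2)
  obtain ⟨e₂, he₂, hp₂⟩ := sat_lev hX hnp hlow hmin haX (hloc (r b + c)) (hgs (r b + c) (by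
    intro h; exact h3 (by rw [eq_neg_iff_add_eq_zero, add_comm]; exact h)) (by
    intro h; exact h1 (by simpa using h)))
  set Q := Nat.lcm q (Nat.lcm e₁ e₂) with hQ
  have hLQ : Lev a Q := hq.lcm (he₁.lcm he₂)
  obtain ⟨R, hR⟩ := exists_res hX hmin haX hLQ
  have hqQ : q ∣ Q := Nat.dvd_lcm_left _ _
  have he1Q : e₁ ∣ Q := (Nat.dvd_lcm_left _ _).trans (Nat.dvd_lcm_right _ _)
  have he2Q : e₂ ∣ Q := (Nat.dvd_lcm_right _ _).trans (Nat.dvd_lcm_right _ _)
  have hP₁ : ∀ x ∈ X, (fun x : Pt => decide (r x = (c : ZMod q)) && x 0) (sh Q x) =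
      (fun x : Pt => decide (r x = (c : ZMod q)) && x 0) x :=
    per_mul hX (g := fun x : Pt => decide (r x = (c : ZMod q)) && x 0) hp₁
      (Int.natCast_dvd_natCast.2 he1Q)
  have hP₂ : ∀ x ∈ X, (fun x : Pt => decide (r x = r b + (c : ZMod q)) && x 0) (sh Q x) =
      (fun x : Pt => decide (r x = r b + (c : ZMod q)) && x 0) x :=
    per_mul hX (g := fun x : Pt => decide (r x = r b + (c : ZMod q)) && x 0) hp₂
      (Int.natCast_dvd_natCast.2 he2Q)
  have hva : ∀ x ∈ X, R x = R a → x c = a c := by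
    intro x hx hRx
    have hrx : r x = 0 := by rw [hR.mono hmin hr hX hqQ hx haX hRx, hr.base]
    have := hR.det hmin hX (hloc c) hP₁ (hX.inv x hx c) (hX.inv a haX c)
      (by rw [hR.eqv x hx, hR.eqv a haX, hRx])
    simpa only [hr.eqv x hx, hr.eqv a haX, hrx, hr.base, zero_add, decide_true, Bool.true_and,
      sh_apply] using this
  have hvb : ∀ x ∈ X, R x = R b → x c = b c := by
    intro x hx hRx
    have hrx : r x = r b := hR.mono hmin hr hX hqQ hx hbX hRx
    have := hR.det hmin hX (hloc (r b + c)) hP₂ (hX.inv x hx c) (hX.inv b hbX c)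
      (by rw [hR.eqv x hx, hR.eqv b hbX, hRx])
    simpa only [hr.eqv x hx, hr.eqv b hbX, hrx, zero_add, decide_true, Bool.true_and,
      sh_apply] using this
  have hRb : R b ≠ R a := fun h => hne (hva b hbX h).symm
  have hua : ∀ x y, Lnk0 X x y → R x = R a → x = a ∧ y = a' := by
    intro x y h hRx
    rcases hcase x y h with h' | h'
    · exact h'
    · rw [h'.1] at hRx; exact absurd hRx hRb
  have hub : ∀ x y, Lnk0 X x y → R x = R b → x = b ∧ y = b' := by
    intro x y h hRx
    rcases hcase x y h with h' | h'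
    · rw [h'.1] at hRx; exact absurd hRx.symm hRb
    · exact h'
  obtain ⟨hrec, hnps⟩ := level_seq hX hnp hmin hLQ.1 hR ha hua
  obtain ⟨hrec', hnps'⟩ := level_seq hX hnp hmin hLQ.1 hR hb hub
  obtain ⟨m, hm, hfull⟩ := full_pair_seq _ hrec hnps
  have hchg := fun v => seq_change _ hrec' hnps' m hm v
  obtain ⟨ε, hε⟩ : ∃ ε : Bool, ∃ n : ℤ, b (Q * n) = ε ∧ b (Q * (n + m)) = ε := by
    by_contra hc
    push Not at hc
    obtain ⟨n, hn⟩ := hnps' (2 * m) (by omega)
    apply hn
    have e1 := hc (b (Q * n)) n rfl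
    have e2 := hc (b (Q * (n + m))) (n + m) rfl
    have e3 : ((2 * m : ℕ) : ℤ) = m + m := by push_cast; ring
    simp only [e3]
    rw [← add_assoc]
    exact bne3 e2.symm e1
  set t : ℤ := Q * m with ht
  have hQ1 : (1 : ℤ) ≤ Q := by exact_mod_cast hLQ.1
  have ht0 : t ≠ 0 := by
    have : (0 : ℤ) < Q * m := by positivity
    omega
  have hc0 : c ≠ 0 := by rintro rfl; simp at h1
  have hct : c ≠ t := by
    intro h
    apply h1
    rw [h, ht]
    apply (ZMod.intCast_zmod_eq_zero_iff_dvd _ q).2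
    exact (Int.natCast_dvd_natCast.2 hqQ).trans (dvd_mul_right _ _)
  have hRt : ∀ x ∈ X, ∀ n : ℤ, R (sh (Q * n) x) = R x := by
    intro x hx n
    rw [hR.eqv x hx]; push_cast; simp
  -- counting
  set K : Finset ℤ := {0, t, c} with hK
  have hKc : K.card = 3 := by
    rw [hK, Finset.card_eq_three]
    exact ⟨0, t, c, ht0.symm, hc0.symm, hct.symm, rfl⟩
  let τ : Finset ℤ → Bool × Bool × Bool := fun s => (decide (0 ∈ s), decide (t ∈ s), decide (c ∈ s))
  have hτ : ∀ x : Pt, τ (ztr x K) = (x 0, x t, x c) := by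
    intro x
    have : ∀ k ∈ K, decide (k ∈ ztr x K) = x k := by
      intro k hk
      have h1 : (k ∈ ztr x K) ↔ x k = true := by
        unfold ztr
        rw [Finset.mem_filter]
        exact ⟨fun h => h.2, fun h => ⟨hk, h⟩⟩
      cases h : x k
      · rw [h] at h1
        exact decide_eq_false (fun h2 => by simpa using h1.1 h2)
      · exact decide_eq_true (h1.2 h)
    simp only [τ]
    rw [this 0 (by simp [hK]), this t (by simp [hK]), this c (by simp [hK])]
  have hmem : ∀ x ∈ X, (x 0, x t, x c) ∈ (ztrs X K).image τ := by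
    intro x hx
    rw [Finset.mem_image]
    exact ⟨ztr x K, mem_ztrs.2 ⟨x, hx, rfl⟩, hτ x⟩
  have hA : ∀ α β : Bool, (α, β, a c) ∈ (ztrs X K).image τ := by
    intro α β
    obtain ⟨n, hn1, hn2⟩ := hfull α β
    have hx := hX.inv a haX (Q * n)
    have := hmem _ hx
    have e1 : sh (Q * n : ℤ) a 0 = α := by simpa using hn1
    have e2 : sh (Q * n : ℤ) a t = β := by
      simp only [sh_apply]; rw [← hn2]; congr 1; rw [ht]; ring
    have e3 : sh (Q * n : ℤ) a c = a c := hva _ hx (hRt a haX n)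
    rwa [e1, e2, e3] at this
  have hB : ∀ n : ℤ, ∀ α β : Bool, b (Q * n) = α → b (Q * (n + m)) = β →
      (α, β, b c) ∈ (ztrs X K).image τ := by
    intro n α β hn1 hn2
    have hx := hX.inv b hbX (Q * n)
    have := hmem _ hx
    have e1 : sh (Q * n : ℤ) b 0 = α := by simpa using hn1
    have e2 : sh (Q * n : ℤ) b t = β := by
      simp only [sh_apply]; rw [← hn2]; congr 1; rw [ht]; ring
    have e3 : sh (Q * n : ℤ) b c = b c := hvb _ hx (hRt b hbX n)
    rwa [e1, e2, e3] at this
  have hsub : (Finset.univ.filter (fun p : Bool × Bool × Bool => p.2.2 = a c)) ∪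
      {(true, false, b c), (false, true, b c), (ε, ε, b c)} ⊆ (ztrs X K).image τ := by
    intro p hp
    rw [Finset.mem_union, Finset.mem_filter] at hp
    rcases hp with hp | hp
    · obtain ⟨α, β, γ⟩ := p
      simp only [Finset.mem_univ, true_and] at hp
      rw [hp]; exact hA α β
    · simp only [Finset.mem_insert, Finset.mem_singleton] at hp
      rcases hp with rfl | rfl | rfl
      · obtain ⟨n, hn1, hn2⟩ := hchg true
        exact hB n _ _ hn1 (by simpa using hn2)
      · obtain ⟨n, hn1, hn2⟩ := hchg false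
        exact hB n _ _ hn1 (by simpa using hn2)
      · obtain ⟨n, hn1, hn2⟩ := hε
        exact hB n _ _ hn1 hn2
  have hcard7 : ((Finset.univ.filter (fun p : Bool × Bool × Bool => p.2.2 = a c)) ∪
      {(true, false, b c), (false, true, b c), (ε, ε, b c)}).card = 7 := by
    have hbc : b c = !(a c) := by
      have : ∀ u v : Bool, ¬ u = v → v = !u := by decide
      exact this _ _ hne
    rw [hbc]
    cases a c <;> cases ε <;> decide
  have h7 := (Finset.card_le_card hsub).trans Finset.card_image_le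
  rw [hcard7] at h7
  have := hlow K ⟨0, by simp [hK]⟩
  omega

/-- Two events and unbounded levels are impossible. -/
theorem two_event_unb (hX : IsSub X) (hnp : NP X) (hlow : LowZ X) (hmin : Mini X) {a a' b b' : Pt}
    (ha : Lnk0 X a a') (hb : Lnk0 X b b') (hab : ¬ Sim a b)
    (hunb : ∀ N : ℕ, ∃ q, Lev a q ∧ N < q) : False := by
  classical
  have haX := ha.lnk.mx
  have hbX := hb.lnk.mx
  apply hab
  -- the exceptional coordinates
  let B₂ : Set ℤ := {c | ∀ q, Lev a q → ∀ r : Pt → ZMod q, ResF X a q r → (c : ZMod q) = r b}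
  let B₃ : Set ℤ := {c | ∀ q, Lev a q → ∀ r : Pt → ZMod q, ResF X a q r → (c : ZMod q) = - r b}
  have hsub : ∀ B : Set ℤ, (∀ c ∈ B, ∀ c' ∈ B, ∀ q, Lev a q → ∀ r : Pt → ZMod q, ResF X a q r →
      (c : ZMod q) = (c' : ZMod q)) → B.Finite := by
    intro B hB
    apply Set.Subsingleton.finite
    intro c hc c' hc'
    by_contra hne
    obtain ⟨q, hq, hlt⟩ := hunb (c - c').natAbs
    obtain ⟨r, hr⟩ := exists_res hX hmin haX hq
    have h1 := hB c hc c' hc' q hq r hr
    have h2 : (q : ℤ) ∣ c - c' := by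
      apply (ZMod.intCast_zmod_eq_zero_iff_dvd _ q).1
      push_cast; rw [h1]; ring
    have h3 := Int.natAbs_dvd_natAbs.2 h2
    have h4 := Nat.le_of_dvd (by omega) h3
    simp only [Int.natAbs_natCast] at h4
    omega
  have hfin : (({0} : Set ℤ) ∪ B₂ ∪ B₃).Finite := by
    refine ((Set.finite_singleton 0).union (hsub B₂ ?_)).union (hsub B₃ ?_)
    · intro c hc c' hc' q hq r hr
      rw [hc q hq r hr, hc' q hq r hr]
    · intro c hc c' hc' q hq r hr
      rw [hc q hq r hr, hc' q hq r hr]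
  refine hfin.subset ?_
  intro c hc
  by_contra hcn
  simp only [Set.mem_union, Set.mem_singleton_iff, not_or] at hcn
  obtain ⟨⟨hc0, hc2⟩, hc3⟩ := hcn
  simp only [B₂, B₃, Set.mem_ofPred_eq] at hc2 hc3
  push Not at hc2 hc3
  obtain ⟨q₁, hq₁, hlt⟩ := hunb c.natAbs
  obtain ⟨q₂, hq₂, r₂, hr₂, hne₂⟩ := hc2
  obtain ⟨q₃, hq₃, r₃, hr₃, hne₃⟩ := hc3
  set q := Nat.lcm q₁ (Nat.lcm q₂ q₃) with hq
  have hLq : Lev a q := hq₁.lcm (hq₂.lcm hq₃)
  obtain ⟨r, hr⟩ := exists_res hX hmin haX hLq
  have d1 : q₁ ∣ q := Nat.dvd_lcm_left _ _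
  have d2 : q₂ ∣ q := (Nat.dvd_lcm_left _ _).trans (Nat.dvd_lcm_right _ _)
  have d3 : q₃ ∣ q := (Nat.dvd_lcm_right _ _).trans (Nat.dvd_lcm_right _ _)
  apply hc
  apply two_event_coord hX hnp hlow hmin ha hb hab hLq hr c
  · intro h
    have h1 := (ZMod.intCast_zmod_eq_zero_iff_dvd _ q).1 h
    have h2 := (Int.natCast_dvd_natCast.2 d1).trans h1
    have h3 := Int.natAbs_dvd_natAbs.2 h2
    have h4 := Nat.le_of_dvd (by omega) h3
    simp only [Int.natAbs_natCast] at h4
    omega
  · intro h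
    apply hne₂
    have h1 : r (sh c a) = r b := by rw [hr.eqv a haX, hr.base, zero_add, h]
    have h2 := hr.mono hmin hr₂ hX d2 (hX.inv a haX c) hbX h1
    rwa [hr₂.eqv a haX, hr₂.base, zero_add] at h2
  · intro h
    apply hne₃
    have h1 : r (sh c b) = r a := by rw [hr.eqv b hbX, hr.base, h]; ring
    have h2 := hr.mono hmin hr₃ hX d3 (hX.inv b hbX c) haX h1
    rw [hr₃.eqv b hbX, hr₃.base] at h2
    exact (neg_eq_of_add_eq_zero_right h2).symm

end

end PatSturm
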