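import Pool.Agent.LibPS.Split

/-! # Asymptotic pairs -/

namespace PatSturm

/-- Finitely many differences. -/
def Sim (x y : Pt) : Prop := {i | x i ≠ y i}.Finite

theorem Sim.refl (x : Pt) : Sim x x := by simp [Sim]

theorem Sim.symm {x y : Pt} (h : Sim x y) : Sim y x := by
  unfold Sim at *
  convert h using 2
  funext i
  simp [ne_comm]

theorem Sim.trans {x y z : Pt} (h : Sim x y) (h' : Sim y z) : Sim x z := by
  unfold Sim at *
  refine (h.union h').subset ?_
  intro i hi
  by_contra hc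
  simp only [Set.mem_union, Set.mem_ofPred_eq, not_or, not_not] at hc hi
  exact hi (hc.1.trans hc.2)

theorem Sim.shift {x y : Pt} (h : Sim x y) (n : ℤ) : Sim (sh n x) (sh n y) := by
  unfold Sim at *
  have : {i | sh n x i ≠ sh n y i} = (fun i => i + n) ⁻¹' {i | x i ≠ y i} := rfl
  rw [this]
  exact h.preimage (fun a _ b _ h => by simpa using h)

theorem Sim.of_shift {x y : Pt} {n : ℤ} (h : Sim (sh n x) (sh n y)) : Sim x y := by
  have := h.shift (-n)
  simpa [sh_sh] using this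

/-- Two asymptotic points agree on all far windows. -/
theorem Sim.far {x y : Pt} (h : Sim x y) (L : ℕ) : ∃ N : ℕ, ∀ n : ℤ, N ≤ n.natAbs →
    agr (sh n x) (sh n y) L := by
  have h' : {i | x i ≠ y i}.Finite := h
  obtain ⟨B, hB⟩ := bdd_of_finset h'.toFinset
  refine ⟨B + L + 1, fun n hn i hi => ?_⟩
  by_contra hc
  have : i + n ∈ h'.toFinset := by
    rw [Set.Finite.mem_toFinset]
    exact hc
  have := hB _ this
  omega

theorem agr_shift {x y : Pt} {M : ℕ} {n : ℤ} {L : ℕ} (h : agr x y (M + L)) (hn : n.natAbs ≤ L) :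
    agr (sh n x) (sh n y) M := fun i hi => h _ (by omega)

/-! ## Separation -/

theorem NP.sep {X : Set Pt} (hX : IsSub X) (hnp : NP X) (δ : ℤ) (hδ : δ ≠ 0) :
    ∃ L : ℕ, ∀ x ∈ X, ∃ i : ℤ, i.natAbs ≤ L ∧ x (i + δ) ≠ x i := by
  by_contra hc
  push Not at hc
  choose s hs h using hc
  obtain ⟨φ, x, h1, h2⟩ := exists_subseq s
  have hx : x ∈ X := hX.mem_of_agr (fun k => s (φ k)) (fun k => hs _) h2
  obtain ⟨i, hi⟩ := hnp x hx δ hδ
  apply hi
  set k := i.natAbs + δ.natAbs with hk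
  rw [← h2 k (i + δ) (by omega), ← h2 k i (by omega)]
  exact h (φ k) i (by have := h1 k; omega)

/-- Key lemma: if `x, y` are limits of pairs agreeing on far windows, they differ in at most two
places. -/
theorem rp {X : Set Pt} (hX : IsSub X) (hnp : NP X) (hlow : LowZ X) {x y : Pt}
    (h : ∀ L : ℕ, ∃ x' ∈ X, ∃ y' ∈ X, agr x' x L ∧ agr y' y L ∧ ∃ n : ℤ, agr (sh n x') (sh n y') L) :
    ∃ D : Finset ℤ, D.card ≤ 2 ∧ ∀ i, x i ≠ y i ↔ i ∈ D := by
  classical
  by_contra hc
  push Not at hc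
  have h0 : ∃ a, x a ≠ y a := by
    obtain ⟨i, hi⟩ := hc ∅ (by simp)
    simp only [Finset.notMem_empty, not_false_eq_true, and_true, and_false, or_false] at hi
    exact ⟨i, hi⟩
  obtain ⟨a, ha⟩ := h0
  have h1 : ∃ b, b ≠ a ∧ x b ≠ y b := by
    obtain ⟨i, hi⟩ := hc {a} (by simp)
    rcases hi with ⟨h1, h2⟩ | ⟨h1, h2⟩
    · exact ⟨i, by simpa using h2, h1⟩
    · rw [Finset.mem_singleton] at h2; subst h2; exact absurd h1 ha
  obtain ⟨b, hba, hb⟩ := h1
  have h2 : ∃ c, c ≠ a ∧ c ≠ b ∧ x c ≠ y c := by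
    obtain ⟨i, hi⟩ := hc {a, b} (Finset.card_le_two)
    rcases hi with ⟨h1, h2⟩ | ⟨h1, h2⟩
    · simp only [Finset.mem_insert, Finset.mem_singleton, not_or] at h2
      exact ⟨i, h2.1, h2.2, h1⟩
    · simp only [Finset.mem_insert, Finset.mem_singleton] at h2
      rcases h2 with rfl | rfl
      · exact absurd h1 ha
      · exact absurd h1 hb
  obtain ⟨c, hca, hcb, hcc⟩ := h2
  obtain ⟨L1, hL1⟩ := hnp.sep hX (a - b) (by omega)
  obtain ⟨L2, hL2⟩ := hnp.sep hX (a - c) (by omega)
  obtain ⟨L3, hL3⟩ := hnp.sep hX (b - c) (by omega)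
  set L0 := L1 + L2 + L3 with hL0
  set R := a.natAbs + b.natAbs + c.natAbs with hR
  apply no_three X (fun _ => True) (Finset.Icc (-(L0 : ℤ)) L0) ⟨0, by simp⟩ trivial
    (fun K _ hK => hlow K hK)
  intro K hK _
  obtain ⟨M, hM⟩ := bdd_of_finset K
  obtain ⟨x', hx', y', hy', hxx, hyy, n, hn⟩ := h (M + R)
  have hd : ∀ d : ℤ, x d ≠ y d → d.natAbs ≤ R → x' d ≠ y' d := by
    intro d hd hdR
    rw [hxx d (by omega), hyy d (by omega)]; exact hd
  have hnk : -n ∉ K := by
    intro hmem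
    have h3 := hM _ hmem
    have h4 := hn (a - n) (by omega)
    simp only [sh_apply, sub_add_cancel] at h4
    exact hd a ha (by omega) h4
  have hspl : ∀ d : ℤ, x d ≠ y d → d.natAbs ≤ R → Spl X K (-n) (ztr (sh (n + d) x') K) := by
    intro d hd1 hd2
    refine ⟨sh (n + d) x', hX.inv x' hx' _, sh (n + d) y', hX.inv y' hy' _, rfl, ?_, ?_⟩
    · rw [ztr_eq_iff]
      intro k hk
      have h5 := hM k hk
      have h6 := hn (k + d) (by omega)
      simp only [sh_apply] at h6 ⊢
      rw [show k + (n + d) = k + d + n by ring]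
      exact h6.symm
    · simp only [sh_apply]
      rw [show -n + (n + d) = d by ring]
      exact hd d hd1 hd2
  have hdist : ∀ d e : ℤ, ∀ L : ℕ, L ≤ L0 → (∀ x ∈ X, ∃ i : ℤ, i.natAbs ≤ L ∧ x (i + (d - e)) ≠ x i) →
      ztr (sh (n + d) x') K ≠ ztr (sh (n + e) x') K := by
    intro d e L hL hs he
    rw [ztr_eq_iff] at he
    obtain ⟨i, hi, hne⟩ := hs _ (hX.inv x' hx' (n + e))
    have := he i (hK (by simp only [Finset.mem_Icc]; omega))
    simp only [sh_apply] at this hne
    apply hne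
    rw [← this]; congr 1; ring
  exact ⟨-n, hnk, trivial, _, _, _, hdist a b L1 (by omega) hL1, hdist a c L2 (by omega) hL2,
    hdist b c L3 (by omega) hL3, hspl a ha (by omega), hspl b hb (by omega),
    hspl c hcc (by omega)⟩

/-- Asymptotic points of `X` differ in at most two places. -/
theorem Sim.card {X : Set Pt} (hX : IsSub X) (hnp : NP X) (hlow : LowZ X) {x y : Pt}
    (hx : x ∈ X) (hy : y ∈ X) (h : Sim x y) :
    ∃ D : Finset ℤ, D.card ≤ 2 ∧ ∀ i, x i ≠ y i ↔ i ∈ D := by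
  apply rp hX hnp hlow
  intro L
  obtain ⟨N, hN⟩ := h.far L
  exact ⟨x, hx, y, hy, agr_refl _ _, agr_refl _ _, N, hN N (by simp)⟩

/-- Non-asymptotic points are separated by windows of bounded size everywhere. -/
theorem not_sim_sep {X : Set Pt} (hX : IsSub X) (hnp : NP X) (hlow : LowZ X) {x y : Pt}
    (hx : x ∈ X) (hy : y ∈ X) (h : ¬ Sim x y) : ∃ L : ℕ, ∀ n : ℤ, ¬ agr (sh n x) (sh n y) L := by
  by_contra hc
  push Not at hc
  apply h
  obtain ⟨D, -, hD⟩ := rp hX hnp hlow (x := x) (y := y) (fun L => by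
    obtain ⟨n, hn⟩ := hc L
    exact ⟨x, hx, y, hy, agr_refl _ _, agr_refl _ _, n, hn⟩)
  unfold Sim
  refine D.finite_toSet.subset ?_
  intro i hi
  exact (hD i).1 hi

/-- The shift acts freely on asymptotic classes. -/
theorem not_sim_shift {X : Set Pt} (hX : IsSub X) (hnp : NP X) {x : Pt}
    (hx : x ∈ X) {n : ℤ} (hn : n ≠ 0) : ¬ Sim x (sh n x) := by
  intro h
  obtain ⟨L, hL⟩ := hnp.sep hX n hn
  obtain ⟨N, hN⟩ := h.far L
  obtain ⟨i, hi, hne⟩ := hL _ (hX.inv x hx N)
  apply hne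
  have := hN N (by simp) i hi
  simp only [sh_apply] at this ⊢
  rw [this]; congr 1; ring

/-- Existence of an asymptotic pair with different values at `0`. -/
theorem exists_asymp {X : Set Pt} (hX : IsSub X) (hnp : NP X) (hlow : LowZ X) :
    ∃ x ∈ X, ∃ y ∈ X, Sim x y ∧ x 0 ≠ y 0 := by
  have h1 : ∀ L : ℕ, ∃ x ∈ X, ∃ y ∈ X, (∀ i : ℤ, -(L : ℤ) ≤ i → i < 0 → x i = y i) ∧ x 0 ≠ y 0 := by
    by_contra hc
    push Not at hc
    obtain ⟨L, hL⟩ := hc
    obtain ⟨x, hx⟩ := hX.ne
    -- pigeonhole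
    let W : ℕ → (Fin L → Bool) := fun n j => x ((n : ℤ) - 1 - j)
    obtain ⟨n, n', hne, hW⟩ := Finite.exists_ne_map_eq_of_infinite W
    wlog hlt : n < n' generalizing n n'
    · exact this n' n hne.symm hW.symm (by omega)
    set p : ℤ := (n' : ℤ) - n with hp
    have hp0 : p ≠ 0 := by omega
    have hper : ∀ i : ℕ, ∀ j : ℤ, -(L : ℤ) ≤ j → j < i → x (n + j + p) = x (n + j) := by
      intro i
      induction i with
      | zero =>
        intro j h1 h2
        have h3 := congrFun hW ⟨(-1 - j).toNat, by omega⟩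
        simp only [W] at h3
        have e1 : ((n : ℤ) - 1 - ((-1 - j).toNat : ℤ)) = n + j := by omega
        have e2 : ((n' : ℤ) - 1 - ((-1 - j).toNat : ℤ)) = n + j + p := by omega
        rw [e1, e2] at h3
        exact h3.symm
      | succ i ih =>
        intro j h1 h2
        rcases lt_or_ge j i with h3 | h3
        · exact ih j h1 h3
        · have hji : j = i := by omega
          subst hji
          have := hL (sh (n + i + p) x) (hX.inv _ hx _) (sh (n + i) x) (hX.inv _ hx _) (by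
            intro k hk1 hk2
            simp only [sh_apply]
            have := ih (i + k) (by omega) (by omega)
            rw [show k + ((n : ℤ) + i + p) = n + (i + k) + p by ring,
              show k + ((n : ℤ) + i) = n + (i + k) by ring]
            exact this)
          simpa using this
    obtain ⟨L', hL'⟩ := hnp.sep hX p hp0
    obtain ⟨i, hi, hne'⟩ := hL' _ (hX.inv x hx (n + L'))
    apply hne'
    simp only [sh_apply]
    have := hper (2 * L' + 1) (i + L') (by omega) (by omega)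
    rw [show i + p + ((n : ℤ) + L') = n + (i + L') + p by ring,
      show i + ((n : ℤ) + L') = n + (i + L') by ring]
    exact this
  choose s hs t ht h2 h3 using h1
  obtain ⟨φ, x, y, hφ, hx, hy⟩ := exists_subseq₂ s t
  have hxX : x ∈ X := hX.mem_of_agr _ (fun k => hs (φ k)) hx
  have hyX : y ∈ X := hX.mem_of_agr _ (fun k => ht (φ k)) hy
  have hneg : ∀ i : ℤ, i < 0 → x i = y i := by
    intro i hi
    rw [← hx i.natAbs i le_rfl, ← hy i.natAbs i le_rfl]
    exact h2 _ i (by have := hφ i.natAbs; omega) hi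
  refine ⟨x, hxX, y, hyX, ?_, ?_⟩
  · obtain ⟨D, -, hD⟩ := rp hX hnp hlow (x := x) (y := y) (fun L =>
      ⟨x, hxX, y, hyX, agr_refl _ _, agr_refl _ _, -(L : ℤ) - 1, fun i hi => by
        simp only [sh_apply]; exact hneg _ (by omega)⟩)
    exact D.finite_toSet.subset fun i hi => (hD i).1 hi
  · rw [← hx 0 0 (by simp), ← hy 0 0 (by simp)]
    exact h3 _

end PatSturm
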