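import Pool.Agent.LibPS.Defs

/-! # Counting traces: splitting a coordinate -/

namespace PatSturm

/-- The trace `u` on `K` has both extensions at `k`. -/
def Spl (X : Set Pt) (K : Finset ℤ) (k : ℤ) (u : Finset ℤ) : Prop :=
  ∃ x ∈ X, ∃ y ∈ X, ztr x K = u ∧ ztr y K = u ∧ x k ≠ y k

theorem ztr_eq_iff {x y : Pt} {K : Finset ℤ} : ztr x K = ztr y K ↔ ∀ k ∈ K, x k = y k := by
  unfold ztr
  constructor
  · intro h k hk
    have := congrArg (fun s => k ∈ s) h
    simp only [Finset.mem_filter, hk, true_and, eq_iff_iff] at this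
    cases hx : x k <;> cases hy : y k <;> simp_all
  · intro h
    exact Finset.filter_congr fun k hk => by rw [h k hk]

theorem ztr_insert_true {x : Pt} {K : Finset ℤ} {k : ℤ} (h : x k = true) :
    ztr x (insert k K) = insert k (ztr x K) := by
  unfold ztr; rw [Finset.filter_insert, if_pos h]

theorem ztr_insert_false {x : Pt} {K : Finset ℤ} {k : ℤ} (h : x k = false) :
    ztr x (insert k K) = ztr x K := by
  unfold ztr; rw [Finset.filter_insert, if_neg (by simp [h])]

theorem ztr_subset (x : Pt) (K : Finset ℤ) : ztr x K ⊆ K := Finset.filter_subset _ _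

theorem card_insert_ge (X : Set Pt) (K : Finset ℤ) (k : ℤ) (hk : k ∉ K)
    (U : Finset (Finset ℤ)) (hU : ∀ u ∈ U, Spl X K k u) :
    (ztrs X K).card + U.card ≤ (ztrs X (insert k K)).card := by
  classical
  set A := ztrs X (insert k K) with hA
  set A1 := A.filter (fun s => k ∈ s) with hA1
  set A0 := A.filter (fun s => k ∉ s) with hA0
  have hcard : A.card = A1.card + A0.card := by
    rw [hA1, hA0]; exact (Finset.card_filter_add_card_filter_not _).symm
  set B1 := A1.image (fun s => s.erase k) with hB1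
  have hB1card : B1.card = A1.card := by
    apply Finset.card_image_of_injOn
    intro s hs t ht hst
    simp only [hA1, Finset.coe_filter, Set.mem_ofPred_eq] at hs ht
    have := congrArg (insert k) hst
    simpa [Finset.insert_erase hs.2, Finset.insert_erase ht.2] using this
  have hsub : ztrs X K ⊆ B1 ∪ A0 := by
    intro s hs
    obtain ⟨x, hx, rfl⟩ := mem_ztrs.1 hs
    have hkn : k ∉ ztr x K := fun h => hk (ztr_subset x K h)
    cases hxk : x k
    · apply Finset.mem_union_right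
      simp only [hA0, Finset.mem_filter]
      exact ⟨mem_ztrs.2 ⟨x, hx, ztr_insert_false hxk⟩, hkn⟩
    · apply Finset.mem_union_left
      simp only [hB1, hA1, Finset.mem_image, Finset.mem_filter]
      refine ⟨insert k (ztr x K), ⟨mem_ztrs.2 ⟨x, hx, ztr_insert_true hxk⟩,
        Finset.mem_insert_self _ _⟩, Finset.erase_insert hkn⟩
  have hUsub : U ⊆ B1 ∩ A0 := by
    intro u hu
    obtain ⟨x, hx, y, hy, hxu, hyu, hne⟩ := hU u hu
    have key : ∀ x ∈ X, ∀ y ∈ X, ztr x K = u → ztr y K = u → x k = true → y k = false →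
        u ∈ B1 ∩ A0 := by
      intro x hx y hy hxu hyu hxk hyk
      have hkn : k ∉ u := fun h => hk (ztr_subset x K (hxu ▸ h))
      apply Finset.mem_inter.2
      constructor
      · simp only [hB1, hA1, Finset.mem_image, Finset.mem_filter]
        refine ⟨insert k u, ⟨mem_ztrs.2 ⟨x, hx, ?_⟩, Finset.mem_insert_self _ _⟩,
          Finset.erase_insert hkn⟩
        rw [ztr_insert_true hxk, hxu]
      · simp only [hA0, Finset.mem_filter]
        exact ⟨mem_ztrs.2 ⟨y, hy, by rw [ztr_insert_false hyk, hyu]⟩, hkn⟩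
    cases hxk : x k
    · exact key y hy x hx hyu hxu (by cases hyk : y k <;> simp_all) hxk
    · exact key x hx y hy hxu hyu hxk (by cases hyk : y k <;> simp_all)
  have h1 := Finset.card_le_card hsub
  have h2 := Finset.card_le_card hUsub
  have h3 := Finset.card_union_add_card_inter B1 A0
  omega

/-- A surplus can not be gained infinitely often. -/
theorem no_surplus (X : Set Pt) (P : Finset ℤ → Prop) (K₀ : Finset ℤ) (hK₀ : K₀.Nonempty)
    (hP : P K₀)
    (hlow : ∀ K : Finset ℤ, P K → K.Nonempty → (ztrs X K).card ≤ 2 * K.card)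
    (hstep : ∀ K : Finset ℤ, K₀ ⊆ K → P K → ∃ K', K ⊆ K' ∧ P K' ∧
      2 * K'.card + (ztrs X K).card + 1 ≤ (ztrs X K').card + 2 * K.card) : False := by
  have key : ∀ n : ℕ, ∃ K : Finset ℤ, K₀ ⊆ K ∧ P K ∧ 2 * K.card + n ≤ (ztrs X K).card + 2 * K₀.card := by
    intro n
    induction n with
    | zero => exact ⟨K₀, subset_rfl, hP, by omega⟩
    | succ n ih =>
      obtain ⟨K, h1, h2, h3⟩ := ih
      obtain ⟨K', h4, h5, h6⟩ := hstep K h1 h2
      exact ⟨K', h1.trans h4, h5, by omega⟩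
  obtain ⟨K, h1, h2, h3⟩ := key (2 * K₀.card + 1)
  have := hlow K h2 (hK₀.mono h1)
  omega

/-- Version with three splittings. -/
theorem no_three (X : Set Pt) (P : Finset ℤ → Prop) (K₀ : Finset ℤ) (hK₀ : K₀.Nonempty)
    (hP : P K₀)
    (hlow : ∀ K : Finset ℤ, P K → K.Nonempty → (ztrs X K).card ≤ 2 * K.card)
    (hstep : ∀ K : Finset ℤ, K₀ ⊆ K → P K → ∃ k, k ∉ K ∧ P (insert k K) ∧
      ∃ u v w : Finset ℤ, u ≠ v ∧ u ≠ w ∧ v ≠ w ∧ Spl X K k u ∧ Spl X K k v ∧ Spl X K k w) :
    False := by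
  classical
  apply no_surplus X P K₀ hK₀ hP hlow
  intro K h1 h2
  obtain ⟨k, hk, hPk, u, v, w, huv, huw, hvw, hu, hv, hw⟩ := hstep K h1 h2
  refine ⟨insert k K, Finset.subset_insert _ _, hPk, ?_⟩
  have := card_insert_ge X K k hk {u, v, w} (by
    intro s hs
    simp only [Finset.mem_insert, Finset.mem_singleton] at hs
    rcases hs with rfl | rfl | rfl <;> assumption)
  have hc : ({u, v, w} : Finset (Finset ℤ)).card = 3 := by
    rw [Finset.card_eq_three]; exact ⟨u, v, w, huv, huw, hvw, rfl⟩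
  rw [hc] at this
  rw [Finset.card_insert_of_notMem hk]
  omega

theorem bdd_of_finset (K : Finset ℤ) : ∃ M : ℕ, ∀ k ∈ K, k.natAbs ≤ M := by
  refine ⟨K.sup Int.natAbs, fun k hk => Finset.le_sup (f := Int.natAbs) hk⟩

/-! ## Subsequences and clusters -/

theorem exists_subseq (s : ℕ → Pt) :
    ∃ (φ : ℕ → ℕ) (x : Pt), (∀ k, k ≤ φ k) ∧ ∀ k, agr (s (φ k)) x k := by
  obtain ⟨x, hx⟩ := exists_cluster s
  choose φ h1 h2 using fun k => hx k k
  exact ⟨φ, x, h1, h2⟩

theorem exists_subseq₂ (s t : ℕ → Pt) :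
    ∃ (φ : ℕ → ℕ) (x y : Pt), (∀ k, k ≤ φ k) ∧ (∀ k, agr (s (φ k)) x k) ∧
      ∀ k, agr (t (φ k)) y k := by
  obtain ⟨φ, x, h1, h2⟩ := exists_subseq s
  obtain ⟨ψ, y, h3, h4⟩ := exists_subseq (fun k => t (φ k))
  exact ⟨fun k => φ (ψ k), x, y, fun k => (h3 k).trans (h1 _), fun k => (h2 (ψ k)).mono (h3 k), h4⟩

theorem IsSub.mem_of_agr {X : Set Pt} (hX : IsSub X) {y : Pt} (s : ℕ → Pt)
    (hs : ∀ k, s k ∈ X) (h : ∀ k, agr (s k) y k) : y ∈ X :=
  hX.cl y fun N => ⟨s N, hs N, h N⟩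

end PatSturm
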